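import Pool.Agent.DensDeg.Defs

set_option autoImplicit false

namespace Pool.Agent.DensDeg

private lemma anal_pow_sub {L Γ : Type} [Field L] [LinearOrderedCommGroupWithZero Γ]
    (v : Valuation L Γ) {a b : L} (ha : v a ≤ 1) (hb : v b ≤ 1) (hab : v (a - b) < 1) (k : ℕ) :
    v (a ^ k - b ^ k) < 1 := by
  induction k with
  | zero => simp
  | succ k ih =>
    have h1 : a ^ (k + 1) - b ^ (k + 1) = a ^ k * (a - b) + (a ^ k - b ^ k) * b := by ring
    rw [h1]
    refine v.map_add_lt ?_ ?_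
    · rw [map_mul, map_pow]
      rw [mul_comm]
      exact mul_lt_one_of_lt_of_le hab (pow_le_one' ha k)
    · rw [map_mul]
      exact mul_lt_one_of_lt_of_le ih hb

/-- Analysis of the valuations at which the image of `x` degenerates to the point `0`. -/
theorem val_anal {L : Type} [Field L] [CharZero L] {Λ : ℕ} (hΛ : 1 ≤ Λ) {n : ℕ} (x : Fin n → L)
    (V : ValuationSubring L) (hV : ∀ m : ℕ, m ≠ 0 → V.valuation (m : L) = 1) (ε : L)
    (hε : V.valuation ε < 1) (hS : SS Λ x ≠ 0)
    (hy : ∀ i, V.valuation (ff Λ (x i)) = V.valuation ε * V.valuation (SS Λ x)) :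
    (∀ i, V.valuation (x i - 2) < 1) ∨ ∃ b : L, V.valuation ε = V.valuation b ^ Λ := by
  set v := V.valuation with hv
  have hv2 : v 2 = 1 := by
    have := hV 2 (by norm_num)
    exact_mod_cast this
  have hSpos : (0 : V.ValueGroup) < v (SS Λ x) := by
    rw [zero_lt_iff]
    exact (v.ne_zero_iff).mpr hS
  have hεS : v ε * v (SS Λ x) < v (SS Λ x) := by
    calc v ε * v (SS Λ x) < 1 * v (SS Λ x) := mul_lt_mul_of_pos_right hε hSpos
      _ = v (SS Λ x) := one_mul _
  -- all coordinates are integral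
  have hx1 : ∀ i, v (x i) ≤ 1 := by
    by_contra hcon
    push Not at hcon
    obtain ⟨i₁, hi₁⟩ := hcon
    obtain ⟨i, -, hi⟩ := Finset.exists_max_image Finset.univ (fun i => v (x i)) ⟨i₁, Finset.mem_univ _⟩
    have hM : 1 < v (x i) := lt_of_lt_of_le hi₁ (hi i₁ (Finset.mem_univ _))
    have hMpos : (0 : V.ValueGroup) < v (x i) := lt_trans zero_lt_one hM
    have h1 : v (x i - 2) = v (x i) := by
      have h2 : v 2 < v (x i) := by rw [hv2]; exact hM
      exact v.map_sub_eq_of_lt_left h2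
    have h2 : v (x i - 1) = v (x i) := by
      have h3 : v 1 < v (x i) := by rw [map_one]; exact hM
      exact v.map_sub_eq_of_lt_left h3
    have h3 : v (ff Λ (x i)) = v (x i) * (v (x i) * v (x i)) ^ Λ := by
      rw [ff, gg, map_mul, map_pow, map_mul, h1, h2]
    have h4 : v (SS Λ x) ≤ (v (x i) * v (x i)) ^ Λ := by
      rw [SS]
      refine v.map_sum_le (fun j _ => ?_)
      rw [map_pow, gg, map_mul]
      have h5 : v (x j) ≤ v (x i) := hi j (Finset.mem_univ _)
      have h6 : v (x j - 1) ≤ v (x i) := by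
        refine (v.map_sub _ _).trans (max_le h5 ?_)
        rw [map_one]
        exact hM.le
      exact pow_le_pow_left' (mul_le_mul' h5 h6) Λ
    have h5 := hy i
    rw [h3] at h5
    have h6 : v (x i) * (v (x i) * v (x i)) ^ Λ < v (x i) * (v (x i) * v (x i)) ^ Λ := by
      calc v (x i) * (v (x i) * v (x i)) ^ Λ = v ε * v (SS Λ x) := h5
        _ < v (SS Λ x) := hεS
        _ ≤ (v (x i) * v (x i)) ^ Λ := h4
        _ = 1 * (v (x i) * v (x i)) ^ Λ := (one_mul _).symm
        _ ≤ v (x i) * (v (x i) * v (x i)) ^ Λ := mul_le_mul' hM.le le_rfl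
    exact lt_irrefl _ h6
  have hgg1 : ∀ i, v (gg (x i)) ≤ 1 := by
    intro i
    rw [gg, map_mul]
    refine mul_le_one' (hx1 i) ((v.map_sub _ _).trans (max_le (hx1 i) ?_))
    rw [map_one]
  have hx2 : ∀ i, v (x i - 2) ≤ 1 := fun i =>
    (v.map_sub _ _).trans (max_le (hx1 i) hv2.le)
  have hgg2 : ∀ i, v (x i - 2) < 1 → v (gg (x i) - 2) < 1 := by
    intro i hi
    have h1 : gg (x i) - 2 = (x i - 2) * (x i + 1) := by rw [gg]; ring
    rw [h1, map_mul]
    refine mul_lt_one_of_lt_of_le hi ((v.map_add _ _).trans (max_le (hx1 i) ?_))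
    rw [map_one]
  have hS1 : v (SS Λ x) ≤ 1 := by
    rw [SS]
    refine v.map_sum_le (fun j _ => ?_)
    rw [map_pow]
    exact pow_le_one' (hgg1 j) Λ
  have hggΛ : ∀ i, ¬ v (x i - 2) < 1 → v (gg (x i)) ^ Λ = v ε * v (SS Λ x) := by
    intro i hi
    have h1 : v (x i - 2) = 1 := le_antisymm (hx2 i) (not_lt.mp hi)
    rw [← hy i, ff, map_mul, map_pow, h1, one_mul]
  by_cases hall : ∀ i, v (x i - 2) < 1
  · exact Or.inl hall
  · right
    push Not at hall
    obtain ⟨i, hi⟩ := hall
    classical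
    set T : Finset (Fin n) := Finset.univ.filter (fun j => v (x j - 2) < 1) with hT
    have hTe : T.card ≠ 0 := by
      intro h0
      rw [Finset.card_eq_zero, hT, Finset.filter_eq_empty_iff] at h0
      have h1 : v (SS Λ x) ≤ v ε * v (SS Λ x) := by
        conv_lhs => rw [SS]
        refine v.map_sum_le (fun j _ => ?_)
        rw [map_pow, hggΛ j (h0 (Finset.mem_univ j))]
      exact absurd hεS (not_lt.mpr h1)
    have h2 : v (SS Λ x - (T.card : L) * 2 ^ Λ) < 1 := by
      have h3 : SS Λ x - (T.card : L) * 2 ^ Λ =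
          ∑ j, (gg (x j) ^ Λ - if v (x j - 2) < 1 then (2 : L) ^ Λ else 0) := by
        rw [Finset.sum_sub_distrib, ← Finset.sum_filter, Finset.sum_const, nsmul_eq_mul, SS]
      rw [h3]
      refine v.map_sum_lt one_ne_zero (fun j _ => ?_)
      by_cases hj : v (x j - 2) < 1
      · rw [if_pos hj]
        exact anal_pow_sub v (hgg1 j) hv2.le (hgg2 j hj) Λ
      · rw [if_neg hj, sub_zero, map_pow, hggΛ j hj]
        exact lt_of_lt_of_le hεS hS1
    have h3 : v ((T.card : L) * 2 ^ Λ) = 1 := by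
      rw [map_mul, map_pow, hv2, one_pow, mul_one]
      exact hV _ hTe
    have h4 : v (SS Λ x) = 1 := by
      have h5 : SS Λ x = (SS Λ x - (T.card : L) * 2 ^ Λ) + (T.card : L) * 2 ^ Λ := by ring
      rw [h5, v.map_add_eq_of_lt_right (by rw [h3]; exact h2), h3]
    refine ⟨gg (x i), ?_⟩
    rw [hggΛ i (not_lt.mpr hi), h4, mul_one]

end Pool.Agent.DensDeg
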