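import Pool.Agent.DensDeg.Defs

/-!
# Points over generic points are generic

Everything follows from the exchange lemma `Indep_exch`: if `y : Fin n → L` is algebraically
independent and every `y i` is algebraic over the algebra generated by `z : Fin n → L`, then `z`
is algebraically independent.
-/

set_option autoImplicit false

namespace Pool.Agent.DensDeg

open Set AlgebraicIndependent

/-- The exchange lemma. -/
private theorem Indep_exch {k L : Type} [Field k] [Field L] [Algebra k L] {n : ℕ}
    {y z : Fin n → L} (hy : AlgebraicIndependent k y)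
    (h : ∀ i, IsAlgebraic (Algebra.adjoin k (range z)) (y i)) : AlgebraicIndependent k z := by
  have hyI : (matroid k L).Indep (range y) := by
    rw [matroid_indep_iff]
    exact hy.to_subtype_range
  have hsub : range y ⊆ (matroid k L).closure (range z) := by
    rintro _ ⟨i, rfl⟩
    rw [matroid_closure_eq, SetLike.mem_coe, Subalgebra.mem_algebraicClosure]
    exact h i
  have h1 : (range y).encard ≤ (matroid k L).eRk (range z) := by
    rw [← Matroid.eRk_closure_eq]
    exact hyI.encard_le_eRk_of_subset hsub
  have hyn : (range y).encard = n := by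
    rw [← image_univ, hy.injective.encard_image, encard_univ]
    simp
  have hzn : (range z).encard ≤ n := by
    rw [← image_univ]
    refine (encard_image_le _ _).trans ?_
    rw [encard_univ]
    simp
  rw [hyn, Matroid.le_eRk_iff] at h1
  obtain ⟨I, hIz, hI, hIn⟩ := h1
  have hIe : I = range z := by
    refine ((finite_range z).subset hIz).eq_of_subset_of_encard_le hIz ?_
    rw [hIn]
    exact hzn
  rw [hIe] at hI hIn
  have hinj : Function.Injective z := by
    rw [← injOn_univ]
    refine (finite_univ).injOn_of_encard_image_eq ?_
    rw [image_univ, hIn, encard_univ]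
    simp
  rw [matroid_indep_iff] at hI
  exact AlgebraicIndependent.of_subtype_range hinj hI

/-- Points over generic points are generic. -/
theorem Over.indep {k L : Type} [Field k] [Field L] [Algebra k L] {Λ n : ℕ}
    {u : Fin (n + 1) → L} {x : Fin n → L} (hu : AlgebraicIndependent k u) (h : Over Λ u x) :
    AlgebraicIndependent k x := by
  have hu0 : u 0 ≠ 0 := hu.ne_zero 0
  -- the ratios
  have hy : AlgebraicIndependent k (fun i : Fin n => u i.succ / u 0) := by
    have hz : AlgebraicIndependent k (Fin.cons (u 0) (fun i : Fin n => u i.succ / u 0) : Fin (n + 1) → L) := by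
      refine Indep_exch hu (fun i => ?_)
      set A := Algebra.adjoin k (range (Fin.cons (u 0) (fun i : Fin n => u i.succ / u 0) : Fin (n + 1) → L)) with hA
      have h0 : u 0 ∈ A := Algebra.subset_adjoin ⟨0, by simp⟩
      refine Fin.cases ?_ (fun j => ?_) i
      · exact isAlgebraic_algebraMap (⟨u 0, h0⟩ : A)
      · have hj : u j.succ / u 0 ∈ A := Algebra.subset_adjoin ⟨j.succ, by simp⟩
        have hm : u j.succ ∈ A := by
          have := A.mul_mem hj h0
          rwa [div_mul_cancel₀ _ hu0] at this
        exact isAlgebraic_algebraMap (⟨u j.succ, hm⟩ : A)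
    have := hz.comp Fin.succ (Fin.succ_injective n)
    simpa [Function.comp_def] using this
  refine Indep_exch hy (fun i => ?_)
  have hA : ∀ a ∈ Algebra.adjoin k (range x), IsAlgebraic (Algebra.adjoin k (range x)) a :=
    fun a ha => isAlgebraic_algebraMap (⟨a, ha⟩ : Algebra.adjoin k (range x))
  have hx : ∀ j, x j ∈ Algebra.adjoin k (range x) := fun j => Algebra.subset_adjoin ⟨j, rfl⟩
  have hgg : ∀ j, gg (x j) ∈ Algebra.adjoin k (range x) := fun j =>
    mul_mem (hx j) (sub_mem (hx j) (one_mem _))
  have hSS : SS Λ x ∈ Algebra.adjoin k (range x) :=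
    sum_mem (fun j _ => pow_mem (hgg j) _)
  have h2 : (2 : L) ∈ Algebra.adjoin k (range x) := by
    have := add_mem (one_mem (Algebra.adjoin k (range x))) (one_mem (Algebra.adjoin k (range x)))
    rwa [one_add_one_eq_two] at this
  have hff : ff Λ (x i) ∈ Algebra.adjoin k (range x) :=
    mul_mem (sub_mem (hx i) h2) (pow_mem (hgg i) _)
  have he : u i.succ / u 0 = ff Λ (x i) * (SS Λ x)⁻¹ := by
    rw [← div_eq_mul_inv, div_eq_div_iff hu0 h.1]
    exact (h.2 i).symm
  rw [he]
  exact (hA _ hff).mul (hA _ hSS).inv

/-- The images of a generic point are generic. -/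
theorem indep_sub {k L : Type} [Field k] [Field L] [Algebra k L] {n : ℕ} {x : Fin n → L}
    (hx : AlgebraicIndependent k x) (o : Option (Fin n → Bool)) :
    AlgebraicIndependent k (sub x o) := by
  refine Indep_exch hx (fun i => ?_)
  cases o with
  | none =>
    set A := Algebra.adjoin k (range (sub x none)) with hA
    have hg : gg (x i) ∈ A := Algebra.subset_adjoin ⟨i, rfl⟩
    refine ⟨Polynomial.X ^ 2 - Polynomial.X - Polynomial.C (⟨gg (x i), hg⟩ : A), ?_, ?_⟩
    · intro h0
      have := congrArg (fun P => Polynomial.coeff P 2) h0
      simp [Polynomial.coeff_X] at this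
    · simp only [map_sub, map_pow, Polynomial.aeval_X, Polynomial.aeval_C]
      change x i ^ 2 - x i - gg (x i) = 0
      unfold gg
      ring
  | some q =>
    set A := Algebra.adjoin k (range (sub x (some q))) with hA
    have hg : x i - (if q i then 1 else 0) ∈ A := Algebra.subset_adjoin ⟨i, rfl⟩
    have hc : (if q i then 1 else 0 : L) ∈ A := by
      split_ifs
      · exact one_mem _
      · exact zero_mem _
    have hm : x i ∈ A := by
      have := add_mem hg hc
      rwa [sub_add_cancel] at this
    exact isAlgebraic_algebraMap (⟨x i, hm⟩ : A)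

end Pool.Agent.DensDeg
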