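import Pool.Agent.DensDeg.BaseVal
import Pool.Agent.DensDeg.Indep

set_option autoImplicit false

namespace Pool.Agent.DensDeg

theorem lam_ne_zero {Λ k : ℕ} {L : Type} [Field L] [CharZero L] (u : Fin (k + 2) → L)
    (hu : AlgebraicIndependent ℚ u) (d : Dat L k) (hd : Pt Λ k u d) : lam Λ k u d ≠ 0 := by
  induction k with
  | zero => exact hu.ne_zero 0
  | succ k ih =>
    obtain ⟨x, d'⟩ := d
    obtain ⟨hx, hd'⟩ := hd
    have hx' : AlgebraicIndependent ℚ x := Over.indep hu hx
    have h1 : ∀ o, lam Λ k (sub x o) (d' o) ≠ 0 := fun o => ih _ (indep_sub hx' o) _ (hd' o)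
    show (u 0 / SS Λ x) ^ eN (k + 1) *
      (∏ q : Fin (k + 2) → Bool, lam Λ k (sub x (some q)) (d' (some q))) *
      lam Λ k (sub x none) (d' none) ^ ((2 ^ (k + 2) - 2) * Λ - 1) ≠ 0
    refine mul_ne_zero (mul_ne_zero (pow_ne_zero _ (div_ne_zero (hu.ne_zero 0) hx.1)) ?_)
      (pow_ne_zero _ (h1 none))
    exact Finset.prod_ne_zero_iff.mpr fun q _ => h1 (some q)

/-- The quotient of two independent elements is transcendental. -/
theorem baseHval_transcendental_div {K₀ L : Type} [Field K₀] [Field L] [Algebra K₀ L]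
    (u : Fin 2 → L) (hu : AlgebraicIndependent K₀ u) : Transcendental K₀ (u 1 / u 0) := by
  rw [transcendental_iff]
  intro P hP
  set n := P.natDegree with hn
  have hu0 : u 0 ≠ 0 := hu.ne_zero 0
  set Q : MvPolynomial (Fin 2) K₀ := ∑ i ∈ Finset.range (n + 1),
    MvPolynomial.C (P.coeff i) * MvPolynomial.X 1 ^ i * MvPolynomial.X 0 ^ (n - i) with hQ
  have h1 : MvPolynomial.aeval u Q = 0 := by
    have h2 : MvPolynomial.aeval u Q = u 0 ^ n * Polynomial.aeval (u 1 / u 0) P := by
      rw [hQ, map_sum, Polynomial.aeval_eq_sum_range, Finset.mul_sum]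
      refine Finset.sum_congr rfl fun i hi => ?_
      have hi' : i ≤ n := by
        have := Finset.mem_range.mp hi
        omega
      rw [map_mul, map_mul, map_pow, map_pow, MvPolynomial.aeval_X, MvPolynomial.aeval_X,
        MvPolynomial.algHom_C, Algebra.smul_def, div_pow]
      have h3 : u 0 ^ n = u 0 ^ (n - i) * u 0 ^ i := by
        rw [← pow_add]
        congr 1
        omega
      rw [h3]
      have : u 0 ^ i ≠ 0 := pow_ne_zero _ hu0
      field_simp
    rw [h2, hP, mul_zero]
  have h4 : Q = 0 := hu.eq_zero_of_aeval_eq_zero Q h1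
  have h5 : MvPolynomial.aeval (![1, Polynomial.X] : Fin 2 → Polynomial K₀) Q = P := by
    rw [hQ, map_sum]
    conv_rhs => rw [Polynomial.as_sum_range_C_mul_X_pow P]
    refine Finset.sum_congr rfl fun i hi => ?_
    rw [map_mul, map_mul, map_pow, map_pow, MvPolynomial.aeval_X, MvPolynomial.aeval_X,
      MvPolynomial.algHom_C]
    simp
  rw [h4, map_zero] at h5
  exact h5.symm

/-- The pencils are not constant. -/
theorem pen_transcendental {K₀ : Type} [Field K₀] {Λ k : ℕ} {L : Type} [Field L] [Algebra K₀ L]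
    (u : Fin (k + 2) → L) (hu : AlgebraicIndependent K₀ u) (d : Dat L k) (hd : Pt Λ k u d)
    (j : Slot k) : Transcendental K₀ (pen k u d j) := by
  induction k with
  | zero => exact baseHval_transcendental_div u hu
  | succ k ih =>
    obtain ⟨x, d'⟩ := d
    obtain ⟨hx, hd'⟩ := hd
    obtain ⟨o, j⟩ := j
    exact ih (sub x o) (indep_sub (Over.indep hu hx) o) (d' o) (hd' o) j

theorem baseHval_vmax_mul {ι Γ : Type*} [Fintype ι] [Nonempty ι] [LinearOrderedCommGroupWithZero Γ]
    (a : Γ) (f : ι → Γ) : vmax (fun i => a * f i) = a * vmax f := by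
  unfold vmax
  apply le_antisymm
  · refine Finset.sup'_le _ _ fun i hi => ?_
    exact mul_le_mul_right (Finset.le_sup' f hi) a
  · obtain ⟨i, hi, h⟩ := Finset.exists_mem_eq_sup' (Finset.univ_nonempty (α := ι)) f
    rw [h]
    exact Finset.le_sup' (fun i => a * f i) hi

/-- The relation between `u` and the pencils. -/
theorem base_val {Λ : ℕ} (hΛ : 1 ≤ Λ) {k : ℕ} {L : Type} [Field L] [CharZero L]
    (u : Fin (k + 2) → L) (hu : AlgebraicIndependent ℚ u) (d : Dat L k) (hd : Pt Λ k u d)
    (V : ValuationSubring L) (hV : ∀ m : ℕ, m ≠ 0 → V.valuation (m : L) = 1) :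
    vmax (fun i => V.valuation (u i)) ^ eN k =
      V.valuation (lam Λ k u d) * ∏ j, max (V.valuation (pen k u d j)) 1 ^ nnS Λ k j := by
  induction k with
  | zero =>
    have hu0 : u 0 ≠ 0 := hu.ne_zero 0
    have e1 : (∏ j : Slot 0, max (V.valuation (pen 0 u d j)) 1 ^ nnS Λ 0 j) =
        max (V.valuation (u 1 / u 0)) 1 := by
      change (∏ j : Unit, max (V.valuation (u 1 / u 0)) 1 ^ 1) = _
      simp
    have e2 : lam Λ 0 u d = u 0 := rfl
    have e3 : vmax (fun i => V.valuation (u i)) = max (V.valuation (u 0)) (V.valuation (u 1)) := by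
      apply le_antisymm
      · refine Finset.sup'_le _ _ fun i _ => ?_
        fin_cases i
        · exact le_max_left _ _
        · exact le_max_right _ _
      · exact max_le (Finset.le_sup' (fun i => V.valuation (u i)) (Finset.mem_univ 0))
          (Finset.le_sup' (fun i => V.valuation (u i)) (Finset.mem_univ 1))
    rw [e1, e2, e3, show eN 0 = 1 from rfl, pow_one, map_div₀]
    have hc : V.valuation (u 0) ≠ 0 := (map_ne_zero _).mpr hu0
    generalize V.valuation (u 0) = c at hc
    generalize V.valuation (u 1) = a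
    have hc' : 0 < c := zero_lt_iff.mpr hc
    rcases le_total a c with h | h
    · rw [max_eq_left h, max_eq_right ((div_le_one₀ hc').mpr h), mul_one]
    · rw [max_eq_right h, max_eq_left ((one_le_div₀ hc').mpr h), mul_div_cancel₀ _ hc]
  | succ k ih =>
    obtain ⟨x, d'⟩ := d
    obtain ⟨hx, hd'⟩ := hd
    have hx' : AlgebraicIndependent ℚ x := Over.indep hu hx
    have hS : SS Λ x ≠ 0 := hx.1
    have IH : ∀ o, vmax (fun i => V.valuation (sub x o i)) ^ eN k =
      V.valuation (lam Λ k (sub x o) (d' o)) *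
        ∏ j, max (V.valuation (pen k (sub x o) (d' o) j)) 1 ^ nnS Λ k j :=
      fun o => ih (sub x o) (indep_sub hx' o) (d' o) (hd' o)
    have hu' : ∀ i, u i = u 0 / SS Λ x *
        (Fin.cons (SS Λ x) (fun i => ff Λ (x i)) : Fin (k + 3) → L) i := by
      intro i
      refine Fin.cases ?_ (fun i => ?_) i
      · rw [Fin.cons_zero]
        field_simp
      · rw [Fin.cons_succ]
        have := hx.2 i
        field_simp
        rw [mul_comm] at this
        exact this.symm
    have e1 : vmax (fun i => V.valuation (u i)) = V.valuation (u 0 / SS Λ x) *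
        (vmax (fun i => V.valuation ((Fin.cons 1 x : Fin (k + 3) → L) i)) *
          vmax (fun i => V.valuation (sub x none i)) ^ Λ) := by
      have e2 : (fun i => V.valuation (u i)) = fun i => V.valuation (u 0 / SS Λ x) *
          V.valuation ((Fin.cons (SS Λ x) (fun i => ff Λ (x i)) : Fin (k + 3) → L) i) := by
        funext i
        rw [← map_mul, ← hu' i]
      rw [e2, baseHval_vmax_mul, bpf hΛ x V hV]
      rfl
    have e3 := grid_rel x V hV
    set A := vmax (fun i => V.valuation ((Fin.cons 1 x : Fin (k + 3) → L) i)) with hA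
    set B := vmax (fun i => V.valuation (sub x none i)) with hB
    have hpow : 2 ≤ 2 ^ (k + 2) - 2 := by
      have : 2 ^ 2 ≤ 2 ^ (k + 2) := Nat.pow_le_pow_right (by norm_num) (by omega)
      omega
    have hc : 1 ≤ (2 ^ (k + 2) - 2) * Λ := Nat.mul_pos (by omega) hΛ
    have e4 : (A * B ^ Λ) ^ (2 ^ (k + 2) - 2) =
        (∏ q : Fin (k + 2) → Bool, vmax (fun i => V.valuation (sub x (some q) i))) *
          B ^ ((2 ^ (k + 2) - 2) * Λ - 1) := by
      rw [e3, mul_pow, ← pow_mul, mul_comm Λ]
      obtain ⟨c, hc'⟩ : ∃ c, (2 ^ (k + 2) - 2) * Λ = c + 1 := ⟨(2 ^ (k + 2) - 2) * Λ - 1, by omega⟩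
      rw [hc', Nat.add_sub_cancel, pow_succ]
      change A ^ (2 ^ (k + 2) - 2) * (B ^ c * B) = B * A ^ (2 ^ (k + 2) - 2) * B ^ c
      simp only [mul_assoc, mul_comm]
    have IHn := IH none
    rw [← hB] at IHn
    show vmax (fun i => V.valuation (u i)) ^ ((2 ^ (k + 2) - 2) * eN k) =
      V.valuation ((u 0 / SS Λ x) ^ ((2 ^ (k + 2) - 2) * eN k) *
      (∏ q : Fin (k + 2) → Bool, lam Λ k (sub x (some q)) (d' (some q))) *
      lam Λ k (sub x none) (d' none) ^ ((2 ^ (k + 2) - 2) * Λ - 1)) *
      ∏ p : Option (Fin (k + 2) → Bool) × Slot k,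
        max (V.valuation (pen k (sub x p.1) (d' p.1) p.2)) 1 ^ nnS Λ (k + 1) p
    rw [e1, mul_pow, pow_mul (A * B ^ Λ), e4, mul_pow, ← Finset.prod_pow, ← pow_mul,
      mul_comm ((2 ^ (k + 2) - 2) * Λ - 1), pow_mul B, IHn,
      Finset.prod_congr rfl (fun q _ => IH (some q)), Finset.prod_mul_distrib,
      Fintype.prod_prod_type, Fintype.prod_option, map_mul, map_mul, map_pow, map_pow, map_prod,
      mul_pow, ← Finset.prod_pow]
    have e6 : ∀ j : Slot k, (max (V.valuation (pen k (sub x none) (d' none) j)) 1 ^ nnS Λ k j) ^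
        ((2 ^ (k + 2) - 2) * Λ - 1) =
        max (V.valuation (pen k (sub x none) (d' none) j)) 1 ^ nnS Λ (k + 1) (none, j) := by
      intro j
      rw [← pow_mul, mul_comm]
      rfl
    rw [Finset.prod_congr rfl (fun j _ => e6 j)]
    have e7 : ∀ (q : Fin (k + 2) → Bool) (j : Slot k), nnS Λ (k + 1) (some q, j) = nnS Λ k j :=
      fun q j => rfl
    simp only [e7]
    rw [pow_mul (V.valuation (u 0 / SS Λ x))]
    generalize (∏ j : Slot k, max (V.valuation (pen k (sub x none) (d' none) j)) 1 ^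
      nnS Λ (k + 1) (none, j)) = Z1
    generalize (∏ q : Fin (k + 2) → Bool, ∏ j : Slot k,
      max (V.valuation (pen k (sub x (some q)) (d' (some q)) j)) 1 ^ nnS Λ k j) = Z2
    generalize (∏ q : Fin (k + 2) → Bool,
      V.valuation (lam Λ k (sub x (some q)) (d' (some q)))) = Y1
    generalize V.valuation (lam Λ k (sub x none) (d' none)) ^ ((2 ^ (k + 2) - 2) * Λ - 1) = Y2
    generalize (V.valuation (u 0 / SS Λ x) ^ (2 ^ (k + 2) - 2)) ^ eN k = Y3
    ac_rfl

end Pool.Agent.DensDeg
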