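import Pool.Agent.DensDeg.Defs

set_option autoImplicit false

namespace Pool.Agent.DensDeg

private theorem vmax_le {ι Γ : Type*} [Fintype ι] [Nonempty ι] [LinearOrder Γ] {f : ι → Γ} {a : Γ}
    (h : ∀ i, f i ≤ a) : vmax f ≤ a := Finset.sup'_le _ _ (fun i _ => h i)

private theorem le_vmax {ι Γ : Type*} [Fintype ι] [Nonempty ι] [LinearOrder Γ] (f : ι → Γ) (i : ι) :
    f i ≤ vmax f := Finset.le_sup' f (Finset.mem_univ i)

private theorem exists_vmax {ι Γ : Type*} [Fintype ι] [Nonempty ι] [LinearOrder Γ] (f : ι → Γ) :
    ∃ i, vmax f = f i := by
  obtain ⟨i, _, hi⟩ := Finset.exists_mem_eq_sup' (Finset.univ_nonempty (α := ι)) f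
  exact ⟨i, hi⟩

section Elem

variable {L : Type} [Field L] (V : ValuationSubring L)

private theorem val_sub_nat_big {t c : L} (hc : V.valuation c ≤ 1) (ht : 1 < V.valuation t) :
    V.valuation (t - c) = V.valuation t := by
  rw [sub_eq_add_neg]
  apply Valuation.map_add_eq_of_lt_left
  rw [Valuation.map_neg]
  exact lt_of_le_of_lt hc ht

private theorem val_sub_le {t c : L} (hc : V.valuation c ≤ 1) :
    V.valuation (t - c) ≤ max 1 (V.valuation t) := by
  refine (V.valuation.map_sub t c).trans ?_
  exact max_le (le_max_right _ _) (hc.trans (le_max_left _ _))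

private theorem val_gg_big {t : L} (ht : 1 < V.valuation t) :
    V.valuation (gg t) = V.valuation t ^ 2 := by
  unfold gg
  rw [map_mul, val_sub_nat_big V (by simp) ht, pow_two]

private theorem val_gg_le (t : L) : V.valuation (gg t) ≤ (max 1 (V.valuation t)) ^ 2 := by
  unfold gg
  rw [map_mul, pow_two]
  exact mul_le_mul' (le_max_right _ _) (val_sub_le V (by simp))

private theorem val_sub_two_unit {t : L} (h2 : V.valuation (2 : L) = 1) (ht : V.valuation t ≤ 1)
    (hg : V.valuation (gg t) < 1) : V.valuation (t - 2) = 1 := by
  apply le_antisymm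
  · refine (val_sub_le V (le_of_eq h2)).trans ?_
    rw [max_eq_left ht]
  · by_contra hlt
    push Not at hlt
    have h1 : (2 : L) = gg t - (t - 2) * (t + 1) := by unfold gg; ring
    have h3 : V.valuation (t + 1) ≤ 1 := by
      refine (V.valuation.map_add t 1).trans ?_
      rw [map_one]
      exact max_le ht le_rfl
    have h4 : V.valuation ((t - 2) * (t + 1)) < 1 := by
      rw [map_mul]
      exact mul_lt_one_of_lt_of_le hlt h3
    have h5 : V.valuation (2 : L) < 1 := by
      rw [h1]
      exact (V.valuation.map_sub _ _).trans_lt (max_lt hg h4)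
    rw [h2] at h5
    exact lt_irrefl _ h5

private theorem val_pow_sub_pow {a b : L} (ha : V.valuation a ≤ 1) (hb : V.valuation b ≤ 1)
    (hab : V.valuation (a - b) < 1) (k : ℕ) : V.valuation (a ^ k - b ^ k) < 1 := by
  induction k with
  | zero => simp
  | succ k ih =>
    have h1 : a ^ (k + 1) - b ^ (k + 1) = (a ^ k - b ^ k) * a + (a - b) * b ^ k := by ring
    rw [h1]
    refine (V.valuation.map_add _ _).trans_lt (max_lt ?_ ?_)
    · rw [map_mul]
      exact mul_lt_one_of_lt_of_le ih ha
    · rw [map_mul, map_pow]
      exact mul_lt_one_of_lt_of_le hab (pow_le_one' hb k)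

end Elem

/-- The linear system has no base points on the blow-up. -/
theorem bpf {L : Type} [Field L] {Λ : ℕ} (hΛ : 1 ≤ Λ) {n : ℕ} (x : Fin (n + 1) → L)
    (V : ValuationSubring L) (hV : ∀ m : ℕ, m ≠ 0 → V.valuation (m : L) = 1) :
    vmax (fun i => V.valuation
        ((Fin.cons (SS Λ x) (fun i => ff Λ (x i)) : Fin (n + 2) → L) i)) =
      vmax (fun i => V.valuation ((Fin.cons 1 x : Fin (n + 2) → L) i)) *
        vmax (fun i => V.valuation (gg (x i))) ^ Λ := by
  classical
  have h2 : V.valuation (2 : L) = 1 := by
    have := hV 2 (by norm_num)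
    exact_mod_cast this
  set M := vmax (fun i => V.valuation ((Fin.cons 1 x : Fin (n + 2) → L) i)) with hM
  set G := vmax (fun i => V.valuation (gg (x i))) with hG
  set R := vmax (fun i => V.valuation
        ((Fin.cons (SS Λ x) (fun i => ff Λ (x i)) : Fin (n + 2) → L) i)) with hR
  have hM1 : 1 ≤ M := by
    have := le_vmax (fun i => V.valuation ((Fin.cons 1 x : Fin (n + 2) → L) i)) 0
    simpa using this
  have hMx : ∀ i, V.valuation (x i) ≤ M := by
    intro i
    have := le_vmax (fun i => V.valuation ((Fin.cons 1 x : Fin (n + 2) → L) i)) i.succ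
    simpa using this
  have hMmax : ∀ i, max 1 (V.valuation (x i)) ≤ M := fun i => max_le hM1 (hMx i)
  have hRS : V.valuation (SS Λ x) ≤ R := by
    have := le_vmax (fun i => V.valuation
        ((Fin.cons (SS Λ x) (fun i => ff Λ (x i)) : Fin (n + 2) → L) i)) 0
    simpa using this
  have hRf : ∀ i, V.valuation (ff Λ (x i)) ≤ R := by
    intro i
    have := le_vmax (fun i => V.valuation
        ((Fin.cons (SS Λ x) (fun i => ff Λ (x i)) : Fin (n + 2) → L) i)) i.succ
    simpa using this
  have hgG : ∀ i, V.valuation (gg (x i)) ≤ G := fun i => le_vmax (fun i => V.valuation (gg (x i))) i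
  have hff : ∀ i, V.valuation (ff Λ (x i)) = V.valuation (x i - 2) * V.valuation (gg (x i)) ^ Λ := by
    intro i
    unfold ff
    rw [map_mul, map_pow]
  apply le_antisymm
  · apply vmax_le
    intro i
    refine Fin.cases ?_ (fun i => ?_) i
    · simp only [Fin.cons_zero]
      refine le_trans ?_ (le_mul_of_one_le_left' hM1)
      unfold SS
      apply V.valuation.map_sum_le
      intro i _
      rw [map_pow]
      exact pow_le_pow_left' (hgG i) Λ
    · simp only [Fin.cons_succ]
      rw [hff]
      exact mul_le_mul' ((val_sub_le V (le_of_eq h2)).trans (hMmax i)) (pow_le_pow_left' (hgG i) Λ)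
  · rcases eq_or_lt_of_le hM1 with hM1' | hM1'
    · -- M = 1
      rw [← hM1', one_mul]
      have hx1 : ∀ i, V.valuation (x i) ≤ 1 := fun i => by rw [hM1']; exact hMx i
      obtain ⟨i, hi⟩ := exists_vmax (fun i => V.valuation (gg (x i)))
      have hi' : G = V.valuation (gg (x i)) := hi
      have hG1 : G ≤ 1 := by
        rw [hi']
        refine (val_gg_le V (x i)).trans ?_
        rw [max_eq_left (hx1 i), one_pow]
      rcases lt_or_eq_of_le hG1 with hG1' | hG1'
      · have h3 := val_sub_two_unit V h2 (hx1 i) (by rw [← hi']; exact hG1')
        have h4 := hRf i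
        rw [hff, h3, one_mul, ← hi'] at h4
        exact h4
      · rw [hG1', one_pow]
        by_contra hlt
        push Not at hlt
        -- all ff and SS in the maximal ideal
        set T : Finset (Fin (n + 1)) := Finset.univ.filter (fun j => V.valuation (x j - 2) < 1) with hT
        have hiT : i ∈ T := by
          rw [hT, Finset.mem_filter]
          refine ⟨Finset.mem_univ _, ?_⟩
          have h5 := (hRf i).trans_lt hlt
          rw [hff, ← hi', hG1', one_pow, mul_one] at h5
          exact h5
        have hTj : ∀ j ∈ T, V.valuation (gg (x j) ^ Λ - 2 ^ Λ) < 1 := by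
          intro j hj
          rw [hT, Finset.mem_filter] at hj
          have h5 : V.valuation (gg (x j) - 2) < 1 := by
            have h6 : gg (x j) - 2 = (x j - 2) * (x j + 1) := by unfold gg; ring
            rw [h6, map_mul]
            refine mul_lt_one_of_lt_of_le hj.2 ?_
            refine (V.valuation.map_add _ _).trans ?_
            rw [map_one]
            exact max_le (hx1 j) le_rfl
          have hgj : V.valuation (gg (x j)) ≤ 1 := by
            refine (val_gg_le V (x j)).trans ?_
            rw [max_eq_left (hx1 j), one_pow]
          exact val_pow_sub_pow V hgj (le_of_eq h2) h5 Λ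
        have hnTj : ∀ j, j ∉ T → V.valuation (gg (x j) ^ Λ) < 1 := by
          intro j hj
          rw [hT, Finset.mem_filter] at hj
          push Not at hj
          have h5 : V.valuation (x j - 2) = 1 := by
            apply le_antisymm
            · refine (val_sub_le V (le_of_eq h2)).trans ?_
              rw [max_eq_left (hx1 j)]
            · exact hj (Finset.mem_univ _)
          have h6 := (hRf j).trans_lt hlt
          rw [hff, h5, one_mul] at h6
          rw [map_pow]
          exact h6
        have hcard : V.valuation ((T.card : L) * 2 ^ Λ) = 1 := by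
          rw [map_mul, map_pow, h2, one_pow, mul_one]
          exact hV _ (Finset.card_ne_zero_of_mem hiT)
        have hsum : V.valuation (SS Λ x - (T.card : L) * 2 ^ Λ) < 1 := by
          have h7 : SS Λ x - (T.card : L) * 2 ^ Λ =
              ∑ j, (gg (x j) ^ Λ - if j ∈ T then 2 ^ Λ else 0) := by
            rw [Finset.sum_sub_distrib, Finset.sum_ite_mem, Finset.univ_inter, Finset.sum_const,
              nsmul_eq_mul]
            rfl
          rw [h7]
          apply V.valuation.map_sum_lt one_ne_zero
          intro j _
          split_ifs with hj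
          · exact hTj j hj
          · rw [sub_zero]; exact hnTj j hj
        have h8 : V.valuation ((T.card : L) * 2 ^ Λ) < 1 := by
          have h9 : (T.card : L) * 2 ^ Λ = SS Λ x - (SS Λ x - (T.card : L) * 2 ^ Λ) := by ring
          rw [h9]
          exact (V.valuation.map_sub _ _).trans_lt (max_lt (hRS.trans_lt hlt) hsum)
        rw [hcard] at h8
        exact lt_irrefl _ h8
    · -- M > 1
      obtain ⟨i0, hi0⟩ := exists_vmax (fun i => V.valuation ((Fin.cons 1 x : Fin (n + 2) → L) i))
      rw [← hM] at hi0
      obtain ⟨i, hi⟩ : ∃ i, M = V.valuation (x i) := by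
        revert hi0
        refine Fin.cases ?_ (fun i => ?_) i0
        · intro h
          simp only [Fin.cons_zero, map_one] at h
          exact absurd h (ne_of_gt hM1')
        · intro h
          exact ⟨i, by simpa using h⟩
      have hxi : 1 < V.valuation (x i) := by rw [← hi]; exact hM1'
      have hGle : G ≤ M ^ 2 := by
        apply vmax_le
        intro j
        exact (val_gg_le V (x j)).trans (pow_le_pow_left' (hMmax j) 2)
      have h3 := hRf i
      rw [hff, val_sub_nat_big V (le_of_eq h2) hxi, val_gg_big V hxi, ← hi] at h3
      exact (mul_le_mul' le_rfl (pow_le_pow_left' hGle Λ)).trans h3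

/-- The relation between the projections from the grid points and the net of quadrics. -/
theorem grid_rel {L : Type} [Field L] {n : ℕ} (x : Fin (n + 1) → L)
    (V : ValuationSubring L) (hV : ∀ m : ℕ, m ≠ 0 → V.valuation (m : L) = 1) :
    ∏ q : Fin (n + 1) → Bool, vmax (fun i => V.valuation (sub x (some q) i)) =
      vmax (fun i => V.valuation (sub x none i)) *
        vmax (fun i => V.valuation ((Fin.cons 1 x : Fin (n + 2) → L) i)) ^ (2 ^ (n + 1) - 2) := by
  classical
  set M := vmax (fun i => V.valuation ((Fin.cons 1 x : Fin (n + 2) → L) i)) with hM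
  set G := vmax (fun i => V.valuation (sub x none i)) with hG
  have hM1 : 1 ≤ M := by
    have := le_vmax (fun i => V.valuation ((Fin.cons 1 x : Fin (n + 2) → L) i)) 0
    simpa using this
  have hMx : ∀ i, V.valuation (x i) ≤ M := by
    intro i
    have := le_vmax (fun i => V.valuation ((Fin.cons 1 x : Fin (n + 2) → L) i)) i.succ
    simpa using this
  have hMmax : ∀ i, max 1 (V.valuation (x i)) ≤ M := fun i => max_le hM1 (hMx i)
  have hgG : ∀ i, V.valuation (gg (x i)) ≤ G := fun i => le_vmax (fun i => V.valuation (sub x none i)) i
  have hqv : ∀ (b : Bool), V.valuation (if b then (1 : L) else 0) ≤ 1 := by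
    intro b
    cases b <;> simp
  have hfac_le : ∀ q : Fin (n + 1) → Bool, vmax (fun i => V.valuation (sub x (some q) i)) ≤ M := by
    intro q
    apply vmax_le
    intro i
    exact (val_sub_le V (hqv (q i))).trans (hMmax i)
  rcases eq_or_lt_of_le hM1 with hM1' | hM1'
  · -- M = 1
    rw [← hM1', one_pow, mul_one]
    have hx1 : ∀ i, V.valuation (x i) ≤ 1 := fun i => by rw [hM1']; exact hMx i
    have hx1' : ∀ i, V.valuation (x i - 1) ≤ 1 := fun i => by
      refine (val_sub_le V (by simp)).trans ?_
      rw [max_eq_left (hx1 i)]
    obtain ⟨i, hi⟩ := exists_vmax (fun i => V.valuation (sub x none i))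
    have hi' : G = V.valuation (gg (x i)) := hi
    have hG1 : G ≤ 1 := by
      rw [hi']
      refine (val_gg_le V (x i)).trans ?_
      rw [max_eq_left (hx1 i), one_pow]
    rcases lt_or_eq_of_le hG1 with hG1' | hG1'
    · -- all x_i reduce to 0 or 1
      have hsplit : ∀ j, (V.valuation (x j - 1) < 1 → V.valuation (x j) = 1) ∧
          (¬ V.valuation (x j - 1) < 1 → V.valuation (x j - 1) = 1) := by
        intro j
        constructor
        · intro h
          apply le_antisymm (hx1 j)
          by_contra hlt
          push Not at hlt
          have h3 : V.valuation (1 : L) < 1 := by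
            have h4 : (1 : L) = x j - (x j - 1) := by ring
            rw [h4]
            exact (V.valuation.map_sub _ _).trans_lt (max_lt hlt h)
          rw [map_one] at h3
          exact lt_irrefl _ h3
        · intro h
          push Not at h
          exact le_antisymm (hx1' j) h
      let qs : Fin (n + 1) → Bool := fun j => decide (V.valuation (x j - 1) < 1)
      have hqs : vmax (fun i => V.valuation (sub x (some qs) i)) = G := by
        rw [hG]
        congr 1
        funext j
        change V.valuation (x j - (if qs j then 1 else 0)) = V.valuation (gg (x j))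
        unfold gg
        rw [map_mul]
        by_cases h : V.valuation (x j - 1) < 1
        · have : qs j = true := by simp [qs, h]
          rw [this, (hsplit j).1 h]
          simp
        · have : qs j = false := by simp only [qs, decide_eq_false_iff_not]; exact h
          rw [this, (hsplit j).2 h]
          simp
      have hq : ∀ q ≠ qs, vmax (fun i => V.valuation (sub x (some q) i)) = 1 := by
        intro q hne
        obtain ⟨j, hj⟩ := Function.ne_iff.mp hne
        apply le_antisymm
        · rw [hM1']; exact hfac_le q
        · refine le_trans ?_ (le_vmax _ j)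
          change 1 ≤ V.valuation (x j - (if q j then 1 else 0))
          by_cases h : V.valuation (x j - 1) < 1
          · have h3 : qs j = true := by simp [qs, h]
            rw [h3] at hj
            have h4 : q j = false := by simpa using hj
            rw [h4]
            simp [(hsplit j).1 h]
          · have h3 : qs j = false := by simp only [qs, decide_eq_false_iff_not]; exact h
            rw [h3] at hj
            have h4 : q j = true := by simpa using hj
            rw [h4]
            simp [(hsplit j).2 h]
      rw [Finset.prod_eq_single qs (fun q _ hne => hq q hne) (fun h => absurd (Finset.mem_univ _) h), hqs]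
    · -- some x_i with x_i and x_i - 1 units
      rw [hG1']
      have hu : V.valuation (x i) = 1 ∧ V.valuation (x i - 1) = 1 := by
        have h3 : V.valuation (x i) * V.valuation (x i - 1) = 1 := by
          rw [← map_mul, ← hG1', hi']
          rfl
        constructor
        · apply le_antisymm (hx1 i)
          rw [← h3]
          exact mul_le_of_le_one_right' (hx1' i)
        · apply le_antisymm (hx1' i)
          rw [← h3]
          exact mul_le_of_le_one_left' (hx1 i)
      apply Finset.prod_eq_one
      intro q _
      apply le_antisymm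
      · rw [hM1']; exact hfac_le q
      · refine le_trans ?_ (le_vmax _ i)
        change 1 ≤ V.valuation (x i - (if q i then 1 else 0))
        cases q i
        · simp [hu.1]
        · simp [hu.2]
  · -- M > 1
    obtain ⟨i0, hi0⟩ := exists_vmax (fun i => V.valuation ((Fin.cons 1 x : Fin (n + 2) → L) i))
    rw [← hM] at hi0
    obtain ⟨i, hi⟩ : ∃ i, M = V.valuation (x i) := by
      revert hi0
      refine Fin.cases ?_ (fun i => ?_) i0
      · intro h
        simp only [Fin.cons_zero, map_one] at h
        exact absurd h (ne_of_gt hM1')
      · intro h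
        exact ⟨i, by simpa using h⟩
    have hxi : 1 < V.valuation (x i) := by rw [← hi]; exact hM1'
    have hGM : G = M ^ 2 := by
      apply le_antisymm
      · apply vmax_le
        intro j
        exact (val_gg_le V (x j)).trans (pow_le_pow_left' (hMmax j) 2)
      · rw [hi, ← val_gg_big V hxi]
        exact hgG i
    have hfac : ∀ q : Fin (n + 1) → Bool, vmax (fun i => V.valuation (sub x (some q) i)) = M := by
      intro q
      apply le_antisymm (hfac_le q)
      refine le_trans ?_ (le_vmax _ i)
      change M ≤ V.valuation (x i - (if q i then 1 else 0))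
      rw [val_sub_nat_big V (hqv (q i)) hxi, hi]
    rw [Finset.prod_congr rfl (fun q _ => hfac q), Finset.prod_const, hGM, ← pow_add]
    congr 1
    rw [Finset.card_univ, Fintype.card_fun, Fintype.card_bool, Fintype.card_fin]
    have : 2 ^ (n + 1) ≥ 2 := by
      calc 2 ^ (n + 1) ≥ 2 ^ 1 := Nat.pow_le_pow_right (by norm_num) (by omega)
        _ = 2 := by norm_num
    omega

end Pool.Agent.DensDeg
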