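import Pool.Agent.MultiSpec.Density

/-!
Consequences of the divisibility theorems for the multidegrees satisfying the arithmetic condition.
-/

set_option autoImplicit false

namespace Pool.Agent.DensDeg

open Pool.Agent.MultiSpec.Density

lemma dvd_of_prime_pow {m e : ℕ} (hm : m ≠ 0)
    (h : ∀ p : ℕ, p.Prime → p ∣ m → p ^ m.factorization p ∣ e) : m ∣ e := by
  rw [Nat.dvd_iff_prime_pow_dvd_dvd]
  intro p k hp hk
  rcases Nat.eq_zero_or_pos k with h0 | h0
  · rw [h0, pow_zero]; exact one_dvd _
  · have h1 : p ∣ m := (dvd_pow_self p h0.ne').trans hk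
    exact (pow_dvd_pow p ((hp.pow_dvd_iff_le_factorization hm).1 hk)).trans (h p hp h1)

/-- The consequences. -/
theorem good_of_cond {n r c : ℕ} (hn : 0 < n) (hc : 0 < c) {d : Fin r → ℕ} (hd : ∀ i, 1 ≤ d i)
    (hcond : Cond (max c (2 ^ n * Nat.factorial n)) (max c (max n 2)) n d) {e : ℕ}
    (hT : ∀ (k : Fin r) (p a : ℕ), p.Prime → p ^ a ∣ d k → c * p ^ a ≤ d k → p ^ a ∣ c * e)
    (hR : ∀ (p : ℕ) (a : Fin r → ℕ), p.Prime → p ≠ 2 → n < p →
      (∀ i, a i = 0 ∨ 2 ^ n * Nat.factorial n * p ^ a i ∣ d i ∨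
        (p ^ a i ∣ d i ∧ 2 ^ n * Nat.factorial n * (p ^ a i) ^ n ≤ d i)) →
      p ^ (∑ i, a i) ∣ e) :
    (∀ m : ℕ, m ∣ ∏ i, d i → m.Coprime (2 * Nat.factorial n) → m ∣ e) ∧
      ∀ k, d k ∣ (2 * Nat.factorial n) ^ c * e := by
  classical
  have hd0 : ∀ i, d i ≠ 0 := fun i => by have := hd i; omega
  have hprod0 : ∏ i, d i ≠ 0 := Finset.prod_ne_zero_iff.2 fun i _ => hd0 i
  have key : ∀ p : ℕ, p.Prime → p ≠ 2 → n < p → p ^ (∑ i, (d i).factorization p) ∣ e := by
    intro p hp hp2 hnp
    rcases hcond p hp with h | ⟨hKp, k, hk, hle⟩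
    · refine hR p (fun i => (d i).factorization p) hp hp2 hnp fun i => ?_
      by_cases hpi : p ∣ d i
      · right; right
        refine ⟨Nat.ordProj_dvd _ _, le_trans ?_ (h i hpi)⟩
        exact Nat.mul_le_mul_right _ (le_max_right _ _)
      · left
        exact Nat.factorization_eq_zero_of_not_dvd hpi
    · have h1 : ∑ i, (d i).factorization p = (d k).factorization p := by
        rw [Finset.sum_eq_single k]
        · intro i _ hik
          exact Nat.factorization_eq_zero_of_not_dvd (hk i hik)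
        · intro h; exact absurd (Finset.mem_univ k) h
      rw [h1]
      have h2 : p ^ (d k).factorization p ∣ c * e :=
        hT k p _ hp (Nat.ordProj_dvd _ _) ((Nat.mul_le_mul_right _ (le_max_left _ _)).trans hle)
      have h3 : Nat.Coprime (p ^ (d k).factorization p) c := by
        refine Nat.Coprime.pow_left _ (Nat.coprime_of_lt_prime hc.ne' ?_ hp)
        exact (le_max_left _ _).trans_lt hKp
      exact h3.dvd_of_dvd_mul_left h2
  have part1 : ∀ m : ℕ, m ∣ ∏ i, d i → m.Coprime (2 * Nat.factorial n) → m ∣ e := by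
    intro m hm hcop
    have hm0 : m ≠ 0 := fun h => hprod0 (by rw [h] at hm; exact zero_dvd_iff.1 hm)
    refine dvd_of_prime_pow hm0 fun p hp hpm => ?_
    have hp2 : ¬ p ∣ 2 * Nat.factorial n := fun h =>
      hp.one_lt.ne' (Nat.eq_one_of_dvd_coprimes hcop hpm h)
    have h2 : p ≠ 2 := by
      rintro rfl
      exact hp2 (dvd_mul_right _ _)
    have h3 : n < p := by
      by_contra hle
      exact hp2 (((hp.dvd_factorial).2 (not_lt.1 hle)).mul_left _)
    refine (pow_dvd_pow p ?_).trans (key p hp h2 h3)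
    have h4 : m.factorization p ≤ (∏ i, d i).factorization p :=
      (Nat.factorization_le_iff_dvd hm0 hprod0).2 hm p
    rw [Nat.factorization_prod fun i _ => hd0 i] at h4
    simpa using h4
  refine ⟨part1, fun k => dvd_of_prime_pow (hd0 k) fun p hp hpk => ?_⟩
  by_cases hp2 : p ∣ 2 * Nat.factorial n
  · -- a small prime
    have hdvd : p ^ (d k).factorization p ∣ d k := Nat.ordProj_dvd _ _
    have hle : c * p ^ (d k).factorization p ≤ d k := by
      rcases hcond p hp with h | ⟨hKp, k', hk', hle⟩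
      · refine le_trans ?_ (h k hpk)
        refine Nat.mul_le_mul (le_max_left _ _) ?_
        exact Nat.le_self_pow hn.ne' _
      · by_cases hkk : k = k'
        · subst hkk
          exact (Nat.mul_le_mul_right _ (le_max_left _ _)).trans hle
        · exact absurd hpk (hk' k hkk)
    have h1 := hT k p _ hp hdvd hle
    have h2 : p ^ c ∣ (2 * Nat.factorial n) ^ c := pow_dvd_pow_of_dvd hp2 c
    by_cases he : e = 0
    · rw [he, mul_zero]; exact dvd_zero _
    have h3 : (d k).factorization p ≤ (c * e).factorization p :=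
      (hp.pow_dvd_iff_le_factorization (Nat.mul_ne_zero hc.ne' he)).1 h1
    rw [Nat.factorization_mul hc.ne' he, Finsupp.add_apply] at h3
    have h4 : c.factorization p ≤ c := (Nat.factorization_lt p hc.ne').le
    have h5 : p ^ (c + e.factorization p) ∣ (2 * Nat.factorial n) ^ c * e := by
      rw [pow_add]
      exact mul_dvd_mul h2 (Nat.ordProj_dvd _ _)
    exact (pow_dvd_pow p (by omega)).trans h5
  · have h1 : p ^ (d k).factorization p ∣ e := by
      refine part1 _ ((Nat.ordProj_dvd _ _).trans (Finset.dvd_prod_of_mem d (Finset.mem_univ k))) ?_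
      exact Nat.Coprime.pow_left _ ((Nat.Prime.coprime_iff_not_dvd hp).2 hp2)
    exact h1.mul_left _

end Pool.Agent.DensDeg
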