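import Pool.Agent.DensDeg.Decomp0

set_option autoImplicit false

namespace Pool.Agent.DensDeg

open IntermediateField Polynomial

/-- A polynomial of degree prime to `l` has an irreducible factor of degree prime to `l`. -/
theorem decomp_factor {K : Type*} [Field K] (l : ℕ) (p : K[X]) (hp : p ≠ 0)
    (h : ¬ l ∣ p.natDegree) : ∃ q : K[X], Irreducible q ∧ q ∣ p ∧ ¬ l ∣ q.natDegree := by
  by_contra hcon
  push Not at hcon
  apply h
  clear h
  revert hp hcon
  induction p using WfDvdMonoid.induction_on_irreducible with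
  | zero => intro h; exact absurd rfl h
  | unit u hu =>
    intro _ _
    rw [natDegree_eq_zero_of_isUnit hu]
    exact dvd_zero _
  | mul a i ha hi ih =>
    intro hp hcon
    rw [natDegree_mul hi.ne_zero ha]
    refine dvd_add (hcon i hi (dvd_mul_right _ _)) (ih ha fun q hq hqa => hcon q hq ?_)
    exact hqa.mul_left _

theorem decomp_embed {K1 K L1 L : Type} [Field K1] [CharZero K1] [Field K] [Field L1] [Field L]
    [Algebra K1 L1] [Algebra.IsAlgebraic K1 L1] [Algebra K L] [IsAlgClosed L] (σ : K1 →+* K)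
    (l : ℕ) (hl : l.Prime) (S : Set L1) (hfin : FiniteDimensional K1 (adjoin K1 S))
    (hcop : (Module.finrank K1 (adjoin K1 S)).Coprime l) :
    ∃ ι : L1 →+* L, (∀ a : K1, ι (algebraMap K1 L1 a) = algebraMap K L (σ a)) ∧
      FiniteDimensional K (adjoin K (ι '' S)) ∧
      Module.finrank K (adjoin K (ι '' S)) ≤ Module.finrank K1 (adjoin K1 S) ∧
      (Module.finrank K (adjoin K (ι '' S))).Coprime l := by
  set E1 := adjoin K1 S with hE1
  set pb := Field.powerBasisOfFiniteOfSeparable K1 E1 with hpb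
  set f := minpoly K1 pb.gen with hf
  have hfdeg : f.natDegree = Module.finrank K1 E1 := by
    rw [hf, pb.natDegree_minpoly, pb.finrank]
  have hint : IsIntegral K1 pb.gen := pb.isIntegral_gen
  have hfmon : f.Monic := minpoly.monic hint
  have hfmap : (f.map σ).natDegree = Module.finrank K1 E1 := by
    rw [hfmon.natDegree_map, hfdeg]
  have hne : f.map σ ≠ 0 := (hfmon.map σ).ne_zero
  have hnd : ¬ l ∣ (f.map σ).natDegree := by
    rw [hfmap]
    intro hd
    have := Nat.Coprime.eq_one_of_dvd (Nat.coprime_comm.mp hcop) hd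
    exact hl.one_lt.ne' this
  obtain ⟨q, hq, hqd, hql⟩ := decomp_factor l (f.map σ) hne hnd
  have hqdeg : q.degree ≠ 0 := by
    intro h0
    apply hql
    rw [natDegree_eq_of_degree_eq_some (n := 0) (by simpa using h0)]
    exact dvd_zero _
  obtain ⟨θ, hθ⟩ := IsAlgClosed.exists_aeval_eq_zero L q hqdeg
  have hroot : aeval θ (f.map σ) = 0 := by
    obtain ⟨r, hr⟩ := hqd
    rw [hr, map_mul, hθ, zero_mul]
  let algK1L : Algebra K1 L := ((algebraMap K L).comp σ).toAlgebra
  have halg : ∀ a : K1, algebraMap K1 L a = algebraMap K L (σ a) := fun a => rfl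
  have haev : ∀ p : K1[X], aeval θ p = aeval θ (p.map σ) := by
    intro p
    rw [aeval_def, aeval_def, eval₂_map]
    rfl
  have hroot' : aeval θ (minpoly K1 pb.gen) = 0 := by
    rw [haev]
    exact hroot
  let j : E1 →ₐ[K1] L := pb.lift θ hroot'
  let algE1L : Algebra E1 L := j.toRingHom.toAlgebra
  have : IsScalarTower K1 E1 L := IsScalarTower.of_algebraMap_eq fun a => (j.commutes a).symm
  have : Algebra.IsAlgebraic E1 L1 := Algebra.IsAlgebraic.tower_top (K := K1) E1
  let ι : L1 →ₐ[E1] L := IsAlgClosed.lift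
  have hιj : ∀ y : E1, ι (y : L1) = j y := fun y => ι.commutes y
  have hmem : ∀ y : E1, (ι (y : L1)) ∈ K⟮θ⟯ := by
    intro y
    rw [hιj]
    obtain ⟨p, hp⟩ := pb.exists_eq_aeval' y
    have h1 : j y = aeval θ p := by
      rw [hp]
      exact pb.lift_aeval θ hroot' p
    rw [h1, haev]
    exact algebra_adjoin_le_adjoin K {θ} (aeval_mem_adjoin_singleton K θ)
  have hle : adjoin K (ι '' S) ≤ K⟮θ⟯ := by
    rw [adjoin_le_iff]
    rintro _ ⟨s, hs, rfl⟩
    exact hmem ⟨s, subset_adjoin K1 S hs⟩
  have hθint : IsIntegral K θ := by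
    refine ⟨f.map σ, hfmon.map σ, ?_⟩
    rwa [aeval_def] at hroot
  have : FiniteDimensional K K⟮θ⟯ := adjoin.finiteDimensional hθint
  have hfr : Module.finrank K K⟮θ⟯ = q.natDegree := by
    rw [adjoin.finrank hθint, ← minpoly.eq_of_irreducible hq hθ]
    exact natDegree_mul_C (inv_ne_zero (leadingCoeff_ne_zero.mpr hq.ne_zero))
  have hdvd := finrank_dvd_of_le_right hle
  refine ⟨ι.toRingHom, ?_, ?_, ?_, ?_⟩
  · intro a
    have h1 : (algebraMap K1 L1 a) = ((algebraMap K1 E1 a : E1) : L1) := rfl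
    change ι (algebraMap K1 L1 a) = _
    rw [h1, hιj, j.commutes]
    rfl
  · exact FiniteDimensional.of_injective (inclusion hle).toLinearMap (inclusion hle).injective
  · change Module.finrank K (adjoin K (ι '' S)) ≤ _
    calc Module.finrank K (adjoin K (ι '' S)) ≤ Module.finrank K K⟮θ⟯ :=
          Nat.le_of_dvd Module.finrank_pos hdvd
      _ = q.natDegree := hfr
      _ ≤ (f.map σ).natDegree := natDegree_le_of_dvd hqd hne
      _ = _ := hfmap
  · change (Module.finrank K (adjoin K (ι '' S))).Coprime l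
    have h1 : (Module.finrank K K⟮θ⟯).Coprime l := by
      rw [hfr, Nat.coprime_comm]
      exact (Nat.Prime.coprime_iff_not_dvd hl).mpr hql
    exact Nat.Coprime.coprime_dvd_left hdvd h1


/-- Transfer of the identity between equivalent valuations. -/
theorem decomp_transfer {L : Type*} {Γ Γ' : Type*} [Field L] [LinearOrderedCommGroupWithZero Γ]
    [LinearOrderedCommGroupWithZero Γ'] (v : Valuation L Γ) (v' : Valuation L Γ')
    (h : v.IsEquiv v') {n M : ℕ} (u : Fin (n + 1) → L) (Lm : L) (x : Fin M → L) (e : ℕ)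
    (hid : vmax (fun i => v (u i)) ^ e = v Lm * ∏ j, max (v (x j)) 1) :
    vmax (fun i => v' (u i)) ^ e = v' Lm * ∏ j, max (v' (x j)) 1 := by
  classical
  obtain ⟨i0, _, hi0⟩ := Finset.exists_mem_eq_sup' (Finset.univ_nonempty (α := Fin (n + 1)))
    (fun i => v (u i))
  have h1 : vmax (fun i => v (u i)) = v (u i0) := hi0
  have h2 : vmax (fun i => v' (u i)) = v' (u i0) := by
    refine le_antisymm ?_ (Finset.le_sup' (fun i => v' (u i)) (Finset.mem_univ i0))
    refine Finset.sup'_le _ _ fun i _ => ?_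
    rw [← h.le_iff_le]
    rw [← h1]
    exact Finset.le_sup' (fun i => v (u i)) (Finset.mem_univ i)
  set y : Fin M → L := fun j => if v (x j) ≤ 1 then 1 else x j with hy
  have h3 : ∀ j, max (v (x j)) 1 = v (y j) := by
    intro j
    rw [hy]
    simp only
    split_ifs with hj
    · rw [map_one, max_eq_right hj]
    · rw [max_eq_left (not_le.mp hj).le]
  have h4 : ∀ j, max (v' (x j)) 1 = v' (y j) := by
    intro j
    rw [hy]
    simp only
    split_ifs with hj
    · rw [map_one, max_eq_right (h.le_one_iff_le_one.mp hj)]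
    · have hj' : ¬ v' (x j) ≤ 1 := fun h5 => hj (h.le_one_iff_le_one.mpr h5)
      rw [max_eq_left (not_le.mp hj').le]
  simp_rw [h3] at hid
  simp_rw [h4]
  rw [h1, ← map_pow, ← map_prod, ← map_mul] at hid
  rw [h2, ← map_pow, ← map_prod, ← map_mul]
  exact h.eq_iff.mp hid

theorem decomp_comap {L1 L : Type*} [Field L1] [Field L] (ι : L1 →+* L) (V : ValuationSubring L) :
    (V.comap ι).valuation.IsEquiv (V.valuation.comap ι) := by
  have h : (V.valuation.comap ι).valuationSubring = V.comap ι := by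
    ext x
    rw [Valuation.mem_valuationSubring_iff, ValuationSubring.mem_comap, Valuation.comap_apply,
      ValuationSubring.valuation_le_one_iff]
  have h2 := Valuation.isEquiv_valuation_valuationSubring (V.valuation.comap ι)
  rw [h] at h2
  exact h2.symm

theorem decomp_eN_pos : ∀ k, 0 < eN k
  | 0 => Nat.one_pos
  | k + 1 => by
    have h := decomp_eN_pos k
    have h2 : 4 ≤ 2 ^ (k + 2) := by
      calc 4 = 2 ^ 2 := by norm_num
        _ ≤ 2 ^ (k + 2) := Nat.pow_le_pow_right (by norm_num) (by omega)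
    exact Nat.mul_pos (by omega) h

theorem decomp_nnS_pos (Λ : ℕ) (hΛ : 1 ≤ Λ) : ∀ k (j : Slot k), 0 < nnS Λ k j
  | 0, _ => Nat.one_pos
  | k + 1, (none, j) => by
    have h := decomp_nnS_pos Λ hΛ k j
    have h2 : 4 ≤ 2 ^ (k + 2) := by
      calc 4 = 2 ^ 2 := by norm_num
        _ ≤ 2 ^ (k + 2) := Nat.pow_le_pow_right (by norm_num) (by omega)
    have h3 : 2 * 1 ≤ (2 ^ (k + 2) - 2) * Λ := Nat.mul_le_mul (by omega) hΛ
    exact Nat.mul_pos (by omega) h
  | k + 1, (some _, j) => decomp_nnS_pos Λ hΛ k j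

/-- Repeating the slots. -/
theorem decomp_prod {Γ ι : Type*} [CommMonoid Γ] [Fintype ι] (m : ι → ℕ) (g : ι → Γ) :
    ∏ a : (Σ j : ι, Fin (m j)), g a.1 = ∏ j, g j ^ m j := by
  rw [Fintype.prod_sigma]
  refine Finset.prod_congr rfl fun j _ => ?_
  change ∏ _y : Fin (m j), g j = g j ^ m j
  rw [Finset.prod_const, Finset.card_univ, Fintype.card_fin]

/-- The universal case. -/
theorem decomp_univF (F : Type) [Field F] [CharZero F] (n : ℕ) : ∃ (L1 : Type) (_ : Field L1)
    (_ : CharZero L1) (_ : IsAlgClosed L1) (_ : Algebra F L1) (v1 : Fin n → L1),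
      AlgebraicIndependent F v1 ∧ Algebra.IsAlgebraic (adjoin F (Set.range v1)) L1 := by
  let K' : Type := FractionRing (MvPolynomial (Fin n) F)
  let L1 : Type := AlgebraicClosure K'
  have hch : CharZero L1 := charZero_of_injective_algebraMap
    ((algebraMap K' L1).comp (algebraMap F K')).injective
  refine ⟨L1, inferInstance, hch, inferInstance,
    ((algebraMap K' L1).comp (algebraMap F K')).toAlgebra, fun i =>
    algebraMap K' L1 (algebraMap (MvPolynomial (Fin n) F) K' (MvPolynomial.X i)), ?_⟩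
  set v1 : Fin n → L1 := fun i =>
    algebraMap K' L1 (algebraMap (MvPolynomial (Fin n) F) K' (MvPolynomial.X i)) with hv1def
  let algF : Algebra F L1 := ((algebraMap K' L1).comp (algebraMap F K')).toAlgebra
  let φ : MvPolynomial (Fin n) F →+* L1 :=
    (algebraMap K' L1).comp (algebraMap (MvPolynomial (Fin n) F) K')
  have hφ : Function.Injective φ :=
    (algebraMap K' L1).injective.comp (IsFractionRing.injective _ _)
  have hae : (MvPolynomial.aeval v1 : MvPolynomial (Fin n) F →ₐ[F] L1).toRingHom = φ := by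
    refine MvPolynomial.ringHom_ext (fun r => ?_) (fun i => ?_)
    · change MvPolynomial.aeval v1 (MvPolynomial.C r) = _
      rw [MvPolynomial.aeval_C]
      rfl
    · change MvPolynomial.aeval v1 (MvPolynomial.X i) = _
      rw [MvPolynomial.aeval_X]
      rfl
  have hv1 : AlgebraicIndependent F v1 := by
    rw [algebraicIndependent_iff_injective_aeval]
    change Function.Injective (MvPolynomial.aeval v1 : MvPolynomial (Fin n) F →ₐ[F] L1).toRingHom
    rw [hae]
    exact hφ
  refine ⟨hv1, ?_⟩
  have hcomp : RingHom.comp (algebraMap (adjoin F (Set.range v1)) L1)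
      (hv1.aevalEquivField.toRingEquiv.toRingHom) =
      RingHom.comp (RingHom.id L1) (algebraMap K' L1) := by
    refine IsLocalization.ringHom_ext (nonZeroDivisors (MvPolynomial (Fin n) F)) ?_
    refine RingHom.ext fun p => ?_
    change ((hv1.aevalEquivField (algebraMap _ _ p) : adjoin F (Set.range v1)) : L1) = φ p
    rw [AlgebraicIndependent.aevalEquivField_algebraMap_apply_coe, ← hae]
    rfl
  exact Algebra.IsAlgebraic.ringHom_of_comp_eq
    (hv1.aevalEquivField.toRingEquiv.toRingHom) (RingHom.id L1)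
    hv1.aevalEquivField.injective Function.surjective_id hcomp

theorem decomp_univ (n : ℕ) : ∃ (L1 : Type) (_ : Field L1) (_ : CharZero L1)
    (_ : IsAlgClosed L1) (v1 : Fin n → L1), AlgebraicIndependent ℚ v1 ∧
      Algebra.IsAlgebraic (adjoin ℚ (Set.range v1)) L1 := by
  obtain ⟨L1, i1, i2, i3, i4, v1, h1, h2⟩ := decomp_univF ℚ n
  have : i4 = DivisionRing.toRatAlgebra := Subsingleton.elim _ _
  subst this
  exact ⟨L1, i1, i2, i3, v1, h1, h2⟩

/-- The specialisation map. -/
theorem decomp_sigmaF {F K₀ L1 L : Type} [Field F] [Field K₀] [Field L1] [Field L]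
    [Algebra F L1] [Algebra F K₀] [Algebra K₀ L] [Algebra F L] [IsScalarTower F K₀ L] {n : ℕ}
    (v1 : Fin n → L1) (hv1 : AlgebraicIndependent F v1) (v : Fin n → L)
    (hv : AlgebraicIndependent K₀ v) :
    ∃ σ : adjoin F (Set.range v1) →+* adjoin K₀ (Set.range v),
      ∀ i, ((σ ⟨v1 i, subset_adjoin F _ (Set.mem_range_self i)⟩ :
        adjoin K₀ (Set.range v)) : L) = v i := by
  have hvQ : AlgebraicIndependent F v := hv.restrictScalars (algebraMap F K₀).injective
  let v' : Fin n → adjoin K₀ (Set.range v) :=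
    fun i => ⟨v i, subset_adjoin K₀ _ (Set.mem_range_self i)⟩
  let ρ : F →+* adjoin K₀ (Set.range v) :=
    (algebraMap K₀ (adjoin K₀ (Set.range v))).comp (algebraMap F K₀)
  let φ : MvPolynomial (Fin n) F →+* adjoin K₀ (Set.range v) := MvPolynomial.eval₂Hom ρ v'
  have hφ : Function.Injective φ := by
    have h1 : ((algebraMap (adjoin K₀ (Set.range v)) L).comp φ) =
        (MvPolynomial.aeval v : MvPolynomial (Fin n) F →ₐ[F] L).toRingHom := by
      refine MvPolynomial.ringHom_ext (fun r => ?_) (fun i => ?_)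
      · change (algebraMap (adjoin K₀ (Set.range v)) L)
          (MvPolynomial.eval₂Hom ρ v' (MvPolynomial.C r)) =
          MvPolynomial.aeval v (MvPolynomial.C r)
        rw [MvPolynomial.eval₂Hom_C, MvPolynomial.aeval_C, IsScalarTower.algebraMap_apply F K₀ L]
        rfl
      · change (algebraMap (adjoin K₀ (Set.range v)) L)
          (MvPolynomial.eval₂Hom ρ v' (MvPolynomial.X i)) =
          MvPolynomial.aeval v (MvPolynomial.X i)
        rw [MvPolynomial.eval₂Hom_X', MvPolynomial.aeval_X]
        rfl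
    have h2 : Function.Injective ((algebraMap (adjoin K₀ (Set.range v)) L).comp φ) := by
      rw [h1]
      exact hvQ
    rw [RingHom.coe_comp] at h2
    exact Function.Injective.of_comp h2
  let ψ : FractionRing (MvPolynomial (Fin n) F) →+* adjoin K₀ (Set.range v) :=
    IsFractionRing.lift (g := φ) hφ
  refine ⟨ψ.comp hv1.reprField.toRingHom, fun i => ?_⟩
  have h3 : hv1.reprField ⟨v1 i, subset_adjoin F _ (Set.mem_range_self i)⟩ =
      algebraMap (MvPolynomial (Fin n) F) _ (MvPolynomial.X i) := by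
    change hv1.aevalEquivField.symm _ = _
    rw [AlgEquiv.symm_apply_eq]
    apply Subtype.ext
    rw [AlgebraicIndependent.aevalEquivField_algebraMap_apply_coe, MvPolynomial.aeval_X]
  change ((ψ (hv1.reprField ⟨v1 i, subset_adjoin F _ (Set.mem_range_self i)⟩) :
    adjoin K₀ (Set.range v)) : L) = v i
  rw [h3]
  change (((IsFractionRing.lift (g := φ) hφ) _ : adjoin K₀ (Set.range v)) : L) = v i
  rw [IsFractionRing.lift_algebraMap]
  change ((MvPolynomial.eval₂Hom ρ v' (MvPolynomial.X i) : adjoin K₀ (Set.range v)) : L) = v i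
  rw [MvPolynomial.eval₂Hom_X']

theorem decomp_sigma {K₀ L1 L : Type} [Field K₀] [CharZero K₀] [Field L1] [CharZero L1] [Field L]
    [Algebra K₀ L] {n : ℕ} (v1 : Fin n → L1) (hv1 : AlgebraicIndependent ℚ v1) (v : Fin n → L)
    (hv : AlgebraicIndependent K₀ v) :
    ∃ σ : adjoin ℚ (Set.range v1) →+* adjoin K₀ (Set.range v),
      ∀ i, ((σ ⟨v1 i, subset_adjoin ℚ _ (Set.mem_range_self i)⟩ :
        adjoin K₀ (Set.range v)) : L) = v i := by
  have hch : CharZero L := charZero_of_injective_algebraMap (algebraMap K₀ L).injective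
  exact decomp_sigmaF v1 hv1 v hv

/-- The decomposition over the algebraic closure of `ℚ(v)`, with the slots repeated according to
their multiplicities. -/
theorem exists_decomp_rat (k l : ℕ) (hl : l.Prime) :
    ∃ e M : ℕ, 0 < e ∧ l ∣ e ∧ 0 < M ∧
      ∀ (L : Type) [Field L] [CharZero L] [IsAlgClosed L] (v : Fin (k + 2) → L),
        AlgebraicIndependent ℚ v → Algebra.IsAlgebraic (adjoin ℚ (Set.range v)) L →
        ∃ (Lm : L) (x : Fin M → L), Lm ≠ 0 ∧
          (∀ V : ValuationSubring L, (∀ m : ℕ, m ≠ 0 → V.valuation (m : L) = 1) →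
            vmax (fun i => V.valuation (v i)) ^ e =
              V.valuation Lm * ∏ j, max (V.valuation (x j)) 1) ∧
          FiniteDimensional (adjoin ℚ (Set.range v))
            (adjoin (adjoin ℚ (Set.range v)) (insert Lm (Set.range x))) ∧
          (Module.finrank (adjoin ℚ (Set.range v))
            (adjoin (adjoin ℚ (Set.range v)) (insert Lm (Set.range x)))).Coprime l := by
  classical
  let I : Type := Σ j : Slot k, Fin (nnS l k j * l)
  let eI : I ≃ Fin (Fintype.card I) := Fintype.equivFin I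
  refine ⟨eN k * l, Fintype.card I, Nat.mul_pos (decomp_eN_pos k) hl.pos, dvd_mul_left _ _, ?_, ?_⟩
  · obtain ⟨j⟩ := instNonemptySlot k
    have : Nonempty I := ⟨⟨j, ⟨0, Nat.mul_pos (decomp_nnS_pos l hl.one_le k j) hl.pos⟩⟩⟩
    exact Fintype.card_pos
  intro L _ _ _ v hv halg
  set K := adjoin ℚ (Set.range v) with hK
  obtain ⟨F, hF1, hF2⟩ := exists_lclosed (K := K) (L := L) l hl
  have halgF : Algebra.IsAlgebraic F L := Algebra.IsAlgebraic.tower_top (K := K) F
  have hvF : ∀ i, v i ∈ (algebraMap F L).fieldRange := by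
    intro i
    have h1 : v i ∈ K := subset_adjoin ℚ _ (Set.mem_range_self i)
    exact ⟨algebraMap K F ⟨v i, h1⟩, rfl⟩
  obtain ⟨d, hd, hdF⟩ := exists_pt_in (F := F) l hl hF2 k v hv hvF
  have hrange : ∀ y : L, y ∈ (algebraMap F L).fieldRange → y ∈ F := by
    rintro y ⟨z, rfl⟩
    exact z.2
  have hlamF := hrange _ (lam_mem (algebraMap F L).fieldRange l k v hvF d hdF)
  have hpenF : ∀ j, pen k v d j ∈ F := fun j =>
    hrange _ (pen_mem (algebraMap F L).fieldRange k v hvF d hdF j)
  set Lm : L := lam l k v d ^ l with hLm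
  set x : Fin (Fintype.card I) → L := fun a => pen k v d (eI.symm a).1 with hx
  have hcopr := coprime_adjoin (K := K) l F hF1 (insert Lm (Finset.univ.image x)) (by
    intro y hy
    rw [Finset.mem_insert, Finset.mem_image] at hy
    rcases hy with rfl | ⟨a, _, rfl⟩
    · exact pow_mem hlamF l
    · exact hpenF _)
  have hS : ((insert Lm (Finset.univ.image x) : Finset L) : Set L) = insert Lm (Set.range x) := by
    rw [Finset.coe_insert, Finset.coe_image, Finset.coe_univ, Set.image_univ]
  rw [hS] at hcopr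
  refine ⟨Lm, x, pow_ne_zero l (lam_ne_zero v hv d hd), ?_, hcopr.1, hcopr.2⟩
  intro V hV
  have hb := base_val hl.one_le v hv d hd V hV
  rw [pow_mul, hb, mul_pow, ← map_pow, ← Finset.prod_pow]
  congr 1
  simp_rw [← pow_mul]
  rw [← decomp_prod (fun j => nnS l k j * l) (fun j => max (V.valuation (pen k v d j)) 1)]
  rw [hx]
  exact (Equiv.prod_comp eI.symm (fun a : I => max (V.valuation (pen k v d a.1)) 1)).symm

/-- **Decomposition.**  The value of a generic vector is, up to a power and a factor, a product of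
values of points of the line; these are defined over an extension of bounded degree prime
to `l`. -/
theorem exists_decomp (k l : ℕ) (hl : l.Prime) :
    ∃ e M D : ℕ, 0 < e ∧ l ∣ e ∧ 0 < M ∧
      ∀ (K₀ L : Type) [Field K₀] [CharZero K₀] [Field L] [IsAlgClosed L] [Algebra K₀ L]
        (v : Fin (k + 2) → L), AlgebraicIndependent K₀ v →
        ∃ (Lm : L) (x : Fin M → L), Lm ≠ 0 ∧
          (∀ V : ValuationSubring L, (∀ m : ℕ, m ≠ 0 → V.valuation (m : L) = 1) →
            vmax (fun i => V.valuation (v i)) ^ e =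
              V.valuation Lm * ∏ j, max (V.valuation (x j)) 1) ∧
          FiniteDimensional (adjoin K₀ (Set.range v))
            (adjoin (adjoin K₀ (Set.range v)) (insert Lm (Set.range x))) ∧
          Module.finrank (adjoin K₀ (Set.range v))
            (adjoin (adjoin K₀ (Set.range v)) (insert Lm (Set.range x))) ≤ D ∧
          (Module.finrank (adjoin K₀ (Set.range v))
            (adjoin (adjoin K₀ (Set.range v)) (insert Lm (Set.range x)))).Coprime l := by
  obtain ⟨e, M, he, hle, hM, hrat⟩ := exists_decomp_rat k l hl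
  obtain ⟨L1, i1, i2, i3, v1, hv1, halg⟩ := decomp_univ (k + 2)
  obtain ⟨Lm1, x1, hLm1, hval1, hfin1, hcop1⟩ := hrat L1 v1 hv1 halg
  refine ⟨e, M, Module.finrank (adjoin ℚ (Set.range v1))
    (adjoin (adjoin ℚ (Set.range v1)) (insert Lm1 (Set.range x1))), he, hle, hM, ?_⟩
  intro K₀ L _ _ _ _ _ v hv
  obtain ⟨σ, hσ⟩ := decomp_sigma v1 hv1 v hv
  obtain ⟨ι, hι, hfin, hle', hcop⟩ := decomp_embed (K1 := adjoin ℚ (Set.range v1))
    (K := adjoin K₀ (Set.range v)) (L1 := L1) (L := L) σ l hl (insert Lm1 (Set.range x1)) hfin1 hcop1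
  have hS : ι '' (insert Lm1 (Set.range x1)) = insert (ι Lm1) (Set.range fun j => ι (x1 j)) := by
    rw [Set.image_insert_eq, ← Set.range_comp]
    rfl
  rw [hS] at hfin hle' hcop
  refine ⟨ι Lm1, fun j => ι (x1 j), (map_ne_zero ι).mpr hLm1, ?_, hfin, hle', hcop⟩
  intro V hV
  have hιv : ∀ i, ι (v1 i) = v i := by
    intro i
    rw [← hσ i]
    exact hι ⟨v1 i, subset_adjoin ℚ _ (Set.mem_range_self i)⟩
  have heq := decomp_comap ι V
  have h1 := hval1 (V.comap ι) (by
    intro m hm
    have h2 : (V.valuation.comap ι) (m : L1) = 1 := by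
      rw [Valuation.comap_apply, map_natCast]
      exact hV m hm
    exact heq.eq_one_iff_eq_one.mpr h2)
  have h3 := decomp_transfer _ _ heq v1 Lm1 x1 e h1
  simp only [Valuation.comap_apply, hιv] at h3
  exact h3

end Pool.Agent.DensDeg
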