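import Pool.Agent.DensDeg.Defs

set_option autoImplicit false

namespace Pool.Agent.DensDeg

/-! ### Auxiliary lemmas -/

section UniqAux

variable {κ L : Type} [Field κ] [Field L] [Algebra κ L] {n : ℕ} {x : Fin n → L}

/-- The ring generated by the coordinates. -/
abbrev UniqA (κ : Type) {L : Type} [Field κ] [Field L] [Algebra κ L] {n : ℕ} (x : Fin n → L) :
    Subalgebra κ L := Algebra.adjoin κ (Set.range x)

/-- The coordinates in the ring they generate. -/
def uniqX (κ : Type) {L : Type} [Field κ] [Field L] [Algebra κ L] {n : ℕ} (x : Fin n → L)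
    (i : Fin n) : UniqA κ x := ⟨x i, Algebra.subset_adjoin ⟨i, rfl⟩⟩

/-- The ideal of the point `(2, …, 2)`. -/
def uniqP (κ : Type) {L : Type} [Field κ] [Field L] [Algebra κ L] {n : ℕ} (x : Fin n → L) :
    Ideal (UniqA κ x) := Ideal.span (Set.range fun i => uniqX κ x i - 2)

/-- The valuation ring is centred at the point `(2, …, 2)`. -/
def UniqC (κ : Type) {L : Type} [Field κ] [Field L] [Algebra κ L] {n : ℕ} (x : Fin n → L)
    (V : ValuationSubring L) : Prop :=
  (∀ a : κ, algebraMap κ L a ∈ V) ∧ ∀ i, V.valuation (x i - 2) < 1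

lemma uniq_coe_two : ((2 : UniqA κ x) : L) = 2 := rfl

lemma uniqX_coe (i : Fin n) : ((uniqX κ x i : UniqA κ x) : L) = x i := rfl

lemma uniq_const (a : UniqA κ x) : ∃ c : κ, a - algebraMap κ (UniqA κ x) c ∈ uniqP κ x := by
  obtain ⟨a, ha⟩ := a
  induction ha using Algebra.adjoin_induction with
  | mem y hy =>
    obtain ⟨i, rfl⟩ := hy
    refine ⟨2, ?_⟩
    rw [map_ofNat]
    exact Ideal.subset_span ⟨i, rfl⟩
  | algebraMap r =>
    refine ⟨r, ?_⟩
    have h1 : (⟨algebraMap κ L r, Subalgebra.algebraMap_mem _ r⟩ : UniqA κ x) -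
        algebraMap κ (UniqA κ x) r = 0 := by
      rw [sub_eq_zero]
      rfl
    rw [h1]
    exact (uniqP κ x).zero_mem
  | add y z hy hz h1 h2 =>
    obtain ⟨c, hc⟩ := h1
    obtain ⟨d, hd⟩ := h2
    refine ⟨c + d, ?_⟩
    have h3 : (⟨y + z, Subalgebra.add_mem _ hy hz⟩ : UniqA κ x) - algebraMap κ (UniqA κ x) (c + d) =
        ((⟨y, hy⟩ : UniqA κ x) - algebraMap κ (UniqA κ x) c) +
          ((⟨z, hz⟩ : UniqA κ x) - algebraMap κ (UniqA κ x) d) := by
      have : (⟨y + z, Subalgebra.add_mem _ hy hz⟩ : UniqA κ x) = ⟨y, hy⟩ + ⟨z, hz⟩ := rfl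
      rw [this, map_add]
      ring
    rw [h3]
    exact (uniqP κ x).add_mem hc hd
  | mul y z hy hz h1 h2 =>
    obtain ⟨c, hc⟩ := h1
    obtain ⟨d, hd⟩ := h2
    refine ⟨c * d, ?_⟩
    have h3 : (⟨y * z, Subalgebra.mul_mem _ hy hz⟩ : UniqA κ x) - algebraMap κ (UniqA κ x) (c * d) =
        (⟨z, hz⟩ : UniqA κ x) * ((⟨y, hy⟩ : UniqA κ x) - algebraMap κ (UniqA κ x) c) +
          algebraMap κ (UniqA κ x) c * ((⟨z, hz⟩ : UniqA κ x) - algebraMap κ (UniqA κ x) d) := by
      have : (⟨y * z, Subalgebra.mul_mem _ hy hz⟩ : UniqA κ x) = ⟨y, hy⟩ * ⟨z, hz⟩ := rfl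
      rw [this, map_mul]
      ring
    rw [h3]
    exact (uniqP κ x).add_mem ((uniqP κ x).mul_mem_left _ hc) ((uniqP κ x).mul_mem_left _ hd)

lemma uniq_two_mem {V : ValuationSubring L} : (2 : L) ∈ V := by
  have := V.add_mem _ _ V.one_mem V.one_mem
  rwa [one_add_one_eq_two] at this

lemma uniq_mem {V : ValuationSubring L} (hV : UniqC κ x V) (a : UniqA κ x) : (a : L) ∈ V := by
  obtain ⟨a, ha⟩ := a
  induction ha using Algebra.adjoin_induction with
  | mem y hy =>
    obtain ⟨i, rfl⟩ := hy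
    have h1 : x i - 2 ∈ V := (V.valuation_le_one_iff _).mp (hV.2 i).le
    have h2 := V.add_mem _ _ h1 uniq_two_mem
    rwa [sub_add_cancel] at h2
  | algebraMap r => exact hV.1 r
  | add y z hy hz h1 h2 => exact V.add_mem _ _ h1 h2
  | mul y z hy hz h1 h2 => exact V.mul_mem _ _ h1 h2

lemma uniq_le {V : ValuationSubring L} (hV : UniqC κ x V) (a : UniqA κ x) :
    V.valuation (a : L) ≤ 1 := (V.valuation_le_one_iff _).mpr (uniq_mem hV a)

lemma uniq_lt {V : ValuationSubring L} (hV : UniqC κ x V) {a : UniqA κ x} (ha : a ∈ uniqP κ x) :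
    V.valuation (a : L) < 1 := by
  induction ha using Submodule.span_induction with
  | mem y hy =>
    obtain ⟨i, rfl⟩ := hy
    exact hV.2 i
  | zero => simp
  | add y z hy hz h1 h2 =>
    refine lt_of_le_of_lt (V.valuation.map_add _ _) (max_lt h1 h2)
  | smul r y hy h1 =>
    have h2 : ((r • y : UniqA κ x) : L) = (r : L) * (y : L) := rfl
    rw [h2, map_mul]
    exact mul_lt_one_of_nonneg_of_lt_one_right (uniq_le hV r) zero_le h1

lemma uniq_scalar {V : ValuationSubring L} (hκ : ∀ a : κ, algebraMap κ L a ∈ V) {c : κ}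
    (hc : c ≠ 0) : V.valuation (algebraMap κ L c) = 1 := by
  have h1 := (V.valuation_le_one_iff _).mpr (hκ c)
  have h2 := (V.valuation_le_one_iff _).mpr (hκ c⁻¹)
  refine le_antisymm h1 ?_
  by_contra hlt
  rw [not_le] at hlt
  have h3 : V.valuation (algebraMap κ L c) * V.valuation (algebraMap κ L c⁻¹) = 1 := by
    rw [← map_mul, ← map_mul, mul_inv_cancel₀ hc, map_one, map_one]
  have h4 : V.valuation (algebraMap κ L c) * V.valuation (algebraMap κ L c⁻¹) < 1 :=
    mul_lt_one_of_lt_of_le hlt h2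
  exact absurd h3 h4.ne

lemma uniq_one {V : ValuationSubring L} (hV : UniqC κ x V) {a : UniqA κ x}
    (ha : a ∉ uniqP κ x) : V.valuation (a : L) = 1 := by
  refine le_antisymm (uniq_le hV a) ?_
  by_contra hlt
  rw [not_le] at hlt
  apply ha
  obtain ⟨c, hc⟩ := uniq_const a
  have h1 := uniq_lt hV hc
  have h2 : algebraMap κ L c = (a : L) - ((a - algebraMap κ (UniqA κ x) c : UniqA κ x) : L) := by
    push_cast
    rw [sub_sub_cancel]
  have h3 : V.valuation (algebraMap κ L c) < 1 := by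
    rw [h2]
    exact lt_of_le_of_lt (V.valuation.map_sub _ _) (max_lt hlt h1)
  have h4 : c = 0 := by
    by_contra hne
    rw [uniq_scalar hV.1 hne] at h3
    exact lt_irrefl _ h3
  rw [h4, map_zero, sub_zero] at hc
  exact hc

lemma uniq_lt_iff {V : ValuationSubring L} (hV : UniqC κ x V) {a : UniqA κ x} :
    V.valuation (a : L) < 1 ↔ a ∈ uniqP κ x := by
  refine ⟨fun h => ?_, uniq_lt hV⟩
  by_contra hne
  rw [uniq_one hV hne] at h
  exact lt_irrefl _ h

lemma uniq_inv {a : UniqA κ x} (ha : a ∉ uniqP κ x) (k : ℕ) :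
    ∃ r : UniqA κ x, 1 - a * r ∈ uniqP κ x ^ k := by
  obtain ⟨c, hc⟩ := uniq_const a
  have hc0 : c ≠ 0 := by
    rintro rfl
    rw [map_zero, sub_zero] at hc
    exact ha hc
  set u : UniqA κ x := 1 - a * algebraMap κ (UniqA κ x) c⁻¹ with hu
  have h1 : u ∈ uniqP κ x := by
    have h2 : u = -(algebraMap κ (UniqA κ x) c⁻¹ * (a - algebraMap κ (UniqA κ x) c)) := by
      have h3 : algebraMap κ (UniqA κ x) c⁻¹ * algebraMap κ (UniqA κ x) c = 1 := by
        rw [← map_mul, inv_mul_cancel₀ hc0, map_one]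
      rw [hu, mul_sub, h3]
      ring
    rw [h2]
    exact (uniqP κ x).neg_mem ((uniqP κ x).mul_mem_left _ hc)
  refine ⟨algebraMap κ (UniqA κ x) c⁻¹ * ∑ j ∈ Finset.range k, u ^ j, ?_⟩
  have h4 : 1 - a * (algebraMap κ (UniqA κ x) c⁻¹ * ∑ j ∈ Finset.range k, u ^ j) = u ^ k := by
    have h5 := mul_neg_geom_sum u k
    have h6 : a * algebraMap κ (UniqA κ x) c⁻¹ = 1 - u := by rw [hu]; ring
    rw [← mul_assoc, h6, h5]
    ring
  rw [h4]
  exact Ideal.pow_mem_pow h1 k

lemma uniq_prim {a b : UniqA κ x} (ha : a ∉ uniqP κ x) {k : ℕ} (h : a * b ∈ uniqP κ x ^ k) :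
    b ∈ uniqP κ x ^ k := by
  obtain ⟨r, hr⟩ := uniq_inv ha k
  have h1 : b = (1 - a * r) * b + r * (a * b) := by ring
  rw [h1]
  exact Ideal.add_mem _ (Ideal.mul_mem_right _ _ hr) (Ideal.mul_mem_left _ _ h)

lemma uniq_noeth : IsNoetherianRing (UniqA κ x) := by
  have h1 : (UniqA κ x).FG := by
    have h2 := Subalgebra.fg_adjoin_finset (R := κ) (Set.finite_range x).toFinset
    rwa [Set.Finite.coe_toFinset] at h2
  have h3 : Algebra.FiniteType κ (UniqA κ x) := Subalgebra.fg_iff_finiteType _ |>.mp h1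
  exact Algebra.FiniteType.isNoetherianRing κ (UniqA κ x)

/-- The product of the units `gg (x i) ^ Λ`. -/
def uniqG (κ : Type) {L : Type} [Field κ] [Field L] [Algebra κ L] {n : ℕ} (x : Fin n → L)
    (Λ : ℕ) : UniqA κ x := ∏ i, gg (uniqX κ x i) ^ Λ

lemma uniq_val_two [CharZero κ] {V : ValuationSubring L} (hκ : ∀ a : κ, algebraMap κ L a ∈ V) :
    V.valuation (2 : L) = 1 := by
  have := uniq_scalar hκ (c := (2 : κ)) two_ne_zero
  rwa [map_ofNat] at this

lemma uniq_gg_sub (i : Fin n) : gg (uniqX κ x i) - 2 ∈ uniqP κ x := by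
  have h1 : gg (uniqX κ x i) - 2 = (uniqX κ x i + 1) * (uniqX κ x i - 2) := by
    unfold gg
    ring
  rw [h1]
  exact (uniqP κ x).mul_mem_left _ (Ideal.subset_span ⟨i, rfl⟩)

lemma uniq_gg_pow_sub (Λ : ℕ) (i : Fin n) : gg (uniqX κ x i) ^ Λ - 2 ^ Λ ∈ uniqP κ x := by
  have h1 := uniq_gg_sub (κ := κ) (x := x) i
  have h2 : gg (uniqX κ x i) - 2 ∣ gg (uniqX κ x i) ^ Λ - 2 ^ Λ := sub_dvd_pow_sub_pow _ _ Λ
  exact Ideal.mem_of_dvd _ h2 h1

lemma uniq_gg_one [CharZero κ] {V : ValuationSubring L} (hV : UniqC κ x V) (Λ : ℕ) (i : Fin n) :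
    V.valuation ((gg (uniqX κ x i) ^ Λ : UniqA κ x) : L) = 1 := by
  have h1 := uniq_lt hV (uniq_gg_pow_sub (κ := κ) (x := x) Λ i)
  have h2 : V.valuation ((2 : L) ^ Λ) = 1 := by rw [map_pow, uniq_val_two hV.1, one_pow]
  have h3 : ((gg (uniqX κ x i) ^ Λ : UniqA κ x) : L) = (2 : L) ^ Λ +
      ((gg (uniqX κ x i) ^ Λ - 2 ^ Λ : UniqA κ x) : L) := by
    push_cast
    rw [uniq_coe_two]
    ring
  rw [h3, Valuation.map_add_eq_of_lt_left, h2]
  rwa [h2]

lemma uniq_SS_one [CharZero κ] {V : ValuationSubring L} (hV : UniqC κ x V) (Λ : ℕ) (i₀ : Fin n) :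
    V.valuation ((SS Λ (uniqX κ x) : UniqA κ x) : L) = 1 := by
  have h1 : SS Λ (uniqX κ x) - (n : UniqA κ x) * 2 ^ Λ ∈ uniqP κ x := by
    have h2 : SS Λ (uniqX κ x) - (n : UniqA κ x) * 2 ^ Λ =
        ∑ i, (gg (uniqX κ x i) ^ Λ - 2 ^ Λ) := by
      unfold SS
      rw [Finset.sum_sub_distrib, Finset.sum_const, Finset.card_univ, Fintype.card_fin,
        nsmul_eq_mul]
    rw [h2]
    exact Ideal.sum_mem _ fun i _ => uniq_gg_pow_sub Λ i
  have h2 := uniq_lt hV h1
  have hn : (n : κ) ≠ 0 := by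
    have : 0 < n := Fin.pos i₀
    exact_mod_cast this.ne'
  have h3 : V.valuation ((n : L) * (2 : L) ^ Λ) = 1 := by
    have h4 := uniq_scalar hV.1 hn
    rw [map_natCast] at h4
    rw [map_mul, map_pow, uniq_val_two hV.1, one_pow, h4, one_mul]
  have h5 : ((SS Λ (uniqX κ x) : UniqA κ x) : L) = (n : L) * (2 : L) ^ Λ +
      ((SS Λ (uniqX κ x) - (n : UniqA κ x) * 2 ^ Λ : UniqA κ x) : L) := by
    push_cast
    rw [uniq_coe_two]
    ring
  rw [h5, Valuation.map_add_eq_of_lt_left, h3]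
  rwa [h3]

lemma uniq_G_one [CharZero κ] {V : ValuationSubring L} (hV : UniqC κ x V) (Λ : ℕ) :
    V.valuation ((uniqG κ x Λ : UniqA κ x) : L) = 1 := by
  have h1 : ((uniqG κ x Λ : UniqA κ x) : L) =
      ∏ i, ((gg (uniqX κ x i) ^ Λ : UniqA κ x) : L) := by
    unfold uniqG
    exact map_prod (UniqA κ x).val _ _
  rw [h1, map_prod]
  exact Finset.prod_eq_one fun i _ => uniq_gg_one hV Λ i

lemma uniq_coe_gg (i : Fin n) : ((gg (uniqX κ x i) : UniqA κ x) : L) = gg (x i) := rfl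

lemma uniq_coe_SS (Λ : ℕ) : ((SS Λ (uniqX κ x) : UniqA κ x) : L) = SS Λ x := by
  unfold SS
  have := map_sum (UniqA κ x).val (fun j => gg (uniqX κ x j) ^ Λ) Finset.univ
  refine this.trans ?_
  rfl

/-- First step: elements of the ideal. -/
lemma uniq_step {Λ : ℕ} {ε : L} {η : Fin n → κ}
    (hy : ∀ i, ff Λ (x i) = algebraMap κ L (η i) * ε * SS Λ x) {m : UniqA κ x}
    (hm : m ∈ uniqP κ x) : ∃ s : UniqA κ x, (m : L) * (uniqG κ x Λ : L) = ε * (s : L) := by
  classical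
  induction hm using Submodule.span_induction with
  | mem y hy' =>
    obtain ⟨i, rfl⟩ := hy'
    refine ⟨algebraMap κ (UniqA κ x) (η i) * SS Λ (uniqX κ x) *
      ∏ j ∈ Finset.univ.erase i, gg (uniqX κ x j) ^ Λ, ?_⟩
    have h1 : uniqG κ x Λ = gg (uniqX κ x i) ^ Λ *
        ∏ j ∈ Finset.univ.erase i, gg (uniqX κ x j) ^ Λ := by
      exact (Finset.mul_prod_erase _ (fun j => gg (uniqX κ x j) ^ Λ) (Finset.mem_univ i)).symm
    rw [h1]
    have h2 := hy i
    unfold ff at h2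
    push_cast
    rw [uniq_coe_SS, uniqX_coe, uniq_coe_two]
    have h3 : ((gg (uniqX κ x i) : UniqA κ x) : L) = gg (x i) := rfl
    rw [h3, ← mul_assoc, h2]
    ring
  | zero => exact ⟨0, by simp⟩
  | add y z _ _ h1 h2 =>
    obtain ⟨s, hs⟩ := h1
    obtain ⟨t, ht⟩ := h2
    refine ⟨s + t, ?_⟩
    push_cast
    rw [add_mul, hs, ht, mul_add]
  | smul r y _ h1 =>
    obtain ⟨s, hs⟩ := h1
    refine ⟨r * s, ?_⟩
    have h2 : ((r • y : UniqA κ x) : L) = (r : L) * (y : L) := rfl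
    rw [h2]
    push_cast
    rw [mul_assoc, hs]
    ring

/-- Elements of a power of the ideal. -/
lemma uniq_pow {Λ : ℕ} {ε : L} {η : Fin n → κ}
    (hy : ∀ i, ff Λ (x i) = algebraMap κ L (η i) * ε * SS Λ x) (k : ℕ) :
    ∀ a ∈ uniqP κ x ^ k, ∃ s : UniqA κ x, (a : L) * (uniqG κ x Λ : L) ^ k = ε ^ k * (s : L) := by
  induction k with
  | zero => exact fun a _ => ⟨a, by simp⟩
  | succ k ih =>
    intro a ha
    rw [pow_succ] at ha
    induction ha using Submodule.mul_induction_on' with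
    | mem_mul_mem m hm p hp =>
      obtain ⟨s, hs⟩ := ih m hm
      obtain ⟨t, ht⟩ := uniq_step hy hp
      refine ⟨s * t, ?_⟩
      push_cast
      calc (m : L) * (p : L) * (uniqG κ x Λ : L) ^ (k + 1)
          = ((m : L) * (uniqG κ x Λ : L) ^ k) * ((p : L) * (uniqG κ x Λ : L)) := by ring
        _ = ε ^ (k + 1) * ((s : L) * (t : L)) := by rw [hs, ht]; ring
    | add y _ z _ h1 h2 =>
      obtain ⟨s, hs⟩ := h1
      obtain ⟨t, ht⟩ := h2
      refine ⟨s + t, ?_⟩
      push_cast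
      rw [add_mul, hs, ht, mul_add]

/-- The elements of the ring are powers of `ε` times units. -/
lemma uniq_K [CharZero κ] {V : ValuationSubring L} (hV : UniqC κ x V) {Λ : ℕ} {ε : L}
    {η : Fin n → κ} {i₀ : Fin n} (hη : η i₀ ≠ 0)
    (hy : ∀ i, ff Λ (x i) = algebraMap κ L (η i) * ε * SS Λ x) {a : UniqA κ x} (ha : a ≠ 0) :
    ∃ (k : ℕ) (s t : UniqA κ x), s ∉ uniqP κ x ∧ t ∉ uniqP κ x ∧
      (a : L) * (t : L) = ε ^ k * (s : L) := by
  classical
  have hne : uniqP κ x ≠ ⊤ := by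
    intro h
    have h1 : (1 : UniqA κ x) ∈ uniqP κ x := by rw [h]; trivial
    have h2 := uniq_lt hV h1
    rw [OneMemClass.coe_one, map_one] at h2
    exact lt_irrefl _ h2
  have hnoeth := uniq_noeth (κ := κ) (x := x)
  have hbot := Ideal.iInf_pow_eq_bot_of_isDomain (I := uniqP κ x) hne
  have hex : ∃ k, a ∉ uniqP κ x ^ k := by
    by_contra hcon
    push Not at hcon
    apply ha
    have h1 : a ∈ ⨅ i : ℕ, uniqP κ x ^ i := by
      rw [Ideal.mem_iInf]
      exact hcon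
    rw [hbot] at h1
    exact (Ideal.mem_bot).mp h1
  obtain ⟨k, hk1, hk2⟩ : ∃ k, a ∈ uniqP κ x ^ k ∧ a ∉ uniqP κ x ^ (k + 1) := by
    have hf0 : Nat.find hex ≠ 0 := by
      intro h0
      have := Nat.find_spec hex
      rw [h0, pow_zero, Ideal.one_eq_top] at this
      exact this trivial
    obtain ⟨k, hk⟩ := Nat.exists_eq_succ_of_ne_zero hf0
    refine ⟨k, ?_, ?_⟩
    · have := Nat.find_min hex (m := k) (by omega)
      exact not_not.mp this
    · have := Nat.find_spec hex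
      rwa [hk] at this
  obtain ⟨s, hs⟩ := uniq_pow hy k a hk1
  have hG : uniqG κ x Λ ∉ uniqP κ x := by
    intro h
    have h1 := uniq_lt hV h
    rw [uniq_G_one hV] at h1
    exact lt_irrefl _ h1
  have hGk : ∀ (b : UniqA κ x), b ∉ uniqP κ x → ∀ k : ℕ, b ^ k ∉ uniqP κ x := by
    intro b hb k h
    have h1 := uniq_lt hV h
    rw [SubmonoidClass.coe_pow, map_pow, uniq_one hV hb, one_pow] at h1
    exact lt_irrefl _ h1
  have hη1 : (algebraMap κ (UniqA κ x) (η i₀) * SS Λ (uniqX κ x)) ∉ uniqP κ x := by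
    intro h
    have h1 := uniq_lt hV h
    have h2 : ((algebraMap κ (UniqA κ x) (η i₀) * SS Λ (uniqX κ x) : UniqA κ x) : L) =
        algebraMap κ L (η i₀) * ((SS Λ (uniqX κ x) : UniqA κ x) : L) := rfl
    rw [h2, map_mul, uniq_scalar hV.1 hη, uniq_SS_one hV Λ i₀, mul_one] at h1
    exact lt_irrefl _ h1
  refine ⟨k, s, uniqG κ x Λ ^ k, ?_, hGk _ hG k, by push_cast; exact hs⟩
  intro hsP
  apply hk2
  have h1 : (uniqG κ x Λ ^ k * (algebraMap κ (UniqA κ x) (η i₀) * SS Λ (uniqX κ x)) ^ k) * a =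
      ((uniqX κ x i₀ - 2) ^ k * s) * (gg (uniqX κ x i₀) ^ Λ) ^ k := by
    apply Subtype.ext
    push_cast
    rw [uniq_coe_SS, uniqX_coe, uniq_coe_two]
    have h3 : ((gg (uniqX κ x i₀) : UniqA κ x) : L) = gg (x i₀) := rfl
    rw [h3]
    have h5 := hy i₀
    unfold ff at h5
    calc (uniqG κ x Λ : L) ^ k * (algebraMap κ L (η i₀) * SS Λ x) ^ k * (a : L)
        = ((a : L) * (uniqG κ x Λ : L) ^ k) * (algebraMap κ L (η i₀) * SS Λ x) ^ k := by ring
      _ = (algebraMap κ L (η i₀) * ε * SS Λ x) ^ k * (s : L) := by rw [hs]; ring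
      _ = ((x i₀ - 2) ^ k * (s : L)) * (gg (x i₀) ^ Λ) ^ k := by
          rw [← h5, mul_pow]
          ring
  have h2 : (uniqG κ x Λ ^ k * (algebraMap κ (UniqA κ x) (η i₀) * SS Λ (uniqX κ x)) ^ k) ∉
      uniqP κ x := by
    intro h
    have h3 := uniq_lt hV h
    rw [MulMemClass.coe_mul, map_mul, uniq_one hV (hGk _ hG k), uniq_one hV (hGk _ hη1 k),
      mul_one] at h3
    exact lt_irrefl _ h3
  refine uniq_prim h2 ?_
  rw [h1]
  refine Ideal.mul_mem_right _ _ ?_
  rw [pow_succ]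
  have h6 : uniqX κ x i₀ - 2 ∈ uniqP κ x := Ideal.subset_span ⟨i₀, rfl⟩
  exact Ideal.mul_mem_mul (Ideal.pow_mem_pow h6 k) hsP

/-- The elements of the field are powers of `ε` times units. -/
lemma uniq_F [CharZero κ] {V : ValuationSubring L} (hV : UniqC κ x V) {Λ : ℕ} {ε : L}
    {η : Fin n → κ} {i₀ : Fin n} (hη : η i₀ ≠ 0)
    (hgen : IntermediateField.adjoin κ (Set.range x) = ⊤)
    (hy : ∀ i, ff Λ (x i) = algebraMap κ L (η i) * ε * SS Λ x) {b : L} (hb : b ≠ 0) :
    ∃ (k m : ℕ) (s t : UniqA κ x), s ∉ uniqP κ x ∧ t ∉ uniqP κ x ∧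
      b * (t : L) * ε ^ m = ε ^ k * (s : L) := by
  have h0 : b ∈ IntermediateField.adjoin κ (Set.range x) := by rw [hgen]; trivial
  rw [IntermediateField.mem_adjoin_iff_div] at h0
  obtain ⟨r, hr, s, hs, hrs⟩ := h0
  have hs0 : s ≠ 0 := by
    rintro rfl
    rw [div_zero] at hrs
    exact hb hrs
  have hr0 : r ≠ 0 := by
    rintro rfl
    rw [zero_div] at hrs
    exact hb hrs
  obtain ⟨k, s1, t1, hs1, ht1, h1⟩ := uniq_K hV hη hy (a := (⟨r, hr⟩ : UniqA κ x))
    (fun h => hr0 (congrArg Subtype.val h))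
  obtain ⟨m, s2, t2, hs2, ht2, h2⟩ := uniq_K hV hη hy (a := (⟨s, hs⟩ : UniqA κ x))
    (fun h => hs0 (congrArg Subtype.val h))
  have hmul : ∀ (a b : UniqA κ x), a ∉ uniqP κ x → b ∉ uniqP κ x → a * b ∉ uniqP κ x := by
    intro a b ha hb h
    have h3 := uniq_lt hV h
    rw [MulMemClass.coe_mul, map_mul, uniq_one hV ha, uniq_one hV hb, mul_one] at h3
    exact lt_irrefl _ h3
  refine ⟨k, m, s1 * t2, t1 * s2, hmul _ _ hs1 ht2, hmul _ _ ht1 hs2, ?_⟩
  push_cast
  rw [hrs]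
  have h3 : r * (t1 : L) = ε ^ k * (s1 : L) := h1
  have h4 : s * (t2 : L) = ε ^ m * (s2 : L) := h2
  calc r / s * ((t1 : L) * (s2 : L)) * ε ^ m = (r * (t1 : L)) * (ε ^ m * (s2 : L)) / s := by ring
    _ = (ε ^ k * (s1 : L)) * (s * (t2 : L)) / s := by rw [h3, h4]
    _ = ε ^ k * ((s1 : L) * (t2 : L)) := by field_simp

end UniqAux

/-- The local ring at the point `(2, …, 2)` of the curve `ff (x i) = η i * ε * SS x` is a
discrete valuation ring with parameter `ε` and residue field `κ`. -/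
theorem val0_props {κ L : Type} [Field κ] [CharZero κ] [Field L] [Algebra κ L] {Λ : ℕ}
    (hΛ : 1 ≤ Λ) {n : ℕ} (x : Fin n → L)
    (hgen : IntermediateField.adjoin κ (Set.range x) = ⊤) (ε : L) (hε : ε ≠ 0) (η : Fin n → κ)
    (i₀ : Fin n) (hη : η i₀ ≠ 0) (hS : SS Λ x ≠ 0)
    (hy : ∀ i, ff Λ (x i) = algebraMap κ L (η i) * ε * SS Λ x) (V : ValuationSubring L)
    (hκ : ∀ a : κ, algebraMap κ L a ∈ V) (hx2 : ∀ i, V.valuation (x i - 2) < 1) :
    (∀ a : L, V.valuation a < 1 ↔ a / ε ∈ V) ∧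
      (∀ a ∈ V, ∃ c : κ, V.valuation (a - algebraMap κ L c) < 1) ∧
      ∀ V' : ValuationSubring L, (∀ a : κ, algebraMap κ L a ∈ V') →
        (∀ i, V'.valuation (x i - 2) < 1) → V' = V := by
  have hV : UniqC κ x V := ⟨hκ, hx2⟩
  -- the value of `ε`
  have hεlt : ∀ V' : ValuationSubring L, UniqC κ x V' → V'.valuation ε < 1 := by
    intro V' hV'
    have h1 := congrArg V'.valuation (hy i₀)
    unfold ff at h1
    rw [map_mul, map_mul, map_mul, uniq_scalar hV'.1 hη, one_mul] at h1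
    have h2 : V'.valuation (SS Λ x) = 1 := by
      rw [← uniq_coe_SS (κ := κ)]
      exact uniq_SS_one hV' Λ i₀
    have h3 : V'.valuation (gg (x i₀) ^ Λ) = 1 := by
      have := uniq_gg_one hV' Λ i₀
      rwa [SubmonoidClass.coe_pow, uniq_coe_gg] at this
    rw [h2, h3, mul_one, mul_one] at h1
    rw [← h1]
    exact hV'.2 i₀
  have hval : ∀ V' : ValuationSubring L, UniqC κ x V' → ∀ (b : L) (k m : ℕ) (s t : UniqA κ x),
      s ∉ uniqP κ x → t ∉ uniqP κ x → b * (t : L) * ε ^ m = ε ^ k * (s : L) →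
      V'.valuation b * V'.valuation ε ^ m = V'.valuation ε ^ k := by
    intro V' hV' b k m s t hs ht h
    have h1 := congrArg V'.valuation h
    rwa [map_mul, map_mul, map_mul, map_pow, map_pow, uniq_one hV' hs, uniq_one hV' ht, mul_one,
      mul_one] at h1
  have hpos : ∀ V' : ValuationSubring L, 0 < V'.valuation ε := by
    intro V'
    rw [zero_lt_iff]
    exact (Valuation.ne_zero_iff _).mpr hε
  have hle : ∀ V' : ValuationSubring L, UniqC κ x V' → ∀ (b : L) (k m : ℕ),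
      V'.valuation b * V'.valuation ε ^ m = V'.valuation ε ^ k →
      (V'.valuation b ≤ 1 ↔ m ≤ k) := by
    intro V' hV' b k m h
    have h1 := hpos V'
    have h2 := hεlt V' hV'
    have h3 : 0 < V'.valuation ε ^ m := pow_pos h1 m
    rw [← pow_le_pow_iff_right_of_lt_one₀ h1 h2, ← h]
    exact ⟨fun h => mul_le_of_le_one_left' h, fun h => by
      have := le_of_mul_le_mul_right (h.trans_eq (one_mul _).symm) h3
      exact this⟩
  refine ⟨?_, ?_, ?_⟩
  · intro a
    by_cases ha : a = 0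
    · rw [ha, map_zero, zero_div]
      exact ⟨fun _ => V.zero_mem, fun _ => zero_lt_one⟩
    · obtain ⟨k, m, s, t, hs, ht, h⟩ := uniq_F hV hη hgen hy ha
      have h1 := hval V hV a k m s t hs ht h
      rw [← V.valuation_le_one_iff]
      have h2 : V.valuation (a / ε) * V.valuation ε ^ (m + 1) = V.valuation ε ^ k := by
        rw [map_div₀, pow_succ, ← h1]
        have := (hpos V).ne'
        field_simp
      rw [hle V hV _ _ _ h2]
      have h3 : V.valuation (a⁻¹) * V.valuation ε ^ k = V.valuation ε ^ m := by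
        rw [map_inv₀, ← h1]
        have := (Valuation.ne_zero_iff V.valuation).mpr ha
        rw [← mul_assoc, inv_mul_cancel₀ this, one_mul]
      have h4 := hle V hV _ _ _ h3
      rw [← not_iff_not, not_lt]
      have h5 : 1 ≤ V.valuation a ↔ V.valuation a⁻¹ ≤ 1 := by
        rw [map_inv₀]
        exact (inv_le_one₀ (zero_lt_iff.mpr ((Valuation.ne_zero_iff V.valuation).mpr ha))).symm
      rw [h5, h4]
      omega
  · intro a haV
    by_cases hlt : V.valuation a < 1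
    · exact ⟨0, by rwa [map_zero, sub_zero]⟩
    have ha : a ≠ 0 := by
      rintro rfl
      rw [map_zero] at hlt
      exact hlt zero_lt_one
    have ha1 : V.valuation a = 1 := le_antisymm ((V.valuation_le_one_iff a).mpr haV) (not_lt.mp hlt)
    obtain ⟨k, m, s, t, hs, ht, h⟩ := uniq_F hV hη hgen hy ha
    have h1 := hval V hV a k m s t hs ht h
    have hmk : m = k := by
      rw [ha1, one_mul] at h1
      exact pow_right_injective₀ (hpos V) (hεlt V hV).ne h1
    rw [hmk] at h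
    have h2 : a * (t : L) = (s : L) := by
      have h3 : ε ^ k ≠ 0 := pow_ne_zero k hε
      have h4 : ε ^ k * (a * (t : L)) = ε ^ k * (s : L) := by rw [← h]; ring
      exact mul_left_cancel₀ h3 h4
    obtain ⟨c, hc⟩ := uniq_const s
    obtain ⟨d, hd⟩ := uniq_const t
    have hd0 : d ≠ 0 := by
      rintro rfl
      rw [map_zero, sub_zero] at hd
      exact ht hd
    refine ⟨c / d, ?_⟩
    have ht1 := uniq_one hV ht
    have h5 := uniq_lt hV hc
    have h6 := uniq_lt hV hd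
    have hdL : algebraMap κ L d ≠ 0 := by
      rw [Ne, map_eq_zero]
      exact hd0
    have h7 : (a - algebraMap κ L (c / d)) * ((t : L) * algebraMap κ L d) =
        algebraMap κ L d * ((s - algebraMap κ (UniqA κ x) c : UniqA κ x) : L) -
          algebraMap κ L c * ((t - algebraMap κ (UniqA κ x) d : UniqA κ x) : L) := by
      have e1 : ((s - algebraMap κ (UniqA κ x) c : UniqA κ x) : L) = (s : L) - algebraMap κ L c := rfl
      have e2 : ((t - algebraMap κ (UniqA κ x) d : UniqA κ x) : L) = (t : L) - algebraMap κ L d := rfl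
      rw [e1, e2, map_div₀, ← h2]
      field_simp
      ring
    have h8 := congrArg V.valuation h7
    rw [map_mul, map_mul, ht1, uniq_scalar hκ hd0, mul_one, mul_one] at h8
    rw [h8]
    refine lt_of_le_of_lt (V.valuation.map_sub _ _) (max_lt ?_ ?_)
    · rw [map_mul, uniq_scalar hκ hd0, one_mul]
      exact h5
    · rw [map_mul]
      exact mul_lt_one_of_nonneg_of_lt_one_right ((V.valuation_le_one_iff _).mpr (hκ c)) zero_le h6
  · intro V' hκ' hx2'
    have hV' : UniqC κ x V' := ⟨hκ', hx2'⟩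
    ext b
    by_cases hb : b = 0
    · rw [hb]
      exact ⟨fun _ => V.zero_mem, fun _ => V'.zero_mem⟩
    · obtain ⟨k, m, s, t, hs, ht, h⟩ := uniq_F hV hη hgen hy hb
      rw [← V.valuation_le_one_iff, ← V'.valuation_le_one_iff,
        hle V hV _ _ _ (hval V hV b k m s t hs ht h), hle V' hV' _ _ _ (hval V' hV' b k m s t hs ht h)]

end Pool.Agent.DensDeg
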