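import Pool.Agent.DensDeg.Defs

set_option autoImplicit false

namespace Pool.Agent.DensDeg

open MvPolynomial Cardinal

/-- Embedding of a purely transcendental extension. -/
private theorem val0_emb {k L : Type} [Field k] [Field L] [Algebra k L] {m : ℕ}
    (z : Fin (m + 1) → L) (hz : AlgebraicIndependent k z)
    (hgen : IntermediateField.adjoin k (Set.range z) = ⊤) :
    ∃ φ : L →+* FractionRing (Polynomial (FractionRing (MvPolynomial (Fin m) k))),
      (∀ a : k, φ (algebraMap k L a) =
        algebraMap (Polynomial (FractionRing (MvPolynomial (Fin m) k))) _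
          (Polynomial.C (algebraMap (MvPolynomial (Fin m) k) _ (C a)))) ∧
      φ (z 0) = algebraMap (Polynomial (FractionRing (MvPolynomial (Fin m) k))) _ Polynomial.X ∧
      ∀ i : Fin m, φ (z i.succ) = algebraMap (Polynomial (FractionRing (MvPolynomial (Fin m) k))) _
        (Polynomial.C (algebraMap (MvPolynomial (Fin m) k) _ (X i))) := by
  classical
  let F' := FractionRing (MvPolynomial (Fin m) k)
  let ψ : MvPolynomial (Fin (m + 1)) k →+* FractionRing (Polynomial F') :=
    (algebraMap (Polynomial F') (FractionRing (Polynomial F'))).comp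
      ((Polynomial.mapRingHom (algebraMap (MvPolynomial (Fin m) k) F')).comp
        (finSuccEquiv k m : MvPolynomial (Fin (m + 1)) k →+* _))
  have hψ : Function.Injective ψ := by
    refine (IsFractionRing.injective (Polynomial F') (FractionRing (Polynomial F'))).comp ?_
    refine Function.Injective.comp ?_ (finSuccEquiv k m).injective
    exact Polynomial.map_injective _ (IsFractionRing.injective (MvPolynomial (Fin m) k) F')
  let Φ : FractionRing (MvPolynomial (Fin (m + 1)) k) →+* FractionRing (Polynomial F') :=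
    IsFractionRing.lift hψ
  let e0 : L ≃ₐ[k] FractionRing (MvPolynomial (Fin (m + 1)) k) :=
    (IntermediateField.topEquiv (F := k) (E := L)).symm.trans
      ((IntermediateField.equivOfEq hgen).symm.trans hz.aevalEquivField.symm)
  have he : ∀ p : MvPolynomial (Fin (m + 1)) k, e0 (aeval z p) = algebraMap _ _ p := by
    intro p
    rw [← AlgEquiv.eq_symm_apply]
    simp only [e0, AlgEquiv.symm_trans_apply, AlgEquiv.symm_symm]
    have := hz.aevalEquivField_algebraMap_apply_coe p
    rw [← this]
    rfl
  let e : L →+* FractionRing (MvPolynomial (Fin (m + 1)) k) := (e0 : L →+* _)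
  have he' : ∀ p : MvPolynomial (Fin (m + 1)) k, e (aeval z p) = algebraMap _ _ p := he
  refine ⟨Φ.comp e, fun a => ?_, ?_, fun i => ?_⟩
  · have := he' (C a)
    rw [aeval_C] at this
    rw [RingHom.comp_apply, this]
    simp only [Φ, IsFractionRing.lift_algebraMap]
    simp only [ψ, RingHom.comp_apply, RingHom.coe_coe, Polynomial.coe_mapRingHom]
    rw [show finSuccEquiv k m (C a) = Polynomial.C (C a) from (finSuccEquiv k m).commutes a,
      Polynomial.map_C]
  · have := he' (X 0)
    rw [aeval_X] at this
    rw [RingHom.comp_apply, this]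
    simp only [Φ, IsFractionRing.lift_algebraMap]
    simp only [ψ, RingHom.comp_apply, RingHom.coe_coe, Polynomial.coe_mapRingHom]
    rw [finSuccEquiv_X_zero, Polynomial.map_X]
  · have := he' (X i.succ)
    rw [aeval_X] at this
    rw [RingHom.comp_apply, this]
    simp only [Φ, IsFractionRing.lift_algebraMap]
    simp only [ψ, RingHom.comp_apply, RingHom.coe_coe, Polynomial.coe_mapRingHom]
    rw [finSuccEquiv_X_succ, Polynomial.map_C]

/-- The blown-up coordinates are independent. -/
private theorem val0_indep {k L : Type} [Field k] [Field L] [Algebra k L] {m : ℕ}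
    (x : Fin (m + 1) → L) (hx : AlgebraicIndependent k x)
    (hgen : IntermediateField.adjoin k (Set.range x) = ⊤) (a : k) :
    ∃ z : Fin (m + 1) → L, AlgebraicIndependent k z ∧
      IntermediateField.adjoin k (Set.range z) = ⊤ ∧ x 0 = algebraMap k L a + z 0 ∧
      ∀ i : Fin m, x i.succ = algebraMap k L a + z i.succ * z 0 := by
  classical
  have hx0 : x 0 - algebraMap k L a ≠ 0 := by
    intro h
    have h1 := hx.transcendental 0
    apply h1
    rw [sub_eq_zero] at h
    rw [h]
    exact isAlgebraic_algebraMap a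
  let z : Fin (m + 1) → L := Fin.cons (x 0 - algebraMap k L a)
    (fun i => (x i.succ - algebraMap k L a) / (x 0 - algebraMap k L a))
  have hz0 : z 0 = x 0 - algebraMap k L a := rfl
  have hzs : ∀ i : Fin m, z i.succ = (x i.succ - algebraMap k L a) / (x 0 - algebraMap k L a) :=
    fun i => rfl
  have e0 : x 0 = algebraMap k L a + z 0 := by rw [hz0]; ring
  have es : ∀ i : Fin m, x i.succ = algebraMap k L a + z i.succ * z 0 := by
    intro i
    rw [hz0, hzs]
    field_simp
    ring
  have htop : IntermediateField.adjoin k (Set.range z) = ⊤ := by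
    rw [eq_top_iff, ← hgen, IntermediateField.adjoin_le_iff]
    rintro _ ⟨i, rfl⟩
    have hz : ∀ j, z j ∈ IntermediateField.adjoin k (Set.range z) := fun j =>
      IntermediateField.subset_adjoin k _ ⟨j, rfl⟩
    refine Fin.cases ?_ (fun j => ?_) i
    · rw [SetLike.mem_coe, e0]
      exact add_mem (IntermediateField.algebraMap_mem _ a) (hz 0)
    · rw [SetLike.mem_coe, es]
      exact add_mem (IntermediateField.algebraMap_mem _ a) (mul_mem (hz _) (hz 0))
  refine ⟨z, ?_, htop, e0, es⟩
  have h2 : Algebra.IsAlgebraic (Algebra.adjoin k (Set.range z)) L := by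
    rw [← IntermediateField.isAlgebraic_adjoin_iff_top, htop, Algebra.isAlgebraic_iff_isIntegral]
    infer_instance
  have h3 : #(Fin (m + 1)) ≤ Algebra.trdeg k L := by
    exact hx.cardinalMk_le_trdeg
  exact (Algebra.IsAlgebraic.isTranscendenceBasis_of_le_trdeg_of_finite k z h3).1

/-- Existence of a valuation ring centred at the point `(2, …, 2)` which is trivial on the ratios
of the `y i = ff (x i) / SS x`. -/
theorem exists_val0 {L : Type} [Field L] [CharZero L] {Λ : ℕ} (hΛ : 1 ≤ Λ) {m : ℕ}
    (x : Fin (m + 1) → L) (hx : AlgebraicIndependent ℚ x)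
    (hgen : IntermediateField.adjoin ℚ (Set.range x) = ⊤) :
    ∃ V : ValuationSubring L, (∀ i, V.valuation (x i - 2) < 1) ∧
      ∀ c ∈ IntermediateField.adjoin ℚ (Set.range fun i : Fin (m + 1) =>
        ff Λ (x i) / ff Λ (x 0)), c ∈ V := by
  classical
  obtain ⟨z, hz, hzgen, ez0, ezs⟩ := val0_indep x hx hgen 2
  obtain ⟨φ, hφC, hφ0, hφs⟩ := val0_emb z hz hzgen
  set F' := FractionRing (MvPolynomial (Fin m) ℚ) with hF'
  set K' := FractionRing (Polynomial F') with hK'
  let v : Valuation K' (WithZero (Multiplicative ℤ)) := (Polynomial.idealX F').valuation K'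
  let cst : MvPolynomial (Fin m) ℚ →+* Polynomial F' :=
    Polynomial.C.comp (algebraMap (MvPolynomial (Fin m) ℚ) F')
  let ι : Polynomial F' →+* K' := algebraMap (Polynomial F') K'
  -- valuations of polynomials
  have hv1 : ∀ p : Polynomial F', v (ι p) ≤ 1 := fun p =>
    (Polynomial.idealX F').valuation_le_one p
  have hv2 : ∀ p : Polynomial F', p.coeff 0 = 0 → v (ι p) < 1 := by
    intro p hp
    have := ((Polynomial.idealX F').valuation_lt_one_iff_mem (K := K') p).2
    apply this
    rw [Polynomial.idealX_span, Ideal.mem_span_singleton, Polynomial.X_dvd_iff]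
    exact hp
  have hv3 : ∀ p : Polynomial F', p.coeff 0 ≠ 0 → v (ι p) = 1 := by
    intro p hp
    apply ((Polynomial.idealX F').valuation_eq_one_iff_notMem (K := K')).2
    rw [Polynomial.idealX_span, Ideal.mem_span_singleton, Polynomial.X_dvd_iff]
    exact hp
  have hcst : ∀ p, (cst p).coeff 0 = algebraMap (MvPolynomial (Fin m) ℚ) F' p := by
    intro p
    simp [cst]
  have hFinj : Function.Injective (algebraMap (MvPolynomial (Fin m) ℚ) F') :=
    IsFractionRing.injective (MvPolynomial (Fin m) ℚ) F'
  let ρ : Fin (m + 1) → MvPolynomial (Fin m) ℚ := Fin.cons 1 X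
  have hρ0 : ρ 0 = 1 := rfl
  have hρs : ∀ i : Fin m, ρ i.succ = X i := fun i => rfl
  have hxm2 : ∀ j, φ (x j - 2) = ι (cst (ρ j) * Polynomial.X) := by
    intro j
    refine Fin.cases ?_ (fun i => ?_) j
    · rw [ez0, hρ0, map_one, one_mul, ← hφ0]
      congr 1
      rw [map_ofNat]
      ring
    · rw [ezs, hρs, map_mul]
      have : algebraMap ℚ L 2 + z i.succ * z 0 - 2 = z i.succ * z 0 := by
        rw [map_ofNat]
        ring
      rw [this, map_mul, hφ0, hφs]
      rfl
  let G : Fin (m + 1) → Polynomial F' := fun j =>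
    (cst (ρ j) * Polynomial.X + 2) * (cst (ρ j) * Polynomial.X + 1)
  have hG : ∀ j, φ (gg (x j)) = ι (G j) := by
    intro j
    have e1 : gg (x j) = (x j - 2 + 2) * (x j - 2 + 1) := by
      unfold gg
      ring
    rw [e1, map_mul, map_add, map_add, hxm2, map_ofNat, map_one]
    simp only [G, map_mul, map_add, map_ofNat, map_one]
  have hG0 : ∀ j, (G j).coeff 0 = 2 := by
    intro j
    simp only [G, Polynomial.mul_coeff_zero, Polynomial.coeff_add, Polynomial.coeff_X_zero,
      mul_zero, zero_add, Polynomial.coeff_one_zero, mul_one]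
    exact Polynomial.coeff_ofNat_zero 2
  have h2 : (2 : F') ≠ 0 := by
    have : algebraMap (MvPolynomial (Fin m) ℚ) F' 2 ≠ 0 := by
      rw [Ne, map_eq_zero_iff _ hFinj]
      exact two_ne_zero
    rwa [map_ofNat] at this
  have hGv : ∀ j, v (ι (G j)) = 1 := fun j => hv3 _ (by rw [hG0]; exact h2)
  have hGne : ∀ j, ι (G j) ≠ 0 := by
    intro j h
    have := hGv j
    rw [h, map_zero] at this
    exact zero_ne_one this
  have hXne : ι Polynomial.X ≠ 0 := by
    rw [Ne, map_eq_zero_iff _ (IsFractionRing.injective (Polynomial F') K')]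
    exact Polynomial.X_ne_zero
  let t : Fin (m + 1) → L := fun i => ff Λ (x i) / ff Λ (x 0)
  have ht : ∀ j, φ (t j) = ι (cst (ρ j)) * (ι (G j)) ^ Λ / (ι (G 0)) ^ Λ := by
    intro j
    simp only [t, ff, map_div₀, map_mul, map_pow, hG, hxm2, hρ0, map_one, one_mul]
    field_simp
  have ht0 : t 0 = 1 := by
    apply φ.injective
    rw [ht, hρ0, map_one, map_one, one_mul, map_one, div_self (pow_ne_zero _ (hGne 0))]
  have hclose : ∀ j, v (φ (t j) - ι (cst (ρ j))) < 1 := by
    intro j
    have e1 : φ (t j) - ι (cst (ρ j)) =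
        ι (cst (ρ j)) * ι (G j ^ Λ - G 0 ^ Λ) / (ι (G 0)) ^ Λ := by
      rw [ht, map_sub, map_pow, map_pow]
      have := pow_ne_zero Λ (hGne 0)
      field_simp
    rw [e1, map_div₀, map_pow, hGv, one_pow, div_one, map_mul]
    have h3 : v (ι (G j ^ Λ - G 0 ^ Λ)) < 1 := by
      apply hv2
      rw [Polynomial.coeff_zero_eq_eval_zero, Polynomial.eval_sub, Polynomial.eval_pow,
        Polynomial.eval_pow, ← Polynomial.coeff_zero_eq_eval_zero,
        ← Polynomial.coeff_zero_eq_eval_zero, hG0, hG0, sub_self]
    calc v (ι (cst (ρ j))) * v (ι (G j ^ Λ - G 0 ^ Λ))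
        ≤ 1 * v (ι (G j ^ Λ - G 0 ^ Λ)) := mul_le_mul_left (hv1 _) _
      _ < 1 := by rw [one_mul]; exact h3
  have hind : ∀ q : MvPolynomial (Fin (m + 1)) ℚ,
      v (φ (aeval t q) - ι (cst (aeval ρ q))) < 1 := by
    intro q
    induction q using MvPolynomial.induction_on with
    | C a =>
      rw [aeval_C, aeval_C, hφC]
      have : ι (cst (algebraMap ℚ (MvPolynomial (Fin m) ℚ) a)) =
        algebraMap (Polynomial F') K' (Polynomial.C (algebraMap (MvPolynomial (Fin m) ℚ) F' (C a))) :=
        rfl
      rw [this, sub_self, map_zero]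
      exact zero_lt_one
    | add p q hp hq =>
      rw [map_add, map_add, map_add, map_add, map_add, add_sub_add_comm]
      exact Valuation.map_add_lt _ hp hq
    | mul_X p j hp =>
      rw [map_mul, map_mul, map_mul, map_mul, map_mul, aeval_X, aeval_X]
      have e1 : φ (aeval t p) * φ (t j) - ι (cst (aeval ρ p)) * ι (cst (ρ j)) =
        (φ (aeval t p) - ι (cst (aeval ρ p))) * ι (cst (ρ j)) +
        φ (aeval t p) * (φ (t j) - ι (cst (ρ j))) := by ring
      rw [e1]
      have h4 : v (φ (aeval t p)) ≤ 1 := by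
        have : φ (aeval t p) = (φ (aeval t p) - ι (cst (aeval ρ p))) + ι (cst (aeval ρ p)) := by
          ring
        rw [this]
        exact Valuation.map_add_le _ hp.le (hv1 _)
      refine Valuation.map_add_lt _ ?_ ?_
      · rw [map_mul]
        calc _ ≤ v (φ (aeval t p) - ι (cst (aeval ρ p))) * 1 := mul_le_mul_right (hv1 _) _
          _ < 1 := by rw [mul_one]; exact hp
      · rw [map_mul]
        calc _ ≤ 1 * v (φ (t j) - ι (cst (ρ j))) := mul_le_mul_left h4 _
          _ < 1 := by rw [one_mul]; exact hclose j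
  have hle : ∀ q : MvPolynomial (Fin (m + 1)) ℚ, v (φ (aeval t q)) ≤ 1 := by
    intro q
    have : φ (aeval t q) = (φ (aeval t q) - ι (cst (aeval ρ q))) + ι (cst (aeval ρ q)) := by
      ring
    rw [this]
    exact Valuation.map_add_le _ (hind q).le (hv1 _)
  have hunit : ∀ q : MvPolynomial (Fin (m + 1)) ℚ, aeval t q ≠ 0 → v (φ (aeval t q)) = 1 := by
    intro q hq
    have h5 : aeval ρ q ≠ 0 := by
      intro h0
      apply hq
      have e2 : (aeval t : MvPolynomial (Fin (m + 1)) ℚ →ₐ[ℚ] L) =
          (aeval (fun i : Fin m => t i.succ)).comp (aeval ρ) := by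
        apply MvPolynomial.algHom_ext
        intro i
        rw [AlgHom.comp_apply, aeval_X, aeval_X]
        refine Fin.cases ?_ (fun i => ?_) i
        · rw [hρ0, map_one, ht0]
        · rw [hρs, aeval_X]
      rw [e2, AlgHom.comp_apply, h0, map_zero]
    have h6 : v (ι (cst (aeval ρ q))) = 1 := by
      apply hv3
      rw [hcst, Ne, map_eq_zero_iff _ hFinj]
      exact h5
    have e3 : φ (aeval t q) = ι (cst (aeval ρ q)) + (φ (aeval t q) - ι (cst (aeval ρ q))) := by
      ring
    rw [e3, Valuation.map_add_eq_of_lt_left, h6]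
    rw [h6]
    exact hind q
  refine ⟨(v.comap φ).valuationSubring, ?_, ?_⟩
  · intro i
    have h7 := (Valuation.isEquiv_valuation_valuationSubring (v.comap φ)).lt_one_iff_lt_one
      (x := x i - 2)
    rw [← h7, Valuation.comap_apply, hxm2]
    apply hv2
    simp
  · intro c hc
    rw [IntermediateField.mem_adjoin_range_iff] at hc
    obtain ⟨p, q, rfl⟩ := hc
    rw [Valuation.mem_valuationSubring_iff, Valuation.comap_apply, map_div₀, map_div₀]
    by_cases hq : aeval t q = 0
    · have : (aeval (fun i : Fin (m + 1) => ff Λ (x i) / ff Λ (x 0))) q = 0 := hq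
      rw [this, map_zero, map_zero, div_zero]
      exact zero_le_one
    · have := hunit q hq
      have h8 : v (φ ((aeval (fun i : Fin (m + 1) => ff Λ (x i) / ff Λ (x 0))) q)) = 1 := this
      rw [h8, div_one]
      exact hle p

end Pool.Agent.DensDeg
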