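import Pool.Agent.DensDeg.Ram
import Pool.Agent.DensDeg.Anal
import Pool.Agent.DensDeg.Val0
import Pool.Agent.DensDeg.Uniq
import Pool.Agent.DensDeg.BaseVal
import Pool.Agent.DensDeg.Indep

set_option autoImplicit false

namespace Pool.Agent.DensDeg

open MvPolynomial

private lemma fc_isAlg {K L : Type} [Field K] [Field L] [Algebra K L] (R : Subalgebra K L)
    (s : Set L) (hs : ∀ a ∈ s, IsAlgebraic R a) (a : L)
    (ha : a ∈ IntermediateField.adjoin K s) : IsAlgebraic R a := by
  induction ha using IntermediateField.adjoin_induction with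
  | mem x hx => exact hs x hx
  | algebraMap x =>
    have := isAlgebraic_algebraMap (A := L) (algebraMap K R x)
    simpa using this
  | add x y _ _ h1 h2 => exact h1.add h2
  | inv x _ h1 => exact h1.inv
  | mul x y _ _ h1 h2 => exact h1.mul h2

private lemma fc_basis {L : Type} [Field L] [CharZero L] {n : ℕ} (x : Fin n → L)
    (hx : AlgebraicIndependent ℚ x)
    (hgen : IntermediateField.adjoin ℚ (Set.range x) = ⊤) (y : Fin n → L)
    (h : ∀ i, IsAlgebraic (Algebra.adjoin ℚ (Set.range y)) (x i)) : IsTranscendenceBasis ℚ y := by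
  have hxb : IsTranscendenceBasis ℚ x := by
    refine hx.isTranscendenceBasis_iff_isAlgebraic.mpr ⟨fun a => ?_⟩
    refine fc_isAlg _ (Set.range x) ?_ a (by rw [hgen]; trivial)
    intro b hb
    exact isAlgebraic_algebraMap (A := L)
      (⟨b, Algebra.subset_adjoin hb⟩ : Algebra.adjoin ℚ (Set.range x))
  have alg : Algebra.IsAlgebraic (Algebra.adjoin ℚ (Set.range y)) L := by
    refine ⟨fun a => ?_⟩
    refine fc_isAlg _ (Set.range x) ?_ a (by rw [hgen]; trivial)
    rintro b ⟨i, rfl⟩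
    exact h i
  exact Algebra.IsAlgebraic.isTranscendenceBasis_of_le_trdeg_of_finite ℚ y
    hxb.cardinalMk_eq_trdeg.le

private lemma fc_int {L : Type} [Field L] (R : Subring L) (b : L)
    (h : ∀ V : ValuationSubring L, (∀ a ∈ R, a ∈ V) → b ∈ V) : IsIntegral R b := by
  have h1 := iInf_valuationSubring_superset (s := (R : Set L))
  rw [Subring.closure_eq] at h1
  have h2 : b ∈ (⨅ V : {V : ValuationSubring L // (R : Set L) ⊆ V.toSubring}, V.1.toSubring) := by
    rw [Subring.mem_iInf]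
    intro V
    exact h V.1 fun a ha => V.2 ha
  rw [h1] at h2
  exact h2

private lemma fc_nat {L : Type} [Field L] [CharZero L] (V : ValuationSubring L)
    (h : ∀ c : ℚ, algebraMap ℚ L c ∈ V) (k : ℕ) (hk : k ≠ 0) : V.valuation (k : L) = 1 := by
  have hk' : (k : L) ≠ 0 := by exact_mod_cast hk
  have h1 : V.valuation (k : L) ≤ 1 := by
    rw [ValuationSubring.valuation_le_one_iff]
    simp
  have h2 : V.valuation ((k : L)⁻¹) ≤ 1 := by
    rw [ValuationSubring.valuation_le_one_iff]
    have := h ((k : ℚ)⁻¹)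
    simpa using this
  rw [map_inv₀] at h2
  have h3 : V.valuation (k : L) ≠ 0 := (Valuation.ne_zero_iff _).mpr hk'
  refine le_antisymm h1 ?_
  rwa [inv_le_one₀ (zero_lt_iff.mpr h3)] at h2

private lemma fc_ne {L : Type} [Field L] [CharZero L] {n : ℕ} {x : Fin n → L}
    (hx : AlgebraicIndependent ℚ x) (i : Fin n) (c : ℚ) : x i ≠ (c : L) := by
  intro h
  have h1 := hx.transcendental i
  apply h1
  rw [h]
  have := isAlgebraic_algebraMap (A := L) (c : ℚ)
  simpa using this

private lemma fc_gg {L : Type} [Field L] [CharZero L] {n : ℕ} {x : Fin n → L}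
    (hx : AlgebraicIndependent ℚ x) (i : Fin n) : gg (x i) ≠ 0 := by
  unfold gg
  refine mul_ne_zero ?_ (sub_ne_zero.mpr ?_)
  · simpa using fc_ne hx i 0
  · have := fc_ne hx i 1
    simpa using this

private lemma fc_ff {L : Type} [Field L] [CharZero L] {n : ℕ} {x : Fin n → L}
    (hx : AlgebraicIndependent ℚ x) (Λ : ℕ) (i : Fin n) : ff Λ (x i) ≠ 0 := by
  unfold ff
  refine mul_ne_zero (sub_ne_zero.mpr ?_) (pow_ne_zero _ (fc_gg hx i))
  have := fc_ne hx i 2
  simpa using this

private lemma fc_map_gg {A B : Type} [CommRing A] [CommRing B] (φ : A →+* B) (a : A) :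
    φ (gg a) = gg (φ a) := by
  simp [gg]

private lemma fc_map_ff {A B : Type} [CommRing A] [CommRing B] (φ : A →+* B) (Λ : ℕ) (a : A) :
    φ (ff Λ a) = ff Λ (φ a) := by
  have h2 : φ 2 = 2 := map_ofNat φ 2
  simp [ff, fc_map_gg, h2]

private lemma fc_map_SS {A B : Type} [CommRing A] [CommRing B] (φ : A →+* B) (Λ : ℕ) {n : ℕ}
    (x : Fin n → A) : φ (SS Λ x) = SS Λ (fun i => φ (x i)) := by
  simp [SS, fc_map_gg]

private lemma fc_SS {L : Type} [Field L] [CharZero L] {m : ℕ} {x : Fin (m + 1) → L}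
    (hx : AlgebraicIndependent ℚ x) (Λ : ℕ) : SS Λ x ≠ 0 := by
  intro h
  have h1 : aeval x (SS Λ (X : Fin (m + 1) → MvPolynomial (Fin (m + 1)) ℚ)) = 0 := by
    have := fc_map_SS ((aeval x : MvPolynomial (Fin (m + 1)) ℚ →ₐ[ℚ] L) : _ →+* L) Λ
      (X : Fin (m + 1) → MvPolynomial (Fin (m + 1)) ℚ)
    simp only [RingHom.coe_coe, aeval_X] at this
    rw [this]
    exact h
  have h2 : SS Λ (X : Fin (m + 1) → MvPolynomial (Fin (m + 1)) ℚ) = 0 :=
    (algebraicIndependent_iff.mp hx) _ h1
  have h3 := congrArg (aeval (fun _ : Fin (m + 1) => (2 : ℚ))) h2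
  have := fc_map_SS ((aeval (fun _ : Fin (m + 1) => (2 : ℚ)) :
    MvPolynomial (Fin (m + 1)) ℚ →ₐ[ℚ] ℚ) : _ →+* ℚ) Λ
      (X : Fin (m + 1) → MvPolynomial (Fin (m + 1)) ℚ)
  simp only [RingHom.coe_coe, aeval_X] at this
  rw [this, map_zero] at h3
  simp only [SS, gg, Finset.sum_const, Finset.card_univ, Fintype.card_fin, nsmul_eq_mul] at h3
  have h4 : (0 : ℚ) < ((m + 1 : ℕ) : ℚ) * (2 * (2 - 1)) ^ Λ := by positivity
  rw [h3] at h4
  exact lt_irrefl _ h4

private lemma fc_le_vmax {ι Γ : Type*} [Fintype ι] [Nonempty ι] [LinearOrder Γ] (f : ι → Γ)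
    (i : ι) : f i ≤ vmax f := Finset.le_sup' f (Finset.mem_univ i)

/-- integrality of the coordinates times a denominator -/
private lemma fc_mem {L : Type} [Field L] [CharZero L] {Λ : ℕ} (hΛ : 1 ≤ Λ) {m : ℕ}
    (x : Fin (m + 1) → L) (hx : AlgebraicIndependent ℚ x) (V : ValuationSubring L)
    (hc : ∀ c : ℚ, algebraMap ℚ L c ∈ V) (hy : ∀ i, ff Λ (x i) / SS Λ x ∈ V) :
    gg (x 0) ^ Λ / SS Λ x ∈ V ∧ ∀ i, x i * (gg (x 0) ^ Λ / SS Λ x) ∈ V := by
  have hS := fc_SS hx Λ
  have hS' : V.valuation (SS Λ x) ≠ 0 := (Valuation.ne_zero_iff _).mpr hS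
  have hb := bpf hΛ x V (fc_nat V hc)
  have h1 : vmax (fun i => V.valuation
        ((Fin.cons (SS Λ x) (fun i => ff Λ (x i)) : Fin (m + 2) → L) i)) ≤
          V.valuation (SS Λ x) := by
    refine Finset.sup'_le _ _ fun i _ => ?_
    refine Fin.cases ?_ (fun j => ?_) i
    · simp
    · simp only [Fin.cons_succ]
      have := hy j
      rw [← ValuationSubring.valuation_le_one_iff, map_div₀] at this
      exact (div_le_one₀ (zero_lt_iff.mpr hS')).mp this
  rw [hb] at h1
  have h2 : V.valuation (gg (x 0)) ^ Λ ≤ vmax (fun i => V.valuation (gg (x i))) ^ Λ :=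
    pow_le_pow_left' (fc_le_vmax (fun i => V.valuation (gg (x i))) 0) _
  have h3 : ∀ a : L, V.valuation a ≤
      vmax (fun i => V.valuation ((Fin.cons 1 x : Fin (m + 2) → L) i)) →
      a * (gg (x 0) ^ Λ / SS Λ x) ∈ V := by
    intro a ha
    rw [← ValuationSubring.valuation_le_one_iff, ← mul_div_assoc, map_div₀,
      div_le_one₀ (zero_lt_iff.mpr hS'), map_mul, map_pow]
    exact (mul_le_mul' ha h2).trans h1
  constructor
  · have := h3 1 (by
      have := fc_le_vmax (fun i => V.valuation ((Fin.cons 1 x : Fin (m + 2) → L) i)) 0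
      simpa using this)
    simpa using this
  · intro i
    exact h3 (x i) (by
      have := fc_le_vmax (fun i => V.valuation ((Fin.cons 1 x : Fin (m + 2) → L) i)) i.succ
      simpa using this)

private lemma fc_alg {L : Type} [Field L] [CharZero L] {Λ : ℕ} (hΛ : 1 ≤ Λ) {m : ℕ}
    (x : Fin (m + 1) → L) (hx : AlgebraicIndependent ℚ x) (i : Fin (m + 1)) :
    IsAlgebraic (Algebra.adjoin ℚ (Set.range fun i => ff Λ (x i) / SS Λ x)) (x i) := by
  set R := Algebra.adjoin ℚ (Set.range fun i => ff Λ (x i) / SS Λ x) with hR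
  have hV : ∀ V : ValuationSubring L, (∀ a ∈ R.toSubring, a ∈ V) →
      gg (x 0) ^ Λ / SS Λ x ∈ V ∧ ∀ i, x i * (gg (x 0) ^ Λ / SS Λ x) ∈ V := fun V hVR =>
    fc_mem hΛ x hx V (fun c => hVR _ (R.algebraMap_mem c))
      fun i => hVR _ (Algebra.subset_adjoin ⟨i, rfl⟩)
  have h1 : IsIntegral R (gg (x 0) ^ Λ / SS Λ x) := fc_int R.toSubring _ fun V hVR => (hV V hVR).1
  have h2 : IsIntegral R (x i * (gg (x 0) ^ Λ / SS Λ x)) :=
    fc_int R.toSubring _ fun V hVR => (hV V hVR).2 i
  have hne : gg (x 0) ^ Λ / SS Λ x ≠ 0 := div_ne_zero (pow_ne_zero _ (fc_gg hx 0)) (fc_SS hx Λ)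
  have h3 : x i = (x i * (gg (x 0) ^ Λ / SS Λ x)) * (gg (x 0) ^ Λ / SS Λ x)⁻¹ := by
    rw [mul_inv_cancel_right₀ hne]
  rw [h3]
  exact h2.isAlgebraic.mul h1.isAlgebraic.inv

private lemma fc_restrict {L : Type} [Field L] [CharZero L] (κ F : IntermediateField ℚ L) (ε : L)
    (hκF : κ ≤ F) (hε : ε ∈ F) :
    (IntermediateField.adjoin κ {ε}).restrictScalars ℚ ≤ F := by
  have h1 : IntermediateField.adjoin κ {ε} ≤ IntermediateField.extendScalars hκF := by
    rw [IntermediateField.adjoin_le_iff, Set.singleton_subset_iff]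
    exact hε
  exact fun a ha => h1 ha

/-- The degree of the map `x ↦ (ff (x i) / SS x)` is `1` modulo `Λ`. -/
theorem finrank_fib {L : Type} [Field L] [CharZero L] {Λ : ℕ} (hΛ : 1 ≤ Λ) {m : ℕ}
    (x : Fin (m + 1) → L) (hx : AlgebraicIndependent ℚ x)
    (hgen : IntermediateField.adjoin ℚ (Set.range x) = ⊤) :
    FiniteDimensional (IntermediateField.adjoin ℚ (Set.range fun i => ff Λ (x i) / SS Λ x)) L ∧
      Module.finrank (IntermediateField.adjoin ℚ (Set.range fun i => ff Λ (x i) / SS Λ x)) L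
        ≡ 1 [MOD Λ] := by
  have hyb : IsTranscendenceBasis ℚ (fun i => ff Λ (x i) / SS Λ x) :=
    fc_basis x hx hgen _ (fc_alg hΛ x hx)
  have halgF := hyb.isAlgebraic_field
  set F := IntermediateField.adjoin ℚ (Set.range fun i => ff Λ (x i) / SS Λ x) with hF
  have hfd : FiniteDimensional F L := by
    have h1 : IntermediateField.adjoin F (Set.range x) = ⊤ := by
      have h2 : (IntermediateField.adjoin F (Set.range x)).restrictScalars ℚ = ⊤ := by
        rw [eq_top_iff, ← hgen, IntermediateField.adjoin_le_iff]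
        exact IntermediateField.subset_adjoin F (Set.range x)
      rw [eq_top_iff]
      intro a _
      have : a ∈ (IntermediateField.adjoin F (Set.range x)).restrictScalars ℚ := by
        rw [h2]; trivial
      exact this
    have h3 : FiniteDimensional F (IntermediateField.adjoin F (Set.range x)) :=
      IntermediateField.finiteDimensional_adjoin fun a _ => (halgF.isAlgebraic a).isIntegral
    rw [h1] at h3
    exact Module.Finite.equiv (IntermediateField.topEquiv (F := F) (E := L)).toLinearEquiv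
  refine ⟨hfd, ?_⟩
  have hS := fc_SS hx Λ
  -- the field of ratios
  obtain ⟨V₀, hV02, hV0κ⟩ := exists_val0 hΛ x hx hgen
  set κ := IntermediateField.adjoin ℚ (Set.range fun i : Fin (m + 1) =>
    ff Λ (x i) / ff Λ (x 0)) with hκdef
  set ε := ff Λ (x 0) / SS Λ x with hε
  have hε0 : ε ≠ 0 := div_ne_zero (fc_ff hx Λ 0) hS
  have hηmem : ∀ i, ff Λ (x i) / ff Λ (x 0) ∈ κ := fun i =>
    IntermediateField.subset_adjoin _ _ ⟨i, rfl⟩
  let η : Fin (m + 1) → κ := fun i => ⟨ff Λ (x i) / ff Λ (x 0), hηmem i⟩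
  have hη0 : η 0 ≠ 0 := by
    intro h
    have : ff Λ (x 0) / ff Λ (x 0) = 0 := congrArg Subtype.val h
    rw [div_self (fc_ff hx Λ 0)] at this
    exact one_ne_zero this
  have hηne : ∀ i, (η i : L) ≠ 0 := fun i => div_ne_zero (fc_ff hx Λ i) (fc_ff hx Λ 0)
  have hyη : ∀ i, ff Λ (x i) = algebraMap κ L (η i) * ε * SS Λ x := by
    intro i
    have h0 := fc_ff hx Λ 0
    change ff Λ (x i) = ff Λ (x i) / ff Λ (x 0) * (ff Λ (x 0) / SS Λ x) * SS Λ x
    field_simp
  have hgenκ : IntermediateField.adjoin κ (Set.range x) = ⊤ := by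
    have h2 : (IntermediateField.adjoin κ (Set.range x)).restrictScalars ℚ = ⊤ := by
      rw [eq_top_iff, ← hgen, IntermediateField.adjoin_le_iff]
      exact IntermediateField.subset_adjoin κ (Set.range x)
    rw [eq_top_iff]
    intro a _
    have : a ∈ (IntermediateField.adjoin κ (Set.range x)).restrictScalars ℚ := by
      rw [h2]; trivial
    exact this
  have hκV0 : ∀ a : κ, algebraMap κ L a ∈ V₀ := fun a => hV0κ _ a.2
  obtain ⟨hp1, hp2, hp3⟩ := val0_props hΛ x hgenκ ε hε0 η 0 hη0 hS hyη V₀ hκV0 hV02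
  have hVε : V₀.valuation ε < 1 := by
    rw [hp1, div_self hε0]
    exact V₀.one_mem
  have htr : Transcendental κ ε := by
    intro h
    have h1 : IsIntegral κ ε⁻¹ := h.inv.isIntegral
    have h2 : ε⁻¹ ∈ V₀ := by
      obtain ⟨p, hpm, hp⟩ := h1
      let ι : κ →+* V₀ :=
        { toFun := fun a => ⟨algebraMap κ L a, hκV0 a⟩
          map_one' := by ext; simp
          map_mul' := by intro a b; ext; simp
          map_zero' := by ext; simp
          map_add' := by intro a b; ext; simp }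
      have h3 : IsIntegral V₀ ε⁻¹ := by
        refine ⟨p.map ι, hpm.map _, ?_⟩
        rw [Polynomial.eval₂_map]
        exact hp
      obtain ⟨b, hb⟩ := IsIntegrallyClosed.isIntegral_iff.mp h3
      rw [← hb]
      exact b.2
    rw [← ValuationSubring.valuation_le_one_iff, map_inv₀] at h2
    have h4 : V₀.valuation ε ≠ 0 := (Valuation.ne_zero_iff _).mpr hε0
    rw [inv_le_one₀ (zero_lt_iff.mpr h4)] at h2
    exact absurd hVε (not_lt.mpr h2)
  -- `κ(ε) = ℚ(y)`
  set E := IntermediateField.adjoin κ {ε} with hE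
  have hκF : κ ≤ F := by
    rw [hκdef, IntermediateField.adjoin_le_iff]
    rintro _ ⟨i, rfl⟩
    have h1 : ff Λ (x i) / SS Λ x ∈ F := IntermediateField.subset_adjoin _ _ ⟨i, rfl⟩
    have h2 : ff Λ (x 0) / SS Λ x ∈ F := IntermediateField.subset_adjoin _ _ ⟨0, rfl⟩
    have h3 : ff Λ (x i) / ff Λ (x 0) = (ff Λ (x i) / SS Λ x) / (ff Λ (x 0) / SS Λ x) := by
      have h0 := fc_ff hx Λ 0
      field_simp
    simp only [h3]
    exact F.div_mem h1 h2
  have hEF : E.restrictScalars ℚ = F := by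
    apply le_antisymm
    · exact fc_restrict κ F ε hκF (IntermediateField.subset_adjoin _ _ ⟨0, rfl⟩)
    · rw [hF, IntermediateField.adjoin_le_iff]
      rintro _ ⟨i, rfl⟩
      have h1 : ff Λ (x i) / SS Λ x = (η i : L) * ε := by
        rw [hyη i, mul_div_cancel_right₀ _ hS]
        rfl
      have h2 : (η i : L) * ε ∈ E :=
        E.mul_mem (E.algebraMap_mem (η i)) (IntermediateField.mem_adjoin_simple_self κ ε)
      rw [← h1] at h2
      exact h2
  have htrans : ∀ F' : IntermediateField ℚ L, E.restrictScalars ℚ = F' →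
      (FiniteDimensional F' L → FiniteDimensional E L) ∧
        Module.finrank F' L = Module.finrank E L := by
    rintro _ rfl
    exact ⟨id, rfl⟩
  obtain ⟨ht1, ht2⟩ := htrans F hEF
  rw [ht2]
  refine finrank_modEq_one ε htr (ht1 hfd) Λ V₀ hκV0 hp1 hp2 fun V hκV hVε => ?_
  have hη1 : ∀ i, V.valuation (η i : L) = 1 := by
    intro i
    have h1 : V.valuation (η i : L) ≤ 1 := (ValuationSubring.valuation_le_one_iff _ _).mpr
      (hκV (η i))
    have h2 : V.valuation ((η i : L)⁻¹) ≤ 1 := (ValuationSubring.valuation_le_one_iff _ _).mpr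
      (hκV (η i)⁻¹)
    rw [map_inv₀] at h2
    have h3 : V.valuation (η i : L) ≠ 0 := (Valuation.ne_zero_iff _).mpr (hηne i)
    refine le_antisymm h1 ?_
    rwa [inv_le_one₀ (zero_lt_iff.mpr h3)] at h2
  have hnat : ∀ k : ℕ, k ≠ 0 → V.valuation (k : L) = 1 :=
    fc_nat V fun c => hκV (algebraMap ℚ κ c)
  have hyV : ∀ i, V.valuation (ff Λ (x i)) = V.valuation ε * V.valuation (SS Λ x) := by
    intro i
    rw [hyη i, map_mul, map_mul]
    have : V.valuation (algebraMap κ L (η i)) = 1 := hη1 i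
    rw [this, one_mul]
  rcases val_anal hΛ x V hnat ε hVε hS hyV with h | h
  · exact Or.inl (hp3 V hκV h)
  · exact Or.inr h

private lemma fc_generic (n : ℕ) : ∃ (L : Type) (_ : Field L) (_ : CharZero L) (x : Fin n → L),
    AlgebraicIndependent ℚ x ∧ IntermediateField.adjoin ℚ (Set.range x) = ⊤ := by
  let L := FractionRing (MvPolynomial (Fin n) ℚ)
  have hc : CharZero L := algebraRat.charZero L
  have h1 : AlgebraicIndependent ℚ
      (fun i : Fin n => algebraMap (MvPolynomial (Fin n) ℚ) L (X i)) :=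
    (MvPolynomial.algebraicIndependent_X (Fin n) ℚ).map'
      (f := IsScalarTower.toAlgHom ℚ (MvPolynomial (Fin n) ℚ) L)
      (IsFractionRing.injective (MvPolynomial (Fin n) ℚ) L)
  have h2 : IntermediateField.adjoin ℚ
      (Set.range fun i : Fin n => algebraMap (MvPolynomial (Fin n) ℚ) L (X i)) = ⊤ := by
    rw [eq_top_iff]
    intro a _
    have h3 : ∀ p : MvPolynomial (Fin n) ℚ, algebraMap (MvPolynomial (Fin n) ℚ) L p ∈
        IntermediateField.adjoin ℚ
          (Set.range fun i : Fin n => algebraMap (MvPolynomial (Fin n) ℚ) L (X i)) := by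
      intro p
      induction p using MvPolynomial.induction_on with
      | C c =>
        have : algebraMap (MvPolynomial (Fin n) ℚ) L (C c) = algebraMap ℚ L c := by
          rw [IsScalarTower.algebraMap_apply ℚ (MvPolynomial (Fin n) ℚ) L]
          rfl
        rw [this]
        exact IntermediateField.algebraMap_mem _ _
      | add p q hp hq => rw [map_add]; exact add_mem hp hq
      | mul_X p i hp =>
        rw [map_mul]
        exact mul_mem hp (IntermediateField.subset_adjoin _ _ ⟨i, rfl⟩)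
    obtain ⟨p, q, _, rfl⟩ := IsFractionRing.div_surjective (A := MvPolynomial (Fin n) ℚ) a
    exact div_mem (h3 p) (h3 q)
  refine ⟨L, inferInstance, hc, fun i => algebraMap (MvPolynomial (Fin n) ℚ) L (X i), ?_, ?_⟩
  · convert h1
  · convert h2

private lemma fc_hom {K L₀ L : Type} [Field K] [Field L₀] [Algebra K L₀] [Field L] [Algebra K L]
    {n : ℕ} (x : Fin n → L₀) (hx : AlgebraicIndependent K x) (w : Fin n → L)
    (hw : AlgebraicIndependent K w) :
    ∃ ψ : IntermediateField.adjoin K (Set.range x) →+* L,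
      ∀ i, ψ ⟨x i, IntermediateField.subset_adjoin _ _ ⟨i, rfl⟩⟩ = w i := by
  refine ⟨(IntermediateField.val _).toRingHom.comp
    (hw.aevalEquivField.toRingEquiv.toRingHom.comp
      hx.aevalEquivField.symm.toRingEquiv.toRingHom), fun i => ?_⟩
  have h1 : hx.aevalEquivField.symm ⟨x i, IntermediateField.subset_adjoin _ _ ⟨i, rfl⟩⟩ =
      algebraMap (MvPolynomial (Fin n) K) _ (X i) := by
    rw [AlgEquiv.symm_apply_eq]
    apply Subtype.ext
    rw [hx.aevalEquivField_algebraMap_apply_coe, aeval_X]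
  change ((hw.aevalEquivField (hx.aevalEquivField.symm ⟨x i, _⟩) :
    IntermediateField.adjoin K (Set.range w)) : L) = w i
  rw [h1, hw.aevalEquivField_algebraMap_apply_coe, aeval_X]

private lemma fc_hom' {L₀ L : Type} [Field L₀] [CharZero L₀] [Field L] [CharZero L] {n : ℕ}
    (x : Fin n → L₀) (hx : AlgebraicIndependent ℚ x)
    (hgen : IntermediateField.adjoin ℚ (Set.range x) = ⊤) (w : Fin n → L)
    (hw : AlgebraicIndependent ℚ w) : ∃ θ : L₀ →+* L, ∀ i, θ (x i) = w i := by
  obtain ⟨ψ, hψ⟩ := fc_hom x hx w hw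
  have hmem : ∀ a : L₀, a ∈ IntermediateField.adjoin ℚ (Set.range x) := fun a => by
    rw [hgen]; trivial
  exact ⟨ψ.comp
    { toFun := fun a => ⟨a, hmem a⟩
      map_one' := rfl
      map_mul' := fun _ _ => rfl
      map_zero' := rfl
      map_add' := fun _ _ => rfl }, fun i => hψ i⟩

private lemma fc_ratio {L : Type} [Field L] [CharZero L] {m : ℕ} (u : Fin (m + 2) → L)
    (hu : AlgebraicIndependent ℚ u) :
    AlgebraicIndependent ℚ (fun i : Fin (m + 1) => u i.succ / u 0) := by
  obtain ⟨L₀, _, _, x, hx, hgen⟩ := fc_generic (m + 2)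
  have hx0 : x 0 ≠ 0 := by simpa using fc_ne hx 0 0
  have hv : IsTranscendenceBasis ℚ (Fin.cons (x 0) (fun i : Fin (m + 1) => x i.succ / x 0) :
      Fin (m + 2) → L₀) := by
    refine fc_basis x hx hgen _ fun i => ?_
    set v := (Fin.cons (x 0) (fun i : Fin (m + 1) => x i.succ / x 0) : Fin (m + 2) → L₀) with hv
    have hm : ∀ j, v j ∈ Algebra.adjoin ℚ (Set.range v) := fun j => Algebra.subset_adjoin ⟨j, rfl⟩
    have hi : x i ∈ Algebra.adjoin ℚ (Set.range v) := by
      refine Fin.cases ?_ (fun j => ?_) i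
      · exact hm 0
      · have h1 : x j.succ = v j.succ * v 0 := by
          simp only [hv, Fin.cons_succ, Fin.cons_zero]
          rw [div_mul_cancel₀ _ hx0]
        rw [h1]
        exact mul_mem (hm _) (hm _)
    exact isAlgebraic_algebraMap (A := L₀) (⟨x i, hi⟩ : Algebra.adjoin ℚ (Set.range v))
  have hv2 : AlgebraicIndependent ℚ (fun i : Fin (m + 1) => x i.succ / x 0) :=
    hv.1.comp Fin.succ (Fin.succ_injective _)
  obtain ⟨θ, hθ⟩ := fc_hom' x hx hgen u hu
  have h3 := hv2.map' (f := θ.toRatAlgHom) θ.injective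
  have h4 : (θ.toRatAlgHom ∘ fun i : Fin (m + 1) => x i.succ / x 0) =
      fun i : Fin (m + 1) => u i.succ / u 0 := by
    funext i
    simp only [Function.comp_apply]
    change θ (x i.succ / x 0) = _
    rw [map_div₀, hθ, hθ]
  rw [h4] at h3
  exact h3

/-- The number of points over a generic point. -/
theorem exists_delta {Λ : ℕ} (hΛ : 1 ≤ Λ) : ∃ δ : ℕ → ℕ, ∀ m : ℕ, δ (m + 1) ≡ 1 [MOD Λ] ∧
    ∀ (L : Type) [Field L] [CharZero L] [IsAlgClosed L] (u : Fin (m + 2) → L),
      AlgebraicIndependent ℚ u → {x | Over Λ u x}.Finite ∧ {x | Over Λ u x}.ncard = δ (m + 1) := by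
  have key : ∀ m : ℕ, ∃ d : ℕ, d ≡ 1 [MOD Λ] ∧
      ∀ (L : Type) [Field L] [CharZero L] [IsAlgClosed L] (u : Fin (m + 2) → L),
        AlgebraicIndependent ℚ u → {x | Over Λ u x}.Finite ∧ {x | Over Λ u x}.ncard = d := by
    intro m
    obtain ⟨L₀, _, _, x₀, hx₀, hgen⟩ := fc_generic (m + 1)
    obtain ⟨hfd, hmod⟩ := finrank_fib hΛ x₀ hx₀ hgen
    refine ⟨_, hmod, fun L _ _ _ u hu => ?_⟩
    have ht := fc_ratio u hu
    have hy : AlgebraicIndependent ℚ (fun i => ff Λ (x₀ i) / SS Λ x₀) :=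
      (fc_basis x₀ hx₀ hgen _ (fc_alg hΛ x₀ hx₀)).1
    set F := IntermediateField.adjoin ℚ (Set.range fun i => ff Λ (x₀ i) / SS Λ x₀) with hF
    obtain ⟨ψ, hψ⟩ : ∃ ψ : F →+* L, ∀ i, ψ ⟨ff Λ (x₀ i) / SS Λ x₀,
        IntermediateField.subset_adjoin _ _ ⟨i, rfl⟩⟩ = u i.succ / u 0 := fc_hom _ hy _ ht
    have hu0 : u 0 ≠ 0 := by simpa using fc_ne hu 0 0
    have hS0 := fc_SS hx₀ Λ
    let _ : Algebra F L := ψ.toAlgebra
    have hcard : Nat.card (L₀ →ₐ[F] L) = Module.finrank F L₀ :=
      AlgHom.natCard_of_splits F L₀ L fun _ => IsAlgClosed.splits _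
    have hfin : Finite (L₀ →ₐ[F] L) := inferInstance
    have hφy : ∀ (φ : L₀ →ₐ[F] L) (i : Fin (m + 1)),
        φ (ff Λ (x₀ i) / SS Λ x₀) = u i.succ / u 0 := by
      intro φ i
      have h1 := φ.commutes ⟨ff Λ (x₀ i) / SS Λ x₀, IntermediateField.subset_adjoin _ _ ⟨i, rfl⟩⟩
      exact h1.trans (hψ i)
    have hov : ∀ φ : L₀ →ₐ[F] L, Over Λ u fun i => φ (x₀ i) := by
      intro φ
      have hS : SS Λ (fun i => φ (x₀ i)) = φ (SS Λ x₀) := (fc_map_SS φ.toRingHom Λ x₀).symm
      refine ⟨?_, fun i => ?_⟩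
      · rw [hS]
        exact (map_ne_zero φ).mpr hS0
      · have h1 : ff Λ (φ (x₀ i)) = φ (ff Λ (x₀ i)) := (fc_map_ff φ.toRingHom Λ (x₀ i)).symm
        have h2 := hφy φ i
        rw [map_div₀, div_eq_div_iff ((map_ne_zero φ).mpr hS0) hu0] at h2
        rw [hS, h1]
        exact h2
    let f : (L₀ →ₐ[F] L) → {x | Over Λ u x} := fun φ => ⟨fun i => φ (x₀ i), hov φ⟩
    have hinj : Function.Injective f := by
      intro φ₁ φ₂ h
      have h1 : ∀ i, φ₁ (x₀ i) = φ₂ (x₀ i) := fun i => congrFun (congrArg Subtype.val h) i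
      apply AlgHom.ext
      intro a
      have ha : a ∈ IntermediateField.adjoin ℚ (Set.range x₀) := by rw [hgen]; trivial
      induction ha using IntermediateField.adjoin_induction with
      | mem b hb =>
        obtain ⟨i, rfl⟩ := hb
        exact h1 i
      | algebraMap b =>
        rw [eq_ratCast, map_ratCast, map_ratCast]
      | add b c _ _ h2 h3 => rw [map_add, map_add, h2, h3]
      | inv b _ h2 => rw [map_inv₀, map_inv₀, h2]
      | mul b c _ _ h2 h3 => rw [map_mul, map_mul, h2, h3]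
    have hsurj : Function.Surjective f := by
      rintro ⟨x, hx⟩
      have hx' : Over Λ u x := hx
      have hxi : AlgebraicIndependent ℚ x := Over.indep hu hx'
      obtain ⟨θ, hθ⟩ := fc_hom' x₀ hx₀ hgen x hxi
      have hθF : ∀ (a : L₀) (ha : a ∈ F), θ a = ψ ⟨a, ha⟩ := by
        intro a ha
        induction ha using IntermediateField.adjoin_induction with
        | mem b hb =>
          obtain ⟨i, rfl⟩ := hb
          have h1 := hψ i
          refine Eq.trans ?_ h1.symm
          simp only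
          rw [map_div₀, fc_map_ff, fc_map_SS]
          simp only [hθ]
          rw [div_eq_div_iff hx'.1 hu0]
          exact hx'.2 i
        | algebraMap b =>
          have : (⟨algebraMap ℚ L₀ b, IntermediateField.algebraMap_mem F b⟩ : F) =
            algebraMap ℚ F b := rfl
          rw [this, eq_ratCast, eq_ratCast, map_ratCast, map_ratCast]
        | add b c hb hc h2 h3 =>
          rw [map_add, h2, h3, ← map_add]
          rfl
        | inv b hb h2 =>
          rw [map_inv₀, h2, ← map_inv₀]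
          rfl
        | mul b c hb hc h2 h3 =>
          rw [map_mul, h2, h3, ← map_mul]
          rfl
      let φ : L₀ →ₐ[F] L :=
        { θ with commutes' := fun a => hθF a a.2 }
      refine ⟨φ, Subtype.ext (funext fun i => ?_)⟩
      exact hθ i
    have hbij : Function.Bijective f := ⟨hinj, hsurj⟩
    have hfinS : Finite {x | Over Λ u x} := Finite.of_surjective f hsurj
    refine ⟨Set.toFinite _, ?_⟩
    rw [← hcard, Nat.card_eq_of_bijective f hbij]
    exact (Nat.card_coe_set_eq _).symm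
  choose d hd using key
  exact ⟨fun k => d (k - 1), fun m => hd m⟩

end Pool.Agent.DensDeg
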