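import Pool.Agent.DensDeg.LClosed
import Pool.Agent.DensDeg.FibCount
import Pool.Agent.DensDeg.BaseHval

set_option autoImplicit false

namespace Pool.Agent.DensDeg

open IntermediateField

/-- All coordinates of a point of the tower lie in a subfield. -/
def Dat.In {L : Type} [Field L] (F : Subfield L) : ∀ k, Dat L k → Prop
  | 0, _ => True
  | k + 1, d => (∀ i, d.1 i ∈ F) ∧ ∀ o, Dat.In F k (d.2 o)

private theorem gg_memF {L : Type} [Field L] (F : Subfield L) {t : L} (ht : t ∈ F) : gg t ∈ F := by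
  unfold gg
  exact F.mul_mem ht (F.sub_mem ht F.one_mem)

private theorem sub_memF {L : Type} [Field L] (F : Subfield L) {n : ℕ} {x : Fin n → L}
    (hx : ∀ i, x i ∈ F) (o : Option (Fin n → Bool)) (i : Fin n) : sub x o i ∈ F := by
  cases o with
  | none => exact gg_memF F (hx i)
  | some q =>
    refine F.sub_mem (hx i) ?_
    by_cases h : q i = true
    · rw [if_pos h]; exact F.one_mem
    · rw [if_neg h]; exact F.zero_mem

private theorem SS_memF {L : Type} [Field L] (F : Subfield L) (Λ : ℕ) {n : ℕ} {x : Fin n → L}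
    (hx : ∀ i, x i ∈ F) : SS Λ x ∈ F := by
  unfold SS
  exact F.sum_mem fun j _ => F.pow_mem (gg_memF F (hx j)) _

private theorem over_stab {F L : Type} [Field F] [Field L] [Algebra F L] {l n : ℕ}
    {u : Fin (n + 1) → L} (huF : ∀ i, u i ∈ (algebraMap F L).fieldRange) (σ : L ≃ₐ[F] L)
    {x : Fin n → L} (hx : Over l u x) : Over l u (fun i => σ (x i)) := by
  have hu : ∀ i, σ (u i) = u i := by
    intro i
    obtain ⟨a, ha⟩ := huF i
    rw [← ha]
    exact σ.commutes a
  have hg : ∀ t : L, gg (σ t) = σ (gg t) := by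
    intro t
    simp only [gg, map_mul, map_sub, map_one]
  have hf : ∀ t : L, ff l (σ t) = σ (ff l t) := by
    intro t
    simp only [ff, hg, map_mul, map_sub, map_pow, map_ofNat]
  have hS : SS l (fun i => σ (x i)) = σ (SS l x) := by
    simp only [SS, hg, map_sum, map_pow]
  refine ⟨?_, fun i => ?_⟩
  · rw [hS]
    exact fun h => hx.1 ((map_eq_zero σ).1 h)
  · have h := congrArg σ (hx.2 i)
    rw [map_mul, map_mul, hu, hu] at h
    rw [hS, hf]
    exact h

/-- Over an `l`-closed field there are rational points of the tower. -/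
theorem exists_pt_in {F L : Type} [Field F] [CharZero F] [Field L] [CharZero L] [Algebra F L]
    [IsAlgClosed L] [Algebra.IsAlgebraic F L] (l : ℕ) (hl : l.Prime)
    (hF : ∀ x : L, ∃ s : ℕ, Module.finrank F F⟮x⟯ = l ^ s) (k : ℕ) (u : Fin (k + 2) → L)
    (hu : AlgebraicIndependent ℚ u) (huF : ∀ i, u i ∈ (algebraMap F L).fieldRange) :
    ∃ d : Dat L k, Pt l k u d ∧ Dat.In (algebraMap F L).fieldRange k d := by
  obtain ⟨δ, hδ⟩ := exists_delta hl.one_lt.le
  induction k with
  | zero => exact ⟨(), trivial, trivial⟩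
  | succ k ih =>
    obtain ⟨h1, h2⟩ := hδ (k + 1)
    obtain ⟨hfin, hcard⟩ := h2 L u hu
    obtain ⟨x, hx, hxF⟩ := exists_fixed (F := F) l hl hF {x | Over l u x} hfin
      (fun σ x hx => over_stab huF σ hx) (by rw [hcard]; exact h1)
    have hxF' : ∀ i, x i ∈ (algebraMap F L).fieldRange := by
      intro i
      obtain ⟨a, ha⟩ := hxF i
      exact ⟨a, ha⟩
    have hxi : AlgebraicIndependent ℚ x := Over.indep hu hx
    have hstep : ∀ o, ∃ d : Dat L k, Pt l k (sub x o) d ∧
        Dat.In (algebraMap F L).fieldRange k d := by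
      intro o
      exact ih (sub x o) (indep_sub hxi o) (fun i => sub_memF _ hxF' o i)
    choose d hd1 hd2 using hstep
    exact ⟨(x, d), ⟨hx, hd1⟩, ⟨hxF', hd2⟩⟩

theorem pen_mem {L : Type} [Field L] (F : Subfield L) (k : ℕ) (u : Fin (k + 2) → L)
    (hu : ∀ i, u i ∈ F) (d : Dat L k) (hd : Dat.In F k d) (j : Slot k) : pen k u d j ∈ F := by
  induction k with
  | zero => exact F.div_mem (hu 1) (hu 0)
  | succ k ih =>
    exact ih (sub d.1 j.1) (fun i => sub_memF F hd.1 j.1 i) (d.2 j.1) (hd.2 j.1) j.2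

theorem lam_mem {L : Type} [Field L] (F : Subfield L) (Λ k : ℕ) (u : Fin (k + 2) → L)
    (hu : ∀ i, u i ∈ F) (d : Dat L k) (hd : Dat.In F k d) : lam Λ k u d ∈ F := by
  induction k with
  | zero => exact hu 0
  | succ k ih =>
    have h : ∀ o, lam Λ k (sub d.1 o) (d.2 o) ∈ F := fun o =>
      ih (sub d.1 o) (fun i => sub_memF F hd.1 o i) (d.2 o) (hd.2 o)
    refine F.mul_mem (F.mul_mem (F.pow_mem (F.div_mem (hu 0) (SS_memF F Λ hd.1)) _) ?_)
      (F.pow_mem (h none) _)
    exact F.prod_mem fun q _ => h (some q)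

end Pool.Agent.DensDeg
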