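import Pool.Agent.MultiSpec.Datum

/-!
Definitions for the tower of blow-ups.  Level `k` concerns points of `ℙ^(k+1)`.  A point over a
generic point `u` of level `k + 1` is given by `x : Fin (k + 2) → L` with
`(x i - 2) (x i (x i - 1)) ^ Λ * u 0 = u (i + 1) * S x`, `S x = ∑ j, (x j (x j - 1)) ^ Λ`, and by
points over the images `x - q` (`q` in the grid) and `x (x - 1)` of level `k`.
-/

set_option autoImplicit false

namespace Pool.Agent.DensDeg

open Pool.Agent.MultiSpec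

/-! ### Values of vectors -/

/-- The maximum of a family of values. -/
def vmax {ι Γ : Type*} [Fintype ι] [Nonempty ι] [LinearOrder Γ] (f : ι → Γ) : Γ :=
  Finset.univ.sup' Finset.univ_nonempty f

/-! ### One step -/

/-- `g t = t (t - 1)`. -/
def gg {L : Type*} [CommRing L] (t : L) : L := t * (t - 1)

/-- `f t = (t - 2) (t (t - 1)) ^ Λ`. -/
def ff {L : Type*} [CommRing L] (Λ : ℕ) (t : L) : L := (t - 2) * gg t ^ Λ

/-- `S x = ∑ (x j (x j - 1)) ^ Λ`. -/
def SS {L : Type*} [CommRing L] (Λ : ℕ) {n : ℕ} (x : Fin n → L) : L := ∑ j, gg (x j) ^ Λ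

/-- `x` lies over `u`. -/
def Over {L : Type*} [CommRing L] (Λ : ℕ) {n : ℕ} (u : Fin (n + 1) → L) (x : Fin n → L) : Prop :=
  SS Λ x ≠ 0 ∧ ∀ i : Fin n, ff Λ (x i) * u 0 = u i.succ * SS Λ x

/-- The images of `x`: the projections from the grid points and the net of quadrics. -/
def sub {L : Type*} [CommRing L] {n : ℕ} (x : Fin n → L) : Option (Fin n → Bool) → Fin n → L
  | none => fun i => gg (x i)
  | some q => fun i => x i - (if q i then 1 else 0)

/-! ### The tower -/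

/-- The slots of level `k`. -/
def Slot : ℕ → Type
  | 0 => Unit
  | k + 1 => Option (Fin (k + 2) → Bool) × Slot k

instance instFintypeSlot : ∀ k, Fintype (Slot k)
  | 0 => inferInstanceAs (Fintype Unit)
  | k + 1 => by
    have := instFintypeSlot k
    exact inferInstanceAs (Fintype (Option (Fin (k + 2) → Bool) × Slot k))

instance instNonemptySlot : ∀ k, Nonempty (Slot k)
  | 0 => inferInstanceAs (Nonempty Unit)
  | k + 1 => by
    have := instNonemptySlot k
    exact inferInstanceAs (Nonempty (Option (Fin (k + 2) → Bool) × Slot k))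

/-- The coordinates of a point of the tower. -/
def Dat (L : Type) : ℕ → Type
  | 0 => Unit
  | k + 1 => (Fin (k + 2) → L) × (Option (Fin (k + 2) → Bool) → Dat L k)

/-- Base change of coordinates. -/
def Dat.map {L L' : Type} (φ : L → L') : ∀ k, Dat L k → Dat L' k
  | 0, _ => ()
  | k + 1, d => (fun i => φ (d.1 i), fun o => Dat.map φ k (d.2 o))

/-- `d` is a point of the tower over the generic point `u`. -/
def Pt {L : Type} [CommRing L] (Λ : ℕ) : ∀ k, (Fin (k + 2) → L) → Dat L k → Prop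
  | 0, _, _ => True
  | k + 1, u, d => Over Λ u d.1 ∧ ∀ o, Pt Λ k (sub d.1 o) (d.2 o)

/-- The pencils. -/
def pen {L : Type} [Field L] : ∀ k, (Fin (k + 2) → L) → Dat L k → Slot k → L
  | 0, u, _, _ => u 1 / u 0
  | k + 1, _, d, j => pen k (sub d.1 j.1) (d.2 j.1) j.2

/-- The constant `e` of the relation: `e (k + 1) = (2 ^ (k + 2) - 2) e k`. -/
def eN : ℕ → ℕ
  | 0 => 1
  | k + 1 => (2 ^ (k + 2) - 2) * eN k

/-- The multiplicity of a slot. -/
def nnS (Λ : ℕ) : ∀ k, Slot k → ℕ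
  | 0, _ => 1
  | k + 1, (none, j) => ((2 ^ (k + 2) - 2) * Λ - 1) * nnS Λ k j
  | k + 1, (some _, j) => nnS Λ k j

/-- The scale factor. -/
noncomputable def lam {L : Type} [Field L] (Λ : ℕ) : ∀ k, (Fin (k + 2) → L) → Dat L k → L
  | 0, u, _ => u 0
  | k + 1, u, d => (u 0 / SS Λ d.1) ^ eN (k + 1) *
      (∏ q : Fin (k + 2) → Bool, lam Λ k (sub d.1 (some q)) (d.2 (some q))) *
      lam Λ k (sub d.1 none) (d.2 none) ^ ((2 ^ (k + 2) - 2) * Λ - 1)

/-- The number of points over a generic point. -/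
def DD (δ : ℕ → ℕ) : ℕ → ℕ
  | 0 => 1
  | k + 1 => δ (k + 2) * DD δ k ^ (2 ^ (k + 2) + 1)

/-! ### Special points -/

/-- The value of a monomial in the slot coordinates. -/
def mono {Ω : Type} [CommRing Ω] {M : ℕ} (nn : Fin M → ℕ) (x z : Fin M → Ω) (Lm : Ω)
    (a : Fin M → ℕ) : Ω := Lm * ∏ j, (x j ^ a j * z j ^ (nn j - a j))

/-- A point with slot coordinates `(x j, z j)` over `u`. -/
structure PPt (K₀ : Type) {Ω : Type} [Field K₀] [Field Ω] [Algebra K₀ Ω] {n M : ℕ} (e : ℕ)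
    (nn : Fin M → ℕ) (Dg : ℕ) (u : Fin (n + 1) → Ω) (x z : Fin M → Ω) (Lm : Ω) : Prop where
  hu : u ≠ 0
  hxz : ∀ j, x j ≠ 0 ∨ z j ≠ 0
  hΛ : Lm ≠ 0
  hval : ∀ V : ValuationSubring Ω, (∀ a : K₀, algebraMap K₀ Ω a ∈ V) →
    vmax (fun i => V.valuation (u i)) ^ e =
      V.valuation Lm * ∏ j, max (V.valuation (x j)) (V.valuation (z j)) ^ nn j
  hdeg : ∀ a : Fin M → ℕ, (∀ j, a j ≤ nn j) →
    ∃ P : Polynomial (Algebra.adjoin K₀ (Set.range u)), P.Monic ∧ P.natDegree ≤ Dg ∧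
      Polynomial.aeval (mono nn x z Lm a) P = 0

/-- The index set of the monomials and sections in the generic section. -/
abbrev Idx (n M : ℕ) : Type := Fin M × (Fin (n + 1) × (Fin M → Bool)) × (Fin M → Fin 2)

/-- The coefficients (monomials) in the generic section. -/
def gcoef {Ω : Type} [CommRing Ω] {n M : ℕ} (nn : Fin M → ℕ) (h : ℕ) (u : Fin (n + 1) → Ω)
    (x z : Fin M → Ω) (g : Fin (n + 1) × (Fin M → Bool)) : Ω :=
  u g.1 ^ h * ∏ j, (if g.2 j then x j else z j) ^ (nn j - 1)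

/-- The generic section. -/
noncomputable def Wgen {Ω : Type} [CommRing Ω] {n M : ℕ} (nn : Fin M → ℕ) (h : ℕ)
    (c : Idx n M → Ω) (u : Fin (n + 1) → Ω) (x z : Fin M → Ω) (q : Fin M → LiftPt M Ω) : Ω :=
  ∑ i : Idx n M, c i * gcoef nn h u x z i.2.1 * ∏ j, (q j).s i.1 (i.2.2 j)

/-- The conclusion about the block forms: `n`-dimensional blocks with `M` slots, relation
constants `e`, `nn`, degree bound `Dg`, multiple `m`, and degree `β * N`. -/
def HasBlock (n M e : ℕ) (nn : Fin M → ℕ) (Dg m β : ℕ) : Prop :=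
  ∀ (K₀ : Type) [Field K₀] [IsAlgClosed K₀] [CharZero K₀] (N : ℕ), 2 ≤ N → M < N →
    ∀ (D : Fin M → EDatum N M K₀), (∀ j, (D j).t ≠ 0) → (∀ j, (D j).c₀ ≠ (D j).c₁) →
      (∀ j, ((D j).c₀ - (D j).c₁) ^ 2 ≠ 4 * (D j).t) → ∀ c : Idx n M → K₀,
    ∃ G : MvPolynomial (Option (Fin (n + 1))) K₀, G.IsHomogeneous (β * N) ∧
      (∀ (Ω : Type) [Field Ω] [Algebra K₀ Ω] (w : Ω),
        MvPolynomial.aeval (fun o : Option (Fin (n + 1)) => o.elim w fun _ => 0) G = 0 → w = 0) ∧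
      ∀ (Ω : Type) [Field Ω] [IsAlgClosed Ω] [Algebra K₀ Ω] (U : Fin (n + 1) → Ω) (w : Ω),
        U ≠ 0 → MvPolynomial.aeval (fun o : Option (Fin (n + 1)) => o.elim w U) G = 0 →
        ∃ (u : Fin (n + 1) → Ω) (x z : Fin M → Ω) (Lm : Ω) (q : Fin M → LiftPt M Ω),
          (∀ i, u i ^ m = U i) ∧ PPt K₀ e nn Dg u x z Lm ∧
          (∀ j, IsLift ((D j).map (algebraMap K₀ Ω)) (x j) (z j) (q j)) ∧
          w = Lm * Wgen nn (m - e) (fun i => algebraMap K₀ Ω (c i)) u x z q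

end Pool.Agent.DensDeg
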