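import Mathlib

/-!
Adjoining elements of bounded degree.
-/

set_option autoImplicit false

namespace Pool.Agent.DensDeg

open IntermediateField

/-- `y` is a root of a nonzero polynomial of degree at most `B` over `K`. -/
def Small {E Ω : Type*} [Field E] [Field Ω] [Algebra E Ω] (B : ℕ) (K : IntermediateField E Ω)
    (y : Ω) : Prop :=
  ∃ f : Polynomial K, f ≠ 0 ∧ f.natDegree ≤ B ∧ Polynomial.aeval y f = 0

/-- Adjoining finitely many elements of degree at most `B`. -/
theorem finrank_adjoin_dvd {E Ω : Type*} [Field E] [Field Ω] [Algebra E Ω] (B : ℕ) (S : Finset Ω)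
    (h : ∀ x ∈ S, ∃ f : Polynomial E, f ≠ 0 ∧ f.natDegree ≤ B ∧ Polynomial.aeval x f = 0) :
    FiniteDimensional E (adjoin E (S : Set Ω)) ∧
      Module.finrank E (adjoin E (S : Set Ω)) ∣ (Nat.factorial B) ^ S.card := by
  classical
  induction S using Finset.induction_on with
  | empty =>
    rw [Finset.coe_empty, adjoin_empty]
    refine ⟨inferInstance, ?_⟩
    rw [IntermediateField.finrank_bot]
    exact one_dvd _
  | insert x S hx ih =>
    obtain ⟨h1, h2⟩ := ih fun y hy => h y (Finset.mem_insert_of_mem hy)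
    obtain ⟨f, hf0, hfd, hf⟩ := h x (Finset.mem_insert_self x S)
    set K := adjoin E (S : Set Ω) with hK
    have hx1 : IsAlgebraic E x := ⟨f, hf0, hf⟩
    have hx2 : IsIntegral K x := hx1.isIntegral.tower_top
    have h3 : FiniteDimensional K K⟮x⟯ := adjoin.finiteDimensional hx2
    have h4 : (K⟮x⟯).restrictScalars E = adjoin E ((insert x S : Finset Ω) : Set Ω) := by
      rw [hK, adjoin_adjoin_left, Finset.coe_insert, Set.union_comm, Set.singleton_union]
    have h5 : Module.finrank K K⟮x⟯ ≤ B := by
      rw [adjoin.finrank hx2]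
      have h6 : (minpoly K x).natDegree ≤ (f.map (algebraMap E K)).natDegree := by
        refine Polynomial.natDegree_le_of_dvd (minpoly.dvd K x ?_) ?_
        · rw [Polynomial.aeval_map_algebraMap]; exact hf
        · exact (Polynomial.map_ne_zero_iff (algebraMap E K).injective).2 hf0
      rw [Polynomial.natDegree_map] at h6
      exact h6.trans hfd
    have h7 : 0 < Module.finrank K K⟮x⟯ := Module.finrank_pos
    have h8 : Module.finrank K K⟮x⟯ ∣ Nat.factorial B := Nat.dvd_factorial h7 h5
    have h9 : FiniteDimensional E K⟮x⟯ := Module.Finite.trans K K⟮x⟯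
    have hfr : Module.Free K K⟮x⟯ := Module.Free.of_divisionRing K K⟮x⟯
    have hfr' : Module.Free E K := Module.Free.of_divisionRing E K
    have h10 : Module.finrank E K⟮x⟯ = Module.finrank E K * Module.finrank K K⟮x⟯ :=
      (Module.finrank_mul_finrank E K K⟮x⟯).symm
    rw [← h4]
    refine ⟨h9, ?_⟩
    change Module.finrank E K⟮x⟯ ∣ _
    rw [h10, Finset.card_insert_of_notMem hx, pow_succ]
    exact mul_dvd_mul h2 h8

/-- One stage. -/
theorem finrank_sup_dvd {E Ω : Type*} [Field E] [Field Ω] [Algebra E Ω] (B : ℕ)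
    (K : IntermediateField E Ω) [FiniteDimensional E K] (T : Finset Ω)
    (hT : ∀ y ∈ T, Small B K y) :
    FiniteDimensional E (K ⊔ adjoin E (T : Set Ω) : IntermediateField E Ω) ∧
      Module.finrank E (K ⊔ adjoin E (T : Set Ω) : IntermediateField E Ω) ∣
        Module.finrank E K * (Nat.factorial B) ^ T.card := by
  classical
  obtain ⟨h3, h4⟩ := finrank_adjoin_dvd (E := K) B T hT
  set L := adjoin K (T : Set Ω) with hL
  have h5 : L.restrictScalars E = K ⊔ adjoin E (T : Set Ω) := by
    rw [hL, restrictScalars_adjoin_eq_sup]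
  have h9 : FiniteDimensional E L := Module.Finite.trans K L
  have hfr : Module.Free K L := Module.Free.of_divisionRing K L
  have hfr' : Module.Free E K := Module.Free.of_divisionRing E K
  have h10 : Module.finrank E L = Module.finrank E K * Module.finrank K L :=
    (Module.finrank_mul_finrank E K L).symm
  rw [← h5]
  refine ⟨h9, ?_⟩
  change Module.finrank E L ∣ _
  rw [h10]
  exact mul_dvd_mul_left _ h4

/-- Monotonicity of the bound. -/
lemma Small.mono {E Ω : Type*} [Field E] [Field Ω] [Algebra E Ω] {B B' : ℕ}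
    {K : IntermediateField E Ω} {y : Ω} (h : Small B K y) (hB : B ≤ B') : Small B' K y := by
  obtain ⟨f, h1, h2, h3⟩ := h
  exact ⟨f, h1, h2.trans hB, h3⟩

/-- An element with a power in the field. -/
lemma Small.of_pow {E Ω : Type*} [Field E] [Field Ω] [Algebra E Ω] {m : ℕ} (hm : 0 < m)
    {K : IntermediateField E Ω} {y : Ω} (h : y ^ m ∈ K) : Small m K y := by
  refine ⟨Polynomial.X ^ m - Polynomial.C ⟨y ^ m, h⟩, Polynomial.X_pow_sub_C_ne_zero hm _, ?_, ?_⟩
  · rw [Polynomial.natDegree_X_pow_sub_C]
  · rw [map_sub, map_pow, Polynomial.aeval_X, Polynomial.aeval_C]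
    exact sub_self _

/-- Elements of the field. -/
lemma Small.of_mem {E Ω : Type*} [Field E] [Field Ω] [Algebra E Ω] {B : ℕ} (hB : 0 < B)
    {K : IntermediateField E Ω} {y : Ω} (h : y ∈ K) : Small B K y :=
  (Small.of_pow one_pos (by rwa [pow_one])).mono hB

/-- From a monic polynomial over a subring of the field. -/
lemma Small.of_monic {E Ω : Type*} [Field E] [Field Ω] [Algebra E Ω] {B : ℕ}
    {K : IntermediateField E Ω} {y : Ω} {A : Type*} [CommRing A] [Nontrivial A] [Algebra A Ω]
    (hA : ∀ a : A, algebraMap A Ω a ∈ K) (h : ∃ P : Polynomial A, P.Monic ∧ P.natDegree ≤ B ∧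
      Polynomial.aeval y P = 0) : Small B K y := by
  obtain ⟨P, h1, h2, h3⟩ := h
  let φ : A →+* K := (algebraMap A Ω).codRestrict K.toSubring hA
  refine ⟨P.map φ, (h1.map φ).ne_zero, ?_, ?_⟩
  · exact (Polynomial.natDegree_map_le).trans h2
  · rw [Polynomial.aeval_def, Polynomial.eval₂_map]
    exact h3

end Pool.Agent.DensDeg
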