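import Pool.Agent.CurveDeg.Kummer

set_option autoImplicit false

namespace Pool.Agent.DensDeg

open IntermediateField

/-- The arithmetic of one radical. -/
theorem dvd_of_pow_eq {k L : Type*} [Field k] [IsAlgClosed k] [Field L] [Algebra k L]
    {p a m : ℕ} (hp : p.Prime) (h b : L) (hnp : ∀ e : L, e ^ p ≠ h)
    (hb : b ^ (p ^ a) = h ^ m) : p ^ a ∣ m := by
  by_contra hcon
  have hm0 : m ≠ 0 := fun h0 => hcon (h0 ▸ dvd_zero _)
  have hh0 : h ≠ 0 := fun h0 => hnp 0 (by rw [zero_pow hp.ne_zero, h0])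
  obtain ⟨s, r, hr, hmr⟩ := Nat.exists_eq_pow_mul_and_not_dvd hm0 p hp.ne_one
  have hsa : s < a := by
    by_contra hc
    exact hcon ((pow_dvd_pow p (not_lt.1 hc)).trans ⟨r, hmr⟩)
  set ζ : L := b ^ (p ^ (a - s)) / h ^ r with hζ
  have hζ1 : ζ ^ (p ^ s) = 1 := by
    rw [hζ, div_pow, ← pow_mul, ← pow_mul, ← pow_add, Nat.sub_add_cancel hsa.le, hb, hmr,
      mul_comm r, div_self (pow_ne_zero _ hh0)]
  have hζ2 : IsAlgebraic k ζ := by
    refine IsAlgebraic.of_pow (n := p ^ s) (pow_pos hp.pos _) ?_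
    rw [hζ1]; exact isAlgebraic_one
  obtain ⟨c, hc⟩ := CurveDeg.mem_range_of_isAlgebraic hζ2
  obtain ⟨c', hc'⟩ := IsAlgClosed.exists_pow_nat_eq c hp.pos
  have hζ0 : ζ ≠ 0 := by
    intro h0
    rw [h0, zero_pow (pow_ne_zero _ hp.ne_zero)] at hζ1
    exact zero_ne_one hζ1
  set e : L := b ^ (p ^ (a - s - 1)) / algebraMap k L c' with he
  have hc'p : algebraMap k L c' ^ p = ζ := by rw [← map_pow, hc', hc]
  have he1 : e ^ p = h ^ r := by
    rw [he, div_pow, hc'p, ← pow_mul, ← pow_succ, Nat.sub_add_cancel (by omega), hζ]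
    have hb0 : b ^ (p ^ (a - s)) ≠ 0 := by
      intro h0
      rw [hζ, h0, zero_div] at hζ0
      exact hζ0 rfl
    field_simp
  have hcop : Nat.Coprime r p := ((Nat.Prime.coprime_iff_not_dvd hp).2 hr).symm
  obtain ⟨t, -, ht⟩ := Nat.exists_mul_mod_eq_one_of_coprime hcop hp.one_lt
  have ht2 : r * t = p * (r * t / p) + 1 := by
    have := Nat.div_add_mod (r * t) p
    rw [ht] at this
    exact this.symm
  set v := r * t / p
  have h3 : (e ^ t) ^ p = (h ^ v) ^ p * h := by
    rw [← pow_mul, mul_comm t, pow_mul, he1, ← pow_mul, ← pow_mul, ← pow_succ, ht2, mul_comm v]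
  refine hnp (e ^ t / h ^ v) ?_
  rw [div_pow, h3, mul_comm, mul_div_assoc, div_self (pow_ne_zero _ (pow_ne_zero _ hh0)), mul_one]

/-- One radical: if `h` is not a `p`-th power in `k(x, y)` and `β ^ (p ^ a) = h ^ g` then `p ^ a`
divides `g` times the degree. -/
theorem dvd_kummer_one {k R : Type} [Field k] [IsAlgClosed k] [Field R] [Algebra k R]
    (x : R) {p a g : ℕ} (hp : p.Prime) (y h β : R)
    (hh : h ∈ IntermediateField.adjoin k {x, y})
    (hnp : ∀ b ∈ IntermediateField.adjoin k {x, y}, b ^ p ≠ h)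
    (hβ : β ^ (p ^ a) = h ^ g) :
    p ^ a ∣ g * Module.finrank (IntermediateField.adjoin k {x}) R := by
  set K := IntermediateField.adjoin k {x} with hK
  set L₁ := IntermediateField.adjoin K {y} with hL₁
  have hL : L₁.restrictScalars k = IntermediateField.adjoin k {x, y} := by
    rw [hL₁, hK, IntermediateField.adjoin_adjoin_left]
    congr 1
  have hmem : ∀ z : R, z ∈ L₁ ↔ z ∈ IntermediateField.adjoin k {x, y} := by
    intro z
    rw [← hL, IntermediateField.mem_restrictScalars]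
  obtain ⟨h', hh'⟩ : ∃ h' : L₁, (h' : R) = h := ⟨⟨h, (hmem h).2 hh⟩, rfl⟩
  have hnp' : ∀ e : L₁, e ^ p ≠ h' := by
    intro e he
    refine hnp e ((hmem _).1 e.2) ?_
    rw [← hh', ← he]; rfl
  set L₂ := IntermediateField.adjoin L₁ {β} with hL₂
  have hfr1 : Module.Free K L₁ := Module.Free.of_divisionRing K L₁
  have hfr2 : Module.Free L₁ L₂ := Module.Free.of_divisionRing L₁ L₂
  have hfr3 : Module.Free L₂ R := Module.Free.of_divisionRing L₂ R
  have hfr4 : Module.Free L₁ R := Module.Free.of_divisionRing L₁ R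
  have h1 : Module.finrank K R = Module.finrank K L₁ * (Module.finrank L₁ L₂ *
      Module.finrank L₂ R) := by
    rw [Module.finrank_mul_finrank L₁ L₂ R, Module.finrank_mul_finrank K L₁ R]
  have h2 : p ^ a ∣ g * Module.finrank L₁ L₂ := by
    set β' : L₂ := IntermediateField.AdjoinSimple.gen L₁ β with hβ'
    have h3 : β' ^ (p ^ a) = algebraMap L₁ L₂ (h' ^ g) := by
      apply Subtype.ext
      change (β' : R) ^ (p ^ a) = ((h' ^ g : L₁) : R)
      rw [hβ', IntermediateField.AdjoinSimple.coe_gen, hβ, ← hh']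
      rfl
    have h4 : (Algebra.norm L₁ β') ^ (p ^ a) = h' ^ (g * Module.finrank L₁ L₂) := by
      rw [← map_pow, h3, Algebra.norm_algebraMap, ← pow_mul]
    exact dvd_of_pow_eq (k := k) hp h' _ hnp' h4
  rw [h1]
  have h5 : g * (Module.finrank K L₁ * (Module.finrank L₁ L₂ * Module.finrank L₂ R)) =
      (g * Module.finrank L₁ L₂) * (Module.finrank K L₁ * Module.finrank L₂ R) := by ring
  rw [h5]
  exact h2.mul_right _

end Pool.Agent.DensDeg
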