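import Mathlib

set_option autoImplicit false

namespace Pool.Agent.DensDeg

open IntermediateField

namespace LClosedAux

lemma coprime_adjoin' {K L : Type} [Field K] [CharZero K] [Field L] [Algebra K L]
    [Algebra.IsAlgebraic K L] (l : ℕ) (F : IntermediateField K L)
    (hF : ∀ x ∈ F, (Module.finrank K K⟮x⟯).Coprime l) (S : Finset L) (hS : ∀ x ∈ S, x ∈ F) :
    FiniteDimensional K (adjoin K (S : Set L)) ∧
      (Module.finrank K (adjoin K (S : Set L))).Coprime l := by
  have hfin : FiniteDimensional K (adjoin K (S : Set L)) :=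
    finiteDimensional_adjoin (fun x _ => (Algebra.IsAlgebraic.isAlgebraic x).isIntegral)
  refine ⟨hfin, ?_⟩
  obtain ⟨α, hα⟩ := Field.exists_primitive_element K (adjoin K (S : Set L))
  rw [Field.primitive_element_iff_minpoly_natDegree_eq] at hα
  have hle : adjoin K (S : Set L) ≤ F := by
    rw [adjoin_le_iff]
    intro x hx
    exact hS x (Finset.mem_coe.1 hx)
  have h2 := hF (α : L) (hle α.2)
  rw [adjoin.finrank (Algebra.IsAlgebraic.isAlgebraic (α : L)).isIntegral] at h2
  rw [← hα]
  have h3 : minpoly K (α : L) = minpoly K α :=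
    minpoly.algebraMap_eq (algebraMap (adjoin K (S : Set L)) L).injective α
  rwa [h3] at h2

/-- Degrees prime to `l` in towers. -/
lemma coprime_step {K L : Type} [Field K] [CharZero K] [Field L] [Algebra K L]
    [Algebra.IsAlgebraic K L] (l : ℕ) (F : IntermediateField K L)
    (hF : ∀ x ∈ F, (Module.finrank K K⟮x⟯).Coprime l) (y : L)
    (hy : (minpoly F y).natDegree.Coprime l) : (minpoly K y).natDegree.Coprime l := by
  classical
  have : Algebra.IsAlgebraic F L := Algebra.IsAlgebraic.tower_top (K := K) F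
  have hyF : IsIntegral F y := (Algebra.IsAlgebraic.isAlgebraic y).isIntegral
  set f := minpoly F y with hf
  set S : Finset L := f.support.image (fun i => ((f.coeff i : F) : L)) with hS
  have hSF : ∀ x ∈ S, x ∈ F := by
    intro x hx
    rw [hS, Finset.mem_image] at hx
    obtain ⟨i, _, rfl⟩ := hx
    exact (f.coeff i).2
  obtain ⟨hfd, hcop⟩ := coprime_adjoin' l F hF S hSF
  set K' := adjoin K (S : Set L) with hK'
  have hK'F : K' ≤ F := by
    rw [hK', adjoin_le_iff]
    intro x hx
    exact hSF x (Finset.mem_coe.1 hx)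
  have : Algebra.IsAlgebraic K' L := Algebra.IsAlgebraic.tower_top (K := K) K'
  have hyK' : IsIntegral K' y := (Algebra.IsAlgebraic.isAlgebraic y).isIntegral
  -- the lift of `f`
  have hlift : f.map (algebraMap F L) ∈ Polynomial.lifts (algebraMap K' L) := by
    rw [Polynomial.lifts_iff_coeff_lifts]
    intro n
    rw [Polynomial.coeff_map]
    by_cases hn : n ∈ f.support
    · have h1 : ((f.coeff n : F) : L) ∈ K' := by
        rw [hK']
        apply subset_adjoin
        rw [Finset.mem_coe, hS]
        exact Finset.mem_image_of_mem _ hn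
      exact ⟨⟨_, h1⟩, rfl⟩
    · rw [Polynomial.notMem_support_iff] at hn
      rw [hn, map_zero]
      exact ⟨0, map_zero _⟩
  have hfm : f.Monic := minpoly.monic hyF
  obtain ⟨f', hf'1, hf'2, hf'3⟩ :=
    Polynomial.lifts_and_natDegree_eq_and_monic hlift (hfm.map _)
  have hdeg1 : (minpoly K' y).natDegree ≤ f.natDegree := by
    have h1 : Polynomial.aeval y f' = 0 := by
      rw [Polynomial.aeval_def, Polynomial.eval₂_eq_eval_map, hf'1, ← Polynomial.eval₂_eq_eval_map,
        ← Polynomial.aeval_def]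
      exact minpoly.aeval F y
    have h2 := Polynomial.natDegree_le_natDegree (minpoly.min K' y hf'3 h1)
    rw [hf'2, Polynomial.natDegree_map] at h2
    exact h2
  have hdeg2 : f.natDegree ≤ (minpoly K' y).natDegree := by
    set g := (minpoly K' y).map (inclusion hK'F : K' →+* F) with hg
    have hgm : g.Monic := (minpoly.monic hyK').map _
    have h1 : Polynomial.aeval y g = 0 := by
      rw [Polynomial.aeval_def, Polynomial.eval₂_eq_eval_map, hg, Polynomial.map_map]
      have h2 : (algebraMap F L).comp (inclusion hK'F : K' →+* F) = algebraMap K' L := by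
        ext x; rfl
      rw [h2, ← Polynomial.eval₂_eq_eval_map, ← Polynomial.aeval_def]
      exact minpoly.aeval K' y
    have h2 := Polynomial.natDegree_le_natDegree (minpoly.min F y hgm h1)
    rw [hg, Polynomial.natDegree_map] at h2
    exact h2
  have hdeg : (minpoly K' y).natDegree = f.natDegree := le_antisymm hdeg1 hdeg2
  have hfd2 : FiniteDimensional K' K'⟮y⟯ := adjoin.finiteDimensional hyK'
  have hmul : Module.finrank K K' * Module.finrank K' K'⟮y⟯ = Module.finrank K K'⟮y⟯ :=
    Module.finrank_mul_finrank K K' K'⟮y⟯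
  have hfd3 : FiniteDimensional K K'⟮y⟯ := FiniteDimensional.trans K K' K'⟮y⟯
  have hdvd : (minpoly K y).natDegree ∣ Module.finrank K K'⟮y⟯ := by
    have htow : IsScalarTower K K'⟮y⟯ L := IsScalarTower.of_algebraMap_eq (fun _ => rfl)
    have h1 : minpoly K y = minpoly K (AdjoinSimple.gen K' y) := by
      have := minpoly.algebraMap_eq (A := K) (algebraMap K'⟮y⟯ L).injective (AdjoinSimple.gen K' y)
      rw [← this]
      rfl
    rw [h1]
    exact minpoly.degree_dvd (Algebra.IsIntegral.isIntegral _)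
  refine Nat.Coprime.coprime_dvd_left hdvd ?_
  rw [← hmul, adjoin.finrank hyK', hdeg]
  exact Nat.Coprime.mul_left hcop hy

/-- Finite Galois subextension containing given elements. -/
lemma exists_galois {F L : Type} [Field F] [CharZero F] [Field L] [Algebra F L] [IsAlgClosed L]
    [Algebra.IsAlgebraic F L] (T : Finset L) :
    ∃ N : IntermediateField F L, FiniteDimensional F N ∧ IsGalois F N ∧ ∀ x ∈ T, x ∈ N := by
  have : IsAlgClosure F L := ⟨inferInstance, inferInstance⟩
  have : Normal F L := IsAlgClosure.normal F L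
  have hfd : FiniteDimensional F (adjoin F (T : Set L)) :=
    finiteDimensional_adjoin (fun x _ => (Algebra.IsAlgebraic.isAlgebraic x).isIntegral)
  refine ⟨normalClosure F (adjoin F (T : Set L)) L, inferInstance, ?_, ?_⟩
  · exact ⟨⟩
  · intro x hx
    exact le_normalClosure _ (subset_adjoin F _ (Finset.mem_coe.2 hx))

lemma chain_ub {K L : Type} [Field K] [Field L] [Algebra K L]
    (l : ℕ) (c : Set (IntermediateField K L))
    (hc : c ⊆ {F : IntermediateField K L | ∀ x ∈ F, (Module.finrank K K⟮x⟯).Coprime l})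
    (hchain : IsChain (· ≤ ·) c) :
    ∃ ub ∈ {F : IntermediateField K L | ∀ x ∈ F, (Module.finrank K K⟮x⟯).Coprime l},
      ∀ z ∈ c, z ≤ ub := by
  rcases c.eq_empty_or_nonempty with rfl | hne
  · refine ⟨⊥, ?_, by simp⟩
    intro x hx
    rw [finrank_adjoin_simple_eq_one_iff.2 hx]
    exact Nat.coprime_one_left l
  · have : Nonempty c := hne.to_subtype
    refine ⟨⨆ i : c, i.1, ?_, fun z hz => le_iSup (fun i : c => i.1) ⟨z, hz⟩⟩
    intro x hx
    have hdir : Directed (· ≤ ·) (fun i : c => i.1) := hchain.directedOn.directed_val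
    rw [← SetLike.mem_coe, coe_iSup_of_directed hdir, Set.mem_iUnion] at hx
    obtain ⟨i, hi⟩ := hx
    exact hc i.2 x hi

end LClosedAux

open LClosedAux

/-- There is a maximal extension of degree prime to `l`; over it all degrees are powers of `l`. -/
theorem exists_lclosed {K L : Type} [Field K] [CharZero K] [Field L] [Algebra K L]
    [IsAlgClosed L] [Algebra.IsAlgebraic K L] (l : ℕ) (hl : l.Prime) :
    ∃ F : IntermediateField K L, (∀ x ∈ F, (Module.finrank K K⟮x⟯).Coprime l) ∧
      ∀ x : L, ∃ s : ℕ, Module.finrank F F⟮x⟯ = l ^ s := by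
  classical
  have : Fact l.Prime := ⟨hl⟩
  obtain ⟨F, hF, hmax⟩ := zorn_le₀
    {F : IntermediateField K L | ∀ x ∈ F, (Module.finrank K K⟮x⟯).Coprime l}
    (fun c hc hchain => chain_ub l c hc hchain)
  refine ⟨F, hF, fun x => ?_⟩
  have : Algebra.IsAlgebraic F L := Algebra.IsAlgebraic.tower_top (K := K) F
  have : CharZero F := charZero_of_injective_algebraMap (algebraMap K F).injective
  obtain ⟨N, hNfd, hNgal, hxN⟩ := exists_galois (F := F) ({x} : Finset L)
  have hxN' : x ∈ N := hxN x (Finset.mem_singleton_self x)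
  set Q : Sylow l (N ≃ₐ[F] N) := Classical.arbitrary _ with hQ
  set H : Subgroup (N ≃ₐ[F] N) := (Q : Subgroup (N ≃ₐ[F] N)) with hH
  set F1 := fixedField H with hF1
  have hcard : Nat.card (N ≃ₐ[F] N) = Module.finrank F N := IsGalois.card_aut_eq_finrank F N
  have hc1 : Module.finrank F1 N = Nat.card H := finrank_fixedField_eq_card H
  have hc2 : Module.finrank F F1 * Module.finrank F1 N = Module.finrank F N :=
    Module.finrank_mul_finrank F F1 N
  have hc3 : Nat.card H * H.index = Nat.card (N ≃ₐ[F] N) := H.card_mul_index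
  have hHpos : 0 < Nat.card H := Nat.card_pos
  have hidx : Module.finrank F F1 = H.index := by
    rw [hc1, ← hcard, ← hc3, mul_comm] at hc2
    exact Nat.eq_of_mul_eq_mul_left hHpos hc2
  have hndvd : ¬ l ∣ H.index := Q.not_dvd_index
  have hcop : (Module.finrank F F1).Coprime l := by
    rw [hidx]
    exact ((Nat.Prime.coprime_iff_not_dvd hl).2 hndvd).symm
  -- the larger field
  set F2 : IntermediateField K L := (lift F1).restrictScalars K with hF2
  have hF2mem : F2 ∈ {F : IntermediateField K L | ∀ x ∈ F,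
      (Module.finrank K K⟮x⟯).Coprime l} := by
    intro y hy
    rw [adjoin.finrank (Algebra.IsAlgebraic.isAlgebraic (R := K) y).isIntegral]
    apply coprime_step l F hF
    rw [hF2, mem_restrictScalars] at hy
    have hyN : y ∈ N := lift_le F1 hy
    have hy1 : (⟨y, hyN⟩ : N) ∈ F1 := (mem_lift (⟨y, hyN⟩ : N)).1 hy
    have h1 : minpoly F y = minpoly F (⟨⟨y, hyN⟩, hy1⟩ : F1) := by
      have e1 := minpoly.algebraMap_eq (A := F) (algebraMap F1 N).injective
        (⟨⟨y, hyN⟩, hy1⟩ : F1)
      have e2 := minpoly.algebraMap_eq (A := F) (algebraMap N L).injective (⟨y, hyN⟩ : N)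
      rw [← e1]
      exact e2
    rw [h1]
    exact Nat.Coprime.coprime_dvd_left
      (minpoly.degree_dvd (Algebra.IsIntegral.isIntegral _)) hcop
  have hFF2 : F ≤ F2 := by
    intro y hy
    rw [hF2, mem_restrictScalars]
    exact (lift F1).algebraMap_mem (⟨y, hy⟩ : F)
  have hF2F : F2 ≤ F := hmax hF2mem hFF2
  have hbot : F1 = ⊥ := by
    rw [eq_bot_iff]
    intro z hz
    have h1 : (z : L) ∈ F2 := by
      rw [hF2, mem_restrictScalars]
      exact (mem_lift z).2 hz
    have h2 := hF2F h1
    rw [mem_bot]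
    exact ⟨⟨(z : L), h2⟩, Subtype.ext rfl⟩
  have hone : H.index = 1 := by
    rw [← hidx, hbot, IntermediateField.finrank_bot]
  obtain ⟨k, hk⟩ := Q.isPGroup'.exists_card_eq
  have hNk : Module.finrank F N = l ^ k := by
    rw [← hcard, ← hc3, hone, mul_one]
    exact hk
  have hdvd : Module.finrank F F⟮x⟯ ∣ l ^ k := by
    rw [adjoin.finrank (Algebra.IsAlgebraic.isAlgebraic x).isIntegral, ← hNk]
    have h1 : minpoly F x = minpoly F (⟨x, hxN'⟩ : N) :=
      minpoly.algebraMap_eq (A := F) (algebraMap N L).injective (⟨x, hxN'⟩ : N)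
    rw [h1]
    exact minpoly.degree_dvd (Algebra.IsIntegral.isIntegral _)
  obtain ⟨s, _, hs⟩ := (Nat.dvd_prime_pow hl).1 hdvd
  exact ⟨s, hs⟩

/-- The degree of a finitely generated subextension of such an extension is prime to `l`. -/
theorem coprime_adjoin {K L : Type} [Field K] [CharZero K] [Field L] [Algebra K L]
    [Algebra.IsAlgebraic K L] (l : ℕ) (F : IntermediateField K L)
    (hF : ∀ x ∈ F, (Module.finrank K K⟮x⟯).Coprime l) (S : Finset L) (hS : ∀ x ∈ S, x ∈ F) :
    FiniteDimensional K (adjoin K (S : Set L)) ∧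
      (Module.finrank K (adjoin K (S : Set L))).Coprime l :=
  coprime_adjoin' l F hF S hS

/-- A finite Galois stable set whose number of elements is `1` modulo `l` has a rational point. -/
theorem exists_fixed {F L : Type} [Field F] [CharZero F] [Field L] [Algebra F L] [IsAlgClosed L]
    [Algebra.IsAlgebraic F L] (l : ℕ) (hl : l.Prime)
    (hF : ∀ x : L, ∃ s : ℕ, Module.finrank F F⟮x⟯ = l ^ s) {n : ℕ} (S : Set (Fin n → L))
    (hfin : S.Finite) (hstab : ∀ σ : L ≃ₐ[F] L, ∀ x ∈ S, (fun i => σ (x i)) ∈ S)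
    (hcard : S.ncard ≡ 1 [MOD l]) : ∃ x ∈ S, ∀ i, x i ∈ Set.range (algebraMap F L) := by
  classical
  have : Fact l.Prime := ⟨hl⟩
  have : IsAlgClosure F L := ⟨inferInstance, inferInstance⟩
  have : Normal F L := IsAlgClosure.normal F L
  set T : Finset L := hfin.toFinset.biUnion (fun x => Finset.univ.image x) with hT
  obtain ⟨N, hNfd, hNgal, hTN⟩ := exists_galois (F := F) T
  have hmemN : ∀ x ∈ S, ∀ i, x i ∈ N := by
    intro x hx i
    apply hTN
    rw [hT, Finset.mem_biUnion]
    exact ⟨x, hfin.mem_toFinset.2 hx, Finset.mem_image_of_mem _ (Finset.mem_univ i)⟩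
  -- the group is an `l`-group
  obtain ⟨α, hα⟩ := Field.exists_primitive_element F N
  rw [Field.primitive_element_iff_minpoly_natDegree_eq] at hα
  obtain ⟨s, hs⟩ := hF (α : L)
  rw [adjoin.finrank (Algebra.IsAlgebraic.isAlgebraic (α : L)).isIntegral] at hs
  have h3 : minpoly F (α : L) = minpoly F α :=
    minpoly.algebraMap_eq (algebraMap N L).injective α
  have hG : Nat.card (N ≃ₐ[F] N) = l ^ s := by
    rw [IsGalois.card_aut_eq_finrank, ← hα, ← h3, hs]
  have hPG : IsPGroup l (N ≃ₐ[F] N) := IsPGroup.of_card hG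
  -- the action
  let S' : Type := {x : Fin n → N // (fun i => ((x i : N) : L)) ∈ S}
  have hact : ∀ (σ : N ≃ₐ[F] N) (x : S'), (fun i => ((σ (x.1 i) : N) : L)) ∈ S := by
    intro σ x
    have h1 := hstab (σ.liftNormal L) _ x.2
    have h2 : (fun i => ((σ (x.1 i) : N) : L)) =
        fun i => (σ.liftNormal L) ((fun i => ((x.1 i : N) : L)) i) := by
      funext i
      exact (AlgEquiv.liftNormal_commutes σ L (x.1 i)).symm
    rw [h2]
    exact h1
  let _ : MulAction (N ≃ₐ[F] N) S' :=
    { smul := fun σ x => ⟨fun i => σ (x.1 i), hact σ x⟩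
      one_smul := fun x => rfl
      mul_smul := fun σ τ x => rfl }
  have hsmul : ∀ (σ : N ≃ₐ[F] N) (x : S') (i : Fin n), (σ • x).1 i = σ (x.1 i) :=
    fun _ _ _ => rfl
  -- the bijection with `S`
  let e : S' ≃ S :=
    { toFun := fun x => ⟨fun i => ((x.1 i : N) : L), x.2⟩
      invFun := fun x => ⟨fun i => ⟨x.1 i, hmemN x.1 x.2 i⟩, x.2⟩
      left_inv := fun x => rfl
      right_inv := fun x => rfl }
  have : Finite S := hfin.to_subtype
  have : Finite S' := Finite.of_equiv S e.symm
  have hcard' : Nat.card S' = S.ncard := Nat.card_congr e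
  have hmod := hPG.card_modEq_card_fixedPoints S'
  rw [hcard'] at hmod
  have hfp : Nat.card (MulAction.fixedPoints (N ≃ₐ[F] N) S') ≡ 1 [MOD l] := hmod.symm.trans hcard
  have hne : Nonempty (MulAction.fixedPoints (N ≃ₐ[F] N) S') := by
    by_contra hemp
    rw [not_nonempty_iff] at hemp
    rw [Nat.card_of_isEmpty] at hfp
    have h4 : l ∣ 1 := by
      have := (Nat.modEq_iff_dvd' (Nat.zero_le 1)).1 hfp
      simpa using this
    exact hl.one_lt.ne' (Nat.dvd_one.1 h4)
  obtain ⟨⟨x, hx⟩⟩ := hne
  refine ⟨fun i => ((x.1 i : N) : L), x.2, fun i => ?_⟩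
  have h5 : ∀ σ : N ≃ₐ[F] N, σ (x.1 i) = x.1 i := by
    intro σ
    have := hx σ
    rw [← hsmul σ x i, this]
  obtain ⟨a, ha⟩ := (IsGalois.mem_range_algebraMap_iff_fixed (F := F) (E := N) (x.1 i)).2 h5
  refine ⟨a, ?_⟩
  show algebraMap F L a = ((x.1 i : N) : L)
  rw [← ha]
  rfl

end Pool.Agent.DensDeg
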