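import Mathlib

set_option autoImplicit false

namespace Pool.Agent.DensDeg

open Polynomial IsLocalRing

/-- A subring of the product is the graph of a homomorphism. -/
private def PEGood {L Ω : Type} [Field L] [Field Ω] (G : Subring (L × Ω)) : Prop :=
  ∀ ω : Ω, ((0 : L), ω) ∈ G → ω = 0

private lemma pe_zorn {L Ω : Type} [Field L] [Field Ω] (G₀ : Subring (L × Ω)) (h₀ : PEGood G₀) :
    ∃ G : Subring (L × Ω), G₀ ≤ G ∧ PEGood G ∧
      ∀ G' : Subring (L × Ω), PEGood G' → G ≤ G' → G' ≤ G := by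
  obtain ⟨G, hG, hmax⟩ := zorn_le_nonempty₀ {G : Subring (L × Ω) | PEGood G} (by
    intro c hc hchain y hy
    refine ⟨sSup c, ?_, fun z hz => le_sSup hz⟩
    intro ω hω
    rw [Subring.mem_sSup_of_directedOn ⟨y, hy⟩ hchain.directedOn] at hω
    obtain ⟨s, hs, hω⟩ := hω
    exact hc hs ω hω) G₀ h₀
  exact ⟨G, hG, hmax.prop, fun G' h1 h2 => hmax.le_of_ge h1 h2⟩

/-- Adjoining an inverse. -/
private lemma pe_inv {L Ω : Type} [Field L] [Field Ω] (G : Subring (L × Ω)) (hG : PEGood G)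
    (hmax : ∀ G' : Subring (L × Ω), PEGood G' → G ≤ G' → G' ≤ G) (b : L) (β : Ω)
    (hb : (b, β) ∈ G) (hβ : β ≠ 0) : (b⁻¹, β⁻¹) ∈ G := by
  have hb0 : b ≠ 0 := by
    rintro rfl
    exact hβ (hG β hb)
  have hpow : ∀ n : ℕ, (b ^ n, β ^ n) ∈ G := fun n => by
    have := pow_mem hb n
    simpa using this
  let G' : Subring (L × Ω) :=
    { carrier := {z | ∃ n : ℕ, (z.1 * b ^ n, z.2 * β ^ n) ∈ G}
      mul_mem' := by
        rintro x y ⟨n, hn⟩ ⟨m, hm⟩
        refine ⟨n + m, ?_⟩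
        have h := mul_mem hn hm
        rw [Prod.mk_mul_mk] at h
        have e : ((x * y).1 * b ^ (n + m), (x * y).2 * β ^ (n + m)) =
            (x.1 * b ^ n * (y.1 * b ^ m), x.2 * β ^ n * (y.2 * β ^ m)) := by
          refine Prod.ext ?_ ?_
          · change (x * y).1 * b ^ (n + m) = x.1 * b ^ n * (y.1 * b ^ m)
            rw [Prod.fst_mul]; ring
          · change (x * y).2 * β ^ (n + m) = x.2 * β ^ n * (y.2 * β ^ m)
            rw [Prod.snd_mul]; ring
        rw [e]
        exact h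
      one_mem' := ⟨0, by simp only [pow_zero, mul_one]; exact one_mem G⟩
      add_mem' := by
        rintro x y ⟨n, hn⟩ ⟨m, hm⟩
        refine ⟨n + m, ?_⟩
        have h := add_mem (mul_mem hn (hpow m)) (mul_mem hm (hpow n))
        rw [Prod.mk_mul_mk, Prod.mk_mul_mk, Prod.mk_add_mk] at h
        have e : ((x + y).1 * b ^ (n + m), (x + y).2 * β ^ (n + m)) =
            (x.1 * b ^ n * b ^ m + y.1 * b ^ m * b ^ n,
              x.2 * β ^ n * β ^ m + y.2 * β ^ m * β ^ n) := by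
          refine Prod.ext ?_ ?_
          · change (x + y).1 * b ^ (n + m) = x.1 * b ^ n * b ^ m + y.1 * b ^ m * b ^ n
            rw [Prod.fst_add]; ring
          · change (x + y).2 * β ^ (n + m) = x.2 * β ^ n * β ^ m + y.2 * β ^ m * β ^ n
            rw [Prod.snd_add]; ring
        rw [e]
        exact h
      zero_mem' := ⟨0, by simp only [pow_zero, mul_one]; exact zero_mem G⟩
      neg_mem' := by
        rintro x ⟨n, hn⟩
        refine ⟨n, ?_⟩
        have h := neg_mem hn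
        rw [Prod.neg_mk] at h
        have e : ((-x).1 * b ^ n, (-x).2 * β ^ n) = (-(x.1 * b ^ n), -(x.2 * β ^ n)) := by
          refine Prod.ext ?_ ?_
          · change (-x).1 * b ^ n = -(x.1 * b ^ n)
            rw [Prod.fst_neg]; ring
          · change (-x).2 * β ^ n = -(x.2 * β ^ n)
            rw [Prod.snd_neg]; ring
        rw [e]
        exact h }
  have hle : G ≤ G' := fun z hz => ⟨0, by simpa using hz⟩
  have hgood : PEGood G' := by
    rintro ω ⟨n, hn⟩
    have h1 : ((0 : L), ω * β ^ n) ∈ G := by simpa using hn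
    have h2 := hG _ h1
    exact (mul_eq_zero.mp h2).resolve_right (pow_ne_zero _ hβ)
  refine hmax G' hgood hle ⟨1, ?_⟩
  simp only [pow_one]
  rw [inv_mul_cancel₀ hb0, inv_mul_cancel₀ hβ]
  exact one_mem G

/-- Adjoining an element. -/
private lemma pe_adj {L Ω : Type} [Field L] [Field Ω] (G : Subring (L × Ω))
    (hmax : ∀ G' : Subring (L × Ω), PEGood G' → G ≤ G' → G' ≤ G) (B : Subring L) (φ : B →+* Ω)
    (hB : ∀ z : L × Ω, z ∈ G → ∃ h : z.1 ∈ B, φ ⟨z.1, h⟩ = z.2) (x : L) (ω : Ω)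
    (hx : ∀ p : B[X], p.eval₂ B.subtype x = 0 → p.eval₂ φ ω = 0) : (x, ω) ∈ G := by
  let F : B[X] →+* L × Ω := (eval₂RingHom B.subtype x).prod (eval₂RingHom φ ω)
  have hgood : PEGood F.range := by
    rintro w ⟨p, hp⟩
    have h1 : p.eval₂ B.subtype x = 0 := congrArg Prod.fst hp
    have h2 : p.eval₂ φ ω = w := congrArg Prod.snd hp
    rw [← h2]
    exact hx p h1
  have hle : G ≤ F.range := by
    intro z hz
    obtain ⟨h, h'⟩ := hB z hz
    refine ⟨C ⟨z.1, h⟩, ?_⟩
    refine Prod.ext ?_ ?_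
    · change (C (⟨z.1, h⟩ : B)).eval₂ B.subtype x = z.1
      rw [eval₂_C]; rfl
    · change (C (⟨z.1, h⟩ : B)).eval₂ φ ω = z.2
      rw [eval₂_C]; exact h'
  refine hmax _ hgood hle ⟨X, ?_⟩
  refine Prod.ext ?_ ?_
  · change (X : B[X]).eval₂ B.subtype x = x
    exact eval₂_X _ _
  · change (X : B[X]).eval₂ φ ω = ω
    exact eval₂_X _ _

/-- If no value is possible for `x` then there is a relation with constant term one modulo the
kernel. -/
private lemma pe_rel {L Ω : Type} [Field L] [Field Ω] [IsAlgClosed Ω] (B : Subring L)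
    (φ : B →+* Ω) (hm : (RingHom.ker φ).IsMaximal) (x : L)
    (hx : ∀ ω : Ω, ¬ ∀ p : B[X], p.eval₂ B.subtype x = 0 → p.eval₂ φ ω = 0) :
    ∃ p : B[X], p.eval₂ B.subtype x = 0 ∧ p.map (Ideal.Quotient.mk (RingHom.ker φ)) = 1 := by
  let _ : Field (B ⧸ RingHom.ker φ) := Ideal.Quotient.field _
  set π : B →+* B ⧸ RingHom.ker φ := Ideal.Quotient.mk (RingHom.ker φ) with hπ
  set E : B[X] →+* L := eval₂RingHom B.subtype x with hE
  let I : Ideal (B ⧸ RingHom.ker φ)[X] := (RingHom.ker E).map (mapRingHom π)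
  have hsurj : Function.Surjective (mapRingHom π) :=
    Polynomial.map_surjective π Ideal.Quotient.mk_surjective
  obtain ⟨g, hg⟩ := (IsPrincipalIdealRing.principal I).principal
  by_cases hdeg : g.degree = 0
  · have hunit : IsUnit g := isUnit_iff_degree_eq_zero.mpr hdeg
    have htop : I = ⊤ := by
      rw [hg]
      exact Ideal.span_singleton_eq_top.mpr hunit
    have h1 : (1 : (B ⧸ RingHom.ker φ)[X]) ∈ I := by rw [htop]; trivial
    obtain ⟨p, hp, hp1⟩ := (Ideal.mem_map_iff_of_surjective _ hsurj).mp h1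
    exact ⟨p, hp, hp1⟩
  · exfalso
    let φ' : B ⧸ RingHom.ker φ →+* Ω := Ideal.Quotient.lift (RingHom.ker φ) φ (fun a ha => ha)
    obtain ⟨ω, hω⟩ := IsAlgClosed.exists_eval₂_eq_zero φ' g hdeg
    refine hx ω fun p hp => ?_
    have h1 : p.map π ∈ I := Ideal.mem_map_of_mem (mapRingHom π) (show p ∈ RingHom.ker E from hp)
    rw [hg] at h1
    obtain ⟨q, hq⟩ := Ideal.mem_span_singleton'.mp h1
    have h2 : (p.map π).eval₂ φ' ω = 0 := by
      rw [← hq, eval₂_mul, hω, mul_zero]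
    rw [eval₂_map] at h2
    exact h2

/-- **Extension of places.**  A homomorphism from a subring of a field to an algebraically closed
field extends to a valuation ring, with kernel the maximal ideal. -/
theorem exists_place_ext {L Ω : Type} [Field L] [Field Ω] [IsAlgClosed Ω] (C : Subring L)
    (ψ : C →+* Ω) :
    ∃ (O : ValuationSubring L) (hCO : C ≤ O.toSubring) (ψ' : O →+* Ω),
      (∀ c : C, ψ' ⟨c.1, hCO c.2⟩ = ψ c) ∧ ∀ a : O, ψ' a = 0 ↔ ¬ IsUnit a := by
  obtain ⟨G, hG₀, hG, hmax⟩ := pe_zorn (L := L) (Ω := Ω) (C.subtype.prod ψ).range (by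
    rintro ω ⟨c, hc⟩
    have h1 : C.subtype c = 0 := congrArg Prod.fst hc
    have h2 : ψ c = ω := congrArg Prod.snd hc
    have h3 : c = 0 := Subtype.ext h1
    rw [← h2, h3, map_zero])
  let g1 : G →+* L := (RingHom.fst L Ω).comp G.subtype
  let g2 : G →+* Ω := (RingHom.snd L Ω).comp G.subtype
  have hinj : Function.Injective g1 := by
    rw [injective_iff_map_eq_zero]
    rintro ⟨⟨a, ω⟩, ha⟩ h
    have h1 : a = 0 := h
    subst h1
    have h2 := hG ω ha
    subst h2
    rfl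
  let e : G ≃+* g1.range := RingEquiv.ofBijective g1.rangeRestrict
    ⟨fun a b h => hinj (congrArg Subtype.val h), g1.rangeRestrict_surjective⟩
  obtain ⟨B, hBdef⟩ : ∃ B : Subring L, B = g1.range := ⟨_, rfl⟩
  obtain ⟨φ, hφ⟩ : ∃ φ : B →+* Ω, ∀ z : L × Ω, z ∈ G → ∃ h : z.1 ∈ B, φ ⟨z.1, h⟩ = z.2 := by
    subst hBdef
    refine ⟨g2.comp e.symm.toRingHom, fun z hz => ⟨⟨⟨z, hz⟩, rfl⟩, ?_⟩⟩
    have h1 : e.symm (⟨z.1, ⟨⟨z, hz⟩, rfl⟩⟩ : g1.range) = ⟨z, hz⟩ := by
      rw [RingEquiv.symm_apply_eq]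
      rfl
    change g2 (e.symm ⟨z.1, ⟨⟨z, hz⟩, rfl⟩⟩) = z.2
    rw [h1]
    rfl
  have hφG : ∀ b : B, (b.1, φ b) ∈ G := by
    intro b
    have hb : b.1 ∈ g1.range := hBdef ▸ b.2
    obtain ⟨z, hz⟩ := hb
    obtain ⟨h, h'⟩ := hφ z.1 z.2
    have h1 : z.1.1 = b.1 := hz
    have h2 : (⟨z.1.1, h⟩ : B) = b := Subtype.ext h1
    rw [h2] at h'
    have h3 : (b.1, φ b) = z.1 := Prod.ext h1.symm h'
    rw [h3]
    exact z.2
  have hunit : ∀ b : B, φ b ≠ 0 → IsUnit b := by
    intro b hb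
    have h1 := pe_inv G hG hmax b.1 (φ b) (hφG b) hb
    obtain ⟨h2, -⟩ := hφ _ h1
    have hb0 : b.1 ≠ 0 := by
      intro h0
      apply hb
      have : b = 0 := Subtype.ext h0
      rw [this, map_zero]
    exact isUnit_iff_exists_inv.mpr ⟨⟨b.1⁻¹, h2⟩, Subtype.ext (mul_inv_cancel₀ hb0)⟩
  have hzero : ∀ b : B, φ b = 0 ↔ ¬ IsUnit b := by
    intro b
    constructor
    · intro h1 h2
      exact (h2.map φ).ne_zero h1
    · intro h1
      by_contra h2
      exact h1 (hunit b h2)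
  have hloc : IsLocalRing B := by
    refine IsLocalRing.of_nonunits_add ?_
    intro a b ha hb
    have ha' := (hzero a).mpr ha
    have hb' := (hzero b).mpr hb
    exact (hzero _).mp (by rw [map_add, ha', hb', add_zero])
  have hker : RingHom.ker φ = maximalIdeal B := by
    ext b
    rw [RingHom.mem_ker, hzero, mem_maximalIdeal, mem_nonunits_iff]
  have hkm : (RingHom.ker φ).IsMaximal := by
    rw [hker]
    exact maximalIdeal.isMaximal B
  have hIsMax : IsMax (LocalSubring.mk B : LocalSubring L) := by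
    intro S hS
    have hBS : B ≤ S.toSubring := hS.1
    suffices hSB : S.toSubring ≤ B by
      have : S = LocalSubring.mk B := LocalSubring.toSubring_injective (le_antisymm hSB hBS)
      exact this.le
    intro x hxS
    by_contra hxB
    obtain ⟨p, hp0, hp1⟩ := pe_rel B φ hkm x (by
      intro ω hω
      obtain ⟨h, -⟩ := hφ _ (pe_adj G hmax B φ hφ x ω hω)
      exact hxB h)
    have := S.isLocalRing
    have : IsLocalHom (Subring.inclusion hBS) := hS.2
    let ρ : S.toSubring →+* ResidueField S.toSubring := residue S.toSubring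
    have hkill : ∀ b : B, b ∈ RingHom.ker φ → (ρ.comp (Subring.inclusion hBS)) b = 0 := by
      intro b hb
      have h1 : ¬ IsUnit b := (hzero b).mp hb
      change residue S.toSubring (Subring.inclusion hBS b) = 0
      rw [residue_eq_zero_iff, mem_maximalIdeal, mem_nonunits_iff]
      intro h2
      exact h1 (isUnit_of_map_unit (Subring.inclusion hBS) b h2)
    let ρ' := Ideal.Quotient.lift (RingHom.ker φ) (ρ.comp (Subring.inclusion hBS)) hkill
    have h1 : (p.map (Ideal.Quotient.mk (RingHom.ker φ))).eval₂ ρ' (ρ ⟨x, hxS⟩) = 1 := by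
      rw [hp1, eval₂_one]
    rw [eval₂_map] at h1
    have h2 : p.eval₂ (ρ.comp (Subring.inclusion hBS)) (ρ ⟨x, hxS⟩) = 1 := h1
    rw [← hom_eval₂] at h2
    have h3 : p.eval₂ (Subring.inclusion hBS) (⟨x, hxS⟩ : S.toSubring) = 0 := by
      apply Subtype.ext
      have h4 := hom_eval₂ p (Subring.inclusion hBS) S.toSubring.subtype (⟨x, hxS⟩ : S.toSubring)
      change S.toSubring.subtype _ = _
      rw [h4]
      exact hp0
    rw [h3, map_zero] at h2
    exact zero_ne_one h2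
  obtain ⟨O, hO⟩ := LocalSubring.exists_valuationRing_of_isMax hIsMax
  have hOB : O.toSubring = B := congrArg LocalSubring.toSubring hO
  have hOB' : O.toSubring ≤ B := hOB.le
  have hCB : C ≤ B := by
    intro c hc
    obtain ⟨h, -⟩ := hφ (c, ψ ⟨c, hc⟩) (hG₀ ⟨⟨c, hc⟩, rfl⟩)
    exact h
  refine ⟨O, hOB ▸ hCB, φ.comp (Subring.inclusion hOB'), ?_, ?_⟩
  · intro c
    obtain ⟨h, h'⟩ := hφ (c.1, ψ c) (hG₀ ⟨c, rfl⟩)
    exact h'
  · intro a
    change φ (Subring.inclusion hOB' a) = 0 ↔ _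
    rw [hzero]
    constructor
    · intro h1 h2
      exact h1 (h2.map (Subring.inclusion hOB'))
    · intro h1 h2
      apply h1
      obtain ⟨b, hb⟩ := isUnit_iff_exists_inv.mp h2
      refine isUnit_iff_exists_inv.mpr ⟨⟨b.1, hOB.symm ▸ b.2⟩, ?_⟩
      apply Subtype.ext
      exact congrArg (fun z : B => z.1) hb

end Pool.Agent.DensDeg
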