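import Mathlib

set_option autoImplicit false

namespace Pool.Agent.DensDeg

open Polynomial IsDedekindDomain WithZero

attribute [local instance] FractionRing.liftAlgebra

private theorem ram_poly {κ : Type} [Field κ] [CharZero κ] {E : Type} [Field E]
    [Algebra κ E] [Algebra κ[X] E] [IsScalarTower κ κ[X] E]
    [FaithfulSMul κ[X] E] [FiniteDimensional (FractionRing κ[X]) E]
    (m : ℕ) (V₀ : ValuationSubring E) (hκ0 : ∀ a : κ, algebraMap κ E a ∈ V₀)
    (hε0 : ∀ a : E, V₀.valuation a < 1 ↔ a / algebraMap κ[X] E X ∈ V₀)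
    (hres : ∀ a ∈ V₀, ∃ c : κ, V₀.valuation (a - algebraMap κ E c) < 1)
    (h : ∀ V : ValuationSubring E, (∀ a : κ, algebraMap κ E a ∈ V) →
      V.valuation (algebraMap κ[X] E X) < 1 →
      V = V₀ ∨ ∃ b : E, V.valuation (algebraMap κ[X] E X) = V.valuation b ^ m) :
    Module.finrank κ[X] E ≡ 1 [MOD m] := by
  classical
  set D := integralClosure κ[X] E with hD
  have hfin : Module.Finite κ[X] D :=
    IsIntegralClosure.finite κ[X] (FractionRing κ[X]) E D
  have hded : IsDedekindDomain D := integralClosure.isDedekindDomain κ[X] (FractionRing κ[X]) E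
  have hfrac : IsFractionRing D E :=
    integralClosure.isFractionRing_of_finite_extension (FractionRing κ[X]) E
  have hinj : Function.Injective (algebraMap κ[X] D) := by
    have h1 : Function.Injective (algebraMap κ[X] E) := FaithfulSMul.algebraMap_injective _ _
    rw [IsScalarTower.algebraMap_eq κ[X] D E] at h1
    rw [RingHom.coe_comp] at h1
    exact Function.Injective.of_comp h1
  have htf : Module.IsTorsionFree κ[X] D := by
    have : FaithfulSMul κ[X] D := (faithfulSMul_iff_algebraMap_injective _ _).2 hinj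
    infer_instance
  rw [← IsFractionRing.finrank_left_eq κ[X] D E]
  set 𝔭 : Ideal κ[X] := Ideal.span {X} with h𝔭
  have hprime : 𝔭.IsPrime := by
    rw [h𝔭, Ideal.span_singleton_prime X_ne_zero]; exact prime_X
  have hX0 : (X : κ[X]) ≠ 0 := X_ne_zero
  have hXD : algebraMap κ[X] D X ≠ 0 := by
    intro h0; exact hX0 (hinj (by rw [h0, map_zero]))
  have hXE : algebraMap κ[X] E X ≠ 0 := by
    intro h0
    exact hX0 (FaithfulSMul.algebraMap_injective κ[X] E (by rw [h0, map_zero]))
  have hne : 𝔭.map (algebraMap κ[X] D) ≠ ⊥ := by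
    rw [h𝔭, Ideal.map_span, Set.image_singleton, Ne, Ideal.span_singleton_eq_bot]
    exact hXD
  have h𝔭0 : 𝔭 ≠ ⊥ := by
    rw [h𝔭, Ne, Ideal.span_singleton_eq_bot]; exact hX0
  have hmax : 𝔭.IsMaximal := Ring.DimensionLEOne.maximalOfPrime h𝔭0 hprime
  have hfinp : Finite (𝔭.primesOver D) := by
    have := IsDedekindDomain.primesOver_finite 𝔭 D
    exact this
  have := Fintype.ofFinite (𝔭.primesOver D)
  -- the height one prime over `𝔭`
  have hqne : ∀ q : 𝔭.primesOver D, q.1 ≠ ⊥ := by
    rintro ⟨q, hq1, hq2⟩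
    exact ne_bot_of_le_ne_bot hne (Ideal.map_le_of_le_comap (q.over_def 𝔭).le)
  let V : 𝔭.primesOver D → HeightOneSpectrum D := fun q => ⟨q.1, q.2.1, hqne q⟩
  let f : 𝔭.primesOver D → Valuation E ℤᵐ⁰ := fun q => (V q).valuation E
  let W : 𝔭.primesOver D → ValuationSubring E := fun q => (f q).valuationSubring
  have hfW : ∀ q, (f q).IsEquiv (W q).valuation := fun q =>
    Valuation.isEquiv_valuation_valuationSubring _
  have hXq : ∀ q : 𝔭.primesOver D, algebraMap κ[X] D X ∈ q.1 := by
    rintro ⟨q, hq1, hq2⟩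
    have : (X : κ[X]) ∈ q.under κ[X] := by
      rw [← q.over_def 𝔭]; exact Ideal.mem_span_singleton_self _
    exact this
  have hDle : ∀ (q : 𝔭.primesOver D) (d : D), f q (algebraMap D E d) ≤ 1 := fun q d =>
    (V q).valuation_le_one d
  have hκ1 : ∀ (q : 𝔭.primesOver D) (a : κ), f q (algebraMap κ E a) ≤ 1 := by
    intro q a
    have h1 : algebraMap κ E a = algebraMap D E (algebraMap κ[X] D (algebraMap κ κ[X] a)) := by
      rw [← IsScalarTower.algebraMap_apply κ[X] D E, ← IsScalarTower.algebraMap_apply κ κ[X] E]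
    rw [h1]; exact hDle q _
  have hXlt : ∀ q, f q (algebraMap κ[X] E X) < 1 := by
    intro q
    rw [IsScalarTower.algebraMap_apply κ[X] D E]
    exact ((V q).valuation_lt_one_iff_mem _).2 (hXq q)
  have hmemq : ∀ (q : 𝔭.primesOver D) (d : D), d ∈ q.1 ↔ f q (algebraMap D E d) < 1 := by
    intro q d
    exact ((V q).valuation_lt_one_iff_mem (K := E) d).symm
  have hmap : 𝔭.map (algebraMap κ[X] D) = Ideal.span {algebraMap κ[X] D X} := by
    rw [h𝔭, Ideal.map_span, Set.image_singleton]
  have hval : ∀ q : 𝔭.primesOver D, f q (algebraMap κ[X] E X) =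
      exp (-(multiplicity q.1 (𝔭.map (algebraMap κ[X] D)) : ℕ) : ℤ) := by
    intro q
    change (V q).valuation E _ = _
    rw [IsScalarTower.algebraMap_apply κ[X] D E, HeightOneSpectrum.valuation_of_algebraMap,
      HeightOneSpectrum.intValuation_eq_exp_neg_multiplicity (V q) hXD, hmap]
  have hepos : ∀ q : 𝔭.primesOver D, 1 ≤ multiplicity q.1 (𝔭.map (algebraMap κ[X] D)) := by
    intro q
    have h1 := hXlt q
    rw [hval, ← exp_zero, exp_lt_exp] at h1
    omega
  have hVX : V₀.valuation (algebraMap κ[X] E X) < 1 := by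
    rw [hε0, div_self hXE]
    exact V₀.one_mem
  -- case A
  have hA : ∀ q, W q ≠ V₀ → m ∣ multiplicity q.1 (𝔭.map (algebraMap κ[X] D)) := by
    intro q hq
    rcases h (W q) (fun a => hκ1 q a) ((hfW q).lt_one_iff_lt_one.1 (hXlt q)) with h1 | ⟨b, hb⟩
    · exact absurd h1 hq
    · have hb' : (W q).valuation (algebraMap κ[X] E X) = (W q).valuation (b ^ m) := by
        rw [hb, map_pow]
      have h2 := (hfW q).eq_iff.2 hb'
      rw [hval, map_pow] at h2
      have h3 := congrArg WithZero.log h2
      rw [WithZero.log_exp, WithZero.log_pow, nsmul_eq_mul] at h3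
      have h4 : (m : ℤ) ∣ (multiplicity q.1 (𝔭.map (algebraMap κ[X] D)) : ℤ) := by
        rw [← dvd_neg, h3]
        exact Dvd.intro _ rfl
      exact_mod_cast h4
  -- case B
  have hB : ∀ q, W q = V₀ → multiplicity q.1 (𝔭.map (algebraMap κ[X] D)) = 1 ∧
      q.1.inertiaDeg κ[X] = 1 := by
    intro q hq
    constructor
    · obtain ⟨π, hπ⟩ := (V q).valuation_surjective E (exp (-1 : ℤ))
      have h1 : V₀.valuation π < 1 := by
        rw [← hq]
        refine (hfW q).lt_one_iff_lt_one.1 ?_
        change (V q).valuation E π < 1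
        rw [hπ, ← exp_zero, exp_lt_exp]
        norm_num
      rw [hε0, ← hq] at h1
      have h2 : f q (π / algebraMap κ[X] E X) ≤ 1 := h1
      have h3 : f q (algebraMap κ[X] E X) ≠ 0 := by rw [hval]; exact exp_ne_zero
      rw [map_div₀, div_le_one₀ (zero_lt_iff.2 h3), hval] at h2
      change (V q).valuation E π ≤ _ at h2
      rw [hπ, exp_le_exp] at h2
      have := hepos q
      omega
    · have hqmax : q.1.IsMaximal := (V q).isMaximal
      have hqp : q.1.IsPrime := q.2.1
      have hqo : q.1.LiesOver 𝔭 := q.2.2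
      rw [Ideal.inertiaDeg_eq_of_isMaximal 𝔭 q.1]
      let _ : Field (κ[X] ⧸ 𝔭) := Ideal.Quotient.field 𝔭
      let _ : Field (D ⧸ q.1) := Ideal.Quotient.field q.1
      have hbij : Function.Bijective (algebraMap (κ[X] ⧸ 𝔭) (D ⧸ q.1)) := by
        refine ⟨RingHom.injective _, fun z => ?_⟩
        obtain ⟨d, rfl⟩ := Ideal.Quotient.mk_surjective z
        have hd : (algebraMap D E d) ∈ V₀ := by
          rw [← hq]
          exact hDle q d
        obtain ⟨c, hc⟩ := hres _ hd
        refine ⟨Ideal.Quotient.mk 𝔭 (C c), ?_⟩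
        change Ideal.Quotient.mk q.1 (algebraMap κ[X] D (C c)) = _
        rw [eq_comm, Ideal.Quotient.eq, hmemq, map_sub, ← IsScalarTower.algebraMap_apply κ[X] D E,
          ← Polynomial.algebraMap_eq, ← IsScalarTower.algebraMap_apply κ κ[X] E]
        rw [← hq] at hc
        exact (hfW q).lt_one_iff_lt_one.2 hc
      have h2 := (LinearEquiv.ofBijective (Algebra.linearMap (κ[X] ⧸ 𝔭) (D ⧸ q.1)) hbij).finrank_eq
      rw [Module.finrank_self] at h2
      exact h2.symm
  -- case C
  have hD0 : ∀ d : D, algebraMap D E d ∈ V₀ := by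
    intro d
    have hpol : ∀ p : κ[X], algebraMap κ[X] E p ∈ V₀.valuation.integer := by
      intro p
      change V₀.valuation _ ≤ 1
      rw [ValuationSubring.valuation_le_one_iff]
      induction p using Polynomial.induction_on' with
      | add p q hp hq => rw [map_add]; exact V₀.add_mem _ _ hp hq
      | monomial n a =>
        rw [← C_mul_X_pow_eq_monomial, map_mul, map_pow]
        refine V₀.mul_mem _ _ ?_ (pow_mem ?_ _)
        · rw [← Polynomial.algebraMap_eq, ← IsScalarTower.algebraMap_apply κ κ[X] E]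
          exact hκ0 a
        · exact (V₀.valuation_le_one_iff _).1 hVX.le
    obtain ⟨p, hp1, hp2⟩ := d.2
    let φ : κ[X] →+* V₀.valuation.integer :=
      (algebraMap κ[X] E).codRestrict V₀.valuation.integer hpol
    have hint : IsIntegral V₀.valuation.integer (d : E) := by
      refine ⟨p.map φ, hp1.map φ, ?_⟩
      rw [Polynomial.eval₂_map]
      exact hp2
    exact (V₀.valuation_le_one_iff _).1 ((Valuation.integer.integers V₀.valuation).mem_of_integral hint)
  have hDv : ∀ d : D, V₀.valuation (algebraMap D E d) ≤ 1 := fun d =>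
    (V₀.valuation_le_one_iff _).2 (hD0 d)
  have hex : ∃ q : 𝔭.primesOver D, W q = V₀ := by
    let Q : Ideal D := 
      { carrier := {d | V₀.valuation (algebraMap D E d) < 1}
        add_mem' := fun {a b} ha hb => by
          change V₀.valuation _ < 1
          rw [map_add]; exact V₀.valuation.map_add_lt ha hb
        zero_mem' := by change V₀.valuation _ < 1; rw [map_zero, map_zero]; exact zero_lt_one
        smul_mem' := fun a b hb => by
          change V₀.valuation _ < 1
          rw [smul_eq_mul, map_mul, map_mul]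
          exact mul_lt_one_of_nonneg_of_lt_one_right (hDv a) zero_le hb }
    have hQ : Q.IsPrime := by
      constructor
      · intro h
        have : (1 : D) ∈ Q := by rw [h]; trivial
        change V₀.valuation _ < 1 at this
        rw [map_one, map_one] at this
        exact lt_irrefl _ this
      · intro a b hab
        change V₀.valuation _ < 1 at hab
        rw [map_mul, map_mul] at hab
        by_contra hcon
        push Not at hcon
        obtain ⟨ha, hb⟩ := hcon
        have ha' : V₀.valuation (algebraMap D E a) = 1 := le_antisymm (hDv a) (not_lt.1 ha)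
        have hb' : V₀.valuation (algebraMap D E b) = 1 := le_antisymm (hDv b) (not_lt.1 hb)
        rw [ha', hb', one_mul] at hab
        exact lt_irrefl _ hab
    have hXQ : algebraMap κ[X] D X ∈ Q := by
      change V₀.valuation _ < 1
      rwa [← IsScalarTower.algebraMap_apply κ[X] D E]
    have hover : Q.LiesOver 𝔭 := by
      constructor
      refine (hmax.eq_of_le ?_ ?_)
      · exact (Ideal.IsPrime.under κ[X] Q).ne_top
      · rw [h𝔭, Ideal.span_singleton_le_iff_mem]
        exact hXQ
    refine ⟨⟨Q, hQ, hover⟩, ?_⟩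
    set q : 𝔭.primesOver D := ⟨Q, hQ, hover⟩ with hq
    have hle : ∀ z, f q z ≤ 1 → z ∈ V₀ := by
      intro z hz
      obtain ⟨a, b, hab⟩ := (V q).exists_primeCompl_mul_eq_of_integer z hz
      have hb1 : V₀.valuation (algebraMap D E b) = 1 := le_antisymm (hDv b) (not_lt.1 b.2)
      have h2 : V₀.valuation (z * algebraMap D E b) ≤ 1 := by rw [hab]; exact hDv a
      rw [map_mul, hb1, mul_one] at h2
      exact (V₀.valuation_le_one_iff _).1 h2
    ext z
    constructor
    · intro hz
      exact hle z hz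
    · intro hz
      change f q z ≤ 1
      by_contra hcon
      rw [not_le] at hcon
      have hz0 : z ≠ 0 := by
        rintro rfl
        rw [map_zero] at hcon
        exact absurd hcon (not_lt.2 zero_le)
      have hfz : f q z ≠ 0 := (Valuation.ne_zero_iff _).2 hz0
      obtain ⟨k, hk⟩ : ∃ k : ℕ, WithZero.log (f q z) = (k : ℤ) + 1 := by
        have h1 : (0 : ℤ) < WithZero.log (f q z) := by
          rw [← exp_log hfz, ← exp_zero, exp_lt_exp] at hcon
          exact hcon
        refine ⟨(WithZero.log (f q z) - 1).toNat, ?_⟩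
        omega
      set e := multiplicity q.1 (𝔭.map (algebraMap κ[X] D)) with he
      have h1 : f q (z ^ e * (algebraMap κ[X] E X) ^ (k + 1)) = 1 := by
        rw [map_mul, map_pow, map_pow, hval, ← exp_log hfz, hk, ← exp_nsmul, ← exp_nsmul,
          ← exp_add, ← exp_zero]
        congr 1
        simp only [nsmul_eq_mul]
        push_cast
        ring
      have h2 : V₀.valuation (z ^ e * (algebraMap κ[X] E X) ^ (k + 1)) < 1 := by
        rw [map_mul, map_pow, map_pow]
        refine mul_lt_one_of_nonneg_of_lt_one_right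
          (pow_le_one' ((V₀.valuation_le_one_iff _).2 hz) _) zero_le ?_
        exact pow_lt_one₀ zero_le hVX (by omega)
      have h3 : (z ^ e * (algebraMap κ[X] E X) ^ (k + 1))⁻¹ ∈ V₀ := by
        refine hle _ ?_
        rw [map_inv₀, h1, inv_one]
      have h4 : V₀.valuation (z ^ e * (algebraMap κ[X] E X) ^ (k + 1))⁻¹ ≤ 1 :=
        (V₀.valuation_le_one_iff _).2 h3
      have h5 : V₀.valuation (z ^ e * (algebraMap κ[X] E X) ^ (k + 1)) *
          V₀.valuation (z ^ e * (algebraMap κ[X] E X) ^ (k + 1))⁻¹ = 1 := by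
        rw [← map_mul, mul_inv_cancel₀, map_one]
        exact mul_ne_zero (pow_ne_zero _ hz0) (pow_ne_zero _ hXE)
      have h6 := mul_lt_one_of_nonneg_of_lt_one_left zero_le h2 h4
      rw [h5] at h6
      exact lt_irrefl _ h6
  obtain ⟨q₀, hq₀⟩ := hex
  have huniq : ∀ q, W q = V₀ → q = q₀ := by
    intro q hq
    apply Subtype.ext
    ext d
    rw [hmemq, hmemq, (hfW q).lt_one_iff_lt_one, (hfW q₀).lt_one_iff_lt_one, hq, hq₀]
  have hram : ∀ q : 𝔭.primesOver D,
      q.1.ramificationIdx κ[X] = multiplicity q.1 (𝔭.map (algebraMap κ[X] D)) := by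
    intro q
    have hqp : q.1.IsPrime := q.2.1
    have hqo : q.1.LiesOver 𝔭 := q.2.2
    exact Ideal.IsDedekindDomain.ramificationIdx_eq_multiplicity 𝔭 q.1 hne
  rw [← Ideal.sum_ramification_inertia_eq_finrank 𝔭 D,
    ← Finset.add_sum_erase Finset.univ _ (Finset.mem_univ q₀), hram q₀, (hB q₀ hq₀).1,
    (hB q₀ hq₀).2, mul_one]
  have hdvd : m ∣ ∑ q ∈ Finset.univ.erase q₀, q.1.ramificationIdx κ[X] * q.1.inertiaDeg κ[X] := by
    refine Finset.dvd_sum fun q hq => Dvd.dvd.mul_right ?_ _
    rw [hram]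
    exact hA q fun hW => (Finset.mem_erase.1 hq).1 (huniq q hW)
  have h0 := ((Nat.modEq_zero_iff_dvd.2 hdvd).add_left 1)
  rwa [add_zero] at h0

open IntermediateField in
/-- A congruence for the degree from the zeros of `ε`. -/
theorem finrank_modEq_one {κ L : Type} [Field κ] [CharZero κ] [Field L] [Algebra κ L] (ε : L)
    (hε : Transcendental κ ε) (hfin : FiniteDimensional (IntermediateField.adjoin κ {ε}) L)
    (m : ℕ) (V₀ : ValuationSubring L) (hκ : ∀ a : κ, algebraMap κ L a ∈ V₀)
    (hε0 : ∀ a : L, V₀.valuation a < 1 ↔ a / ε ∈ V₀)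
    (hres : ∀ a ∈ V₀, ∃ c : κ, V₀.valuation (a - algebraMap κ L c) < 1)
    (h : ∀ V : ValuationSubring L, (∀ a : κ, algebraMap κ L a ∈ V) → V.valuation ε < 1 →
      V = V₀ ∨ ∃ b : L, V.valuation ε = V.valuation b ^ m) :
    Module.finrank (IntermediateField.adjoin κ {ε}) L ≡ 1 [MOD m] := by
  let algE : Algebra κ[X] L := (Polynomial.aeval ε).toAlgebra
  have hmapE : ∀ q : κ[X], algebraMap κ[X] L q = Polynomial.aeval ε q := fun q => rfl
  have hX : algebraMap κ[X] L X = ε := by rw [hmapE, Polynomial.aeval_X]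
  have htow : IsScalarTower κ κ[X] L := IsScalarTower.of_algebraMap_eq fun a => by
    rw [hmapE, Polynomial.algebraMap_eq, Polynomial.aeval_C]
  have hinj : Function.Injective (algebraMap κ[X] L) := transcendental_iff_injective.1 hε
  have hfs : FaithfulSMul κ[X] L := by
    rw [faithfulSMul_iff_algebraMap_injective]
    exact hinj
  have hmemK : ∀ q : κ[X], Polynomial.aeval ε q ∈ κ⟮ε⟯ := fun q =>
    IntermediateField.algebra_adjoin_le_adjoin κ _ (Polynomial.aeval_mem_adjoin_singleton κ ε)
  let algK : Algebra κ[X] κ⟮ε⟯ := 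
    ((Polynomial.aeval ε).toRingHom.codRestrict κ⟮ε⟯.toSubring hmemK : κ[X] →+* κ⟮ε⟯).toAlgebra
  have htow2 : IsScalarTower κ[X] κ⟮ε⟯ L := IsScalarTower.of_algebraMap_eq fun q => rfl
  have hfsK : FaithfulSMul κ[X] κ⟮ε⟯ := by
    rw [faithfulSMul_iff_algebraMap_injective]
    have h1 := hinj
    rw [IsScalarTower.algebraMap_eq κ[X] κ⟮ε⟯ L, RingHom.coe_comp] at h1
    exact Function.Injective.of_comp h1
  have hfrac : IsFractionRing κ[X] κ⟮ε⟯ := by
    refine IsFractionRing.of_field _ _ fun z => ?_
    obtain ⟨p, q, h⟩ := (IntermediateField.mem_adjoin_simple_iff κ z.1).1 z.2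
    exact ⟨p, q, Subtype.ext h⟩
  have hrank : Module.finrank κ⟮ε⟯ L = Module.finrank κ[X] L :=
    IsFractionRing.finrank_right_eq κ[X] κ⟮ε⟯ L
  have hfd : FiniteDimensional (FractionRing κ[X]) L := by
    have h1 : Module.rank κ⟮ε⟯ L = Module.rank κ[X] L :=
      IsFractionRing.rank_right_eq κ[X] κ⟮ε⟯ L
    have h2 : Module.rank (FractionRing κ[X]) L = Module.rank κ[X] L :=
      IsFractionRing.rank_right_eq κ[X] (FractionRing κ[X]) L
    have h3 : Module.rank κ⟮ε⟯ L < Cardinal.aleph0 := Module.rank_lt_aleph0 _ _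
    rw [h1, ← h2] at h3
    exact Module.rank_lt_aleph0_iff.1 h3
  rw [hrank]
  exact ram_poly m V₀ hκ (by rw [hX]; exact hε0) hres (by rw [hX]; exact h)

end Pool.Agent.DensDeg
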