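import Pool.Agent.DensDeg.TDefs
import Pool.Agent.MultiSpec.Count

/-!
(III.3): algebraicity of the slots from the value relation.
-/

set_option autoImplicit false

namespace Pool.Agent.DensDeg

open Pool.Agent.MultiSpec

private lemma TAcl_base {F Ω : Type*} [Field F] [Field Ω] [Algebra F Ω] {S : Set Ω}
    (a : F) : algebraMap F Ω a ∈ acl F S := by
  change IsAlgebraic (Algebra.adjoin F S) (algebraMap F Ω a)
  exact isAlgebraic_algebraMap (algebraMap F (Algebra.adjoin F S) a)

private lemma TAcl_pow {F Ω : Type*} [Field F] [Field Ω] [Algebra F Ω] {S : Set Ω}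
    {a : Ω} {m : ℕ} (hm : 0 < m) (h : a ^ m ∈ acl F S) : a ∈ acl F S :=
  IsAlgebraic.of_pow hm h

private lemma TAcl_div {F Ω : Type*} [Field F] [Field Ω] [Algebra F Ω] {S : Set Ω}
    {a b : Ω} (hb : b ≠ 0) (hbS : b ∈ acl F S) (h : b * a ∈ acl F S) : a ∈ acl F S := by
  have := (acl F S).mul_mem ((acl F S).inv_mem hbS) h
  rwa [inv_mul_cancel_left₀ hb] at this

private lemma TAcl_ev {F Ω : Type*} [Field F] [Field Ω] [Algebra F Ω] {S : Set Ω}
    {x z : Ω} (hx : x ∈ acl F S) (hz : z ∈ acl F S) (p : MvPolynomial (Fin 2) F) :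
    ev x z (MvPolynomial.map (algebraMap F Ω) p) ∈ acl F S := by
  induction p using MvPolynomial.induction_on with
  | C a => simpa using TAcl_base a
  | add p q hp hq => rw [map_add, map_add]; exact (acl F S).add_mem hp hq
  | mul_X p i hp =>
    rw [map_mul, map_mul]
    refine (acl F S).mul_mem hp ?_
    rw [MvPolynomial.map_X, MvPolynomial.eval_X]
    fin_cases i
    · exact hx
    · exact hz

/-- An element of all valuation rings over a relatively algebraically closed field. -/
theorem mem_acl {F Ω : Type} [Field F] [Field Ω] [Algebra F Ω] (S : Set Ω) (a : Ω)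
    (h : ∀ V : ValuationSubring Ω, (∀ b ∈ acl F S, b ∈ V) → a ∈ V) : a ∈ acl F S := by
  have h1 : a ∈ (⨅ V : {V : ValuationSubring Ω // ((acl F S : Subfield Ω) : Set Ω) ⊆ V.toSubring},
      V.1.toSubring) := by
    rw [Subring.mem_iInf]
    rintro ⟨V, hV⟩
    exact h V fun b hb => hV hb
  rw [iInf_valuationSubring_superset] at h1
  have h2 : IsIntegral (Subring.closure ((acl F S : Subfield Ω) : Set Ω)) a := h1
  let C : Subalgebra (Algebra.adjoin F S) Ω := Subalgebra.algebraicClosure (Algebra.adjoin F S) Ω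
  have hcl : ∀ b ∈ Subring.closure ((acl F S : Subfield Ω) : Set Ω), b ∈ C := by
    intro b hb
    have : Subring.closure ((acl F S : Subfield Ω) : Set Ω) ≤ (acl F S).toSubring :=
      Subring.closure_le.2 fun x hx => hx
    have h3 : b ∈ acl F S := this hb
    exact (Subalgebra.mem_algebraicClosure _ _).2 h3
  let φ : Subring.closure ((acl F S : Subfield Ω) : Set Ω) →+* C :=
    (Subring.subtype _).codRestrict C fun b => hcl b.1 b.2
  have h4 : IsIntegral C a := by
    obtain ⟨p, hp, hpa⟩ := h2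
    refine ⟨p.map φ, hp.map φ, ?_⟩
    rw [Polynomial.eval₂_map]
    exact hpa
  have h5 : IsAlgebraic (Algebra.adjoin F S) a := IsAlgebraic.restrictScalars _ h4.isAlgebraic
  exact h5

private lemma TAcl_valuation_eq_one {F Ω : Type} [Field F] [Field Ω] [Algebra F Ω] {S : Set Ω}
    {V : ValuationSubring Ω} (hV : ∀ b ∈ acl F S, b ∈ V) {a : Ω} (ha : a ∈ acl F S) (h0 : a ≠ 0) :
    V.valuation a = 1 := by
  refine le_antisymm ((V.valuation_le_one_iff a).2 (hV a ha)) ?_
  have h1 := (V.valuation_le_one_iff a⁻¹).2 (hV _ ((acl F S).inv_mem ha))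
  rw [map_inv₀] at h1
  have h2 : V.valuation a ≠ 0 := (Valuation.ne_zero_iff _).2 h0
  exact (inv_le_one₀ (zero_lt_iff.2 h2)).1 h1

/-- **Algebraicity of the slots.** -/
theorem slots_mem_acl {F Ω : Type} [Field F] [Field Ω] [Algebra F Ω] {n M e mu : ℕ}
    (hmu : 0 < mu) (v : Fin (n + 1) → Ω) (S : Set Ω) (hv : ∀ i, v i ∈ acl F S)
    (hv0 : v ≠ 0) (Lm : Ω) (hL : Lm ≠ 0) (x z : Fin M → Ω) (h1 : ∀ j, x j = 1 ∨ z j = 1)
    (hval : ∀ V : ValuationSubring Ω, (∀ a : F, algebraMap F Ω a ∈ V) → HV e mu V v Lm x z) :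
    Lm ∈ acl F S ∧ (∀ j, x j ∈ acl F S) ∧ ∀ j, z j ∈ acl F S := by
  obtain ⟨i₀, hi₀⟩ := Function.ne_iff.1 hv0
  -- the value relation over the algebraic closure
  have hrel : ∀ V : ValuationSubring Ω, (∀ b ∈ acl F S, b ∈ V) →
      V.valuation Lm * ∏ j, max (V.valuation (x j)) (V.valuation (z j)) ^ mu = 1 := by
    intro V hV
    have h2 := hval V fun a => hV _ (TAcl_base a)
    unfold HV at h2
    rw [← h2]
    have h3 : vmax (fun i => V.valuation (v i)) = 1 := by
      apply le_antisymm
      · refine Finset.sup'_le _ _ fun i _ => ?_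
        exact (V.valuation_le_one_iff _).2 (hV _ (hv i))
      · have := Finset.le_sup' (fun i => V.valuation (v i)) (Finset.mem_univ i₀)
        refine le_trans (le_of_eq ?_) this
        exact (TAcl_valuation_eq_one hV (hv i₀) hi₀).symm
    rw [h3, one_pow]
  have hge : ∀ (V : ValuationSubring Ω) (j : Fin M),
      1 ≤ max (V.valuation (x j)) (V.valuation (z j)) := by
    intro V j
    rcases h1 j with h | h
    · exact le_max_of_le_left (by rw [h, map_one])
    · exact le_max_of_le_right (by rw [h, map_one])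
  have hLm : Lm ∈ acl F S := by
    apply mem_acl
    intro V hV
    have h2 := hrel V hV
    rw [← V.valuation_le_one_iff, ← h2]
    exact le_mul_of_one_le_right' (Finset.one_le_prod' fun j _ => one_le_pow₀ (hge V j))
  have hmax : ∀ V : ValuationSubring Ω, (∀ b ∈ acl F S, b ∈ V) → ∀ j,
      max (V.valuation (x j)) (V.valuation (z j)) ≤ 1 := by
    intro V hV j
    have h2 := hrel V hV
    rw [TAcl_valuation_eq_one hV hLm hL, one_mul] at h2
    by_contra hc
    push Not at hc
    have h3 : 1 < max (V.valuation (x j)) (V.valuation (z j)) ^ mu := one_lt_pow₀ hc hmu.ne'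
    have h4 : max (V.valuation (x j)) (V.valuation (z j)) ^ mu ≤
        ∏ j, max (V.valuation (x j)) (V.valuation (z j)) ^ mu :=
      Finset.single_le_prod' (f := fun j => max (V.valuation (x j)) (V.valuation (z j)) ^ mu)
        (fun i _ => one_le_pow₀ (hge V i)) (Finset.mem_univ j)
    rw [h2] at h4
    exact absurd h4 (not_le.2 h3)
  refine ⟨hLm, fun j => mem_acl S _ fun V hV => ?_, fun j => mem_acl S _ fun V hV => ?_⟩
  · exact (V.valuation_le_one_iff _).1 ((le_max_left _ _).trans (hmax V hV j))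
  · exact (V.valuation_le_one_iff _).1 ((le_max_right _ _).trans (hmax V hV j))

/-- The sections of a lift are algebraic over the point. -/
theorem lift_mem_acl {F Ω : Type} [Field F] [Field Ω] [CharZero Ω] [Algebra F Ω]
    {S : Set Ω} {N n : ℕ} (hnN : n < N) (D : EDatum N n F) {x z : Ω} (hx : x ∈ acl F S)
    (hz : z ∈ acl F S) (hxz : x ≠ 0 ∨ z ≠ 0) {q : LiftPt n Ω}
    (hq : IsLift (D.map (algebraMap F Ω)) x z q) (l : Fin n) (j : Fin 2) :
    q.s l j ∈ acl F S := by
  have h2 : (2 : Ω) ≠ 0 := two_ne_zero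
  have h2S : (2 : Ω) ∈ acl F S := by
    have := TAcl_base (S := S) (2 : F)
    rwa [map_ofNat] at this
  have hN : 0 < N := by omega
  have hF : ev x z (D.map (algebraMap F Ω)).F ∈ acl F S := by
    have : (D.map (algebraMap F Ω)).F = MvPolynomial.map (algebraMap F Ω) D.F := by
      unfold EDatum.F
      rw [map_quar]
      rfl
    rw [this]
    exact TAcl_ev hx hz _
  have hY : q.Y ∈ acl F S := by
    apply TAcl_pow (m := 2) (by norm_num)
    rw [hq.hY]; exact hF
  have hA : ev x z (D.map (algebraMap F Ω)).A ∈ acl F S := TAcl_ev hx hz _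
  have hB : ev x z (D.map (algebraMap F Ω)).B ∈ acl F S := TAcl_ev hx hz _
  have hP : ev x z ((D.map (algebraMap F Ω)).P l j) ∈ acl F S := TAcl_ev hx hz _
  have hQ : ev x z ((D.map (algebraMap F Ω)).Q l j) ∈ acl F S := TAcl_ev hx hz _
  have hU : ev x z ((D.map (algebraMap F Ω)).U l j) ∈ acl F S := TAcl_ev hx hz _
  have hV : ev x z ((D.map (algebraMap F Ω)).V l j) ∈ acl F S := TAcl_ev hx hz _
  have hα : q.α ∈ acl F S := by
    apply TAcl_pow hN
    apply TAcl_div h2 h2S
    rw [hq.hα]
    exact (acl F S).add_mem hA ((acl F S).mul_mem hB hY)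
  have hβ : q.β ∈ acl F S := by
    apply TAcl_pow hN
    apply TAcl_div h2 h2S
    rw [hq.hβ]
    exact (acl F S).sub_mem hA ((acl F S).mul_mem hB hY)
  by_cases hα0 : q.α = 0
  · have hβ0 : q.β ≠ 0 := by
      intro hβ0
      have e1 := hq.hα
      have e2 := hq.hβ
      have e3 := hq.hαβ
      rw [hα0, zero_pow hN.ne', mul_zero] at e1
      rw [hβ0, zero_pow hN.ne', mul_zero] at e2
      rw [hα0, zero_mul] at e3
      have hA0 : ev x z (D.map (algebraMap F Ω)).A = 0 := by
        have : 2 * ev x z (D.map (algebraMap F Ω)).A = 0 := by linear_combination -e1 - e2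
        exact (mul_eq_zero.1 this).resolve_left h2
      rcases mul_eq_zero.1 e3.symm with h0 | h0
      · have hz0 : z ≠ 0 := hxz.resolve_left (not_not.2 h0)
        rw [h0] at hA0
        have h4 := ev_scale (D.map (algebraMap F Ω)).hA z 0 1
        rw [mul_zero, mul_one, hA0] at h4
        have h5 := (D.map (algebraMap F Ω)).hA0
        rcases mul_eq_zero.1 h4.symm with h6 | h6
        · exact hz0 (pow_eq_zero_iff hN.ne' |>.1 h6)
        · rw [h6, mul_zero] at h5
          exact zero_ne_one h5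
      · have hx0 : x ≠ 0 := hxz.resolve_right (not_not.2 h0)
        rw [h0] at hA0
        have h4 := ev_scale (D.map (algebraMap F Ω)).hA x 1 0
        rw [mul_zero, mul_one, hA0, (D.map (algebraMap F Ω)).hA1, mul_one] at h4
        exact hx0 (pow_eq_zero_iff hN.ne' |>.1 h4.symm)
    apply TAcl_div (pow_ne_zero (l.val + 1) hβ0) ((acl F S).pow_mem hβ _)
    rw [hq.h1]
    exact (acl F S).add_mem hP ((acl F S).mul_mem hQ hY)
  · apply TAcl_div (pow_ne_zero (N - (l.val + 1)) hα0) ((acl F S).pow_mem hα _)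
    apply TAcl_div h2 h2S
    rw [← mul_assoc, hq.h2]
    exact (acl F S).add_mem hV ((acl F S).mul_mem hU hY)

end Pool.Agent.DensDeg
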