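import Pool.Agent.DensDeg.TFormA
import Pool.Agent.DensDeg.PlaceExt

/-!
(II.3), second half: the form of degree `D'` and the places over its zeros.
-/

set_option autoImplicit false

namespace Pool.Agent.DensDeg

open MvPolynomial

private lemma TFormB_eval_zero {K₀ Ω : Type} [Field K₀] [Field Ω] [Algebra K₀ Ω] {n : ℕ}
    (G : MvPolynomial (Option (Fin (n + 1))) K₀) (m : ℕ) (hG : G.IsHomogeneous m)
    (hc : G.coeff (Finsupp.single none m) = 1) (w : Ω) :
    aeval (fun o : Option (Fin (n + 1)) => o.elim w fun _ => (0 : Ω)) G = w ^ m := by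
  rw [aeval_def, eval₂_eq']
  have hne : ∀ d ∈ G.support, d ≠ Finsupp.single none m →
      (algebraMap K₀ Ω) (coeff d G) *
        ∏ i : Option (Fin (n + 1)), (Option.elim i w fun _ => (0 : Ω)) ^ d i = 0 := by
    intro d hd hne
    have hdeg : Finsupp.degree d = m := by
      rw [MvPolynomial.mem_support_iff] at hd
      have := hG hd
      rw [Finsupp.weight_apply] at this
      rw [Finsupp.degree_eq_sum, ← this, Finsupp.sum_fintype _ _ (fun _ => by simp)]
      simp
    obtain ⟨i, hi⟩ : ∃ i : Fin (n + 1), d (some i) ≠ 0 := by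
      by_contra hcon
      push Not at hcon
      apply hne
      have h0 : d none = m := by
        rw [Finsupp.degree_eq_sum, Fintype.sum_option] at hdeg
        rw [← hdeg]
        simp [hcon]
      ext o
      cases o with
      | none => rw [h0, Finsupp.single_eq_same]
      | some i => rw [hcon i, Finsupp.single_eq_of_ne (by simp)]
    rw [Finset.prod_eq_zero (Finset.mem_univ (some i)), mul_zero]
    simp only [Option.elim_some]
    exact zero_pow hi
  by_cases hm : Finsupp.single none m ∈ G.support
  · rw [Finset.sum_eq_single_of_mem (Finsupp.single none m) hm (fun d hd h => hne d hd h), hc,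
      map_one, one_mul, Fintype.prod_option]
    simp only [Option.elim_none, Finsupp.single_eq_same]
    have : ∏ i : Fin (n + 1), (Option.elim (some i) w fun _ => (0 : Ω)) ^
        (Finsupp.single (none : Option (Fin (n + 1))) m) (some i) = 1 := by
      apply Finset.prod_eq_one
      intro i _
      rw [Finsupp.single_eq_of_ne (by simp), pow_zero]
    rw [this, mul_one]
  · exfalso
    rw [MvPolynomial.mem_support_iff, hc] at hm
    exact hm one_ne_zero

/-- **The form lemma.** -/
theorem exists_form {K₀ L : Type} [Field K₀] [CharZero K₀] [Field L] [IsAlgClosed L]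
    [Algebra K₀ L] {n : ℕ} (u : Fin (n + 1) → L) (hu : AlgebraicIndependent K₀ u)
    (halg : Algebra.IsAlgebraic (IntermediateField.adjoin K₀ (Set.range u)) L) (W : L)
    (hW : ∀ V : ValuationSubring L, (∀ a : K₀, algebraMap K₀ L a ∈ V) →
      V.valuation W ≤ vmax (fun j => V.valuation (u j))) (D' : ℕ) (hD' : 0 < D')
    (hdvd : Module.finrank (IntermediateField.adjoin K₀ (Set.range u))
      (IntermediateField.adjoin (IntermediateField.adjoin K₀ (Set.range u)) {W}) ∣ D') :
    ∃ G : MvPolynomial (Option (Fin (n + 1))) K₀, G.IsHomogeneous D' ∧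
      (∀ (Ω : Type) [Field Ω] [Algebra K₀ Ω] (w : Ω),
        aeval (fun o : Option (Fin (n + 1)) => o.elim w fun _ => 0) G = 0 → w = 0) ∧
      ∀ (Ω : Type) [Field Ω] [IsAlgClosed Ω] [Algebra K₀ Ω] (U : Fin (n + 1) → Ω) (w : Ω),
        aeval (fun o : Option (Fin (n + 1)) => o.elim w U) G = 0 →
        ∃ (O : ValuationSubring L) (φ : O →+* Ω) (hK : ∀ a : K₀, algebraMap K₀ L a ∈ O)
          (huO : ∀ i, u i ∈ O) (hWO : W ∈ O), (∀ a : O, φ a = 0 ↔ ¬ IsUnit a) ∧
          (∀ a : K₀, φ ⟨algebraMap K₀ L a, hK a⟩ = algebraMap K₀ Ω a) ∧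
          (∀ i, φ ⟨u i, huO i⟩ = U i) ∧ φ ⟨W, hWO⟩ = w := by
  obtain ⟨hm, G, hG, hc, hker⟩ := exists_min_form u hu halg W hW _ rfl
  obtain ⟨k, hk⟩ := hdvd
  set m := Module.finrank (IntermediateField.adjoin K₀ (Set.range u))
      (IntermediateField.adjoin (IntermediateField.adjoin K₀ (Set.range u)) {W}) with hmdef
  refine ⟨G ^ k, ?_, ?_, ?_⟩
  · rw [hk]
    exact hG.pow k
  · intro Ω _ _ w h
    rw [map_pow] at h
    have h1 := eq_zero_of_pow_eq_zero h
    rw [TFormB_eval_zero G m hG hc w] at h1
    exact eq_zero_of_pow_eq_zero h1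
  · intro Ω _ _ _ U w h
    rw [map_pow] at h
    have h1 := eq_zero_of_pow_eq_zero h
    let f : MvPolynomial (Option (Fin (n + 1))) K₀ →+* L :=
      (aeval (fun o : Option (Fin (n + 1)) => o.elim W u)).toRingHom
    let g : MvPolynomial (Option (Fin (n + 1))) K₀ →+* Ω :=
      (aeval (fun o : Option (Fin (n + 1)) => o.elim w U)).toRingHom
    have hfg : RingHom.ker f.rangeRestrict ≤ RingHom.ker g := by
      intro p hp
      have h2 : f p = 0 := by
        have := congrArg Subtype.val (RingHom.mem_ker.1 hp)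
        exact this
      have h3 : G ∣ p := (hker p).1 h2
      obtain ⟨r, rfl⟩ := h3
      rw [RingHom.mem_ker, map_mul]
      have h4 : g G = 0 := h1
      rw [h4, zero_mul]
    let ψ : f.range →+* Ω :=
      RingHom.liftOfSurjective f.rangeRestrict f.rangeRestrict_surjective ⟨g, hfg⟩
    have hψ : ∀ p, ψ (f.rangeRestrict p) = g p := fun p =>
      RingHom.liftOfRightInverse_comp_apply _ _ _ ⟨g, hfg⟩ p
    obtain ⟨O, hCO, φ, hφ, hunit⟩ := exists_place_ext f.range ψ
    have hmem : ∀ p, f p ∈ O := fun p => hCO ⟨p, rfl⟩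
    have hval : ∀ p, φ ⟨f p, hmem p⟩ = g p := by
      intro p
      rw [← hψ p]
      exact hφ (f.rangeRestrict p)
    have hfC : ∀ a : K₀, f (C a) = algebraMap K₀ L a := fun a => by
      change aeval _ (C a) = _
      rw [aeval_C]
    have hfX : ∀ o, f (X o) = o.elim W u := fun o => by
      change aeval _ (X o) = _
      rw [aeval_X]
    have hgC : ∀ a : K₀, g (C a) = algebraMap K₀ Ω a := fun a => by
      change aeval _ (C a) = _
      rw [aeval_C]
    have hgX : ∀ o, g (X o) = o.elim w U := fun o => by
      change aeval _ (X o) = _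
      rw [aeval_X]
    refine ⟨O, φ, fun a => hfC a ▸ hmem (C a), fun i => ?_, ?_, hunit, ?_, ?_, ?_⟩
    · have := hmem (X (some i))
      rw [hfX] at this
      exact this
    · have := hmem (X none)
      rw [hfX] at this
      exact this
    · intro a
      rw [← hgC a, ← hval (C a)]
      congr 1
      exact Subtype.ext (hfC a).symm
    · intro i
      have h5 : U i = g (X (some i)) := by rw [hgX]; rfl
      rw [h5, ← hval (X (some i))]
      congr 1
      exact Subtype.ext (hfX (some i)).symm
    · have h5 : w = g (X none) := by rw [hgX]; rfl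
      refine Eq.trans ?_ h5.symm
      rw [← hval (X none)]
      congr 1
      exact Subtype.ext (hfX none).symm

end Pool.Agent.DensDeg
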