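import Pool.Agent.DensDeg.TDefs

set_option autoImplicit false

namespace Pool.Agent.DensDeg

open Pool.Agent.MultiSpec

namespace TSlotC

/-- a cubic has a root in an extension of degree one or three -/
theorem cubic_root {L : Type} [Field L] [IsAlgClosed L] (K : Subfield L) (a b c d : L)
    (ha : a ∈ K) (hb : b ∈ K) (hc : c ∈ K) (hd : d ∈ K) (ha0 : a ≠ 0) :
    ∃ (K' : Subfield L) (T : L), K ≤ K' ∧ (K.relfinrank K' = 1 ∨ K.relfinrank K' = 3) ∧ T ∈ K' ∧
      a * T ^ 3 + b * T ^ 2 + c * T + d = 0 := by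
  let a' : K := ⟨a, ha⟩
  let b' : K := ⟨b, hb⟩
  let c' : K := ⟨c, hc⟩
  let d' : K := ⟨d, hd⟩
  have ha' : a' ≠ 0 := fun h => ha0 (congrArg Subtype.val h)
  let h : Polynomial K := Polynomial.C a' * Polynomial.X ^ 3 + Polynomial.C b' * Polynomial.X ^ 2 +
    Polynomial.C c' * Polynomial.X + Polynomial.C d'
  have hdeg : h.natDegree = 3 := Polynomial.natDegree_cubic ha'
  have hev : ∀ T : L, Polynomial.aeval T h = a * T ^ 3 + b * T ^ 2 + c * T + d := by
    intro T
    simp only [h, map_add, map_mul, Polynomial.aeval_C, map_pow, Polynomial.aeval_X]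
    rfl
  by_cases hr : ∃ r : K, h.IsRoot r
  · obtain ⟨r, hr⟩ := hr
    refine ⟨K, (r : L), le_rfl, Or.inl (Subfield.relfinrank_self K), r.2, ?_⟩
    rw [← hev]
    have h1 : Polynomial.aeval (algebraMap K L r) h = algebraMap K L (h.eval r) :=
      Polynomial.aeval_algebraMap_apply_eq_algebraMap_eval r h
    rw [hr.eq_zero, map_zero] at h1
    exact h1
  · have hirr : Irreducible h := by
      rw [Polynomial.irreducible_iff_roots_eq_zero_of_degree_le_three (by omega) (by omega)]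
      apply Multiset.eq_zero_of_forall_notMem
      intro r hmem
      exact hr ⟨r, Polynomial.isRoot_of_mem_roots hmem⟩
    obtain ⟨T, hT⟩ := IsAlgClosed.exists_aeval_eq_zero L h (by
      rw [Polynomial.degree_eq_natDegree hirr.ne_zero, hdeg]; norm_num)
    have hint : IsIntegral K T := by
      have hal : IsAlgebraic K T := ⟨h, hirr.ne_zero, hT⟩
      exact hal.isIntegral
    have hle : K ≤ (IntermediateField.adjoin K {T}).toSubfield := by
      intro y hy
      exact (IntermediateField.adjoin K {T}).algebraMap_mem ⟨y, hy⟩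
    refine ⟨(IntermediateField.adjoin K {T}).toSubfield, T, hle, Or.inr ?_, ?_, ?_⟩
    · rw [Subfield.relfinrank_eq_finrank_of_le hle]
      have h1 : Subfield.extendScalars hle = IntermediateField.adjoin K {T} :=
        SetLike.ext fun y => Iff.rfl
      rw [h1, IntermediateField.adjoin.finrank hint, ← minpoly.eq_of_irreducible hirr hT,
        Polynomial.natDegree_mul_C (inv_ne_zero (Polynomial.leadingCoeff_ne_zero.mpr hirr.ne_zero)), hdeg]
    · exact IntermediateField.mem_adjoin_simple_self K T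
    · rw [← hev]; exact hT

theorem val_le {L Γ : Type*} [Field L] [LinearOrderedCommGroupWithZero Γ] (v : Valuation L Γ)
    (r X Z : L) (hr : v r ≤ 1) : v (X - r * Z) ≤ max (v X) (v Z) := by
  refine (v.map_sub _ _).trans (max_le_max le_rfl ?_)
  rw [map_mul]
  exact mul_le_of_le_one_left' hr

theorem val_max {L Γ : Type*} [Field L] [LinearOrderedCommGroupWithZero Γ] (v : Valuation L Γ)
    (r₀ r₁ r₂ r₃ X Z : L) (h0 : v r₀ ≤ 1) (h1 : v r₁ ≤ 1) (h2 : v r₂ ≤ 1) (h3 : v r₃ ≤ 1)
    (e1 : v (r₀ - r₁) = 1) (e2 : v (r₀ - r₂) = 1) (e3 : v (r₀ - r₃) = 1) :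
    max (v ((X - r₁ * Z) * (X - r₂ * Z) * (X - r₃ * Z))) (v (X - r₀ * Z) ^ 3)
      = max (v X) (v Z) ^ 3 := by
  have b0 := val_le v r₀ X Z h0
  have b1 := val_le v r₁ X Z h1
  have b2 := val_le v r₂ X Z h2
  have b3 := val_le v r₃ X Z h3
  apply le_antisymm
  · refine max_le ?_ (pow_le_pow_left' b0 3)
    rw [map_mul, map_mul, pow_succ, pow_two]
    exact mul_le_mul' (mul_le_mul' b1 b2) b3
  · rcases b0.eq_or_lt with hb | hb
    · rw [← hb]; exact le_max_right _ _
    · have hZ : v Z = max (v X) (v Z) := by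
        by_contra hne
        have hlt : v Z < max (v X) (v Z) := lt_of_le_of_ne (le_max_right _ _) hne
        have hX : max (v X) (v Z) = v X := by
          rcases max_choice (v X) (v Z) with h | h
          · exact h
          · rw [h] at hlt; exact absurd hlt (lt_irrefl _)
        rw [hX] at hlt hb
        have h4 : v (r₀ * Z) < v X := by
          rw [map_mul]
          exact (mul_le_of_le_one_left' h0).trans_lt hlt
        rw [v.map_sub_eq_of_lt_left h4] at hb
        exact lt_irrefl _ hb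
      have key : ∀ r : L, v (r₀ - r) = 1 → v (X - r * Z) = max (v X) (v Z) := by
        intro r hr
        have h5 : X - r * Z = (X - r₀ * Z) + (r₀ - r) * Z := by ring
        have h6 : v ((r₀ - r) * Z) = max (v X) (v Z) := by rw [map_mul, hr, one_mul, ← hZ]
        rw [h5, v.map_add_eq_of_lt_right (by rw [h6]; exact hb), h6]
      refine le_trans (le_of_eq ?_) (le_max_left _ _)
      rw [map_mul, map_mul, key _ e1, key _ e2, key _ e3, pow_succ, pow_two]

end TSlotC

open TSlotC in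
/-- The slot lemma for `l = 2`: with the map of degree three to the line. -/
theorem slotOK_two : SlotOK 2 3 3 := by
  intro F L _ _ _ _ _ _ t c₀ c₁ ht hc hd K hK x hx
  obtain ⟨s, hs⟩ := IsAlgClosed.exists_pow_nat_eq t (n := 2) (by norm_num)
  have hs0 : s ≠ 0 := by
    rintro rfl
    apply ht
    rw [← hs]; ring
  have hn1 : (c₀ + s) - (c₀ - s) ≠ 0 := by
    have : (c₀ + s) - (c₀ - s) = 2 * s := by ring
    rw [this]
    exact mul_ne_zero two_ne_zero hs0
  have hn2 : (c₀ + s) - (c₁ + s) ≠ 0 := by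
    have : (c₀ + s) - (c₁ + s) = c₀ - c₁ := by ring
    rw [this]
    exact sub_ne_zero.mpr hc
  have hn3 : (c₀ + s) - (c₁ - s) ≠ 0 := by
    intro h
    apply hd
    have h1 : c₀ - c₁ = -(2 * s) := by linear_combination h
    rw [h1, ← hs]; ring
  set φ := algebraMap F L with hφ
  have hfact : ∀ X Z : L, ev X Z (quar (φ t) (φ c₀) (φ c₁))
      = (X - φ (c₀ + s) * Z) * ((X - φ (c₀ - s) * Z) * (X - φ (c₁ + s) * Z) * (X - φ (c₁ - s) * Z)) := by
    intro X Z
    have h1 : φ t = φ s ^ 2 := by rw [← hs, map_pow]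
    unfold quar
    simp only [ev, map_mul, map_sub, map_pow, MvPolynomial.eval_X, MvPolynomial.eval_C,
      Matrix.cons_val_zero, Matrix.cons_val_one, map_add]
    rw [h1]
    ring
  have hv1 : ∀ V : ValuationSubring L, (∀ a : F, φ a ∈ V) → ∀ a : F, V.valuation (φ a) ≤ 1 := by
    intro V hV a
    exact (V.valuation_le_one_iff _).mpr (hV a)
  have hv2 : ∀ V : ValuationSubring L, (∀ a : F, φ a ∈ V) → ∀ a : F, a ≠ 0 →
      V.valuation (φ a) = 1 := by
    intro V hV a ha
    apply le_antisymm (hv1 V hV a)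
    have h1 := hv1 V hV a⁻¹
    rw [map_inv₀, map_inv₀] at h1
    have hne : V.valuation (φ a) ≠ 0 := by
      rw [Valuation.ne_zero_iff]
      exact (map_ne_zero φ).mpr ha
    exact (inv_le_one₀ (zero_lt_iff.mpr hne)).mp h1
  by_cases hx1 : x ^ 2 = 1
  · refine ⟨K, 1, 0, 1, x, le_rfl, Or.inl (Subfield.relfinrank_self K), K.one_mem, K.zero_mem, K.one_mem,
      hx, Or.inl one_ne_zero, one_ne_zero, ?_, ?_⟩
    · rw [hfact, hx1]; ring
    · intro V hV
      have h1 : V.valuation x = 1 := by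
        have h2 : V.valuation x ^ 2 = 1 := by rw [← map_pow, hx1, map_one]
        exact (pow_eq_one_iff_of_nonneg zero_le (by norm_num)).mp h2
      rw [h1, map_one, map_zero]
      simp
  · have ha0 : (1 : L) - x ^ 2 ≠ 0 := fun h => hx1 (sub_eq_zero.mp h).symm
    have m0 : φ (c₀ + s) ∈ K := hK _
    have m1 : φ (c₀ - s) ∈ K := hK _
    have m2 : φ (c₁ + s) ∈ K := hK _
    have m3 : φ (c₁ - s) ∈ K := hK _
    have m4 : (3 : L) ∈ K := by
      have := natCast_mem K 3
      exact_mod_cast this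
    set r₀ := φ (c₀ + s) with hr0
    set r₁ := φ (c₀ - s) with hr1
    set r₂ := φ (c₁ + s) with hr2
    set r₃ := φ (c₁ - s) with hr3
    obtain ⟨K', T, hle, hrk, hT, heq⟩ := cubic_root K (1 - x ^ 2) (-(r₁ + r₂ + r₃) + 3 * x ^ 2 * r₀)
      (r₁ * r₂ + r₁ * r₃ + r₂ * r₃ - 3 * x ^ 2 * r₀ ^ 2) (-(r₁ * r₂ * r₃) + x ^ 2 * r₀ ^ 3)
      (K.sub_mem K.one_mem (pow_mem hx 2))
      (K.add_mem (K.neg_mem (K.add_mem (K.add_mem m1 m2) m3)) (K.mul_mem (K.mul_mem m4 (pow_mem hx 2)) m0))
      (K.sub_mem (K.add_mem (K.add_mem (K.mul_mem m1 m2) (K.mul_mem m1 m3)) (K.mul_mem m2 m3))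
        (K.mul_mem (K.mul_mem m4 (pow_mem hx 2)) (pow_mem m0 2)))
      (K.add_mem (K.neg_mem (K.mul_mem (K.mul_mem m1 m2) m3)) (K.mul_mem (pow_mem hx 2) (pow_mem m0 3)))
      ha0
    have hG : (T - r₁ * 1) * (T - r₂ * 1) * (T - r₃ * 1) = x ^ 2 * (T - r₀ * 1) ^ 3 := by
      linear_combination heq
    have hne : ∀ a : F, a ≠ 0 → φ a ≠ 0 := fun a ha => (map_ne_zero φ).mpr ha
    have d1 : r₀ - r₁ = φ ((c₀ + s) - (c₀ - s)) := by rw [map_sub φ (c₀ + s)]
    have d2 : r₀ - r₂ = φ ((c₀ + s) - (c₁ + s)) := by rw [map_sub φ (c₀ + s)]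
    have d3 : r₀ - r₃ = φ ((c₀ + s) - (c₁ - s)) := by rw [map_sub φ (c₀ + s)]
    have hδ : T - r₀ * 1 ≠ 0 := by
      intro h
      rw [h] at hG
      have h2 : T = r₀ := by linear_combination h
      rw [h2] at hG
      have h3 : (r₀ - r₁) * (r₀ - r₂) * (r₀ - r₃) = 0 := by linear_combination hG
      rw [d1, d2, d3] at h3
      exact mul_ne_zero (mul_ne_zero (hne _ hn1) (hne _ hn2)) (hne _ hn3) h3
    have hδK : T - r₀ * 1 ∈ K' := K'.sub_mem hT (K'.mul_mem (hle m0) K'.one_mem)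
    refine ⟨K', T, 1, ((T - r₀ * 1) ^ 3)⁻¹, x * (T - r₀ * 1) ^ 2, hle, hrk, hT, K'.one_mem,
      K'.inv_mem (pow_mem hδK 3), K'.mul_mem (hle hx) (pow_mem hδK 2), Or.inr one_ne_zero,
      inv_ne_zero (pow_ne_zero 3 hδ), ?_, ?_⟩
    · rw [hfact, hG]; ring
    · intro V hV
      have hm := val_max V.valuation r₀ r₁ r₂ r₃ T 1 (hv1 V hV _) (hv1 V hV _) (hv1 V hV _) (hv1 V hV _)
        (by rw [d1]; exact hv2 V hV _ hn1) (by rw [d2]; exact hv2 V hV _ hn2)
        (by rw [d3]; exact hv2 V hV _ hn3)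
      rw [← hm, hG]
      have hvδ : V.valuation (T - r₀ * 1) ≠ 0 := (Valuation.ne_zero_iff _).mpr hδ
      have h5 : max (V.valuation x) 1 ^ 2 = max (V.valuation x ^ 2) 1 := by
        rcases le_total (V.valuation x) 1 with h | h
        · rw [max_eq_right h, max_eq_right (pow_le_one' h 2), one_pow]
        · rw [max_eq_left h, max_eq_left (one_le_pow_of_one_le' h 2)]
      rw [h5, map_mul, map_pow, map_inv₀, map_pow]
      set A := V.valuation (T - r₀ * 1) ^ 3 with hA
      have hA0 : A ≠ 0 := pow_ne_zero 3 hvδ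
      have h6 : max (V.valuation x ^ 2 * A) A = max (V.valuation x ^ 2) 1 * A := by
        rcases le_total (V.valuation x ^ 2) 1 with h | h
        · rw [max_eq_right h, one_mul, max_eq_right (mul_le_of_le_one_left' h)]
        · rw [max_eq_left h, max_eq_left (le_mul_of_one_le_left' h)]
      rw [h6, mul_comm (max (V.valuation x ^ 2) 1) A, inv_mul_cancel_left₀ hA0]

end Pool.Agent.DensDeg
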