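import Pool.Agent.DensDeg.TDefs

set_option autoImplicit false

namespace Pool.Agent.DensDeg

open Pool.Agent.MultiSpec

/-- Adjunction of a square root. -/
private lemma TSlotQ_sqrt {L : Type} [Field L] (K : Subfield L) (Y : L) (h : Y ^ 2 ∈ K) :
    ∃ K' : Subfield L, K ≤ K' ∧ (K.relfinrank K' = 1 ∨ K.relfinrank K' = 2) ∧ Y ∈ K' := by
  have hle : K ≤ (IntermediateField.adjoin K {Y}).toSubfield := by
    intro a ha
    exact (IntermediateField.adjoin K {Y}).algebraMap_mem (⟨a, ha⟩ : K)
  refine ⟨(IntermediateField.adjoin K {Y}).toSubfield, hle, ?_,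
    IntermediateField.mem_adjoin_simple_self K Y⟩
  set P : Polynomial K := Polynomial.X ^ 2 - Polynomial.C (⟨Y ^ 2, h⟩ : K) with hP
  have hPm : P.Monic := Polynomial.monic_X_pow_sub_C _ two_ne_zero
  have hPY : Polynomial.aeval Y P = 0 := by
    rw [hP, map_sub, map_pow, Polynomial.aeval_X, Polynomial.aeval_C]
    show Y ^ 2 - Y ^ 2 = 0
    exact sub_self _
  have hint : IsIntegral K Y := ⟨P, hPm, hPY⟩
  have hdeg : (minpoly K Y).natDegree ≤ 2 := by
    have h1 := Polynomial.natDegree_le_of_dvd (minpoly.dvd K Y hPY) hPm.ne_zero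
    rwa [hP, Polynomial.natDegree_X_pow_sub_C] at h1
  have hpos := minpoly.natDegree_pos hint
  have hfr : K.relfinrank (IntermediateField.adjoin K {Y}).toSubfield =
      (minpoly K Y).natDegree := by
    rw [Subfield.relfinrank_eq_finrank_of_le hle]
    have h2 : Subfield.extendScalars hle = IntermediateField.adjoin K {Y} := by
      apply IntermediateField.toSubfield_injective
      rfl
    rw [h2, IntermediateField.adjoin.finrank hint]
  rw [hfr]
  omega

/-- The slot lemma for odd `l`: `(X, Z) = (x, 1)`, `Y` a square root. -/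
theorem slotOK_one : SlotOK 1 1 2 := by
  intro F L _ _ _ _ _ _ t c₀ c₁ _ _ _ K hK x hx
  obtain ⟨Y, hY⟩ := IsAlgClosed.exists_pow_nat_eq
    (ev x 1 (quar (algebraMap F L t) (algebraMap F L c₀) (algebraMap F L c₁)))
    (n := 2) (by norm_num)
  have hmem : Y ^ 2 ∈ K := by
    rw [hY]
    have h1 : ev x 1 (quar (algebraMap F L t) (algebraMap F L c₀) (algebraMap F L c₁)) =
        ((x - algebraMap F L c₀) ^ 2 - algebraMap F L t) *
          ((x - algebraMap F L c₁) ^ 2 - algebraMap F L t) := by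
      simp [quar, ev]
    rw [h1]
    exact K.mul_mem (K.sub_mem (K.pow_mem (K.sub_mem hx (hK _)) 2) (hK _))
      (K.sub_mem (K.pow_mem (K.sub_mem hx (hK _)) 2) (hK _))
  obtain ⟨K', hle, hfr, hYK⟩ := TSlotQ_sqrt K Y hmem
  refine ⟨K', x, 1, 1, Y, hle, hfr, hle hx, K'.one_mem, K'.one_mem, hYK,
    Or.inr one_ne_zero, one_ne_zero, hY, ?_⟩
  intro V _
  rw [map_one, one_mul]

end Pool.Agent.DensDeg
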