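import Pool.Agent.DensDeg.TDefs
import Pool.Agent.MultiSpec.Lifts

/-!
Scaling of points.
-/

set_option autoImplicit false

namespace Pool.Agent.DensDeg

open Pool.Agent.MultiSpec

namespace TScaleAux

lemma max_mul_left' {Γ : Type*} [LinearOrderedCommGroupWithZero Γ] (a b c : Γ) :
    max (a * b) (a * c) = a * max b c := by
  rcases le_total b c with h | h
  · rw [max_eq_right h, max_eq_right (mul_le_mul' le_rfl h)]
  · rw [max_eq_left h, max_eq_left (mul_le_mul' le_rfl h)]

lemma prod_inv {Ω : Type} [Field Ω] {M mu : ℕ} (m : Fin M → Ω) (hm : ∀ j, m j ≠ 0) :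
    (∏ j, (m j)⁻¹ ^ mu) * ∏ j, m j ^ mu = 1 := by
  rw [← Finset.prod_mul_distrib]
  exact Finset.prod_eq_one fun j _ => by rw [← mul_pow, inv_mul_cancel₀ (hm j), one_pow]

end TScaleAux

open TScaleAux

/-- Scaling of the slots. -/
theorem TPt.scale {K₀ F Ω : Type} [Field F] [Field K₀] [Field Ω] [CharZero Ω] [Algebra F Ω]
    [Algebra K₀ Ω] {n M N : ℕ} (hN : 2 ≤ N) (hn : n < N) {D : Fin M → EDatum N n F}
    {e mu B : ℕ} {u v : Fin (n + 1) → Ω} {Lm : Ω} {x z : Fin M → Ω} {q : Fin M → LiftPt n Ω}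
    (h : TPt K₀ D e mu B u v Lm x z q) (m : Fin M → Ω) (hm : ∀ j, m j ≠ 0) :
    TPt K₀ D e mu B u v (Lm * ∏ j, (m j)⁻¹ ^ mu) (fun j => m j * x j) (fun j => m j * z j)
      (fun j => (q j).scale (m j)) := by
  have hprod := prod_inv (mu := mu) m hm
  refine ⟨h.hv, ?_, fun j => ?_, fun j => (h.hq j).scale hN hn (m j), fun V hV => ?_, fun ε => ?_⟩
  · exact mul_ne_zero h.hL (Finset.prod_ne_zero_iff.2 fun j _ => pow_ne_zero _ (inv_ne_zero (hm j)))
  · rcases h.hxz j with h1 | h1
    · exact Or.inl (mul_ne_zero (hm j) h1)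
    · exact Or.inr (mul_ne_zero (hm j) h1)
  · unfold HV
    rw [h.hval V hV]
    have h1 : ∀ j, max (V.valuation (m j * x j)) (V.valuation (m j * z j)) ^ mu =
        V.valuation (m j) ^ mu * max (V.valuation (x j)) (V.valuation (z j)) ^ mu := by
      intro j
      rw [map_mul, map_mul, ← mul_pow, max_mul_left']
    rw [Finset.prod_congr rfl fun j _ => h1 j, Finset.prod_mul_distrib, map_mul]
    have h2 : V.valuation (∏ j, (m j)⁻¹ ^ mu) * ∏ j, V.valuation (m j) ^ mu = 1 := by
      have h3 := congrArg V.valuation hprod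
      rw [map_mul, map_one, map_prod V.valuation (fun j => m j ^ mu)] at h3
      simp only [map_pow] at h3
      exact h3
    calc V.valuation Lm * ∏ j, max (V.valuation (x j)) (V.valuation (z j)) ^ mu
        = V.valuation Lm * (V.valuation (∏ j, (m j)⁻¹ ^ mu) * ∏ j, V.valuation (m j) ^ mu) *
          ∏ j, max (V.valuation (x j)) (V.valuation (z j)) ^ mu := by rw [h2, mul_one]
      _ = _ := by
        simp only [mul_assoc]
  · obtain ⟨P, h1, h2, h3⟩ := h.hdeg ε
    refine ⟨P, h1, h2, ?_⟩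
    have h4 : ∀ j, (if ε j then m j * x j else m j * z j) ^ mu =
        m j ^ mu * (if ε j then x j else z j) ^ mu := by
      intro j
      rw [← mul_pow]
      split_ifs <;> rfl
    have h5 : Lm * (∏ j, (m j)⁻¹ ^ mu) * ∏ j, (if ε j then m j * x j else m j * z j) ^ mu =
        Lm * ∏ j, (if ε j then x j else z j) ^ mu := by
      rw [Finset.prod_congr rfl fun j _ => h4 j, Finset.prod_mul_distrib]
      linear_combination (Lm * ∏ j, (if ε j then x j else z j) ^ mu) * hprod
    rw [h5]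
    exact h3

/-- The generic section does not depend on the scaling of the slots. -/
theorem WT_scale {Ω : Type} [Field Ω] {n M mu : ℕ} (hmu : 0 < mu) (c : TIdx n M → Ω)
    (v : Fin (n + 1) → Ω) (Lm : Ω) (x z : Fin M → Ω) (q : Fin M → LiftPt n Ω) (m : Fin M → Ω)
    (hm : ∀ j, m j ≠ 0) :
    WT mu c v (Lm * ∏ j, (m j)⁻¹ ^ mu) (fun j => m j * x j) (fun j => m j * z j)
      (fun j => (q j).scale (m j)) = WT mu c v Lm x z q := by
  have hprod := prod_inv (mu := mu) m hm
  unfold WT
  refine Finset.sum_congr rfl fun i _ => ?_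
  have h1 : ∀ j, (if i.2.1.2 j then m j * x j else m j * z j) ^ (mu - 1) *
      ((q j).scale (m j)).s i.1 (i.2.2 j) = m j ^ mu *
        ((if i.2.1.2 j then x j else z j) ^ (mu - 1) * (q j).s i.1 (i.2.2 j)) := by
    intro j
    have h2 : ((q j).scale (m j)).s i.1 (i.2.2 j) = m j * (q j).s i.1 (i.2.2 j) := rfl
    have h3 : (if i.2.1.2 j then m j * x j else m j * z j) =
        m j * (if i.2.1.2 j then x j else z j) := by
      split_ifs <;> rfl
    have h4 : m j ^ mu = m j ^ (mu - 1) * m j := by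
      rw [← pow_succ]; congr 1; omega
    rw [h2, h3, mul_pow, h4]
    ring
  rw [Finset.prod_congr rfl fun j _ => h1 j, Finset.prod_mul_distrib]
  linear_combination (c i * v i.2.1.1 * Lm *
    ∏ j, ((if i.2.1.2 j then x j else z j) ^ (mu - 1) * (q j).s i.1 (i.2.2 j))) * hprod

/-- Homogeneity of the generic section in `v`, `Lm`. -/
theorem WT_smul {Ω : Type} [Field Ω] {n M mu e : ℕ} (c : TIdx n M → Ω)
    (v : Fin (n + 1) → Ω) (Lm : Ω) (x z : Fin M → Ω) (q : Fin M → LiftPt n Ω) (a : Ω) :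
    WT mu c (fun i => a * v i) (a ^ e * Lm) x z q = a ^ (e + 1) * WT mu c v Lm x z q := by
  unfold WT
  rw [Finset.mul_sum]
  refine Finset.sum_congr rfl fun i _ => ?_
  ring

end Pool.Agent.DensDeg
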