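import Pool.Agent.DensDeg.TComp
import Pool.Agent.DensDeg.TScale
import Pool.Agent.MultiSpec.Root1

/-!
(II.4): a place of `L` maps a point over `u` to a point over the image of `u`.
-/

set_option autoImplicit false

namespace Pool.Agent.DensDeg

open Pool.Agent.MultiSpec

namespace TTransAux

lemma WT_map {R S : Type*} [CommRing R] [CommRing S] (φ : R →+* S) {n M mu : ℕ}
    (c : TIdx n M → R) (v : Fin (n + 1) → R) (Lm : R) (x z : Fin M → R)
    (q : Fin M → LiftPt n R) :
    φ (WT mu c v Lm x z q) = WT mu (fun i => φ (c i)) (fun i => φ (v i)) (φ Lm)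
      (fun j => φ (x j)) (fun j => φ (z j)) (fun j => (q j).map φ) := by
  unfold WT
  rw [map_sum]
  refine Finset.sum_congr rfl fun i _ => ?_
  rw [map_mul, map_mul, map_mul, map_prod]
  refine congrArg _ (congrArg _ (Finset.prod_congr rfl fun j _ => ?_))
  rw [map_mul, map_pow]
  have h1 : φ (if i.2.1.2 j then x j else z j) = if i.2.1.2 j then φ (x j) else φ (z j) := by
    split_ifs <;> rfl
  rw [h1]
  rfl

/-- The map of the coefficients of a polynomial along a map of generated subalgebras. -/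
lemma exists_polynomial {K₀ L Ω : Type} [Field K₀] [Field L] [Field Ω] [Algebra K₀ L]
    [Algebra K₀ Ω] {n B : ℕ} (O : ValuationSubring L) (φ : O →+* Ω)
    (hK : ∀ a : K₀, algebraMap K₀ L a ∈ O)
    (hφK : ∀ a : K₀, φ ⟨algebraMap K₀ L a, hK a⟩ = algebraMap K₀ Ω a) (v : Fin (n + 1) → O)
    (θ : O) (h : ∃ P : Polynomial (Algebra.adjoin K₀ (Set.range fun i => (v i : L))), P.Monic ∧
      P.natDegree ≤ B ∧ Polynomial.aeval (θ : L) P = 0) :
    ∃ P : Polynomial (Algebra.adjoin K₀ (Set.range fun i => φ (v i))), P.Monic ∧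
      P.natDegree ≤ B ∧ Polynomial.aeval (φ θ) P = 0 := by
  obtain ⟨P, h1, h2, h3⟩ := h
  have hmem : ∀ a ∈ Algebra.adjoin K₀ (Set.range fun i => (v i : L)), ∃ ha : a ∈ O,
      φ ⟨a, ha⟩ ∈ Algebra.adjoin K₀ (Set.range fun i => φ (v i)) := by
    intro a ha
    induction ha using Algebra.adjoin_induction with
    | mem a ha =>
      obtain ⟨i, rfl⟩ := ha
      exact ⟨(v i).2, Algebra.subset_adjoin ⟨i, rfl⟩⟩
    | algebraMap a =>
      refine ⟨hK a, ?_⟩
      rw [hφK]
      exact Subalgebra.algebraMap_mem _ a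
    | add a b _ _ iha ihb =>
      obtain ⟨ha, ha'⟩ := iha
      obtain ⟨hb, hb'⟩ := ihb
      refine ⟨O.add_mem _ _ ha hb, ?_⟩
      have e : φ ⟨a + b, O.add_mem _ _ ha hb⟩ = φ ⟨a, ha⟩ + φ ⟨b, hb⟩ := by
        rw [← map_add]
        rfl
      rw [e]
      exact add_mem ha' hb'
    | mul a b _ _ iha ihb =>
      obtain ⟨ha, ha'⟩ := iha
      obtain ⟨hb, hb'⟩ := ihb
      refine ⟨O.mul_mem _ _ ha hb, ?_⟩
      have e : φ ⟨a * b, O.mul_mem _ _ ha hb⟩ = φ ⟨a, ha⟩ * φ ⟨b, hb⟩ := by
        rw [← map_mul]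
        rfl
      rw [e]
      exact mul_mem ha' hb'
  let A := Algebra.adjoin K₀ (Set.range fun i => (v i : L))
  let τ₀ : A →+* O := A.val.toRingHom.codRestrict O.toSubring fun a => (hmem a.1 a.2).1
  let τ : A →+* Algebra.adjoin K₀ (Set.range fun i => φ (v i)) :=
    (φ.comp τ₀).codRestrict (Algebra.adjoin K₀ (Set.range fun i => φ (v i))).toSubring
      fun a => (hmem a.1 a.2).2
  refine ⟨P.map τ, h1.map τ, Polynomial.natDegree_map_le.trans h2, ?_⟩
  have h4 : Polynomial.eval₂ τ₀ θ P = 0 := by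
    apply Subtype.val_injective
    have h5 : ((Polynomial.eval₂ τ₀ θ P : O) : L) =
        Polynomial.eval₂ (O.subtype.comp τ₀) (θ : L) P :=
      Polynomial.hom_eval₂ P τ₀ O.subtype θ
    rw [h5]
    exact h3
  rw [Polynomial.aeval_def, Polynomial.eval₂_map]
  have h6 : (algebraMap (Algebra.adjoin K₀ (Set.range fun i => φ (v i))) Ω).comp τ =
      φ.comp τ₀ := rfl
  rw [h6, ← Polynomial.hom_eval₂, h4, map_zero]

end TTransAux

open TTransAux

/-- **Specialisation of points.** -/
theorem TPt.transport {F K₀ L Ω : Type} [Field F] [CharZero F] [Field K₀] [Field L] [Field Ω]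
    [Algebra F K₀] [Algebra F L] [Algebra K₀ L] [IsScalarTower F K₀ L] [Algebra F Ω]
    [Algebra K₀ Ω] [IsScalarTower F K₀ Ω] {n M N e mu B : ℕ} (hN : 2 ≤ N) (hn : n < N)
    (hmu : 0 < mu) {D : Fin M → EDatum N n F} {u v : Fin (n + 1) → L} {Lm : L}
    {x z : Fin M → L} {q : Fin M → LiftPt n L} (h : TPt K₀ D e mu B u v Lm x z q)
    (c : TIdx n M → K₀) (O : ValuationSubring L) (φ : O →+* Ω)
    (hφ : ∀ a : O, φ a = 0 ↔ ¬ IsUnit a) (hK : ∀ a : K₀, algebraMap K₀ L a ∈ O)
    (hφK : ∀ a : K₀, φ ⟨algebraMap K₀ L a, hK a⟩ = algebraMap K₀ Ω a) (hu : ∀ i, u i ∈ O)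
    (U : Fin (n + 1) → Ω) (hU : U ≠ 0) (hφu : ∀ i, φ ⟨u i, hu i⟩ = U i)
    (hW : WT mu (fun i => algebraMap K₀ L (c i)) v Lm x z q ∈ O) :
    ∃ (v' : Fin (n + 1) → Ω) (Lm' : Ω) (x' z' : Fin M → Ω) (q' : Fin M → LiftPt n Ω),
      TPt K₀ D e mu B U v' Lm' x' z' q' ∧
      φ ⟨_, hW⟩ = WT mu (fun i => algebraMap K₀ Ω (c i)) v' Lm' x' z' q' := by
  classical
  have hcL : CharZero L := charZero_of_injective_algebraMap (algebraMap F L).injective
  have hcΩ : CharZero Ω := charZero_of_injective_algebraMap (algebraMap F Ω).injective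
  -- the field `F` in `O`
  have hFO : ∀ a : F, algebraMap F L a ∈ O := by
    intro a
    rw [IsScalarTower.algebraMap_apply F K₀ L]
    exact hK _
  let χ : F →+* O := (algebraMap F L).codRestrict O.toSubring hFO
  have hφχ : φ.comp χ = algebraMap F Ω := by
    ext a
    rw [IsScalarTower.algebraMap_apply F K₀ Ω, ← hφK]
    change φ (χ a) = _
    congr 1
    apply Subtype.ext
    exact IsScalarTower.algebraMap_apply F K₀ L a
  -- the vector `v`
  have hvO : ∀ i, v i ∈ O := by
    intro i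
    rw [← ValuationSubring.valuation_le_one_iff]
    have h1 : O.valuation (v i) ^ (e + 1) ≤ 1 := by
      rw [← map_pow, h.hv i, ValuationSubring.valuation_le_one_iff]
      exact hu i
    exact (pow_le_one_iff (Nat.succ_ne_zero e)).1 h1
  let vO : Fin (n + 1) → O := fun i => ⟨v i, hvO i⟩
  have hφv : ∀ i, φ (vO i) ^ (e + 1) = U i := by
    intro i
    rw [← hφu i, ← map_pow]
    congr 1
    exact Subtype.ext (h.hv i)
  have hvunit : ∃ i, IsUnit (vO i) := by
    have h1 : ∃ i, U i ≠ 0 := by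
      by_contra hc
      push Not at hc
      exact hU (funext hc)
    obtain ⟨i, hi⟩ := h1
    refine ⟨i, ?_⟩
    by_contra hc
    have h2 := (hφ (vO i)).2 hc
    apply hi
    rw [← hφv i, h2, zero_pow (Nat.succ_ne_zero e)]
  -- the unimodular coordinates
  have hun := fun j => exists_unimodular O (x j) (z j) (h.hxz j)
  choose m hm0 hmx hmz hm1 using hun
  have hρ : ∀ j, (m j)⁻¹ ≠ 0 := fun j => inv_ne_zero (hm0 j)
  have h' := h.scale hN hn (fun j => (m j)⁻¹) hρ
  have hWT := WT_scale hmu (fun i => algebraMap K₀ L (c i)) v Lm x z q (fun j => (m j)⁻¹) hρ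
  set Lm₁ : L := Lm * ∏ j, ((m j)⁻¹)⁻¹ ^ mu with hLm₁
  let xO : Fin M → O := fun j => ⟨(m j)⁻¹ * x j, hmx j⟩
  let zO : Fin M → O := fun j => ⟨(m j)⁻¹ * z j, hmz j⟩
  have hxz1 : ∀ j, xO j = 1 ∨ zO j = 1 := by
    intro j
    rcases hm1 j with h1 | h1
    · exact Or.inl (Subtype.ext h1)
    · exact Or.inr (Subtype.ext h1)
  -- the scale factor is a unit
  have hval_unit : ∀ a : O, IsUnit a → O.valuation (a : L) = 1 := fun a ha =>
    (ValuationSubring.valuation_eq_one_iff O a).1 ha
  have hLval : O.valuation Lm₁ = 1 := by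
    have h1 : HV e mu O v Lm₁ (fun j => (m j)⁻¹ * x j) (fun j => (m j)⁻¹ * z j) :=
      h'.hval O hFO
    unfold HV at h1
    have h2 : vmax (fun i => O.valuation (v i)) = 1 := by
      obtain ⟨i, hi⟩ := hvunit
      apply le_antisymm
      · refine Finset.sup'_le _ _ fun i _ => ?_
        exact (ValuationSubring.valuation_le_one_iff _ _).2 (hvO i)
      · rw [← hval_unit (vO i) hi]
        exact Finset.le_sup' (fun i => O.valuation (v i)) (Finset.mem_univ i)
    have h3 : ∀ j, max (O.valuation ((m j)⁻¹ * x j)) (O.valuation ((m j)⁻¹ * z j)) ^ mu = 1 := by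
      intro j
      have h4 : max (O.valuation ((m j)⁻¹ * x j)) (O.valuation ((m j)⁻¹ * z j)) = 1 := by
        have hx1 := (ValuationSubring.valuation_le_one_iff O _).2 (hmx j)
        have hz1 := (ValuationSubring.valuation_le_one_iff O _).2 (hmz j)
        rcases hm1 j with h5 | h5
        · rw [h5, map_one] at hx1 ⊢
          exact max_eq_left hz1
        · rw [h5, map_one] at hz1 ⊢
          exact max_eq_right hx1
      rw [h4, one_pow]
    rw [h2, one_pow, Finset.prod_congr rfl fun j _ => h3 j, Finset.prod_const_one, mul_one] at h1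
    exact h1.symm
  have hLO : Lm₁ ∈ O := (ValuationSubring.valuation_le_one_iff _ _).1 hLval.le
  let LO : O := ⟨Lm₁, hLO⟩
  have hLunit : IsUnit LO := (ValuationSubring.valuation_eq_one_iff O LO).2 hLval
  -- the integral lifts
  have hcomp : ∀ j, ((D j).map χ).map (algebraMap O L) = (D j).map (algebraMap F L) := by
    intro j
    rw [EDatum.map_map]
    rfl
  have hint : ∀ j, ∃ q' : LiftPt n O,
      IsLift ((D j).map χ) (xO j) (zO j) q' ∧
      q'.map (algebraMap O L) = (q j).scale (m j)⁻¹ := by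
    intro j
    refine IsLift.integral (O := O) (F := L) Subtype.val_injective ?_ ?_ hN hn _ _ _ ?_ _ ?_
    · intro y hy
      obtain ⟨a, ha⟩ := IsIntegrallyClosed.isIntegral_iff.1 hy
      exact ⟨a, ha⟩
    · have h1 : IsUnit (2 : F) := isUnit_iff_ne_zero.2 two_ne_zero
      have h2 := h1.map χ
      rwa [map_ofNat] at h2
    · rcases hxz1 j with h1 | h1
      · exact ⟨1, 0, by rw [h1]; ring⟩
      · exact ⟨0, 1, by rw [h1]; ring⟩
    · rw [hcomp]
      exact h'.hq j
  choose qO hqO hqq using hint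
  refine ⟨fun i => φ (vO i), φ LO, fun j => φ (xO j), fun j => φ (zO j),
    fun j => (qO j).map φ, ⟨hφv, (hLunit.map φ).ne_zero, fun j => ?_, fun j => ?_, ?_, ?_⟩, ?_⟩
  · rcases hxz1 j with h1 | h1
    · left; rw [h1, map_one]; exact one_ne_zero
    · right; rw [h1, map_one]; exact one_ne_zero
  · have h1 := (hqO j).map φ
    rw [EDatum.map_map, hφχ] at h1
    exact h1
  · intro V hV
    obtain ⟨O', hO'⟩ := exists_comp O φ hφ V
    refine HV.comp O φ hφ V O' hO' vO LO xO zO hvunit hLunit (fun j => ?_) ?_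
    · rcases hxz1 j with h1 | h1
      · left; rw [h1]; exact isUnit_one
      · right; rw [h1]; exact isUnit_one
    · refine h'.hval O' fun a => ?_
      rw [hO']
      refine ⟨hFO a, ?_⟩
      have h1 : φ ⟨algebraMap F L a, hFO a⟩ = algebraMap F Ω a := by
        rw [← hφχ]
        rfl
      rw [h1]
      exact hV a
  · intro eps
    have h1 := h'.hdeg eps
    have h2 : Lm₁ * ∏ j, (if eps j then (m j)⁻¹ * x j else (m j)⁻¹ * z j) ^ mu =
        ((LO * ∏ j, (if eps j then xO j else zO j) ^ mu : O) : L) := by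
      have h3 := map_prod (O.subtype) (fun j => (if eps j then xO j else zO j) ^ mu) Finset.univ
      have h4 : ((∏ j, (if eps j then xO j else zO j) ^ mu : O) : L) =
          ∏ j, (if eps j then (m j)⁻¹ * x j else (m j)⁻¹ * z j) ^ mu := by
        rw [show ((∏ j, (if eps j then xO j else zO j) ^ mu : O) : L) =
          O.subtype (∏ j, (if eps j then xO j else zO j) ^ mu) from rfl, h3]
        refine Finset.prod_congr rfl fun j _ => ?_
        rw [map_pow]
        congr 1
        split_ifs <;> rfl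
      rw [← h4]
      rfl
    rw [h2] at h1
    have h5 := exists_polynomial O φ hK hφK vO _ h1
    have h6 : φ (LO * ∏ j, (if eps j then xO j else zO j) ^ mu) =
        φ LO * ∏ j, (if eps j then φ (xO j) else φ (zO j)) ^ mu := by
      rw [map_mul, map_prod]
      refine congrArg _ (Finset.prod_congr rfl fun j _ => ?_)
      rw [map_pow]
      congr 1
      split_ifs <;> rfl
    rw [h6] at h5
    exact h5
  · let cO : TIdx n M → O := fun i => ⟨algebraMap K₀ L (c i), hK (c i)⟩
    have h1 : (⟨_, hW⟩ : O) = WT mu cO vO LO xO zO qO := by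
      apply Subtype.ext
      change WT mu (fun i => algebraMap K₀ L (c i)) v Lm x z q =
        algebraMap O L (WT mu cO vO LO xO zO qO)
      rw [WT_map, ← hWT]
      have h2 : (fun j => (qO j).map (algebraMap O L)) = fun j => (q j).scale (m j)⁻¹ :=
        funext hqq
      rw [h2]
      rfl
    rw [h1, WT_map]
    have h3 : (fun i => φ (cO i)) = fun i => algebraMap K₀ Ω (c i) := funext fun i => hφK (c i)
    rw [h3]

end Pool.Agent.DensDeg
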