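import Pool.Agent.DensDeg.TGen
import Pool.Agent.DensDeg.TTrans
import Pool.Agent.DensDeg.TFormB
import Pool.Agent.DensDeg.TSlotQ
import Pool.Agent.DensDeg.TSlotC

/-!
The block forms.
-/

set_option autoImplicit false

namespace Pool.Agent.DensDeg

open Pool.Agent.MultiSpec

private lemma tBlock_betaT_pos (n l e Dg M : ℕ) {b : ℕ} (hb : 0 < b) :
    0 < betaT n l e Dg M b := by
  unfold betaT
  have h : 0 < ∏ i ∈ (Finset.Icc 1 Dg).filter (fun i => i.Coprime l), i := by
    refine Finset.prod_pos fun i hi => ?_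
    have := (Finset.mem_Icc.1 (Finset.mem_filter.1 hi).1).1
    omega
  positivity

private lemma tBlock_betaT_coprime {n l e Dg M b : ℕ} (he : l ∣ e) (hb : b.Coprime l) :
    (betaT n l e Dg M b).Coprime l := by
  unfold betaT
  refine Nat.Coprime.mul_left (Nat.Coprime.mul_left ?_ ?_) ?_
  · refine Nat.Coprime.pow_left _ ?_
    obtain ⟨k, rfl⟩ := he
    simp
  · exact Nat.Coprime.prod_left fun i hi => (Finset.mem_filter.1 hi).2
  · exact Nat.Coprime.pow_left _ hb

/-- Block forms from a decomposition and a slot lemma. -/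
theorem hasTBlock_of {n l e M Dg a mu b : ℕ} (hdec : HasDecomp n l e M Dg)
    (hslot : SlotOK a mu b) (he : 0 < e) (ha : 0 < a) (hmu : 0 < mu) (hb : 0 < b) :
    HasTBlock n M (a * e) mu (Dg * b ^ M) (betaT n l (a * e) Dg M b) := by
  intro F K₀ _ _ _ _ _ _ N hN hn D hD c
  have : CharZero K₀ := charZero_of_injective_algebraMap (algebraMap F K₀).injective
  obtain ⟨L, iL1, iL2, iL3, iL4, iL5, u, v, Lm, x, z, q, hu, halg, hT, hW, hdvd⟩ :=
    exists_gen hdec hslot he ha hmu hb F K₀ hN hn D hD c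
  have hD' : 0 < betaT n l (a * e) Dg M b * N :=
    Nat.mul_pos (tBlock_betaT_pos n l (a * e) Dg M hb) (by omega)
  obtain ⟨G, hG1, hG2, hG3⟩ := exists_form u hu halg _ hW _ hD' hdvd
  refine ⟨G, hG1, hG2, ?_⟩
  intro Ω _ _ _ _ _ U w hU hw
  obtain ⟨O, φ, hK, huO, hWO, hφ, hφK, hφu, hφW⟩ := hG3 Ω U w hw
  obtain ⟨v', Lm', x', z', q', hT', hW'⟩ :=
    hT.transport hN hn hmu c O φ hφ hK hφK huO U hU hφu hWO
  exact ⟨v', Lm', x', z', q', hT', hφW.symm.trans hW'⟩

/-- **Block forms** of multiplicity prime to `l`. -/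
theorem exists_tblock {n l e M Dg : ℕ} (hl : l.Prime) (he : 0 < e) (hle : l ∣ e)
    (hDg : 0 < Dg) (hdec : HasDecomp n l e M Dg) :
    ∃ e' mu B β : ℕ, 0 < e' ∧ 0 < mu ∧ 0 < B ∧ 0 < β ∧ β.Coprime l ∧
      HasTBlock n M e' mu B β := by
  by_cases h2 : l = 2
  · refine ⟨2 * e, 3, Dg * 3 ^ M, betaT n l (2 * e) Dg M 3, by omega, by norm_num,
      by positivity, tBlock_betaT_pos _ _ _ _ _ (by norm_num), ?_,
      hasTBlock_of hdec slotOK_two he (by norm_num) (by norm_num) (by norm_num)⟩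
    refine tBlock_betaT_coprime (hle.mul_left 2) ?_
    rw [h2]
    norm_num
  · refine ⟨1 * e, 1, Dg * 2 ^ M, betaT n l (1 * e) Dg M 2, by omega, by norm_num,
      by positivity, tBlock_betaT_pos _ _ _ _ _ (by norm_num), ?_,
      hasTBlock_of hdec slotOK_one he (by norm_num) (by norm_num) (by norm_num)⟩
    refine tBlock_betaT_coprime (hle.mul_left 1) ?_
    exact (Nat.coprime_primes Nat.prime_two hl).2 (fun h => h2 h.symm)

end Pool.Agent.DensDeg
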