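import Pool.Agent.DensDeg.TAcl
import Pool.Agent.DensDeg.TScale
import Pool.Agent.CurveDeg.Kummer

/-!
(III.4): if the generic section takes a value in `E` and some slot is nonconstant then the product
of the roots of unity by which an automorphism acts on the lifts has order at most `n`.
-/

set_option autoImplicit false

namespace Pool.Agent.DensDeg

open Pool.Agent.MultiSpec

private lemma TClaim_vmax_mul {ι Γ : Type*} [Fintype ι] [Nonempty ι]
    [LinearOrderedCommGroupWithZero Γ] (a : Γ) (f : ι → Γ) :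
    vmax (fun i => a * f i) = a * vmax f := by
  unfold vmax
  have h := Finset.comp_sup'_eq_sup'_comp (s := (Finset.univ : Finset ι)) Finset.univ_nonempty
    (f := f) (fun x : Γ => a * x) (by
      intro x y
      have hm : Monotone (fun x : Γ => a * x) := fun x y h => by
        change a * x ≤ a * y
        gcongr
      exact hm.map_max)
  rw [h]
  rfl

/-- Scaling of the value relation. -/
private lemma TClaim_HV {Ω : Type} [Field Ω] {n M e mu : ℕ} (V : ValuationSubring Ω)
    (v : Fin (n + 1) → Ω) (Lm : Ω) (x z : Fin M → Ω) (h : HV e mu V v Lm x z) (a : Ω)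
    (m : Fin M → Ω) (hm : ∀ j, m j ≠ 0) :
    HV e mu V (fun i => a * v i) (a ^ e * Lm * ∏ j, (m j)⁻¹ ^ mu) (fun j => m j * x j)
      (fun j => m j * z j) := by
  unfold HV at h ⊢
  have h1 : vmax (fun i => V.valuation (a * v i)) = V.valuation a * vmax (fun i => V.valuation (v i)) := by
    simp only [map_mul]
    exact TClaim_vmax_mul _ _
  rw [h1, mul_pow, h, map_mul, map_mul, map_pow, map_prod]
  have h2 : ∀ j, max (V.valuation (m j * x j)) (V.valuation (m j * z j)) =
      V.valuation (m j) * max (V.valuation (x j)) (V.valuation (z j)) := by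
    intro j
    rw [map_mul, map_mul]
    have hmon : Monotone (fun y => V.valuation (m j) * y) := fun x y h => by
      change V.valuation (m j) * x ≤ V.valuation (m j) * y
      gcongr
    exact (hmon.map_max).symm
  simp only [h2, mul_pow, map_pow, map_inv₀, Finset.prod_mul_distrib, Finset.prod_inv_distrib,
    inv_pow]
  have h3 : ∏ j, V.valuation (m j) ^ mu ≠ 0 := by
    refine Finset.prod_ne_zero_iff.2 fun j _ => pow_ne_zero _ ?_
    exact (Valuation.ne_zero_iff _).2 (hm j)
  rw [mul_assoc, mul_assoc, inv_mul_cancel_left₀ h3]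

private lemma TClaim_dist {Ω : Type} [Field Ω] {n : ℕ} {η : Ω} (hη : η ≠ 0)
    (hne : η ^ Nat.factorial n ≠ 1) {i j : ℕ} (hi : i ≤ n) (hj : j ≤ n) (h : η ^ i = η ^ j) :
    i = j := by
  have key : ∀ i j : ℕ, j ≤ n → i < j → η ^ i ≠ η ^ j := by
    intro i j hj hij h
    have h1 : η ^ j = η ^ i * η ^ (j - i) := by
      rw [← pow_add]; congr 1; omega
    rw [h1] at h
    have h2 : η ^ (j - i) = 1 := by
      have h3 : η ^ i * η ^ (j - i) = η ^ i * 1 := by rw [mul_one]; exact h.symm
      exact mul_left_cancel₀ (pow_ne_zero i hη) h3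
    obtain ⟨k, hk⟩ := Nat.dvd_factorial (show 0 < j - i by omega) (show j - i ≤ n by omega)
    apply hne
    rw [hk, pow_mul, h2, one_pow]
  rcases lt_trichotomy i j with h1 | h1 | h1
  · exact absurd h (key i j hj h1)
  · exact h1
  · exact absurd h.symm (key j i hi h1)

/-- **The claim.** -/
theorem claimT {F K₀ E Ω : Type} [Field F] [Field K₀] [IsAlgClosed K₀] [Field E]
    [Field Ω] [CharZero Ω] [Algebra F K₀] [Algebra F E] [Algebra F Ω] [Algebra K₀ E]
    [Algebra K₀ Ω] [Algebra E Ω] [IsScalarTower F K₀ E] [IsScalarTower F K₀ Ω]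
    [IsScalarTower K₀ E Ω] {n M N e mu : ℕ} (hN : 2 ≤ N) (hnN : n < N) (hmu : 0 < mu)
    (D : Fin M → EDatum N n F) (c : TIdx n M → K₀) (hc : AlgebraicIndependent F c)
    (v : Fin (n + 1) → E) (hv : v ≠ 0) (Lm : E) (hL : Lm ≠ 0) (x z : Fin M → E)
    (hxz : ∀ j, x j ≠ 0 ∨ z j ≠ 0) (q : Fin M → LiftPt n Ω)
    (hq : ∀ j, IsLift ((D j).map (algebraMap F Ω)) (algebraMap E Ω (x j))
      (algebraMap E Ω (z j)) (q j))
    (hbpf : ∀ j l, ∃ i, (q j).s l i ≠ 0)
    (hval : ∀ V : ValuationSubring Ω, (∀ a : F, algebraMap F Ω a ∈ V) →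
      HV e mu V (fun i => algebraMap E Ω (v i)) (algebraMap E Ω Lm)
        (fun j => algebraMap E Ω (x j)) (fun j => algebraMap E Ω (z j)))
    (j₀ : Fin M) (ξ : E) (hξ : Transcendental K₀ ξ) (hx₀ : x j₀ = ξ * z j₀)
    (hz₀ : z j₀ ≠ 0)
    (hw : WT mu (fun i => algebraMap K₀ Ω (c i)) (fun i => algebraMap E Ω (v i))
      (algebraMap E Ω Lm) (fun j => algebraMap E Ω (x j)) (fun j => algebraMap E Ω (z j)) q ∈
        Set.range (algebraMap E Ω))
    (σ : Ω ≃ₐ[E] Ω) (ω : Fin M → Ω) (hω : ∀ j, ω j ^ N = 1)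
    (hs : ∀ j l i, σ ((q j).s l i) = ω j ^ (l.val + 1) * (q j).s l i) :
    (∏ j, ω j) ^ Nat.factorial n = 1 := by
  classical
  by_contra hne
  have hN0 : 0 < N := by omega
  have hinj : Function.Injective (algebraMap E Ω) := (algebraMap E Ω).injective
  -- the automorphism fixes the constants and the roots of unity
  have hσK : ∀ a : K₀, σ (algebraMap K₀ Ω a) = algebraMap K₀ Ω a := by
    intro a
    rw [IsScalarTower.algebraMap_apply K₀ E Ω]
    exact σ.commutes _
  have hωK : ∀ i, σ (ω i) = ω i := by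
    intro i
    have h1 : IsAlgebraic K₀ (ω i) := by
      apply IsAlgebraic.of_pow hN0
      rw [hω i]
      exact isAlgebraic_one
    obtain ⟨b, hb⟩ := CurveDeg.mem_range_of_isAlgebraic h1
    rw [← hb]
    exact hσK b
  set η : Ω := ∏ i, ω i with hηdef
  have hση : σ η = η := by
    rw [hηdef, map_prod]
    exact Finset.prod_congr rfl fun i _ => hωK i
  have hη0 : η ≠ 0 := by
    rw [hηdef]
    refine Finset.prod_ne_zero_iff.2 fun i _ h => ?_
    have := hω i
    rw [h, zero_pow hN0.ne'] at this
    exact zero_ne_one this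
  -- the part of character `k + 1`
  let ck : Fin n → TIdx n M → Ω := fun k i => if i.1 = k then algebraMap K₀ Ω (c i) else 0
  let T : Fin n → Ω := fun k => WT mu (ck k) (fun i => algebraMap E Ω (v i))
      (algebraMap E Ω Lm) (fun j => algebraMap E Ω (x j)) (fun j => algebraMap E Ω (z j)) q
  have hσT : ∀ k, σ (T k) = η ^ (k.val + 1) * T k := by
    intro k
    simp only [T, WT]
    rw [map_sum, Finset.mul_sum]
    refine Finset.sum_congr rfl fun i _ => ?_
    by_cases hik : i.1 = k
    · have h1 : ck k i = algebraMap K₀ Ω (c i) := if_pos hik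
      rw [h1, map_mul, hσK, map_mul, map_mul, σ.commutes, σ.commutes, map_prod]
      have h2 : ∏ j, σ ((if i.2.1.2 j then algebraMap E Ω (x j) else algebraMap E Ω (z j)) ^ (mu - 1) *
            (q j).s i.1 (i.2.2 j)) = η ^ (k.val + 1) *
          ∏ j, ((if i.2.1.2 j then algebraMap E Ω (x j) else algebraMap E Ω (z j)) ^ (mu - 1) *
            (q j).s i.1 (i.2.2 j)) := by
        rw [hηdef, ← Finset.prod_pow, ← Finset.prod_mul_distrib]
        refine Finset.prod_congr rfl fun j _ => ?_
        rw [map_mul, map_pow, hs, hik]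
        have h3 : σ (if i.2.1.2 j then algebraMap E Ω (x j) else algebraMap E Ω (z j)) =
            (if i.2.1.2 j then algebraMap E Ω (x j) else algebraMap E Ω (z j)) := by
          split_ifs
          · exact σ.commutes _
          · exact σ.commutes _
        rw [h3]
        ring
      rw [h2]
      ring
    · have h1 : ck k i = 0 := if_neg hik
      rw [h1, zero_mul, map_zero, mul_zero]
  have hiter : ∀ (m : ℕ) (l : Fin n), (σ : Ω → Ω)^[m] (T l) = (η ^ (l.val + 1)) ^ m * T l := by
    intro m l
    induction m with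
    | zero => simp
    | succ m ih =>
      rw [Function.iterate_succ_apply', ih, map_mul, map_pow, map_pow, hση, hσT]
      ring
  obtain ⟨w, hw⟩ := hw
  have hiterW : ∀ m : ℕ, (σ : Ω → Ω)^[m] (algebraMap E Ω w) = algebraMap E Ω w := by
    intro m
    induction m with
    | zero => rfl
    | succ m ih => rw [Function.iterate_succ_apply', ih]; exact σ.commutes _
  have hitersum : ∀ (m : ℕ) (f : Fin n → Ω),
      (σ : Ω → Ω)^[m] (∑ l, f l) = ∑ l, (σ : Ω → Ω)^[m] (f l) := by
    intro m
    induction m with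
    | zero => intro f; rfl
    | succ m ih =>
      intro f
      rw [Function.iterate_succ_apply', ih, map_sum]
      exact Finset.sum_congr rfl fun l _ => (Function.iterate_succ_apply' _ _ _).symm
  have hWT : WT mu (fun i => algebraMap K₀ Ω (c i)) (fun i => algebraMap E Ω (v i))
      (algebraMap E Ω Lm) (fun j => algebraMap E Ω (x j)) (fun j => algebraMap E Ω (z j)) q =
      ∑ l, T l := by
    simp only [T, WT]
    rw [Finset.sum_comm]
    refine Finset.sum_congr rfl fun i _ => ?_
    rw [← Finset.sum_mul]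
    congr 1
    simp only [ck]
    rw [Finset.sum_ite_eq]
    simp
  have hsum : ∀ m : ℕ, ∑ l : Fin n, (η ^ (l.val + 1)) ^ m * T l = algebraMap E Ω w := by
    intro m
    rw [← hiterW m, hw, hWT, hitersum]
    exact Finset.sum_congr rfl fun l _ => (hiter m l).symm
  have hT0 : ∀ l, T l = 0 := by
    intro l
    have hl := l.isLt
    have h1 := CurveDeg.sum_fiber_eq_zero Finset.univ (fun l : Fin n => η ^ (l.val + 1)) T
      (algebraMap E Ω w) hsum (η ^ (l.val + 1)) (by
        intro h
        have := TClaim_dist hη0 hne (show l.val + 1 ≤ n by omega) (Nat.zero_le n)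
          (by rw [h, pow_zero])
        omega)
    have h2 : (Finset.univ.filter fun m : Fin n => η ^ (m.val + 1) = η ^ (l.val + 1)) = {l} := by
      ext m
      simp only [Finset.mem_filter, Finset.mem_univ, true_and, Finset.mem_singleton]
      constructor
      · intro h
        have hm := m.isLt
        have := TClaim_dist hη0 hne (show m.val + 1 ≤ n by omega) (show l.val + 1 ≤ n by omega) h
        exact Fin.ext (by omega)
      · rintro rfl; rfl
    rw [h2, Finset.sum_singleton] at h1
    exact h1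
  -- scaling
  obtain ⟨k₀, hk₀⟩ : ∃ k, v k ≠ 0 := by
    by_contra h
    push Not at h
    exact hv (funext h)
  let a : Ω := (algebraMap E Ω (v k₀))⁻¹
  have hk₀' : algebraMap E Ω (v k₀) ≠ 0 := (map_ne_zero _).2 hk₀
  have ha : a ≠ 0 := inv_ne_zero hk₀'
  let m : Fin M → Ω := fun j => if z j ≠ 0 then (algebraMap E Ω (z j))⁻¹ else (algebraMap E Ω (x j))⁻¹
  have hm : ∀ j, m j ≠ 0 := by
    intro j
    simp only [m]
    split_ifs with h
    · exact inv_ne_zero ((map_ne_zero _).2 h)
    · exact inv_ne_zero ((map_ne_zero _).2 ((hxz j).resolve_right h))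
  let v' : Fin (n + 1) → Ω := fun i => a * algebraMap E Ω (v i)
  let L' : Ω := a ^ e * algebraMap E Ω Lm * ∏ j, (m j)⁻¹ ^ mu
  let x' : Fin M → Ω := fun j => m j * algebraMap E Ω (x j)
  let z' : Fin M → Ω := fun j => m j * algebraMap E Ω (z j)
  let q' : Fin M → LiftPt n Ω := fun j => (q j).scale (m j)
  have hL' : L' ≠ 0 := by
    refine mul_ne_zero (mul_ne_zero (pow_ne_zero _ ha) ((map_ne_zero _).2 hL)) ?_
    exact Finset.prod_ne_zero_iff.2 fun j _ => pow_ne_zero _ (inv_ne_zero (hm j))
  have hone : ∀ j, x' j = 1 ∨ z' j = 1 := by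
    intro j
    simp only [x', z', m]
    split_ifs with h
    · right
      exact inv_mul_cancel₀ ((map_ne_zero _).2 h)
    · left
      exact inv_mul_cancel₀ ((map_ne_zero _).2 ((hxz j).resolve_right h))
  have hT'0 : ∀ k, WT mu (ck k) v' L' x' z' q' = 0 := by
    intro k
    have h1 := WT_scale hmu (ck k) v' (a ^ e * algebraMap E Ω Lm) (fun j => algebraMap E Ω (x j))
      (fun j => algebraMap E Ω (z j)) q m hm
    have h2 := WT_smul (mu := mu) (e := e) (ck k) (fun i => algebraMap E Ω (v i))
      (algebraMap E Ω Lm) (fun j => algebraMap E Ω (x j)) (fun j => algebraMap E Ω (z j)) q a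
    have h3 : WT mu (ck k) v' L' x' z' q' = a ^ (e + 1) * T k := h1.trans h2
    rw [h3, hT0 k, mul_zero]
  -- the counting argument
  let Y : Finset Ω := (Finset.univ.erase k₀).image v'
  have hYcard : Y.card ≤ n := by
    refine Finset.card_image_le.trans ?_
    rw [Finset.card_erase_of_mem (Finset.mem_univ _), Finset.card_univ, Fintype.card_fin]
    omega
  have hv'1 : v' k₀ = 1 := inv_mul_cancel₀ hk₀'
  have hv'Y : ∀ i, v' i ∈ acl F (Y : Set Ω) := by
    intro i
    by_cases hi : i = k₀
    · rw [hi, hv'1]; exact (acl F (Y : Set Ω)).one_mem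
    · apply Count_subset_acl
      exact Finset.mem_coe.2 (Finset.mem_image_of_mem _ (Finset.mem_erase.2 ⟨hi, Finset.mem_univ _⟩))
  have hv'0 : v' ≠ 0 := by
    intro h
    have := congrFun h k₀
    rw [hv'1] at this
    exact one_ne_zero this
  obtain ⟨hLY, hxY, hzY⟩ := slots_mem_acl hmu v' (Y : Set Ω) hv'Y hv'0 L' hL' x' z' hone
    (fun V hV => TClaim_HV V _ _ _ _ (hval V hV) a m hm)
  have hnz : ∀ j, x' j ≠ 0 ∨ z' j ≠ 0 := by
    intro j
    rcases hone j with h | h
    · left; rw [h]; exact one_ne_zero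
    · right; rw [h]; exact one_ne_zero
  have hsY : ∀ j l i, (q' j).s l i ∈ acl F (Y : Set Ω) := fun j l i =>
    lift_mem_acl hnN (D j) (hxY j) (hzY j) (hnz j) ((hq j).scale hN hnN (m j)) l i
  have hξY : algebraMap E Ω ξ ∈ acl F (Y : Set Ω) := by
    have h1 : algebraMap E Ω ξ = x' j₀ * (z' j₀)⁻¹ := by
      have hz : algebraMap E Ω (z j₀) ≠ 0 := (map_ne_zero _).2 hz₀
      simp only [x', z']
      rw [hx₀, map_mul]
      have := hm j₀
      field_simp
    rw [h1]
    exact (acl F (Y : Set Ω)).mul_mem (hxY j₀) ((acl F (Y : Set Ω)).inv_mem (hzY j₀))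
  have htr : Transcendental K₀ (algebraMap E Ω ξ) := by
    intro h
    exact hξ ((isAlgebraic_algebraMap_iff hinj).1 h)
  let tm : TIdx n M → Ω := fun i => v' i.2.1.1 * L' *
    ∏ j, ((if i.2.1.2 j then x' j else z' j) ^ (mu - 1) * (q' j).s i.1 (i.2.2 j))
  let Dm : Fin n → TIdx n M → Ω := fun k i => if i.1 = k then tm i else 0
  have htmY : ∀ i, tm i ∈ acl F (Y : Set Ω) := by
    intro i
    refine (acl F (Y : Set Ω)).mul_mem ((acl F (Y : Set Ω)).mul_mem (hv'Y _) hLY) ?_
    refine (acl F (Y : Set Ω)).prod_mem fun j _ => ?_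
    refine (acl F (Y : Set Ω)).mul_mem ((acl F (Y : Set Ω)).pow_mem ?_ _) (hsY _ _ _)
    split_ifs
    · exact hxY j
    · exact hzY j
  refine not_of_count (F := F) (K₀ := K₀) c hc (algebraMap E Ω ξ) htr Y hYcard hξY Dm ?_ ?_ ?_
  · rw [Fintype.linearIndependent_iff]
    intro g hg k
    choose i hi using fun j => hbpf j k
    let b : Fin M → Bool := fun j => decide (x' j ≠ 0)
    have h1 := congrFun hg (k, (k₀, b), i)
    simp only [Finset.sum_apply, Pi.smul_apply, smul_eq_mul, Pi.zero_apply] at h1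
    rw [Finset.sum_eq_single k] at h1
    · have h2 : Dm k (k, (k₀, b), i) = tm (k, (k₀, b), i) := if_pos rfl
      rw [h2] at h1
      refine (mul_eq_zero.1 h1).resolve_right ?_
      simp only [tm]
      refine mul_ne_zero (mul_ne_zero (by rw [hv'1]; exact one_ne_zero) hL') ?_
      refine Finset.prod_ne_zero_iff.2 fun j _ => mul_ne_zero (pow_ne_zero _ ?_) ?_
      · change (if b j = true then x' j else z' j) ≠ 0
        by_cases hx : x' j = 0
        · have hb : b j = false := by simp [b, hx]
          rw [if_neg (by rw [hb]; exact Bool.false_ne_true)]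
          exact (hnz j).resolve_left (not_not.2 hx)
        · have hb : b j = true := by simp [b, hx]
          rw [if_pos hb]
          exact hx
      · exact mul_ne_zero (hm j) (hi j)
    · intro b' _ hb'
      have : Dm b' (k, (k₀, b), i) = 0 := if_neg (by simpa using hb'.symm)
      rw [this, mul_zero]
    · intro h; exact absurd (Finset.mem_univ k) h
  · intro k i
    by_cases h : i.1 = k
    · have : Dm k i = tm i := if_pos h
      rw [this]; exact htmY i
    · have : Dm k i = 0 := if_neg h
      rw [this]; exact (acl F (Y : Set Ω)).zero_mem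
  · intro k
    rw [← hT'0 k]
    unfold WT
    refine Finset.sum_congr rfl fun i _ => ?_
    by_cases h : i.1 = k
    · have h1 : Dm k i = tm i := if_pos h
      have h2 : ck k i = algebraMap K₀ Ω (c i) := if_pos h
      rw [h1, h2, mul_comm]
    · have h1 : Dm k i = 0 := if_neg h
      have h2 : ck k i = 0 := if_neg h
      rw [h1, h2, zero_mul, zero_mul]

end Pool.Agent.DensDeg
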