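import Pool.Agent.DensDeg.TDefs

/-!
Composite valuation rings: the value relation passes from a valuation ring of `L` to the residue
field of a place.
-/

set_option autoImplicit false

namespace Pool.Agent.DensDeg

/-- The composite of a place and a valuation ring. -/
theorem exists_comp {L Ω : Type} [Field L] [Field Ω] (O : ValuationSubring L) (φ : O →+* Ω)
    (hφ : ∀ a : O, φ a = 0 ↔ ¬ IsUnit a) (V : ValuationSubring Ω) :
    ∃ O' : ValuationSubring L, ∀ a : L, a ∈ O' ↔ ∃ h : a ∈ O, φ ⟨a, h⟩ ∈ V := by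
  refine ⟨{ carrier := {a : L | ∃ h : a ∈ O, φ ⟨a, h⟩ ∈ V}
            mul_mem' := ?_
            one_mem' := ?_
            add_mem' := ?_
            zero_mem' := ?_
            neg_mem' := ?_
            mem_or_inv_mem' := ?_ }, fun a => Iff.rfl⟩
  · rintro a b ⟨ha, ha'⟩ ⟨hb, hb'⟩
    refine ⟨O.mul_mem _ _ ha hb, ?_⟩
    have e : φ ⟨a * b, O.mul_mem _ _ ha hb⟩ = φ ⟨a, ha⟩ * φ ⟨b, hb⟩ := by
      rw [← map_mul]
      rfl
    rw [e]
    exact V.mul_mem _ _ ha' hb'
  · refine ⟨O.one_mem, ?_⟩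
    have e : φ ⟨1, O.one_mem⟩ = 1 := map_one φ
    rw [e]
    exact V.one_mem
  · rintro a b ⟨ha, ha'⟩ ⟨hb, hb'⟩
    refine ⟨O.add_mem _ _ ha hb, ?_⟩
    have e : φ ⟨a + b, O.add_mem _ _ ha hb⟩ = φ ⟨a, ha⟩ + φ ⟨b, hb⟩ := by
      rw [← map_add]
      rfl
    rw [e]
    exact V.add_mem _ _ ha' hb'
  · refine ⟨O.zero_mem, ?_⟩
    have e : φ ⟨0, O.zero_mem⟩ = 0 := map_zero φ
    rw [e]
    exact V.zero_mem
  · rintro a ⟨ha, ha'⟩
    refine ⟨O.neg_mem _ ha, ?_⟩
    have e : φ ⟨-a, O.neg_mem _ ha⟩ = -φ ⟨a, ha⟩ := by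
      rw [← map_neg]
      rfl
    rw [e]
    exact V.neg_mem _ ha'
  · intro a
    by_cases ha : a ∈ O
    · by_cases h1 : φ ⟨a, ha⟩ ∈ V
      · exact Or.inl ⟨ha, h1⟩
      · right
        have h2 : φ ⟨a, ha⟩ ≠ 0 := by
          intro h
          rw [h] at h1
          exact h1 V.zero_mem
        have h3 : IsUnit (⟨a, ha⟩ : O) := by
          by_contra h
          exact h2 ((hφ _).2 h)
        obtain ⟨u, hu⟩ := h3
        have h4 : ((u⁻¹ : Oˣ) : O) * ⟨a, ha⟩ = 1 := by
          rw [← hu]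
          exact u.inv_mul
        have h5 : (((u⁻¹ : Oˣ) : O) : L) = a⁻¹ := by
          have h6 : (((u⁻¹ : Oˣ) : O) : L) * a = 1 := congrArg Subtype.val h4
          exact eq_inv_of_mul_eq_one_left h6
        have h7 : a⁻¹ ∈ O := by
          rw [← h5]
          exact ((u⁻¹ : Oˣ) : O).2
        refine ⟨h7, ?_⟩
        have h8 : φ ⟨a⁻¹, h7⟩ * φ ⟨a, ha⟩ = 1 := by
          rw [← map_mul, ← map_one φ]
          congr 1
          apply Subtype.ext
          show a⁻¹ * a = 1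
          rw [← h5]
          exact congrArg Subtype.val h4
        have h9 : φ ⟨a⁻¹, h7⟩ = (φ ⟨a, ha⟩)⁻¹ := eq_inv_of_mul_eq_one_left h8
        rw [h9]
        exact (V.mem_or_inv_mem _).resolve_left h1
    · right
      have h1 : a⁻¹ ∈ O := (O.mem_or_inv_mem a).resolve_left ha
      refine ⟨h1, ?_⟩
      have h2 : φ ⟨a⁻¹, h1⟩ = 0 := by
        rw [hφ]
        rintro ⟨u, hu⟩
        apply ha
        have h3 : (⟨a⁻¹, h1⟩ : O) * ((u⁻¹ : Oˣ) : O) = 1 := by
          rw [← hu]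
          exact u.mul_inv
        have h4 : a⁻¹ * (((u⁻¹ : Oˣ) : O) : L) = 1 := congrArg Subtype.val h3
        have h5 : (((u⁻¹ : Oˣ) : O) : L) = a := by
          have := eq_inv_of_mul_eq_one_right h4
          rw [this, inv_inv]
        rw [← h5]
        exact ((u⁻¹ : Oˣ) : O).2
      rw [h2]
      exact V.zero_mem

private theorem TComp_key {L Ω : Type} [Field L] [Field Ω] (O : ValuationSubring L) (φ : O →+* Ω)
    (V : ValuationSubring Ω) (O' : ValuationSubring L)
    (hO' : ∀ a : L, a ∈ O' ↔ ∃ h : a ∈ O, φ ⟨a, h⟩ ∈ V) (a b : O)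
    (hab : O'.valuation (a : L) ≤ O'.valuation (b : L)) :
    V.valuation (φ a) ≤ V.valuation (φ b) := by
  by_cases hb : (b : L) = 0
  · have ha : (a : L) = 0 := by
      rw [hb, map_zero] at hab
      exact (Valuation.zero_iff _).1 (le_antisymm hab zero_le)
    have ha' : a = 0 := Subtype.ext ha
    rw [ha', map_zero, map_zero]
    exact zero_le
  · have hb' : O'.valuation (b : L) ≠ 0 := (Valuation.ne_zero_iff _).2 hb
    have hc : (a : L) / (b : L) ∈ O' := by
      rw [← ValuationSubring.valuation_le_one_iff, map_div₀]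
      exact div_le_one_of_le₀ hab zero_le
    obtain ⟨h, hV⟩ := (hO' _).1 hc
    have e : φ a = φ ⟨(a : L) / b, h⟩ * φ b := by
      rw [← map_mul]
      exact congrArg φ (Subtype.ext (div_mul_cancel₀ (a : L) hb).symm)
    rw [e, map_mul]
    have h1 : V.valuation (φ ⟨(a : L) / b, h⟩) ≤ 1 := (V.valuation_le_one_iff _).2 hV
    calc V.valuation (φ ⟨(a : L) / b, h⟩) * V.valuation (φ b)
        ≤ 1 * V.valuation (φ b) := by gcongr
      _ = V.valuation (φ b) := one_mul _

private theorem TComp_max {L Ω : Type} [Field L] [Field Ω] (O : ValuationSubring L) (φ : O →+* Ω)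
    (V : ValuationSubring Ω) (O' : ValuationSubring L)
    (hO' : ∀ a : L, a ∈ O' ↔ ∃ h : a ∈ O, φ ⟨a, h⟩ ∈ V) (a b : O) :
    ∃ m : O, max (O'.valuation (a : L)) (O'.valuation (b : L)) = O'.valuation (m : L) ∧
      max (V.valuation (φ a)) (V.valuation (φ b)) = V.valuation (φ m) := by
  rcases le_total (O'.valuation (a : L)) (O'.valuation (b : L)) with h | h
  · exact ⟨b, max_eq_right h, max_eq_right (TComp_key O φ V O' hO' a b h)⟩
  · exact ⟨a, max_eq_left h, max_eq_left (TComp_key O φ V O' hO' b a h)⟩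

/-- **Transfer of the value relation.** -/
theorem HV.comp {L Ω : Type} [Field L] [Field Ω] (O : ValuationSubring L) (φ : O →+* Ω)
    (hφ : ∀ a : O, φ a = 0 ↔ ¬ IsUnit a) (V : ValuationSubring Ω) (O' : ValuationSubring L)
    (hO' : ∀ a : L, a ∈ O' ↔ ∃ h : a ∈ O, φ ⟨a, h⟩ ∈ V) {ι : Type} [Fintype ι] [Nonempty ι]
    {M e mu : ℕ} (v : ι → O) (Lm : O) (x z : Fin M → O) (hv : ∃ i, IsUnit (v i))
    (hL : IsUnit Lm) (hxz : ∀ j, IsUnit (x j) ∨ IsUnit (z j))
    (h : HV e mu O' (fun i => (v i : L)) (Lm : L) (fun j => (x j : L)) (fun j => (z j : L))) :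
    HV e mu V (fun i => φ (v i)) (φ Lm) (fun j => φ (x j)) (fun j => φ (z j)) := by
  clear hφ hv hL hxz
  unfold HV at h ⊢
  choose m hm1 hm2 using fun j => TComp_max O φ V O' hO' (x j) (z j)
  obtain ⟨i₀, _, hi₀⟩ := Finset.exists_mem_eq_sup' Finset.univ_nonempty
    (fun i => O'.valuation ((v i : O) : L))
  have e1 : vmax (fun i => O'.valuation ((v i : O) : L)) = O'.valuation ((v i₀ : O) : L) := hi₀
  have e2 : vmax (fun i => V.valuation (φ (v i))) = V.valuation (φ (v i₀)) := by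
    apply le_antisymm
    · refine Finset.sup'_le _ _ fun i _ => TComp_key O φ V O' hO' _ _ ?_
      rw [← e1]
      exact Finset.le_sup' (fun i => O'.valuation ((v i : O) : L)) (Finset.mem_univ i)
    · exact Finset.le_sup' (fun i => V.valuation (φ (v i))) (Finset.mem_univ i₀)
  have e3 : O'.valuation ((v i₀ ^ e : O) : L) =
      O'.valuation ((Lm * ∏ j, m j ^ mu : O) : L) := by
    have h1 : ((v i₀ ^ e : O) : L) = ((v i₀ : O) : L) ^ e := rfl
    have h2 : ((Lm * ∏ j, m j ^ mu : O) : L) = (Lm : L) * ∏ j, ((m j : O) : L) ^ mu := by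
      have := map_prod (O.subtype) (fun j => m j ^ mu) Finset.univ
      have h3 : ((∏ j, m j ^ mu : O) : L) = ∏ j, ((m j : O) : L) ^ mu := this
      rw [← h3]
      rfl
    rw [h1, h2, map_pow, map_mul, map_prod, ← e1, h]
    refine congrArg _ (Finset.prod_congr rfl fun j _ => ?_)
    rw [hm1 j, map_pow]
  have e4 : V.valuation (φ (v i₀ ^ e)) = V.valuation (φ (Lm * ∏ j, m j ^ mu)) :=
    le_antisymm (TComp_key O φ V O' hO' _ _ e3.le) (TComp_key O φ V O' hO' _ _ e3.ge)
  rw [map_pow, map_pow, map_mul, map_mul, map_prod, map_prod] at e4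
  rw [e2, e4]
  refine congrArg _ (Finset.prod_congr rfl fun j _ => ?_)
  rw [hm2 j, map_pow, map_pow]

end Pool.Agent.DensDeg
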