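import Pool.Agent.DensDeg.Defs
import Pool.Agent.MultiSpec.DatumAux

/-!
Definitions for the blocks of THEOREM T: points with `M` slots and value relation
`|v| ^ e = |Lm| ∏ |(x j, z j)| ^ mu`, and the generic section of characters `1, ..., n`.
-/

set_option autoImplicit false

namespace Pool.Agent.DensDeg

open Pool.Agent.MultiSpec

/-- The index set of the generic section: characters, coordinates and monomials, sections. -/
abbrev TIdx (n M : ℕ) : Type := Fin n × (Fin (n + 1) × (Fin M → Bool)) × (Fin M → Fin 2)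

/-- The generic section. -/
def WT {R : Type*} [CommRing R] {n M : ℕ} (mu : ℕ) (c : TIdx n M → R) (v : Fin (n + 1) → R)
    (Lm : R) (x z : Fin M → R) (q : Fin M → LiftPt n R) : R :=
  ∑ i : TIdx n M, c i * (v i.2.1.1 * Lm *
    ∏ j, ((if i.2.1.2 j then x j else z j) ^ (mu - 1) * (q j).s i.1 (i.2.2 j)))

/-- The part of character `k + 1` of the generic section. -/
def WTk {R : Type*} [CommRing R] {n M : ℕ} (mu : ℕ) (c : TIdx n M → R) (v : Fin (n + 1) → R)
    (Lm : R) (x z : Fin M → R) (q : Fin M → LiftPt n R) (k : Fin n) : R :=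
  ∑ i : (Fin (n + 1) × (Fin M → Bool)) × (Fin M → Fin 2), c (k, i) * (v i.1.1 * Lm *
    ∏ j, ((if i.1.2 j then x j else z j) ^ (mu - 1) * (q j).s k (i.2 j)))

lemma WT_eq_sum {R : Type*} [CommRing R] {n M : ℕ} (mu : ℕ) (c : TIdx n M → R)
    (v : Fin (n + 1) → R) (Lm : R) (x z : Fin M → R) (q : Fin M → LiftPt n R) :
    WT mu c v Lm x z q = ∑ k, WTk mu c v Lm x z q k := by
  unfold WT WTk
  rw [Fintype.sum_prod_type]

/-- The value relation `|v| ^ e = |Lm| ∏ |(x j, z j)| ^ mu`. -/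
def HV {L ι : Type*} [Field L] [Fintype ι] [Nonempty ι] {M : ℕ} (e mu : ℕ)
    (V : ValuationSubring L) (v : ι → L) (Lm : L) (x z : Fin M → L) : Prop :=
  vmax (fun i => V.valuation (v i)) ^ e =
    V.valuation Lm * ∏ j, max (V.valuation (x j)) (V.valuation (z j)) ^ mu

/-- Nondegenerate data: the quartic has the four roots `c₀ ± s`, `c₁ ± s`. -/
def GoodD {N n : ℕ} {F : Type*} [CommRing F] (D : EDatum N n F) : Prop :=
  D.t ≠ 0 ∧ D.c₀ ≠ D.c₁ ∧ (D.c₀ - D.c₁) ^ 2 ≠ 4 * D.t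

/-- A point over `u`. -/
structure TPt (K₀ : Type) {F Ω : Type} [Field F] [Field K₀] [Field Ω] [Algebra F Ω]
    [Algebra K₀ Ω] {n M N : ℕ} (D : Fin M → EDatum N n F) (e mu B : ℕ)
    (u v : Fin (n + 1) → Ω) (Lm : Ω) (x z : Fin M → Ω) (q : Fin M → LiftPt n Ω) : Prop where
  hv : ∀ i, v i ^ (e + 1) = u i
  hL : Lm ≠ 0
  hxz : ∀ j, x j ≠ 0 ∨ z j ≠ 0
  hq : ∀ j, IsLift ((D j).map (algebraMap F Ω)) (x j) (z j) (q j)
  hval : ∀ V : ValuationSubring Ω, (∀ a : F, algebraMap F Ω a ∈ V) → HV e mu V v Lm x z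
  hdeg : ∀ eps : Fin M → Bool, ∃ P : Polynomial (Algebra.adjoin K₀ (Set.range v)),
    P.Monic ∧ P.natDegree ≤ B ∧
      Polynomial.aeval (Lm * ∏ j, (if eps j then x j else z j) ^ mu) P = 0

/-- The statement about the block forms: blocks of degree `β * N` in `n + 1` variables and `w`. -/
def HasTBlock (n M e mu B β : ℕ) : Prop :=
  ∀ (F K₀ : Type) [Field F] [IsAlgClosed F] [CharZero F] [Field K₀] [IsAlgClosed K₀]
    [Algebra F K₀] (N : ℕ), 2 ≤ N → n < N → ∀ D : Fin M → EDatum N n F, (∀ j, GoodD (D j)) →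
    ∀ c : TIdx n M → K₀,
    ∃ G : MvPolynomial (Option (Fin (n + 1))) K₀, G.IsHomogeneous (β * N) ∧
      (∀ (Ω : Type) [Field Ω] [Algebra K₀ Ω] (w : Ω),
        MvPolynomial.aeval (fun o : Option (Fin (n + 1)) => o.elim w fun _ => 0) G = 0 → w = 0) ∧
      ∀ (Ω : Type) [Field Ω] [IsAlgClosed Ω] [Algebra K₀ Ω] [Algebra F Ω]
        [IsScalarTower F K₀ Ω] (U : Fin (n + 1) → Ω) (w : Ω), U ≠ 0 →
        MvPolynomial.aeval (fun o : Option (Fin (n + 1)) => o.elim w U) G = 0 →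
        ∃ (v : Fin (n + 1) → Ω) (Lm : Ω) (x z : Fin M → Ω) (q : Fin M → LiftPt n Ω),
          TPt K₀ D e mu B U v Lm x z q ∧
          w = WT mu (fun i => algebraMap K₀ Ω (c i)) v Lm x z q

/-- The slot lemma for the constants `a`, `mu`, `b`. -/
def SlotOK (a mu b : ℕ) : Prop :=
  ∀ (F L : Type) [Field F] [IsAlgClosed F] [CharZero F] [Field L] [IsAlgClosed L] [Algebra F L]
    (t c₀ c₁ : F), t ≠ 0 → c₀ ≠ c₁ → (c₀ - c₁) ^ 2 ≠ 4 * t →
    ∀ K : Subfield L, (∀ a : F, algebraMap F L a ∈ K) → ∀ x ∈ K,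
    ∃ (K' : Subfield L) (X Z lam Y : L), K ≤ K' ∧ (K.relfinrank K' = 1 ∨ K.relfinrank K' = b) ∧
      X ∈ K' ∧ Z ∈ K' ∧ lam ∈ K' ∧ Y ∈ K' ∧ (X ≠ 0 ∨ Z ≠ 0) ∧ lam ≠ 0 ∧
      Y ^ 2 = ev X Z (quar (algebraMap F L t) (algebraMap F L c₀) (algebraMap F L c₁)) ∧
      ∀ V : ValuationSubring L, (∀ a : F, algebraMap F L a ∈ V) →
        max (V.valuation x) 1 ^ a =
          V.valuation lam * max (V.valuation X) (V.valuation Z) ^ mu

/-- The decomposition property (PART I) for generic vectors with `n + 1` coordinates. -/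
def HasDecomp (n l e M Dg : ℕ) : Prop :=
  ∀ (K₀ L : Type) [Field K₀] [CharZero K₀] [Field L] [IsAlgClosed L] [Algebra K₀ L]
    (v : Fin (n + 1) → L), AlgebraicIndependent K₀ v →
    ∃ (Lm : L) (x : Fin M → L), Lm ≠ 0 ∧
      (∀ V : ValuationSubring L, (∀ m : ℕ, m ≠ 0 → V.valuation (m : L) = 1) →
        vmax (fun i => V.valuation (v i)) ^ e =
          V.valuation Lm * ∏ j, max (V.valuation (x j)) 1) ∧
      FiniteDimensional (IntermediateField.adjoin K₀ (Set.range v))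
        (IntermediateField.adjoin (IntermediateField.adjoin K₀ (Set.range v))
          (insert Lm (Set.range x))) ∧
      Module.finrank (IntermediateField.adjoin K₀ (Set.range v))
        (IntermediateField.adjoin (IntermediateField.adjoin K₀ (Set.range v))
          (insert Lm (Set.range x))) ≤ Dg ∧
      (Module.finrank (IntermediateField.adjoin K₀ (Set.range v))
        (IntermediateField.adjoin (IntermediateField.adjoin K₀ (Set.range v))
          (insert Lm (Set.range x)))).Coprime l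

end Pool.Agent.DensDeg
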