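import Pool.Agent.DensDeg.TScale

/-!
Normalisation of the points of the blocks.
-/

set_option autoImplicit false

namespace Pool.Agent.DensDeg

open Pool.Agent.MultiSpec

/-- Every point can be normalised. -/
theorem TPt.normalise {K₀ F Ω : Type} [Field F] [Field K₀] [Field Ω] [CharZero Ω] [Algebra F Ω]
    [Algebra K₀ Ω] {n M N : ℕ} (hN : 2 ≤ N) (hn : n < N) {D : Fin M → EDatum N n F}
    {e mu B : ℕ} {u v : Fin (n + 1) → Ω} {Lm : Ω} {x z : Fin M → Ω} {q : Fin M → LiftPt n Ω}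
    (h : TPt K₀ D e mu B u v Lm x z q) (hmu : 0 < mu) :
    ∃ (Lm' : Ω) (x' z' : Fin M → Ω) (q' : Fin M → LiftPt n Ω),
      TPt K₀ D e mu B u v Lm' x' z' q' ∧ (∀ j, z' j = 1 ∨ (x' j = 1 ∧ z' j = 0)) ∧
      ∀ c : TIdx n M → Ω, WT mu c v Lm' x' z' q' = WT mu c v Lm x z q := by
  classical
  set ρ : Fin M → Ω := fun j => if z j = 0 then (x j)⁻¹ else (z j)⁻¹ with hρdef
  have hρ : ∀ j, ρ j ≠ 0 := by
    intro j
    simp only [hρdef]
    split_ifs with hz
    · exact inv_ne_zero ((h.hxz j).resolve_right fun h' => h' hz)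
    · exact inv_ne_zero hz
  refine ⟨_, _, _, _, h.scale hN hn ρ hρ, fun j => ?_, fun c => WT_scale hmu c v Lm x z q ρ hρ⟩
  by_cases hz : z j = 0
  · right
    have h1 : ρ j = (x j)⁻¹ := if_pos hz
    have h2 : x j ≠ 0 := (h.hxz j).resolve_right fun h' => h' hz
    show ρ j * x j = 1 ∧ ρ j * z j = 0
    rw [h1, hz, mul_zero]
    exact ⟨inv_mul_cancel₀ h2, rfl⟩
  · left
    have h1 : ρ j = (z j)⁻¹ := if_neg hz
    show ρ j * z j = 1
    rw [h1]
    exact inv_mul_cancel₀ hz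

end Pool.Agent.DensDeg
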