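import Pool.Agent.CurveDeg.Multi.SlopeRoots

/-!
The degree of a projective curve in terms of a relation between the valuations of its coordinates
and of a family of functions.
-/

set_option autoImplicit false

namespace Pool.Agent.DensDeg

open MvPolynomial WithZero IntermediateField Pool.Agent.CurveDeg

section

variable {κ L : Type*} [Field κ] [Field L] [Algebra κ L] [CharZero κ] [IsAlgClosed κ]

/-- The product formula. -/
lemma sum_log (hfin : ∀ y : L, Transcendental κ y → FiniteDimensional κ⟮y⟯ L) {f : L}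
    (hf : f ≠ 0) {Z : Finset (Valuation L ℤᵐ⁰)} (hZ : ∀ v ∈ Z, IsPl κ v)
    (h1 : zeroPl κ f ⊆ Z) (h2 : zeroPl κ f⁻¹ ⊆ Z) : ∑ v ∈ Z, log (v f) = 0 := by
  by_cases ht : Transcendental κ f
  · have ht' : Transcendental κ f⁻¹ := by
      intro h
      apply ht
      have := h.inv
      rwa [inv_inv] at this
    have e1 := hfin f ht
    have e2 := hfin f⁻¹ ht'
    have h3 := (finrank_eq_sum ht).2
    have h4 := (finrank_eq_sum ht').2
    have h5 : κ⟮f⁻¹⟯ = κ⟮f⟯ := by
      apply le_antisymm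
      · rw [adjoin_simple_le_iff]
        exact inv_mem (mem_adjoin_simple_self κ f)
      · rw [adjoin_simple_le_iff]
        have := inv_mem (mem_adjoin_simple_self κ f⁻¹)
        rwa [inv_inv] at this
    rw [sum_zeroPl hZ hf h1] at h3
    rw [sum_zeroPl hZ (inv_ne_zero hf) h2, h5, h3] at h4
    have h6 : ∀ v ∈ Z, max 0 (-log (v f⁻¹)) = max 0 (-log (v f)) + log (v f) := by
      intro v _
      rw [map_inv₀, log_inv]
      rcases le_total 0 (log (v f)) with h | h
      · rw [max_eq_right (by omega), max_eq_left (by omega)]; ring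
      · rw [max_eq_left (by omega), max_eq_right (by omega)]; ring
    rw [Finset.sum_congr rfl h6, Finset.sum_add_distrib] at h4
    omega
  · obtain ⟨a, rfl⟩ := algebraic_eq (not_not.1 ht)
    refine Finset.sum_eq_zero fun v hv => ?_
    rw [(hZ v hv).2 a (by rintro rfl; exact hf (map_zero _)), log_one]

/-- The number of poles. -/
lemma sum_poles (hfin : ∀ y : L, Transcendental κ y → FiniteDimensional κ⟮y⟯ L) {f : L}
    (hf : f ≠ 0) {Z : Finset (Valuation L ℤᵐ⁰)} (hZ : ∀ v ∈ Z, IsPl κ v)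
    (h2 : zeroPl κ f⁻¹ ⊆ Z) : ∑ v ∈ Z, max 0 (log (v f)) =
      open Classical in if Transcendental κ f then (Module.finrank κ⟮f⟯ L : ℤ) else 0 := by
  have h6 : ∀ v ∈ Z, max 0 (log (v f)) = max 0 (-log (v f⁻¹)) := by
    intro v _
    rw [map_inv₀, log_inv, neg_neg]
  rw [Finset.sum_congr rfl h6, ← sum_zeroPl hZ (inv_ne_zero hf) h2]
  split_ifs with ht
  · have ht' : Transcendental κ f⁻¹ := by
      intro h
      apply ht
      have := h.inv
      rwa [inv_inv] at this
    have e2 := hfin f⁻¹ ht'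
    have h5 : κ⟮f⁻¹⟯ = κ⟮f⟯ := by
      apply le_antisymm
      · rw [adjoin_simple_le_iff]
        exact inv_mem (mem_adjoin_simple_self κ f)
      · rw [adjoin_simple_le_iff]
        have := inv_mem (mem_adjoin_simple_self κ f⁻¹)
        rwa [inv_inv] at this
    rw [← (finrank_eq_sum ht').2, h5]
  · obtain ⟨a, rfl⟩ := algebraic_eq (not_not.1 ht)
    have : zeroPl κ (algebraMap κ L a)⁻¹ = ∅ := by
      rw [Set.eq_empty_iff_forall_notMem]
      rintro v ⟨_, h1, h2⟩
      rw [map_inv₀, h1 a (by rintro rfl; exact hf (map_zero _)), inv_one] at h2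
      exact lt_irrefl _ h2
    rw [this, finsum_mem_empty]

omit [CharZero κ] [IsAlgClosed κ] in
/-- At a place at which `max |U j| > 1`, the values of `∑ U j c ^ j` are as large as possible for all
but finitely many `c`. -/
lemma finite_small {n : ℕ} (U : Fin (n + 1) → L) (v : Valuation L ℤᵐ⁰) (hv : IsPl κ v) (B : ℤᵐ⁰)
    (hB : ∃ j, v (U j) = B) (hB' : ∀ j, v (U j) ≤ B) (hB0 : B ≠ 0) :
    {c : κ | v (∑ j, U j * algebraMap κ L c ^ (j : ℕ)) ≠ B}.Finite := by
  classical
  have hle : ∀ a : κ, v (algebraMap κ L a) ≤ 1 := by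
    intro a
    by_cases ha : a = 0
    · rw [ha, map_zero, map_zero]; exact zero_le
    · exact (hv.2 a ha).le
  by_contra hinf
  -- the submodule of the linear forms with small value
  let W : Submodule κ (Fin (n + 1) → κ) :=
    { carrier := {a | v (∑ j, U j * algebraMap κ L (a j)) < B}
      add_mem' := by
        intro a b ha hb
        rw [Set.mem_ofPred_eq] at ha hb ⊢
        have : ∑ j, U j * algebraMap κ L ((a + b) j) =
            ∑ j, U j * algebraMap κ L (a j) + ∑ j, U j * algebraMap κ L (b j) := by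
          rw [← Finset.sum_add_distrib]
          refine Finset.sum_congr rfl fun j _ => ?_
          rw [Pi.add_apply, map_add, mul_add]
        rw [this]
        exact v.map_add_lt ha hb
      zero_mem' := by
        rw [Set.mem_ofPred_eq]
        simp only [Pi.zero_apply, map_zero, mul_zero, Finset.sum_const_zero]
        exact zero_lt_iff.2 hB0
      smul_mem' := by
        intro t a ha
        rw [Set.mem_ofPred_eq] at ha ⊢
        have : ∑ j, U j * algebraMap κ L ((t • a) j) =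
            algebraMap κ L t * ∑ j, U j * algebraMap κ L (a j) := by
          rw [Finset.mul_sum]
          refine Finset.sum_congr rfl fun j _ => ?_
          rw [Pi.smul_apply, smul_eq_mul, map_mul]; ring
        rw [this, map_mul]
        calc v (algebraMap κ L t) * v (∑ j, U j * algebraMap κ L (a j))
            ≤ 1 * v (∑ j, U j * algebraMap κ L (a j)) := mul_le_mul_left (hle t) _
          _ < B := by rwa [one_mul] }
  have hW : W ≠ ⊤ := by
    intro h
    obtain ⟨j₀, hj₀⟩ := hB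
    have h1 : (Pi.single j₀ 1 : Fin (n + 1) → κ) ∈ W := by rw [h]; trivial
    change v (∑ j, U j * algebraMap κ L ((Pi.single j₀ 1 : Fin (n + 1) → κ) j)) < B at h1
    rw [Finset.sum_eq_single j₀] at h1
    · rw [Pi.single_eq_same, map_one, mul_one, hj₀] at h1
      exact lt_irrefl _ h1
    · intro j _ hj
      rw [Pi.single_eq_of_ne hj, map_zero, mul_zero]
    · intro h; exact absurd (Finset.mem_univ _) h
  apply hinf
  refine (finite_moment W hW).subset ?_
  intro c hc
  rw [Set.mem_ofPred_eq] at hc ⊢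
  change v (∑ j, U j * algebraMap κ L (c ^ (j : ℕ))) < B
  have h2 : ∑ j, U j * algebraMap κ L (c ^ (j : ℕ)) = ∑ j, U j * algebraMap κ L c ^ (j : ℕ) :=
    Finset.sum_congr rfl fun j _ => by rw [map_pow]
  rw [h2]
  refine lt_of_le_of_ne ?_ hc
  refine v.map_sum_le fun j _ => ?_
  rw [map_mul, map_pow]
  calc v (U j) * v (algebraMap κ L c) ^ (j : ℕ) ≤ B * 1 :=
        mul_le_mul' (hB' j) (pow_le_one' (hle c) _)
    _ = B := mul_one B

/-- **The degree formula.** -/
theorem finrank_val (hfin : ∀ y : L, Transcendental κ y → FiniteDimensional κ⟮y⟯ L) {n : ℕ}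
    (U : Fin (n + 1) → L) (c c' : κ) (hU1 : ∑ j, U j * algebraMap κ L c' ^ (j : ℕ) = 1)
    (hb : Transcendental κ (∑ j, U j * algebraMap κ L c ^ (j : ℕ)))
    (hc : ∀ v : Valuation L ℤᵐ⁰, IsPl κ v → 1 < (Finset.univ.sup' Finset.univ_nonempty
      fun j => v (U j)) → v (∑ j, U j * algebraMap κ L c ^ (j : ℕ)) =
        Finset.univ.sup' Finset.univ_nonempty fun j => v (U j))
    {m e : ℕ} (hm : 0 < m) {ι : Type*} [Fintype ι] (nn : ι → ℕ) (y : Fin (n + 1) → L)
    (ξ : ι → L) (Λ : L) (hΛ : Λ ≠ 0) (hy : ∀ j, y j ^ m = U j)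
    (hval : ∀ v : Valuation L ℤᵐ⁰, IsPl κ v →
      (Finset.univ.sup' Finset.univ_nonempty fun j => v (y j)) ^ e =
        v Λ * ∏ i, max (v (ξ i)) 1 ^ nn i) :
    (e : ℤ) * (Module.finrank κ⟮∑ j, U j * algebraMap κ L c ^ (j : ℕ)⟯ L : ℤ) =
      m * ∑ i, (nn i : ℤ) *
        (open Classical in if Transcendental κ (ξ i) then (Module.finrank κ⟮ξ i⟯ L : ℤ) else 0) := by
  classical
  set b := ∑ j, U j * algebraMap κ L c ^ (j : ℕ) with hbdef
  have hb0 : b ≠ 0 := by
    intro h
    rw [h] at hb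
    exact hb (isAlgebraic_zero)
  let T : L → Set (Valuation L ℤᵐ⁰) := fun f => if f = 0 then ∅ else zeroPl κ f ∪ zeroPl κ f⁻¹
  have hT : ∀ f, (T f).Finite := by
    intro f
    by_cases hf : f = 0
    · simp [T, hf]
    · have : T f = zeroPl κ f ∪ zeroPl κ f⁻¹ := if_neg hf
      rw [this]
      exact (finite_zeroPl hfin hf).union (finite_zeroPl hfin (inv_ne_zero hf))
  have hTpl : ∀ f, ∀ v ∈ T f, IsPl κ v := by
    intro f v hv
    by_cases hf : f = 0
    · simp [T, hf] at hv
    · have : T f = zeroPl κ f ∪ zeroPl κ f⁻¹ := if_neg hf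
      rw [this] at hv
      rcases hv with hv | hv
      · exact (mem_zeroPl.1 hv).1
      · exact (mem_zeroPl.1 hv).1
  have hT1 : ∀ f, f ≠ 0 → zeroPl κ f ⊆ T f := by
    intro f hf
    have : T f = zeroPl κ f ∪ zeroPl κ f⁻¹ := if_neg hf
    rw [this]
    exact Set.subset_union_left
  have hT2 : ∀ f, f ≠ 0 → zeroPl κ f⁻¹ ⊆ T f := by
    intro f hf
    have : T f = zeroPl κ f ∪ zeroPl κ f⁻¹ := if_neg hf
    rw [this]
    exact Set.subset_union_right
  have hZf : ((T b ∪ T Λ) ∪ ⋃ i, T (ξ i)).Finite :=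
    ((hT b).union (hT Λ)).union (Set.finite_iUnion fun i => hT (ξ i))
  set Z := hZf.toFinset with hZdef
  have hZ : ∀ v ∈ Z, IsPl κ v := by
    intro v hv
    rw [hZdef, Set.Finite.mem_toFinset] at hv
    rcases hv with (hv | hv) | hv
    · exact hTpl _ v hv
    · exact hTpl _ v hv
    · obtain ⟨i, hi⟩ := Set.mem_iUnion.1 hv
      exact hTpl _ v hi
  have hZb : T b ⊆ Z := by
    intro v hv
    rw [hZdef, Set.Finite.coe_toFinset]
    exact Or.inl (Or.inl hv)
  have hZΛ : T Λ ⊆ Z := by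
    intro v hv
    rw [hZdef, Set.Finite.coe_toFinset]
    exact Or.inl (Or.inr hv)
  have hZξ : ∀ i, T (ξ i) ⊆ Z := by
    intro i v hv
    rw [hZdef, Set.Finite.coe_toFinset]
    exact Or.inr (Set.mem_iUnion.2 ⟨i, hv⟩)
  have hfb := hfin b hb
  rw [(finrank_eq_sum hb).2, sum_zeroPl hZ hb0 ((hT1 b hb0).trans hZb)]
  set s : Valuation L ℤᵐ⁰ → ℤᵐ⁰ := fun v =>
    Finset.univ.sup' Finset.univ_nonempty fun j => v (y j) with hs
  have hle : ∀ v : Valuation L ℤᵐ⁰, IsPl κ v → ∀ a : κ, v (algebraMap κ L a) ≤ 1 := by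
    intro v hv a
    by_cases ha : a = 0
    · rw [ha, map_zero, map_zero]; exact zero_le
    · exact (hv.2 a ha).le
  -- the power
  have hsm : ∀ v : Valuation L ℤᵐ⁰, s v ^ m =
      Finset.univ.sup' Finset.univ_nonempty fun j => v (U j) := by
    intro v
    apply le_antisymm
    · obtain ⟨j, _, hj⟩ := Finset.exists_mem_eq_sup' Finset.univ_nonempty fun j => v (y j)
      have h1 : s v = v (y j) := hj
      rw [h1, ← map_pow, hy]
      exact Finset.le_sup' (fun j => v (U j)) (Finset.mem_univ j)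
    · refine Finset.sup'_le _ _ fun j _ => ?_
      rw [← hy, map_pow]
      exact pow_le_pow_left₀ zero_le (Finset.le_sup' (fun j => v (y j)) (Finset.mem_univ j)) m
  have hsum_le : ∀ v : Valuation L ℤᵐ⁰, IsPl κ v → ∀ a : κ,
      v (∑ j, U j * algebraMap κ L a ^ (j : ℕ)) ≤ s v ^ m := by
    intro v hv a
    refine v.map_sum_le fun j _ => ?_
    rw [map_mul, map_pow]
    calc v (U j) * v (algebraMap κ L a) ^ (j : ℕ) ≤ s v ^ m * 1 := by
          refine mul_le_mul' ?_ (pow_le_one' (hle v hv a) _)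
          rw [hsm]
          exact Finset.le_sup' (fun j => v (U j)) (Finset.mem_univ j)
      _ = _ := mul_one _
  have hs1 : ∀ v ∈ Z, 1 ≤ s v ^ m := by
    intro v hv
    have := hsum_le v (hZ v hv) c'
    rwa [hU1, map_one] at this
  have hs0 : ∀ v ∈ Z, s v ≠ 0 := by
    intro v hv h0
    have := hs1 v hv
    rw [h0, zero_pow hm.ne'] at this
    exact absurd this (by simp)
  have key : ∀ v ∈ Z, max 0 (-log (v b)) = -log (v b) + m * log (s v) := by
    intro v hv
    have h1 : (m : ℤ) * log (s v) = log (s v ^ m) := by rw [log_pow, nsmul_eq_mul]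
    have hvb : v b ≠ 0 := (Valuation.ne_zero_iff v).2 hb0
    rw [h1]
    rcases (hs1 v hv).eq_or_lt with h2 | h2
    · rw [← h2, log_one, add_zero]
      refine max_eq_right ?_
      have h3 := hsum_le v (hZ v hv) c
      rw [← h2] at h3
      have h4 : log (v b) ≤ 0 := by
        rw [← exp_le_exp, exp_log hvb, exp_zero]; exact h3
      omega
    · have h3 : v b = s v ^ m := by
        rw [hsm]
        exact hc v (hZ v hv) (by rw [← hsm]; exact h2)
      rw [h3, neg_add_cancel]
      refine max_eq_left ?_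
      have h4 : 0 < log (s v ^ m) := by
        rw [← exp_lt_exp, exp_log (pow_ne_zero m (hs0 v hv)), exp_zero]; exact h2
      omega
  rw [Finset.sum_congr rfl key, Finset.sum_add_distrib, Finset.sum_neg_distrib,
    sum_log hfin hb0 hZ ((hT1 b hb0).trans hZb) ((hT2 b hb0).trans hZb), neg_zero, zero_add,
    ← Finset.mul_sum, mul_left_comm, Finset.mul_sum]
  congr 1
  have key2 : ∀ v ∈ Z, (e : ℤ) * log (s v) =
      log (v Λ) + ∑ i, (nn i : ℤ) * max 0 (log (v (ξ i))) := by
    intro v hv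
    have h1 : (e : ℤ) * log (s v) = log (s v ^ e) := by rw [log_pow, nsmul_eq_mul]
    have hvΛ : v Λ ≠ 0 := (Valuation.ne_zero_iff v).2 hΛ
    have h2 : ∀ i ∈ (Finset.univ : Finset ι), max (v (ξ i)) 1 ^ nn i ≠ 0 := fun i _ =>
      pow_ne_zero _ (lt_of_lt_of_le zero_lt_one (le_max_right _ _)).ne'
    rw [h1, hval v (hZ v hv), log_mul hvΛ (Finset.prod_ne_zero_iff.2 h2), log_prod' _ _ h2]
    congr 1
    refine Finset.sum_congr rfl fun i _ => ?_
    rw [log_pow, nsmul_eq_mul]
    congr 1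
    by_cases h3 : v (ξ i) = 0
    · rw [h3, log_zero, max_eq_right zero_le, log_one, max_self]
    · rcases le_total (v (ξ i)) 1 with h4 | h4
      · rw [max_eq_right h4, log_one]
        refine (max_eq_left ?_).symm
        rw [← exp_le_exp, exp_log h3, exp_zero]; exact h4
      · rw [max_eq_left h4]
        refine (max_eq_right ?_).symm
        rw [← exp_le_exp, exp_log h3, exp_zero]; exact h4
  rw [Finset.sum_congr rfl key2, Finset.sum_add_distrib,
    sum_log hfin hΛ hZ ((hT1 Λ hΛ).trans hZΛ) ((hT2 Λ hΛ).trans hZΛ), zero_add, Finset.sum_comm]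
  refine Finset.sum_congr rfl fun i _ => ?_
  rw [← Finset.mul_sum]
  congr 1
  by_cases hξ : ξ i = 0
  · have h1 : ¬ Transcendental κ (ξ i) := by
      rw [hξ]; exact fun h => h isAlgebraic_zero
    rw [if_neg h1]
    refine Finset.sum_eq_zero fun v _ => ?_
    rw [hξ, map_zero, log_zero, max_self]
  · exact sum_poles hfin hξ hZ ((hT2 _ hξ).trans (hZξ i))

/-- All but finitely many parameters are good at all places. -/
lemma finite_small_all (hfin : ∀ y : L, Transcendental κ y → FiniteDimensional κ⟮y⟯ L) {n : ℕ}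
    (U : Fin (n + 1) → L) :
    {c : κ | ¬ ∀ v : Valuation L ℤᵐ⁰, IsPl κ v → 1 < (Finset.univ.sup' Finset.univ_nonempty
      fun j => v (U j)) → v (∑ j, U j * algebraMap κ L c ^ (j : ℕ)) =
        Finset.univ.sup' Finset.univ_nonempty fun j => v (U j)}.Finite := by
  classical
  let T : Fin (n + 1) → Set (Valuation L ℤᵐ⁰) := fun j =>
    if U j = 0 then ∅ else zeroPl κ (U j)⁻¹
  have hT : ∀ j, (T j).Finite := by
    intro j
    by_cases hf : U j = 0
    · simp [T, hf]
    · have : T j = zeroPl κ (U j)⁻¹ := if_neg hf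
      rw [this]
      exact finite_zeroPl hfin (inv_ne_zero hf)
  have hsub : {c : κ | ¬ ∀ v : Valuation L ℤᵐ⁰, IsPl κ v → 1 < (Finset.univ.sup'
      Finset.univ_nonempty fun j => v (U j)) → v (∑ j, U j * algebraMap κ L c ^ (j : ℕ)) =
        Finset.univ.sup' Finset.univ_nonempty fun j => v (U j)} ⊆
      ⋃ v ∈ (⋃ j, T j), {c : κ | IsPl κ v ∧ (1 < Finset.univ.sup' Finset.univ_nonempty
        fun j => v (U j)) ∧ v (∑ j, U j * algebraMap κ L c ^ (j : ℕ)) ≠
        Finset.univ.sup' Finset.univ_nonempty fun j => v (U j)} := by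
    intro c hc
    rw [Set.mem_ofPred_eq] at hc
    push Not at hc
    obtain ⟨v, hv, h1, h2⟩ := hc
    rw [Set.mem_iUnion₂]
    refine ⟨v, ?_, hv, h1, h2⟩
    obtain ⟨j, _, hj⟩ := Finset.exists_mem_eq_sup' Finset.univ_nonempty fun j => v (U j)
    rw [hj] at h1
    have hU0 : U j ≠ 0 := by
      intro h
      rw [h, map_zero] at h1
      exact absurd h1 (by simp)
    rw [Set.mem_iUnion]
    refine ⟨j, ?_⟩
    have : T j = zeroPl κ (U j)⁻¹ := if_neg hU0
    rw [this, mem_zeroPl]
    refine ⟨hv, ?_⟩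
    rw [map_inv₀]
    exact inv_lt_one_of_one_lt₀ h1
  refine Set.Finite.subset ?_ hsub
  refine (Set.finite_iUnion hT).biUnion fun v _ => ?_
  by_cases hv : IsPl κ v ∧ 1 < Finset.univ.sup' Finset.univ_nonempty fun j => v (U j)
  · refine (finite_small (κ := κ) U v hv.1 (Finset.univ.sup' Finset.univ_nonempty fun j => v (U j))
      ?_ ?_ ?_).subset ?_
    · obtain ⟨j, _, hj⟩ := Finset.exists_mem_eq_sup' Finset.univ_nonempty fun j => v (U j)
      exact ⟨j, hj.symm⟩
    · exact fun j => Finset.le_sup' (fun j => v (U j)) (Finset.mem_univ j)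
    · exact (zero_lt_one.trans hv.2).ne'
    · rintro c ⟨_, _, h⟩
      exact h
  · convert Set.finite_empty
    rw [Set.eq_empty_iff_forall_notMem]
    rintro c ⟨h1, h2, _⟩
    exact hv ⟨h1, h2⟩

end

/-- **The degree of a curve and a relation between valuations.**  Let `E₁` be a finite extension of
the function field of the curve which contains `y j` with `y j ^ m = x (u j)`, and functions `ξ i`,
`Λ` with `|y| ^ e = |Λ| ∏ max (|ξ i|, 1) ^ nn i` for all places.  If `e [E₁ : E]` divides `B` and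
`M ∣ g [E₁ : κ(ξ i)]` for every transcendental `ξ i`, then `M` divides `g B` times the degree of the
curve. -/
theorem dvd_slope_of_val {σ : Type} [Finite σ] {κ : Type} [Field κ] [CharZero κ] [IsAlgClosed κ]
    {n : ℕ} (u : Fin (n + 1) → σ) (P : Ideal (MvPolynomial σ κ)) (hP : Homog P) (hp : P.IsPrime)
    (hw : ∀ Q : Ideal (MvPolynomial σ κ), Homog Q → Q.IsPrime → P ≤ Q →
      (∀ j, X (u j) ∈ Q) → ∀ i, X i ∈ Q) (M g B : ℕ)
    (h : ∀ (E : Type) [Field E] [Algebra κ E] (x : σ → E), OneVar κ E →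
      (∀ k, ∀ s ∈ homogeneousSubmodule σ κ k, aeval x s = 0 ↔ s ∈ P) →
      (∃ j, x (u j) ≠ 0) →
      ∃ (E₁ : Type) (_ : Field E₁) (_ : Algebra κ E₁) (_ : Algebra E E₁)
        (_ : IsScalarTower κ E E₁) (_ : FiniteDimensional E E₁)
        (m e S : ℕ) (nn : Fin S → ℕ) (y : Fin (n + 1) → E₁) (ξ : Fin S → E₁) (Λ : E₁),
          e * Module.finrank E E₁ ∣ B ∧
          0 < m ∧ Λ ≠ 0 ∧ (∀ j, y j ^ m = algebraMap E E₁ (x (u j))) ∧
          (∀ v : Valuation E₁ ℤᵐ⁰, IsPl κ v →
            (Finset.univ.sup' Finset.univ_nonempty fun j => v (y j)) ^ e =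
              v Λ * ∏ i, max (v (ξ i)) 1 ^ nn i) ∧
          ∀ i, Transcendental κ (ξ i) → M ∣ g * Module.finrank κ⟮ξ i⟯ E₁)
    (e : ℤ) (he : EvAffine (hilb P) e) : (M : ℤ) ∣ g * B * e := by
  classical
  have hinf : Infinite κ := inferInstance
  by_cases hall : ∀ j, X (u j) ∈ P
  · have h1 : e = 0 := by
      refine evAffine_bounded he (C := hilb P 0) fun k => ?_
      rcases Nat.eq_zero_or_pos k with h | h
      · rw [h]
      · rw [hilb_eq_zero_of_vars (hw P hP hp le_rfl hall) h]; exact Nat.zero_le _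
    rw [h1, mul_zero]; exact dvd_zero _
  push Not at hall
  obtain ⟨j₀, hj₀⟩ := hall
  obtain ⟨c', hc'⟩ := (finite_mform_mem u P j₀ hj₀).exists_notMem
  change mform u c' ∉ P at hc'
  have hfb := finite_bad_param u P hP hp e he hw c' hc'
  obtain ⟨c₁, hc₁⟩ := hfb.exists_notMem
  rw [Set.mem_ofPred_eq, not_not] at hc₁
  obtain ⟨E, _, _, x, hx1, hxP, hE⟩ := exists_field P hp (mform u c') (mform_mem_one u c') hc'
  rcases slope_eq_finrank P hP x hxP hE (mform u c₁) (mform u c') (mform_mem_one u c₁)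
    (mform_mem_one u c') hx1 hc₁ e he with ⟨_, h0⟩ | ⟨hb₁, hfd₁, _⟩
  · rw [h0, mul_zero]; exact dvd_zero _
  have hone : OneVar κ E := OneVar.of_finite (aeval x (mform u c₁) : E)
  have hxj : ∃ j, x (u j) ≠ 0 := by
    by_contra hc
    push Not at hc
    rw [aeval_mform] at hx1
    simp only [hc, zero_mul, Finset.sum_const_zero] at hx1
    exact zero_ne_one hx1
  obtain ⟨E₁, _, _, _, _, _, m, e', S, nn, y, ξ, Λ, hB, hm, hΛ, hy, hval, hdvd⟩ :=
    h E x hone hxP hxj
  have hone₁ : OneVar κ E₁ := hone.ext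
  have hfin₁ : ∀ y : E₁, Transcendental κ y → FiniteDimensional κ⟮y⟯ E₁ := fun y hy =>
    hone₁.finite hy
  set U : Fin (n + 1) → E₁ := fun j => algebraMap E E₁ (x (u j)) with hU
  have hmap : ∀ c : κ, algebraMap E E₁ (aeval x (mform u c)) =
      ∑ j, U j * algebraMap κ E₁ c ^ (j : ℕ) := by
    intro c
    rw [aeval_mform, map_sum]
    refine Finset.sum_congr rfl fun j _ => ?_
    rw [map_mul, map_pow, ← IsScalarTower.algebraMap_apply κ E E₁]
  -- choose the second parameter
  obtain ⟨c, hc⟩ := (hfb.union (finite_small_all hfin₁ U)).exists_notMem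
  rw [Set.mem_union, not_or, Set.mem_ofPred_eq, Set.mem_ofPred_eq, not_not, not_not] at hc
  obtain ⟨hcp, hcb⟩ := hc
  rcases slope_eq_finrank P hP x hxP hE (mform u c) (mform u c') (mform_mem_one u c)
    (mform_mem_one u c') hx1 hcp e he with ⟨_, h0⟩ | ⟨hb, hfd, heq⟩
  · rw [h0, mul_zero]; exact dvd_zero _
  set b : E := aeval x (mform u c) with hbdef
  have hbt : Transcendental κ (algebraMap E E₁ b) :=
    (transcendental_algebraMap_iff (algebraMap E E₁).injective).2 hb
  have hdeg := finrank_val hfin₁ U c c' (by rw [← hmap c', hx1, map_one])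
    (by rw [← hmap c]; exact hbt) hcb hm nn y ξ Λ hΛ hy hval
  rw [← hmap c, ← hbdef] at hdeg
  have hM : (M : ℤ) ∣ g * ((e' : ℤ) * (Module.finrank κ⟮algebraMap E E₁ b⟯ E₁ : ℤ)) := by
    rw [hdeg, mul_left_comm, Finset.mul_sum]
    refine Dvd.dvd.mul_left ?_ _
    refine Finset.dvd_sum fun i _ => ?_
    rw [mul_left_comm]
    refine Dvd.dvd.mul_left ?_ _
    split_ifs with ht
    · exact_mod_cast hdvd i ht
    · rw [mul_zero]; exact dvd_zero _
  -- the tower
  have htower : Module.finrank κ⟮algebraMap E E₁ b⟯ E₁ =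
      Module.finrank κ⟮b⟯ E * Module.finrank E E₁ := by
    rw [Module.finrank_mul_finrank κ⟮b⟯ E E₁]
    have hmapb : κ⟮b⟯.map (IsScalarTower.toAlgHom κ E E₁) = κ⟮algebraMap E E₁ b⟯ := by
      rw [adjoin_map, Set.image_singleton]
      rfl
    let ε : κ⟮b⟯ ≃ₐ[κ] κ⟮algebraMap E E₁ b⟯ :=
      (κ⟮b⟯.equivMap (IsScalarTower.toAlgHom κ E E₁)).trans (equivOfEq hmapb)
    exact (Algebra.finrank_eq_of_equiv_equiv ε.toRingEquiv (RingEquiv.refl E₁) (by
      ext z
      rfl)).symm
  rw [heq]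
  obtain ⟨B', rfl⟩ := hB
  rw [htower] at hM
  obtain ⟨t, ht⟩ := hM
  refine ⟨t * B', ?_⟩
  push_cast at ht ⊢
  linear_combination (B' : ℤ) * ht

end Pool.Agent.DensDeg
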