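import Pool.Agent.DensDeg.TField
import Pool.Agent.DensDeg.TNorm
import Pool.Agent.DensDeg.TClaim
import Pool.Agent.DensDeg.DvdRoot
import Pool.Agent.DensDeg.ValDeg
import Pool.Agent.MultiSpec.AsData
import Pool.Agent.CurveDeg.Multi.OneVar

/-!
The extension `E₁` of the function field of a curve in the zero set of a block.
-/

set_option autoImplicit false

namespace Pool.Agent.DensDeg

open Pool.Agent.MultiSpec Pool.Agent.CurveDeg IntermediateField WithZero

/-- Transfer of the relation between values to an equivalent valuation. -/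
lemma hval_transfer {L Γ₁ Γ₂ : Type*} [Field L] [LinearOrderedCommGroupWithZero Γ₁]
    [LinearOrderedCommGroupWithZero Γ₂] {v₁ : Valuation L Γ₁} {v₂ : Valuation L Γ₂}
    (h : v₁.IsEquiv v₂) {n M e mu : ℕ} (y : Fin (n + 1) → L) (Lm : L) (x z : Fin M → L)
    (h2 : vmax (fun i => v₂ (y i)) ^ e = v₂ Lm * ∏ j, max (v₂ (x j)) (v₂ (z j)) ^ mu) :
    vmax (fun i => v₁ (y i)) ^ e = v₁ Lm * ∏ j, max (v₁ (x j)) (v₁ (z j)) ^ mu := by
  classical
  obtain ⟨i₀, _, hi₀⟩ := Finset.exists_mem_eq_sup' Finset.univ_nonempty fun i => v₂ (y i)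
  have hv2 : vmax (fun i => v₂ (y i)) = v₂ (y i₀) := hi₀
  have hv1 : vmax (fun i => v₁ (y i)) = v₁ (y i₀) := by
    apply le_antisymm
    · refine Finset.sup'_le _ _ fun i _ => ?_
      refine (h (y i) (y i₀)).2 ?_
      rw [← hv2]
      exact Finset.le_sup' (fun i => v₂ (y i)) (Finset.mem_univ i)
    · exact Finset.le_sup' (fun i => v₁ (y i)) (Finset.mem_univ i₀)
  have ht : ∀ j, ∃ t : L, max (v₂ (x j)) (v₂ (z j)) = v₂ t ∧
      max (v₁ (x j)) (v₁ (z j)) = v₁ t := by
    intro j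
    rcases le_total (v₂ (x j)) (v₂ (z j)) with h3 | h3
    · exact ⟨z j, max_eq_right h3, max_eq_right ((h _ _).2 h3)⟩
    · exact ⟨x j, max_eq_left h3, max_eq_left ((h _ _).2 h3)⟩
  choose t ht2 ht1 using ht
  rw [hv2, Finset.prod_congr rfl fun j _ => by rw [ht2 j]] at h2
  rw [hv1, Finset.prod_congr rfl fun j _ => by rw [ht1 j]]
  have h4 : v₂ (y i₀ ^ e) = v₂ (Lm * ∏ j, t j ^ mu) := by
    rw [map_pow, map_mul, map_prod, h2]
    simp only [map_pow]
  have h5 : v₁ (y i₀ ^ e) = v₁ (Lm * ∏ j, t j ^ mu) := h.eq_iff.2 h4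
  rw [map_pow, map_mul, map_prod] at h5
  simp only [map_pow] at h5
  exact h5

/-- The relation at the places of a subfield. -/
lemma HV_place {F κ L Ω : Type*} [Field F] [Field κ] [Field L] [Field Ω] [Algebra F κ]
    [Algebra κ L] [Algebra L Ω] [Algebra F Ω] [Algebra F L] [IsScalarTower F κ L]
    [IsScalarTower F L Ω] {n M e mu : ℕ} {y : Fin (n + 1) → L} {Lm : L} {x z : Fin M → L}
    (h : ∀ V : ValuationSubring Ω, (∀ a : F, algebraMap F Ω a ∈ V) →
      HV e mu V (fun i => algebraMap L Ω (y i)) (algebraMap L Ω Lm)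
        (fun j => algebraMap L Ω (x j)) (fun j => algebraMap L Ω (z j)))
    (v : Valuation L ℤᵐ⁰) (hv : IsPl κ v) :
    vmax (fun i => v (y i)) ^ e = v Lm * ∏ j, max (v (x j)) (v (z j)) ^ mu := by
  obtain ⟨V, hV⟩ := exists_extension (F := L) (E := Ω) v.valuationSubring
  have heq : v.IsEquiv (V.valuation.comap (algebraMap L Ω)) := by
    refine Valuation.isEquiv_of_val_le_one fun {a} => ?_
    rw [Valuation.comap_apply, ValuationSubring.valuation_le_one_iff, hV a,
      Valuation.mem_valuationSubring_iff]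
  refine hval_transfer heq y Lm x z ?_
  refine h V fun a => ?_
  rw [IsScalarTower.algebraMap_apply F L Ω, hV, Valuation.mem_valuationSubring_iff,
    IsScalarTower.algebraMap_apply F κ L]
  by_cases ha : algebraMap F κ a = 0
  · rw [ha, map_zero, map_zero]; exact zero_le
  · exact (hv.2 _ ha).le

/-- **The extension.** -/
theorem exists_extT {k0 R0 F K₀ κ E : Type} [Field k0] [CharZero k0] [CommRing R0] [IsDomain R0]
    [Algebra k0 R0] [Field F] [IsAlgClosed F] [Algebra R0 F]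
    (hRF : Function.Injective (algebraMap R0 F))
    [Field K₀] [IsAlgClosed K₀] [Algebra F K₀] [Field κ] [IsAlgClosed κ] [CharZero κ]
    [Algebra K₀ κ] [Field E] [Algebra κ E] [Algebra F E] [Algebra K₀ E] [IsScalarTower F K₀ E]
    [IsScalarTower K₀ κ E] {p a n M : ℕ} (hp : p.Prime) (ha : 0 < a) (hN : 2 < p ^ a)
    (hnN : n < p ^ a) {e mu B B' : ℕ} (hmu : 0 < mu) (h2 : 2 ≤ B') (he : e + 1 ≤ B')
    (hmu' : mu ≤ B') (hB : B ≤ B') (D : Fin M → EDatum (p ^ a) n R0)
    (ζ : k0) (hζ : IsPrimitiveRoot ζ (p ^ a)) (m : Ideal R0) [m.IsPrime]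
    (hm : ∀ j, IsSpecial ((D j).map (Ideal.Quotient.mk m)) (algebraMap k0 (R0 ⧸ m) ζ))
    (hP : ∀ s : Fin M, ∃ (P : Ideal R0) (_ : P.IsPrime), P ≤ m ∧
        (∀ j, j ≠ s → IsSpecial ((D j).map (Ideal.Quotient.mk P)) (algebraMap k0 (R0 ⧸ P) ζ)) ∧
        (D s).t ∉ P)
    (c : TIdx n M → K₀) (hc : AlgebraicIndependent F c) (hone : OneVar κ E)
    (u : Fin (n + 1) → E) (hu : ∃ j, u j ≠ 0) (w : E)
    (hblock : ∃ (v : Fin (n + 1) → AlgebraicClosure E) (Lm : AlgebraicClosure E)
      (x z : Fin M → AlgebraicClosure E) (q : Fin M → LiftPt n (AlgebraicClosure E)),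
      TPt K₀ (fun j => (D j).map (algebraMap R0 F)) e mu B
        (fun i => algebraMap E (AlgebraicClosure E) (u i)) v Lm x z q ∧
      algebraMap E (AlgebraicClosure E) w =
        WT mu (fun i => algebraMap K₀ (AlgebraicClosure E) (c i)) v Lm x z q) :
    ∃ (E₁ : Type) (_ : Field E₁) (_ : Algebra κ E₁) (_ : Algebra E E₁)
      (_ : IsScalarTower κ E E₁) (_ : FiniteDimensional E E₁)
      (m' e' S : ℕ) (nn : Fin S → ℕ) (y : Fin (n + 1) → E₁) (ξ : Fin S → E₁) (Λ : E₁),
        e' * Module.finrank E E₁ ∣ e * (Nat.factorial B') ^ ((n + 1) + 2 ^ M + M + M) ∧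
        0 < m' ∧ Λ ≠ 0 ∧ (∀ j, y j ^ m' = algebraMap E E₁ (u j)) ∧
        (∀ v : Valuation E₁ ℤᵐ⁰, IsPl κ v →
          (Finset.univ.sup' Finset.univ_nonempty fun j => v (y j)) ^ e' =
            v Λ * ∏ i, max (v (ξ i)) 1 ^ nn i) ∧
        ∀ i, Transcendental κ (ξ i) →
          p ^ a ∣ Nat.factorial n * Module.finrank κ⟮ξ i⟯ E₁ := by
  classical
  have hcharE : CharZero E := charZero_of_injective_algebraMap (algebraMap κ E).injective
  set Ω := AlgebraicClosure E with hΩdef
  have hcharΩ : CharZero Ω := charZero_of_injective_algebraMap (algebraMap E Ω).injective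
  obtain ⟨v, Lm₀, x₀, z₀, q₀, hT₀, hw₀⟩ := hblock
  obtain ⟨Lm, x, z, q, hT, hxz, hTW⟩ := TPt.normalise (by omega) hnN hT₀ hmu
  have hw : algebraMap E Ω w = WT mu (fun i => algebraMap K₀ Ω (c i)) v Lm x z q := by
    rw [hTW]; exact hw₀
  obtain ⟨E₁, hfd, hdeg, hvm, hLm, hxm, hzm, hYm⟩ := exists_E1 (B' := B') hmu h2 he hmu' hB _ u
    hT hxz
  let v₁ : Fin (n + 1) → E₁ := fun i => ⟨v i, hvm i⟩
  let L₁ : E₁ := ⟨Lm, hLm⟩
  let x₁ : Fin M → E₁ := fun i => ⟨x i, hxm i⟩
  let z₁ : Fin M → E₁ := fun i => ⟨z i, hzm i⟩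
  have hL₁ : L₁ ≠ 0 := fun h => hT.hL (congrArg Subtype.val h)
  -- instances
  let _ : Algebra F κ := ((algebraMap K₀ κ).comp (algebraMap F K₀)).toAlgebra
  have iFK : IsScalarTower F K₀ κ := IsScalarTower.of_algebraMap_eq fun _ => rfl
  have iFκE : IsScalarTower F κ E := IsScalarTower.of_algebraMap_eq fun b => by
    rw [IsScalarTower.algebraMap_apply F K₀ E, IsScalarTower.algebraMap_apply K₀ κ E]
    rfl
  have iFΩ : IsScalarTower F E Ω := inferInstance
  have iFκ₁ : IsScalarTower F κ E₁ := IsScalarTower.of_algebraMap_eq fun b => by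
    apply Subtype.ext
    change algebraMap F Ω b = algebraMap κ Ω (algebraMap F κ b)
    rw [IsScalarTower.algebraMap_apply F E Ω, IsScalarTower.algebraMap_apply F κ E,
      IsScalarTower.algebraMap_apply κ E Ω]
  have i0 : IsScalarTower F E₁ Ω := IsScalarTower.of_algebraMap_eq fun _ => rfl
  have i1 : IsScalarTower F K₀ E₁ := IsScalarTower.of_algebraMap_eq fun b => by
    apply Subtype.ext
    change algebraMap F Ω b = algebraMap K₀ Ω (algebraMap F K₀ b)
    exact IsScalarTower.algebraMap_apply F K₀ Ω b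
  have i2 : IsScalarTower K₀ E₁ Ω := IsScalarTower.of_algebraMap_eq fun _ => rfl
  have i3 : IsScalarTower K₀ κ E₁ := IsScalarTower.of_algebraMap_eq fun b => by
    apply Subtype.ext
    change algebraMap K₀ Ω b = algebraMap κ Ω (algebraMap K₀ κ b)
    exact IsScalarTower.algebraMap_apply K₀ κ Ω b
  have i4 : IsScalarTower F K₀ Ω := inferInstance
  have i5 : IsGalois E₁ Ω := inferInstance
  have hxz₁ : ∀ j, z₁ j = 1 ∨ (x₁ j = 1 ∧ z₁ j = 0) := by
    intro j
    rcases hxz j with h | ⟨h, h'⟩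
    · exact Or.inl (Subtype.ext h)
    · exact Or.inr ⟨Subtype.ext h, Subtype.ext h'⟩
  refine ⟨E₁, inferInstance, inferInstance, inferInstance, inferInstance, hfd, e + 1, e, M,
    fun _ => mu, v₁, fun j => x₁ j * z₁ j, L₁, mul_dvd_mul_left e hdeg, Nat.succ_pos e, hL₁, ?_, ?_,
    ?_⟩
  · intro j
    apply Subtype.ext
    change v j ^ (e + 1) = algebraMap E Ω (u j)
    exact hT.hv j
  · intro V hV
    have h1 := HV_place (F := F) (κ := κ) (L := E₁) (Ω := Ω) (y := v₁) (Lm := L₁) (x := x₁)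
      (z := z₁) hT.hval V hV
    have h3 : ∀ j, max (V (x₁ j)) (V (z₁ j)) = max (V (x₁ j * z₁ j)) 1 := by
      intro j
      rcases hxz₁ j with h | ⟨h, h'⟩
      · rw [h, mul_one, map_one]
      · rw [h, h', mul_zero, map_zero, map_one, max_comm]
    rw [Finset.prod_congr rfl fun j _ => by rw [h3 j]] at h1
    exact h1
  · intro j htr
    have hz1 : z₁ j = 1 := by
      rcases hxz₁ j with h | ⟨_, h'⟩
      · exact h
      · exfalso
        apply htr
        change IsAlgebraic κ (x₁ j * z₁ j)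
        rw [h', mul_zero]
        exact isAlgebraic_zero
    have hξ : x₁ j * z₁ j = x₁ j := by rw [hz1, mul_one]
    change p ^ a ∣ Nat.factorial n * Module.finrank κ⟮x₁ j * z₁ j⟯ E₁
    have htr' : Transcendental κ (x₁ j) := by
      have h := htr
      change Transcendental κ (x₁ j * z₁ j) at h
      rwa [hξ] at h
    rw [hξ]
    have hfin : FiniteDimensional κ⟮x₁ j⟯ E₁ := hone.ext.finite htr'
    have htr₀ : Transcendental K₀ (x₁ j) := by
      intro h
      exact htr' (h.extendScalars (algebraMap K₀ κ).injective)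
    let φ : R0 →+* κ := (algebraMap K₀ κ).comp ((algebraMap F K₀).comp (algebraMap R0 F))
    have hφ : Function.Injective φ :=
      (algebraMap K₀ κ).injective.comp ((algebraMap F K₀).injective.comp hRF)
    have hφΩ : (algebraMap E₁ Ω).comp ((algebraMap κ E₁).comp φ) =
        (algebraMap F Ω).comp (algebraMap R0 F) := by
      ext b
      change algebraMap κ Ω (algebraMap K₀ κ (algebraMap F K₀ (algebraMap R0 F b))) = _
      rw [← IsScalarTower.algebraMap_apply K₀ κ Ω, ← IsScalarTower.algebraMap_apply F K₀ Ω]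
      rfl
    obtain ⟨P, hPp, hPm, hPs, hPt⟩ := hP j
    have hq : ∀ l, IsLift ((D l).map ((algebraMap F Ω).comp (algebraMap R0 F)))
        (x l) (z l) (q l) := by
      intro l
      have := hT.hq l
      rwa [EDatum.map_map] at this
    refine dvd_rootT (k₀ := k0) (R₀ := R0) (κ := κ) (E := E₁) (Ω := Ω) φ hφ hp ha hN hnN
      (Nat.factorial_pos n) D ζ hζ m P hPm hm j hPs hPt (x₁ j) htr' hfin x₁ z₁ q ?_ ?_
      (fun l => ⟨⟨_, hYm l⟩, rfl⟩) ?_ ?_ ?_
    · intro l
      rcases hxz₁ l with h | ⟨h, _⟩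
      · right; rw [h]; exact one_ne_zero
      · left; rw [h]; exact one_ne_zero
    · intro l
      rw [hφΩ]
      exact hq l
    · rw [hz1]; exact one_ne_zero
    · rw [hz1, mul_one]
    · intro σ ω hω hα hβ hs
      refine claimT (F := F) (K₀ := K₀) (E := E₁) (Ω := Ω) (by omega) hnN hmu
        (fun l => (D l).map (algebraMap R0 F)) c hc v₁ ?_ L₁ hL₁ x₁ z₁ ?_ q hT.hq ?_ hT.hval j
        (x₁ j) htr₀ (by rw [hz1, mul_one]) (by rw [hz1]; exact one_ne_zero)
        ⟨⟨algebraMap E Ω w, IntermediateField.algebraMap_mem _ w⟩, hw⟩ σ ω hω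
        (fun l l' j' => hs l l' j')
      · intro h
        obtain ⟨i, hi⟩ := hu
        refine hi ?_
        have h1 : v i = 0 := congrArg Subtype.val (congrFun h i)
        have h3 := hT.hv i
        rw [h1, zero_pow (Nat.succ_ne_zero e)] at h3
        exact (algebraMap E Ω).injective (by rw [map_zero]; exact h3.symm)
      · intro l
        rcases hxz₁ l with h | ⟨h, _⟩
        · right; rw [h]; exact one_ne_zero
        · left; rw [h]; exact one_ne_zero
      · intro l l'
        refine bpf (k := k0) (R := R0) ((algebraMap F Ω).comp (algebraMap R0 F)) ?_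
          (by omega) hnN (D l) ζ hζ.pow_eq_one
          (hζ.ne_one (by omega)) m (hm l) ?_ (hq l) l'
        · exact (algebraMap F Ω).injective.comp hRF
        · exact hT.hxz l

end Pool.Agent.DensDeg
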