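import Pool.Agent.DensDeg.TNorm
import Pool.Agent.DensDeg.DegStep

/-!
The field generated by the coordinates of a point of a block.
-/

set_option autoImplicit false

namespace Pool.Agent.DensDeg

open Pool.Agent.MultiSpec IntermediateField

/-- (III.1) -/
theorem exists_E1 {F K₀ E Ω : Type} [Field F] [Field K₀] [Field E] [Field Ω] [Algebra F Ω]
    [Algebra F E] [Algebra K₀ Ω] [Algebra K₀ E] [Algebra E Ω] [IsScalarTower F E Ω]
    [IsScalarTower K₀ E Ω] {n M N e mu B B' : ℕ} (hmu : 0 < mu) (h2 : 2 ≤ B') (he : e + 1 ≤ B')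
    (hmu' : mu ≤ B') (hB : B ≤ B') (D : Fin M → EDatum N n F) (u : Fin (n + 1) → E)
    {v : Fin (n + 1) → Ω} {Lm : Ω} {x z : Fin M → Ω} {q : Fin M → LiftPt n Ω}
    (h : TPt K₀ D e mu B (fun i => algebraMap E Ω (u i)) v Lm x z q)
    (hxz : ∀ j, z j = 1 ∨ (x j = 1 ∧ z j = 0)) :
    ∃ E₁ : IntermediateField E Ω, FiniteDimensional E E₁ ∧
      Module.finrank E E₁ ∣ (Nat.factorial B') ^ ((n + 1) + 2 ^ M + M + M) ∧
      (∀ i, v i ∈ E₁) ∧ Lm ∈ E₁ ∧ (∀ j, x j ∈ E₁) ∧ (∀ j, z j ∈ E₁) ∧ ∀ j, (q j).Y ∈ E₁ := by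
  classical
  -- the four stages
  set θ : (Fin M → Bool) → Ω := fun ε => Lm * ∏ j, (if ε j then x j else z j) ^ mu with hθ
  set T₁ : Finset Ω := Finset.univ.image v with hT₁
  set T₂ : Finset Ω := Finset.univ.image θ with hT₂
  set T₃ : Finset Ω := Finset.univ.image x with hT₃
  set T₄ : Finset Ω := Finset.univ.image (fun j => (q j).Y) with hT₄
  set K₁ : IntermediateField E Ω := adjoin E (T₁ : Set Ω) with hK₁
  obtain ⟨f1, d1⟩ := finrank_adjoin_dvd (E := E) (Ω := Ω) B' T₁ (by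
    intro y hy
    obtain ⟨i, -, rfl⟩ := Finset.mem_image.1 hy
    refine ⟨Polynomial.X ^ (e + 1) - Polynomial.C (u i),
      Polynomial.X_pow_sub_C_ne_zero (Nat.succ_pos e) _, ?_, ?_⟩
    · rw [Polynomial.natDegree_X_pow_sub_C]; exact he
    · rw [map_sub, map_pow, Polynomial.aeval_X, Polynomial.aeval_C, h.hv i, sub_self])
  have hv₁ : ∀ i, v i ∈ K₁ := fun i => subset_adjoin _ _
    (Finset.mem_coe.2 (Finset.mem_image_of_mem v (Finset.mem_univ i)))
  have hKE : ∀ (K : IntermediateField E Ω) (a : K₀), algebraMap K₀ Ω a ∈ K := by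
    intro K a
    rw [IsScalarTower.algebraMap_apply K₀ E Ω]
    exact K.algebraMap_mem _
  have hadj : ∀ a : Algebra.adjoin K₀ (Set.range v), algebraMap _ Ω a ∈ K₁ := by
    rintro ⟨a, ha⟩
    change a ∈ K₁
    induction ha using Algebra.adjoin_induction with
    | mem a ha =>
      obtain ⟨i, rfl⟩ := ha
      exact hv₁ i
    | algebraMap a => exact hKE K₁ a
    | add a b _ _ iha ihb => exact add_mem iha ihb
    | mul a b _ _ iha ihb => exact mul_mem iha ihb
  obtain ⟨f2, d2⟩ := finrank_sup_dvd (E := E) (Ω := Ω) B' K₁ T₂ (by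
    intro y hy
    obtain ⟨ε, -, rfl⟩ := Finset.mem_image.1 hy
    exact (Small.of_monic hadj (h.hdeg ε)).mono hB)
  set K₂ : IntermediateField E Ω := K₁ ⊔ adjoin E (T₂ : Set Ω) with hK₂
  have hθ₂ : ∀ ε, θ ε ∈ K₂ := fun ε => (le_sup_right : adjoin E (T₂ : Set Ω) ≤ K₂)
    (subset_adjoin _ _ (Finset.mem_coe.2 (Finset.mem_image_of_mem θ (Finset.mem_univ ε))))
  -- the scale factor
  set ε₀ : Fin M → Bool := fun j => decide (z j = 0) with hε₀
  have hsel : ∀ j, (if ε₀ j then x j else z j) = 1 := by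
    intro j
    by_cases hz : z j = 0
    · have : ε₀ j = true := by simp [hε₀, hz]
      rw [if_pos this]
      rcases hxz j with h1 | ⟨h1, _⟩
      · rw [hz] at h1; exact absurd h1 zero_ne_one
      · exact h1
    · have : ¬ (ε₀ j = true) := by simp [hε₀, hz]
      rw [if_neg this]
      rcases hxz j with h1 | ⟨_, h1⟩
      · exact h1
      · exact absurd h1 hz
  have hL₂ : Lm ∈ K₂ := by
    have h1 := hθ₂ ε₀
    have h3 : θ ε₀ = Lm := by
      simp only [hθ]
      rw [Finset.prod_eq_one fun j _ => by rw [hsel j, one_pow], mul_one]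
    rwa [h3] at h1
  have hx₂ : ∀ j, x j ^ mu ∈ K₂ := by
    intro j
    rcases hxz j with h1 | ⟨h1, _⟩
    · have h3 : θ (Function.update ε₀ j true) = Lm * x j ^ mu := by
        simp only [hθ]
        congr 1
        rw [Finset.prod_eq_single j]
        · rw [Function.update_self, if_pos rfl]
        · intro i _ hij
          rw [Function.update_of_ne hij, hsel i, one_pow]
        · intro h; exact absurd (Finset.mem_univ j) h
      have h4 : x j ^ mu = θ (Function.update ε₀ j true) / Lm := by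
        rw [h3, mul_comm, mul_div_assoc, div_self h.hL, mul_one]
      rw [h4]
      exact div_mem (hθ₂ _) hL₂
    · rw [h1, one_pow]; exact one_mem _
  obtain ⟨f3, d3⟩ := finrank_sup_dvd (E := E) (Ω := Ω) B' K₂ T₃ (by
    intro y hy
    obtain ⟨j, -, rfl⟩ := Finset.mem_image.1 hy
    exact (Small.of_pow hmu (hx₂ j)).mono hmu')
  set K₃ : IntermediateField E Ω := K₂ ⊔ adjoin E (T₃ : Set Ω) with hK₃
  have hx₃ : ∀ j, x j ∈ K₃ := fun j => (le_sup_right : adjoin E (T₃ : Set Ω) ≤ K₃)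
    (subset_adjoin _ _ (Finset.mem_coe.2 (Finset.mem_image_of_mem x (Finset.mem_univ j))))
  have hz₃ : ∀ j, z j ∈ K₃ := by
    intro j
    rcases hxz j with h1 | ⟨_, h1⟩
    · rw [h1]; exact one_mem _
    · rw [h1]; exact zero_mem _
  have hY₃ : ∀ j, (q j).Y ^ 2 ∈ K₃ := by
    intro j
    rw [(h.hq j).hY]
    have h1 : ((D j).map (algebraMap F Ω)).F = MvPolynomial.map (algebraMap F Ω) (D j).F :=
      (map_quar _ _ _ _).symm
    have h3 : (D j).F.map (algebraMap F Ω) = ((D j).F.map (algebraMap F K₃)).map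
        (algebraMap K₃ Ω) := by
      rw [MvPolynomial.map_map]
      rfl
    have h4 := ev_map (algebraMap K₃ Ω) (⟨x j, hx₃ j⟩ : K₃) ⟨z j, hz₃ j⟩
      ((D j).F.map (algebraMap F K₃))
    rw [h1, h3]
    have h5 : ev (x j) (z j) ((((D j).F.map (algebraMap F K₃)).map (algebraMap K₃ Ω))) =
        algebraMap K₃ Ω (ev (⟨x j, hx₃ j⟩ : K₃) ⟨z j, hz₃ j⟩ ((D j).F.map (algebraMap F K₃))) := h4
    rw [h5]
    exact Subtype.property _
  obtain ⟨f4, d4⟩ := finrank_sup_dvd (E := E) (Ω := Ω) B' K₃ T₄ (by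
    intro y hy
    obtain ⟨j, -, rfl⟩ := Finset.mem_image.1 hy
    exact (Small.of_pow two_pos (hY₃ j)).mono h2)
  set K₄ : IntermediateField E Ω := K₃ ⊔ adjoin E (T₄ : Set Ω) with hK₄
  have h34 : K₃ ≤ K₄ := le_sup_left
  have h23 : K₂ ≤ K₃ := le_sup_left
  have h12 : K₁ ≤ K₂ := le_sup_left
  refine ⟨K₄, f4, ?_, fun i => h34 (h23 (h12 (hv₁ i))), h34 (h23 hL₂), fun j => h34 (hx₃ j),
    fun j => h34 (hz₃ j), fun j => (le_sup_right : adjoin E (T₄ : Set Ω) ≤ K₄)
    (subset_adjoin _ _ (Finset.mem_coe.2 (Finset.mem_image_of_mem _ (Finset.mem_univ j))))⟩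
  have c1 : T₁.card ≤ n + 1 := Finset.card_image_le.trans (by simp)
  have c2 : T₂.card ≤ 2 ^ M := Finset.card_image_le.trans (by simp)
  have c3 : T₃.card ≤ M := Finset.card_image_le.trans (by simp)
  have c4 : T₄.card ≤ M := Finset.card_image_le.trans (by simp)
  have e1 := d1.trans (pow_dvd_pow _ c1)
  have e2 := d2.trans (mul_dvd_mul e1 (pow_dvd_pow _ c2))
  have e3 := d3.trans (mul_dvd_mul e2 (pow_dvd_pow _ c3))
  have e4 := d4.trans (mul_dvd_mul e3 (pow_dvd_pow _ c4))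
  rw [← pow_add, ← pow_add, ← pow_add] at e4
  exact e4

end Pool.Agent.DensDeg
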