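import Mathlib
import Pool.Agent.DensDeg.Defs

/-!
(II.3), first half: the minimal form of an element `W` whose values are bounded by those of the
generic vector `u`.
-/

set_option autoImplicit false

namespace Pool.Agent.DensDeg

open MvPolynomial

section Vals

private theorem TFormA_vmax_le {ι Γ : Type*} [Fintype ι] [Nonempty ι] [LinearOrder Γ] {f : ι → Γ}
    {a : Γ} (h : ∀ i, f i ≤ a) : vmax f ≤ a := Finset.sup'_le _ _ (fun i _ => h i)

private theorem TFormA_le_vmax {ι Γ : Type*} [Fintype ι] [Nonempty ι] [LinearOrder Γ]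
    (f : ι → Γ) (i : ι) : f i ≤ vmax f := Finset.le_sup' f (Finset.mem_univ i)

private theorem TFormA_exists_vmax {ι Γ : Type*} [Fintype ι] [Nonempty ι] [LinearOrder Γ]
    (f : ι → Γ) : ∃ i, vmax f = f i := by
  obtain ⟨i, _, hi⟩ := Finset.exists_mem_eq_sup' (Finset.univ_nonempty (α := ι)) f
  exact ⟨i, hi⟩

variable {L : Type} [Field L]

/-- integrality from valuations -/
private theorem TFormA_isIntegral_of_forall {s : Set L} {x : L}
    (h : ∀ V : ValuationSubring L, s ⊆ V → x ∈ V) : IsIntegral (Subring.closure s) x := by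
  have h1 : x ∈ (integralClosure (Subring.closure s) L).toSubring := by
    rw [← iInf_valuationSubring_superset, Subring.mem_iInf]
    rintro ⟨V, hV⟩
    exact h V hV
  exact h1

end Vals

/-! ### Homogeneity -/

section Homog

variable {K₀ : Type} [Field K₀] {n : ℕ}

/-- the homogenising map -/
private noncomputable def TFormA_Phi (K₀ : Type) [Field K₀] (n : ℕ) :
    MvPolynomial (Fin (n + 1)) K₀ →+* Polynomial (MvPolynomial (Fin (n + 1)) K₀) :=
  eval₂Hom (Polynomial.C.comp C) (fun j => Polynomial.C (X j) * Polynomial.X)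

private theorem TFormA_Phi_hom {M : ℕ} {A : MvPolynomial (Fin (n + 1)) K₀}
    (hA : A.IsHomogeneous M) : TFormA_Phi K₀ n A = Polynomial.C A * Polynomial.X ^ M := by
  classical
  conv_lhs => rw [A.as_sum]
  conv_rhs => rw [A.as_sum]
  rw [map_sum, map_sum, Finset.sum_mul]
  refine Finset.sum_congr rfl fun d hd => ?_
  have hdeg : d.degree = M := by
    by_contra hne
    exact (mem_support_iff.1 hd) (hA.coeff_eq_zero hne)
  have h1 : TFormA_Phi K₀ n (monomial d (coeff d A)) =
      Polynomial.C (C (coeff d A)) * d.prod fun j k => (Polynomial.C (X j) * Polynomial.X) ^ k := by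
    unfold TFormA_Phi
    rw [coe_eval₂Hom, eval₂_monomial]
    rfl
  rw [h1, monomial_eq, Polynomial.C_mul]
  rw [mul_assoc]
  congr 1
  simp only [Finsupp.prod, mul_pow, Finset.prod_mul_distrib, map_prod, map_pow]
  congr 1
  rw [Finset.prod_pow_eq_pow_sum, ← hdeg]
  rfl

private theorem TFormA_Phi_coeff (f : MvPolynomial (Fin (n + 1)) K₀) (d : ℕ) :
    (TFormA_Phi K₀ n f).coeff d = homogeneousComponent d f := by
  classical
  have h1 : TFormA_Phi K₀ n f = ∑ e ∈ Finset.range (f.totalDegree + 1),
      Polynomial.C (homogeneousComponent e f) * Polynomial.X ^ e := by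
    conv_lhs => rw [← sum_homogeneousComponent f]
    rw [map_sum]
    exact Finset.sum_congr rfl fun e _ => TFormA_Phi_hom (homogeneousComponent_isHomogeneous e f)
  rw [h1, Polynomial.finsetSum_coeff]
  simp only [Polynomial.coeff_C_mul, Polynomial.coeff_X_pow, mul_ite, mul_one, mul_zero]
  rw [Finset.sum_ite_eq]
  split_ifs with h
  · rfl
  · rw [Finset.mem_range, not_lt] at h
    exact (homogeneousComponent_eq_zero d f (by omega)).symm

private theorem TFormA_homog_of_Phi {f : MvPolynomial (Fin (n + 1)) K₀} {i : ℕ}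
    (h : ∀ d, d ≠ i → (TFormA_Phi K₀ n f).coeff d = 0) : f.IsHomogeneous i := by
  classical
  have h1 : f = homogeneousComponent i f := by
    conv_lhs => rw [← sum_homogeneousComponent f]
    by_cases hi : i ∈ Finset.range (f.totalDegree + 1)
    · rw [Finset.sum_eq_single_of_mem i hi]
      intro d _ hd
      rw [← TFormA_Phi_coeff, h d hd]
    · rw [Finset.sum_eq_zero]
      · rw [Finset.mem_range, not_lt] at hi
        exact (homogeneousComponent_eq_zero i f (by omega)).symm
      · intro d hd
        rw [← TFormA_Phi_coeff]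
        exact h d (fun hdi => hi (hdi ▸ hd))
  rw [h1]
  exact homogeneousComponent_isHomogeneous i f

/-- if a polynomial `F` satisfies a monic homogeneous equation relative to `X ^ i` then it is a
multiple of `X ^ i` -/
private theorem TFormA_monic_eq {R : Type*} [CommRing R] [IsDomain R] {F : Polynomial R} {i k : ℕ}
    {a : R} (ha : a ≠ 0) (b : ℕ → R)
    (h : Polynomial.C a * F ^ k + ∑ l ∈ Finset.range k,
      Polynomial.C (b l) * F ^ l * Polynomial.X ^ (i * (k - l)) = 0) :
    ∀ d, d ≠ i → F.coeff d = 0 := by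
  classical
  by_cases hF : F = 0
  · intro d _; rw [hF]; simp
  by_cases hk : k = 0
  · subst hk
    exfalso
    apply ha
    simpa using h
  -- upper bound
  have hup : F.natDegree ≤ i := by
    by_contra hcon
    push Not at hcon
    have h1 := congrArg (fun p => Polynomial.coeff p (k * F.natDegree)) h
    simp only [Polynomial.coeff_add, Polynomial.finsetSum_coeff, Polynomial.coeff_zero] at h1
    have h2 : (Polynomial.C a * F ^ k).coeff (k * F.natDegree) = a * F.leadingCoeff ^ k := by
      rw [Polynomial.coeff_C_mul]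
      have := Polynomial.leadingCoeff_pow F k
      rw [Polynomial.leadingCoeff, Polynomial.natDegree_pow] at this
      rw [this]
    rw [h2, Finset.sum_eq_zero, add_zero] at h1
    · exact (mul_ne_zero ha (pow_ne_zero _ (Polynomial.leadingCoeff_ne_zero.2 hF))) h1
    · intro l hl
      rw [Finset.mem_range] at hl
      apply Polynomial.coeff_eq_zero_of_natDegree_lt
      refine lt_of_le_of_lt Polynomial.natDegree_mul_le ?_
      refine lt_of_le_of_lt (add_le_add Polynomial.natDegree_mul_le le_rfl) ?_
      rw [Polynomial.natDegree_C, zero_add, Polynomial.natDegree_pow, Polynomial.natDegree_X_pow]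
      have h3 : k * F.natDegree = l * F.natDegree + F.natDegree * (k - l) := by
        rw [mul_comm F.natDegree, ← add_mul]
        congr 1
        omega
      rw [h3]
      have h4 : i * (k - l) < F.natDegree * (k - l) :=
        Nat.mul_lt_mul_of_pos_right hcon (by omega)
      omega
  -- lower bound
  have hlow : i ≤ F.natTrailingDegree := by
    by_contra hcon
    push Not at hcon
    have h1 := congrArg (fun p => Polynomial.coeff p (k * F.natTrailingDegree)) h
    simp only [Polynomial.coeff_add, Polynomial.finsetSum_coeff, Polynomial.coeff_zero] at h1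
    have h2 : (Polynomial.C a * F ^ k).coeff (k * F.natTrailingDegree) = a * F.trailingCoeff ^ k := by
      rw [Polynomial.coeff_C_mul]
      congr 1
      have h5 : (F ^ k).natTrailingDegree = k * F.natTrailingDegree := by
        clear h h1 hup hcon hk
        induction k with
        | zero => simp
        | succ k ih => rw [pow_succ, Polynomial.natTrailingDegree_mul (pow_ne_zero _ hF) hF, ih]; ring
      have h6 : (F ^ k).trailingCoeff = F.trailingCoeff ^ k := by
        clear h h1 h5 hup hcon hk
        induction k with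
        | zero =>
          rw [pow_zero, pow_zero, Polynomial.trailingCoeff, Polynomial.natTrailingDegree_one]
          simp
        | succ k ih => rw [pow_succ, Polynomial.trailingCoeff_mul, ih, pow_succ]
      rw [← h5, ← h6]
      rfl
    rw [h2, Finset.sum_eq_zero, add_zero] at h1
    · exact (mul_ne_zero ha (pow_ne_zero _ (Polynomial.trailingCoeff_nonzero_iff_nonzero.2 hF))) h1
    · intro l hl
      rw [Finset.mem_range] at hl
      have h3 : k * F.natTrailingDegree = l * F.natTrailingDegree + F.natTrailingDegree * (k - l) := by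
        rw [mul_comm F.natTrailingDegree, ← add_mul]
        congr 1
        omega
      have h4 : F.natTrailingDegree * (k - l) < i * (k - l) :=
        Nat.mul_lt_mul_of_pos_right hcon (by omega)
      -- F = X ^ e * G
      have h7 : (Polynomial.X : Polynomial R) ^ (l * F.natTrailingDegree + i * (k - l)) ∣
          Polynomial.C (b l) * F ^ l * Polynomial.X ^ (i * (k - l)) := by
        rw [pow_add]
        refine mul_dvd_mul ?_ dvd_rfl
        refine Dvd.dvd.mul_left ?_ _
        rw [mul_comm, pow_mul]
        exact pow_dvd_pow_of_dvd (Polynomial.X_pow_dvd_iff.2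
          (fun d hd => Polynomial.coeff_eq_zero_of_lt_natTrailingDegree hd)) _
      exact (Polynomial.X_pow_dvd_iff.1 h7) _ (by omega)
  intro d hd
  rcases lt_or_gt_of_ne hd with h1 | h1
  · exact Polynomial.coeff_eq_zero_of_lt_natTrailingDegree (by omega)
  · exact Polynomial.coeff_eq_zero_of_natDegree_lt (by omega)

private theorem TFormA_factor {R : Type*} [CommRing R] [IsDomain R] (x : R) (F : Polynomial R) (a : ℕ → R)
    (M : ℕ → ℕ) (M0 i k : ℕ) (hM : ∀ l ∈ Finset.range k, M l ≤ M0)
    (h3 : (Polynomial.C x * Polynomial.X) ^ M0 * F ^ k + ∑ l ∈ Finset.range k,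
      ((Polynomial.C x * Polynomial.X) ^ (M0 - M l) * (Polynomial.C (a l) * Polynomial.X ^ (M l))) *
        F ^ l * (Polynomial.C x * Polynomial.X) ^ (i * (k - l)) = 0) :
    Polynomial.C (x ^ M0) * F ^ k + ∑ l ∈ Finset.range k,
        Polynomial.C (x ^ (M0 - M l) * a l * x ^ (i * (k - l))) * F ^ l *
          Polynomial.X ^ (i * (k - l)) = 0 := by
  have h4 : (Polynomial.X : Polynomial R) ^ M0 *
      (Polynomial.C (x ^ M0) * F ^ k + ∑ l ∈ Finset.range k,
        Polynomial.C (x ^ (M0 - M l) * a l * x ^ (i * (k - l))) * F ^ l *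
          Polynomial.X ^ (i * (k - l))) = 0 := by
    refine Eq.trans ?_ h3
    rw [mul_add, Finset.mul_sum]
    have e1 : (Polynomial.X : Polynomial R) ^ M0 * (Polynomial.C (x ^ M0) * F ^ k) =
        (Polynomial.C x * Polynomial.X) ^ M0 * F ^ k := by
      rw [mul_pow, map_pow]; ring
    have e2 : ∀ l ∈ Finset.range k, (Polynomial.X : Polynomial R) ^ M0 *
        (Polynomial.C (x ^ (M0 - M l) * a l * x ^ (i * (k - l))) * F ^ l *
          Polynomial.X ^ (i * (k - l))) =
        ((Polynomial.C x * Polynomial.X) ^ (M0 - M l) * (Polynomial.C (a l) * Polynomial.X ^ (M l))) *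
        F ^ l * (Polynomial.C x * Polynomial.X) ^ (i * (k - l)) := by
      intro l hl
      have h5 : M0 = (M0 - M l) + M l := by
        have := hM l hl
        omega
      have h7 : (Polynomial.X : Polynomial R) ^ M0 =
          Polynomial.X ^ (M0 - M l) * Polynomial.X ^ (M l) := by
        rw [← pow_add, ← h5]
      rw [h7, mul_pow, mul_pow, map_mul, map_mul, map_pow, map_pow]
      ring
    rw [e1, Finset.sum_congr rfl e2]
  rcases mul_eq_zero.1 h4 with h | h
  · exact absurd h (pow_ne_zero _ Polynomial.X_ne_zero)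
  · exact h

end Homog

/-- **Homogeneity.** -/
theorem homogeneous_of_bound {K₀ L : Type} [Field K₀] [Field L] [Algebra K₀ L] {n : ℕ}
    (u : Fin (n + 1) → L) (hu : AlgebraicIndependent K₀ u) (i : ℕ)
    (f : MvPolynomial (Fin (n + 1)) K₀)
    (hf : ∀ V : ValuationSubring L, (∀ a : K₀, algebraMap K₀ L a ∈ V) →
      V.valuation (aeval u f) ≤ vmax (fun j => V.valuation (u j)) ^ i) : f.IsHomogeneous i := by
  classical
  have hinj : Function.Injective (aeval u : MvPolynomial (Fin (n + 1)) K₀ →ₐ[K₀] L) :=
    algebraicIndependent_iff_injective_aeval.1 hu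
  have hu0 : u 0 ≠ 0 := hu.ne_zero 0
  set s : Set L := Set.range (algebraMap K₀ L) ∪ Set.range (fun j => u j / u 0) with hs
  set y : L := aeval u f / u 0 ^ i with hy
  have hint : IsIntegral (Subring.closure s) y := by
    apply TFormA_isIntegral_of_forall
    intro V hV
    have hK : ∀ a : K₀, algebraMap K₀ L a ∈ V := fun a => hV (Or.inl ⟨a, rfl⟩)
    have hle : ∀ j, V.valuation (u j) ≤ V.valuation (u 0) := by
      intro j
      have h1 : u j / u 0 ∈ V := hV (Or.inr ⟨j, rfl⟩)
      rw [← V.valuation_le_one_iff, map_div₀] at h1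
      exact (div_le_one₀ (by rw [zero_lt_iff]; exact (Valuation.ne_zero_iff _).2 hu0)).1 h1
    rw [← V.valuation_le_one_iff, hy, map_div₀, map_pow]
    have hpos : 0 < V.valuation (u 0) ^ i := by
      rw [zero_lt_iff]
      exact pow_ne_zero _ ((Valuation.ne_zero_iff _).2 hu0)
    rw [div_le_one₀ hpos]
    exact (hf V hK).trans (pow_le_pow_left₀ zero_le (TFormA_vmax_le hle) i)
  -- elements of the ring
  have hcl : ∀ a ∈ Subring.closure s, ∃ M : ℕ, ∃ A : MvPolynomial (Fin (n + 1)) K₀,
      A.IsHomogeneous M ∧ aeval u A = u 0 ^ M * a := by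
    intro a ha
    induction ha using Subring.closure_induction with
    | mem x hx =>
      rcases hx with ⟨c, rfl⟩ | ⟨j, rfl⟩
      · exact ⟨0, C c, isHomogeneous_C _ c, by rw [aeval_C]; simp⟩
      · refine ⟨1, X j, isHomogeneous_X _ j, ?_⟩
        rw [aeval_X]
        field_simp
    | zero => exact ⟨0, 0, isHomogeneous_zero _ _ _, by simp⟩
    | one => exact ⟨0, 1, isHomogeneous_one _ _, by simp⟩
    | add x y _ _ hx hy =>
      obtain ⟨M1, A1, h1, e1⟩ := hx
      obtain ⟨M2, A2, h2, e2⟩ := hy
      refine ⟨M1 + M2, X 0 ^ M2 * A1 + X 0 ^ M1 * A2, ?_, ?_⟩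
      · refine IsHomogeneous.add ?_ ?_
        · rw [Nat.add_comm M1 M2]; exact (isHomogeneous_X_pow _ _).mul h1
        · exact (isHomogeneous_X_pow _ _).mul h2
      · simp only [map_add, map_mul, map_pow, aeval_X, e1, e2]
        ring
    | neg x _ hx =>
      obtain ⟨M, A, h, e⟩ := hx
      exact ⟨M, -A, h.neg, by rw [map_neg, e]; ring⟩
    | mul x y _ _ hx hy =>
      obtain ⟨M1, A1, h1, e1⟩ := hx
      obtain ⟨M2, A2, h2, e2⟩ := hy
      refine ⟨M1 + M2, A1 * A2, h1.mul h2, ?_⟩
      rw [map_mul, e1, e2]; ring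
  obtain ⟨p, hp, hpy⟩ := hint
  set k := p.natDegree with hk
  have hch : ∀ l : ℕ, ∃ M : ℕ, ∃ A : MvPolynomial (Fin (n + 1)) K₀,
      A.IsHomogeneous M ∧ aeval u A = u 0 ^ M * (p.coeff l : L) := fun l => hcl _ (p.coeff l).2
  choose M A hA hAe using hch
  set M0 : ℕ := ∑ l ∈ Finset.range k, M l with hM0
  have hMle : ∀ l ∈ Finset.range k, M l ≤ M0 := fun l hl =>
    Finset.single_le_sum (f := M) (fun _ _ => Nat.zero_le _) hl
  -- the monic equation in L
  have h1 : y ^ k + ∑ l ∈ Finset.range k, (p.coeff l : L) * y ^ l = 0 := by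
    rw [Polynomial.eval₂_eq_sum_range, Finset.sum_range_succ] at hpy
    have h2 : p.coeff p.natDegree = 1 := hp
    rw [h2, map_one, one_mul] at hpy
    rw [add_comm]
    exact hpy
  -- the polynomial identity
  have h2 : (X 0 : MvPolynomial (Fin (n + 1)) K₀) ^ M0 * f ^ k + ∑ l ∈ Finset.range k,
      (X 0 ^ (M0 - M l) * A l) * f ^ l * X 0 ^ (i * (k - l)) = 0 := by
    apply hinj
    rw [map_zero]
    simp only [map_add, map_mul, map_pow, map_sum, aeval_X, hAe]
    have h3 : aeval u f = y * u 0 ^ i := by
      rw [hy]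
      field_simp
    rw [h3]
    have h4 : u 0 ^ M0 * (y * u 0 ^ i) ^ k + ∑ l ∈ Finset.range k,
        u 0 ^ (M0 - M l) * (u 0 ^ M l * (p.coeff l : L)) * (y * u 0 ^ i) ^ l * u 0 ^ (i * (k - l)) =
        u 0 ^ (M0 + i * k) * (y ^ k + ∑ l ∈ Finset.range k, (p.coeff l : L) * y ^ l) := by
      rw [mul_add, Finset.mul_sum]
      congr 1
      · rw [mul_pow, ← pow_mul, pow_add]; ring
      · refine Finset.sum_congr rfl fun l hl => ?_
        have h5 : M0 = (M0 - M l) + M l := by
          have := hMle l hl
          omega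
        have h6 : i * k = i * l + i * (k - l) := by
          rw [← mul_add]
          congr 1
          have := Finset.mem_range.1 hl
          omega
        have h7 : u 0 ^ (M0 + i * k) = u 0 ^ (M0 - M l) * u 0 ^ (M l) * (u 0 ^ (i * l) * u 0 ^ (i * (k - l))) := by
          rw [← pow_add, ← pow_add, ← pow_add, ← h5, ← h6]
        rw [h7, mul_pow, ← pow_mul]
        ring
    rw [h4, h1, mul_zero]
  -- homogenise
  have h3 := congrArg (TFormA_Phi K₀ n) h2
  simp only [map_add, map_mul, map_pow, map_sum, map_zero] at h3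
  have hX0 : TFormA_Phi K₀ n (X 0) = Polynomial.C (X 0) * Polynomial.X ^ 1 :=
    TFormA_Phi_hom (isHomogeneous_X _ 0)
  have hAl : ∀ l, TFormA_Phi K₀ n (A l) = Polynomial.C (A l) * Polynomial.X ^ (M l) := fun l =>
    TFormA_Phi_hom (hA l)
  rw [hX0, pow_one] at h3
  simp only [hAl] at h3
  have h5 := TFormA_factor (X 0 : MvPolynomial (Fin (n + 1)) K₀) (TFormA_Phi K₀ n f) A M M0 i k hMle h3
  exact TFormA_homog_of_Phi (TFormA_monic_eq (a := (X 0) ^ M0) (pow_ne_zero _ (X_ne_zero (0 : Fin (n + 1))))
    (fun l => (X 0) ^ (M0 - M l) * A l * (X 0) ^ (i * (k - l))) h5)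

/-! ### The minimal form -/

section MinForm

private theorem TFormA_coeff_prod {L : Type} [Field L] (V : ValuationSubring L) (s : Multiset L)
    (M : V.ValueGroup) (hs : ∀ w ∈ s, V.valuation w ≤ M) :
    ∀ k ≤ Multiset.card s, V.valuation
      ((s.map fun w => Polynomial.X - Polynomial.C w).prod.coeff k) ≤ M ^ (Multiset.card s - k) := by
  induction s using Multiset.induction_on with
  | empty =>
    intro k hk
    rw [Multiset.card_zero, Nat.le_zero] at hk
    subst hk
    simp
  | cons a s ih =>
    intro k hk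
    have ih' := ih (fun w hw => hs w (Multiset.mem_cons_of_mem hw))
    have ha := hs a (Multiset.mem_cons_self a s)
    rw [Multiset.card_cons] at hk ⊢
    rw [Multiset.map_cons, Multiset.prod_cons, mul_comm]
    set P := (s.map fun w => Polynomial.X - Polynomial.C w).prod with hP
    cases k with
    | zero =>
      rw [Polynomial.mul_coeff_zero]
      have h1 : (Polynomial.X - Polynomial.C a : Polynomial L).coeff 0 = -a := by simp
      rw [h1, map_mul, Valuation.map_neg, Nat.sub_zero, pow_succ]
      exact mul_le_mul' (by simpa using ih' 0 (Nat.zero_le _)) ha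
    | succ k =>
      rw [Polynomial.coeff_mul_X_sub_C]
      refine (V.valuation.map_sub _ _).trans (max_le ?_ ?_)
      · rw [Nat.add_sub_add_right]
        exact ih' k (by omega)
      · rw [map_mul, Nat.add_sub_add_right]
        rcases Nat.lt_or_ge (Multiset.card s) (k + 1) with h | h
        · have h2 : P.coeff (k + 1) = 0 := by
            apply Polynomial.coeff_eq_zero_of_natDegree_lt
            rw [hP, Polynomial.natDegree_multiset_prod_X_sub_C_eq_card]
            exact h
          rw [h2, map_zero, zero_mul]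
          exact zero_le
        · have h3 : Multiset.card s - k = (Multiset.card s - (k + 1)) + 1 := by omega
          rw [h3, pow_succ]
          exact mul_le_mul' (ih' (k + 1) h) ha

variable {K₀ L : Type} [Field K₀] [Field L] [Algebra K₀ L] {n : ℕ}

/-- conjugates satisfy the same bound -/
private theorem TFormA_conj {u : Fin (n + 1) → L} {W : L}
    (hW : ∀ V : ValuationSubring L, (∀ a : K₀, algebraMap K₀ L a ∈ V) →
      V.valuation W ≤ vmax (fun j => V.valuation (u j))) (hu0 : ∀ j, u j ≠ 0)
    (σ : L →+* L) (hσ : ∀ a : K₀, σ (algebraMap K₀ L a) = algebraMap K₀ L a) (hσu : ∀ j, σ (u j) = u j)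
    (V : ValuationSubring L) (hV : ∀ a : K₀, algebraMap K₀ L a ∈ V) :
    V.valuation (σ W) ≤ vmax (fun j => V.valuation (u j)) := by
  have h1 := hW (V.comap σ) (fun a => by rw [ValuationSubring.mem_comap, hσ]; exact hV a)
  obtain ⟨j, hj⟩ := TFormA_exists_vmax (fun j => (V.comap σ).valuation (u j))
  rw [hj] at h1
  have h2 : W / u j ∈ V.comap σ := by
    rw [← ValuationSubring.valuation_le_one_iff, map_div₀]
    exact (div_le_one₀ (by rw [zero_lt_iff]; exact (Valuation.ne_zero_iff _).2 (hu0 j))).2 h1
  rw [ValuationSubring.mem_comap, map_div₀, hσu, ← ValuationSubring.valuation_le_one_iff,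
    map_div₀] at h2
  have h3 := (div_le_one₀ (by rw [zero_lt_iff]; exact (Valuation.ne_zero_iff _).2 (hu0 j))).1 h2
  exact h3.trans (TFormA_le_vmax (fun j => V.valuation (u j)) j)

open scoped IntermediateField.algebraAdjoinAdjoin in
private theorem TFormA_minpoly {u : Fin (n + 1) → L} (hu : AlgebraicIndependent K₀ u) {W : L}
    (hW : IsIntegral (Algebra.adjoin K₀ (Set.range u)) W) :
    minpoly (IntermediateField.adjoin K₀ (Set.range u)) W =
      (minpoly (Algebra.adjoin K₀ (Set.range u)) W).map
        (algebraMap (Algebra.adjoin K₀ (Set.range u)) (IntermediateField.adjoin K₀ (Set.range u))) := by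
  have : IsIntegrallyClosed (Algebra.adjoin K₀ (Set.range u)) :=
    IsIntegrallyClosed.of_equiv (hu.aevalEquiv : MvPolynomial (Fin (n + 1)) K₀ ≃+* _)
  exact minpoly.isIntegrallyClosed_eq_field_fractions' _ hW

open scoped IntermediateField.algebraAdjoinAdjoin in
/-- the bound for the coefficients of the minimal polynomial -/
private theorem TFormA_coeff_bound [IsAlgClosed L] {u : Fin (n + 1) → L}
    (hu : AlgebraicIndependent K₀ u)
    (halg : Algebra.IsAlgebraic (IntermediateField.adjoin K₀ (Set.range u)) L) {W : L}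
    (hW : ∀ V : ValuationSubring L, (∀ a : K₀, algebraMap K₀ L a ∈ V) →
      V.valuation W ≤ vmax (fun j => V.valuation (u j)))
    (hWB : IsIntegral (Algebra.adjoin K₀ (Set.range u)) W) {m : ℕ}
    (hm : (minpoly (Algebra.adjoin K₀ (Set.range u)) W).natDegree = m) {k : ℕ} (hk : k ≤ m)
    (V : ValuationSubring L) (hV : ∀ a : K₀, algebraMap K₀ L a ∈ V) :
    V.valuation (((minpoly (Algebra.adjoin K₀ (Set.range u)) W).coeff k :
      Algebra.adjoin K₀ (Set.range u)) : L) ≤ vmax (fun j => V.valuation (u j)) ^ (m - k) := by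
  classical
  set E := IntermediateField.adjoin K₀ (Set.range u) with hE
  set B := Algebra.adjoin K₀ (Set.range u) with hB
  have hcl : IsAlgClosure E L := ⟨inferInstance, halg⟩
  have hq := TFormA_minpoly hu hWB
  set q := minpoly E W with hqdef
  have hWE : IsIntegral E W := (halg.isAlgebraic W).isIntegral
  have hqm : q.Monic := minpoly.monic hWE
  have hqd : q.natDegree = m := by
    rw [hq, (minpoly.monic hWB).natDegree_map, hm]
  set P := q.map (algebraMap E L) with hP
  have hPm : P.Monic := hqm.map _
  have hPd : P.natDegree = m := by rw [hP, hqm.natDegree_map, hqd]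
  have hPs : P.Splits := IsAlgClosed.splits P
  have hcoe : (((minpoly B W).coeff k : B) : L) = P.coeff k := by
    rw [hP, Polynomial.coeff_map, hq, Polynomial.coeff_map]
    rfl
  have hcard : Multiset.card P.roots = m := by
    rw [← hPd]
    exact hPs.natDegree_eq_card_roots.symm
  have hu0 : ∀ j, u j ≠ 0 := fun j => hu.ne_zero j
  have huE : ∀ j, u j ∈ E := fun j => IntermediateField.subset_adjoin _ _ ⟨j, rfl⟩
  rw [hcoe, hPs.eq_prod_roots_of_monic hPm]
  have h1 := TFormA_coeff_prod V P.roots (vmax (fun j => V.valuation (u j))) ?_ k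
    (by rw [hcard]; exact hk)
  · rw [hcard] at h1
    exact h1
  · intro w hw
    have hw0 : Polynomial.aeval w (minpoly E W) = 0 := by
      have h2 := (Polynomial.mem_roots'.1 hw).2
      rw [Polynomial.IsRoot.def, hP, Polynomial.eval_map] at h2
      exact h2
    have hconj : IsConjRoot E W w := (isConjRoot_iff_aeval_eq_zero hWE).2 hw0
    obtain ⟨σ, hσ⟩ := isConjRoot_iff_exists_algEquiv.1 hconj.symm
    rw [← hσ]
    refine TFormA_conj hW hu0 (σ : L →+* L) ?_ ?_ V hV
    · intro a
      have h3 : (algebraMap K₀ L a) = algebraMap E L (algebraMap K₀ E a) := rfl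
      rw [h3]
      exact σ.commutes _
    · intro j
      exact σ.commutes ⟨u j, huE j⟩

private theorem TFormA_optionEquiv (u : Fin (n + 1) → L) (W : L)
    (H : MvPolynomial (Option (Fin (n + 1))) K₀) :
    aeval (fun o : Option (Fin (n + 1)) => o.elim W u) H =
      Polynomial.eval₂ ((aeval u : MvPolynomial (Fin (n + 1)) K₀ →ₐ[K₀] L) :
        MvPolynomial (Fin (n + 1)) K₀ →+* L) W (optionEquivLeft K₀ (Fin (n + 1)) H) := by
  have h : ((aeval (fun o : Option (Fin (n + 1)) => o.elim W u) :
      MvPolynomial (Option (Fin (n + 1))) K₀ →ₐ[K₀] L) :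
        MvPolynomial (Option (Fin (n + 1))) K₀ →+* L) =
      (Polynomial.eval₂RingHom ((aeval u : MvPolynomial (Fin (n + 1)) K₀ →ₐ[K₀] L) :
        MvPolynomial (Fin (n + 1)) K₀ →+* L) W).comp
        (RingHomClass.toRingHom (optionEquivLeft K₀ (Fin (n + 1)))) := by
    apply MvPolynomial.ringHom_ext
    · intro r
      simp
    · rintro (_ | i)
      · simp
      · simp
  exact congrArg (fun φ : MvPolynomial (Option (Fin (n + 1))) K₀ →+* L => φ H) h

end MinForm

/-- **The minimal form.** -/
theorem exists_min_form {K₀ L : Type} [Field K₀] [CharZero K₀] [Field L] [IsAlgClosed L]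
    [Algebra K₀ L] {n : ℕ} (u : Fin (n + 1) → L) (hu : AlgebraicIndependent K₀ u)
    (halg : Algebra.IsAlgebraic (IntermediateField.adjoin K₀ (Set.range u)) L) (W : L)
    (hW : ∀ V : ValuationSubring L, (∀ a : K₀, algebraMap K₀ L a ∈ V) →
      V.valuation W ≤ vmax (fun j => V.valuation (u j))) (m : ℕ)
    (hm : m = Module.finrank (IntermediateField.adjoin K₀ (Set.range u))
      (IntermediateField.adjoin (IntermediateField.adjoin K₀ (Set.range u)) {W})) :
    0 < m ∧ ∃ G : MvPolynomial (Option (Fin (n + 1))) K₀, G.IsHomogeneous m ∧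
      G.coeff (Finsupp.single none m) = 1 ∧
      ∀ H : MvPolynomial (Option (Fin (n + 1))) K₀,
        aeval (fun o : Option (Fin (n + 1)) => o.elim W u) H = 0 ↔ G ∣ H := by
  classical
  have hWE : IsIntegral (IntermediateField.adjoin K₀ (Set.range u)) W :=
    (halg.isAlgebraic W).isIntegral
  -- integrality over the ring generated by u
  have hWB : IsIntegral (Algebra.adjoin K₀ (Set.range u)) W := by
    have h1 : IsIntegral (Subring.closure ((Algebra.adjoin K₀ (Set.range u) : Subalgebra K₀ L) :
        Set L)) W := by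
      apply TFormA_isIntegral_of_forall
      intro V hV
      rw [← ValuationSubring.valuation_le_one_iff]
      refine (hW V (fun a => hV (Subalgebra.algebraMap_mem _ a))).trans ?_
      apply TFormA_vmax_le
      intro j
      rw [ValuationSubring.valuation_le_one_iff]
      exact hV (Algebra.subset_adjoin ⟨j, rfl⟩)
    have h2 : Subring.closure ((Algebra.adjoin K₀ (Set.range u) : Subalgebra K₀ L) : Set L) ≤
        (Algebra.adjoin K₀ (Set.range u)).toSubring := Subring.closure_le.2 (fun _ hx => hx)
    let φ : Subring.closure ((Algebra.adjoin K₀ (Set.range u) : Subalgebra K₀ L) : Set L) →+*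
        Algebra.adjoin K₀ (Set.range u) :=
      { toFun := fun d => ⟨d, h2 d.2⟩
        map_one' := rfl
        map_mul' := fun _ _ => rfl
        map_zero' := rfl
        map_add' := fun _ _ => rfl }
    exact IsIntegral.map_of_comp_eq φ (RingHom.id L) (by ext; rfl) h1
  have hmE : m = (minpoly (IntermediateField.adjoin K₀ (Set.range u)) W).natDegree := by
    rw [hm, IntermediateField.adjoin.finrank hWE]
  have hmB : (minpoly (Algebra.adjoin K₀ (Set.range u)) W).natDegree = m := by
    rw [hmE, TFormA_minpoly hu hWB, (minpoly.monic hWB).natDegree_map]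
  have hmpos : 0 < m := by
    rw [hmE]
    exact minpoly.natDegree_pos hWE
  refine ⟨hmpos, ?_⟩
  -- transport to the polynomial ring
  let e : MvPolynomial (Fin (n + 1)) K₀ ≃+* Algebra.adjoin K₀ (Set.range u) :=
    (hu.aevalEquiv : MvPolynomial (Fin (n + 1)) K₀ ≃+* _)
  have he : ∀ p, ((e p : Algebra.adjoin K₀ (Set.range u)) : L) = aeval u p := fun p => rfl
  set qB := minpoly (Algebra.adjoin K₀ (Set.range u)) W with hqB
  set qR : Polynomial (MvPolynomial (Fin (n + 1)) K₀) := (Polynomial.mapEquiv e).symm qB with hqR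
  have hqR' : Polynomial.mapEquiv e qR = qB := by rw [hqR, RingEquiv.apply_symm_apply]
  have hcoef : ∀ k, e (qR.coeff k) = qB.coeff k := by
    intro k
    rw [← hqR', Polynomial.mapEquiv_apply, Polynomial.coeff_map]
    rfl
  have hcoef' : ∀ k, aeval u (qR.coeff k) = ((qB.coeff k : Algebra.adjoin K₀ (Set.range u)) : L) := by
    intro k
    rw [← hcoef, he]
  have hhom : ∀ k ≤ m, (qR.coeff k).IsHomogeneous (m - k) := by
    intro k hk
    apply homogeneous_of_bound u hu
    intro V hV
    rw [hcoef']
    exact TFormA_coeff_bound hu halg hW hWB hmB hk V hV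
  have hdeg : qR.natDegree = m := by
    rw [← hmB, ← hqR', Polynomial.mapEquiv_apply,
      Polynomial.natDegree_map_eq_of_injective e.injective]
  have hlead : qR.coeff m = 1 := by
    apply e.injective
    rw [hcoef, map_one, ← hmB]
    exact minpoly.monic hWB
  set G := (optionEquivLeft K₀ (Fin (n + 1))).symm qR with hG
  have hGR : optionEquivLeft K₀ (Fin (n + 1)) G = qR := by rw [hG, AlgEquiv.apply_symm_apply]
  have hGc : ∀ d : Option (Fin (n + 1)) →₀ ℕ, coeff d G = coeff d.some (qR.coeff (d none)) := by
    intro d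
    rw [← hGR, optionEquivLeft_coeff_some_coeff_none]
  refine ⟨G, ?_, ?_, ?_⟩
  · intro d hd
    rw [hGc] at hd
    have hk : d none ≤ m := by
      by_contra hcon
      push Not at hcon
      apply hd
      rw [Polynomial.coeff_eq_zero_of_natDegree_lt (by rw [hdeg]; exact hcon), coeff_zero]
    have h1 := hhom (d none) hk hd
    have h2 : Finsupp.weight (1 : Option (Fin (n + 1)) → ℕ) d =
        Finsupp.weight (1 : Fin (n + 1) → ℕ) d.some + d none := by
      rw [Finsupp.weight_apply, Finsupp.weight_apply, Finsupp.sum_option_index_smul]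
      simp only [Pi.one_apply, smul_eq_mul, mul_one]
      rw [add_comm]
    rw [h2, h1]
    omega
  · rw [hGc, Finsupp.some_single_none, Finsupp.single_eq_same, hlead]
    simp
  · intro H
    have : IsIntegrallyClosed (Algebra.adjoin K₀ (Set.range u)) :=
      IsIntegrallyClosed.of_equiv e
    rw [TFormA_optionEquiv]
    set P := optionEquivLeft K₀ (Fin (n + 1)) H with hP
    have h1 : Polynomial.eval₂ ((aeval u : MvPolynomial (Fin (n + 1)) K₀ →ₐ[K₀] L) :
        MvPolynomial (Fin (n + 1)) K₀ →+* L) W P =
        Polynomial.aeval W (Polynomial.mapEquiv e P) := by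
      rw [Polynomial.mapEquiv_apply, Polynomial.aeval_def, Polynomial.eval₂_map]
      rfl
    rw [h1, minpoly.isIntegrallyClosed_dvd_iff hWB, ← hqB, ← hqR', map_dvd_iff, ← hGR, hP,
      map_dvd_iff]

end Pool.Agent.DensDeg
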