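import Pool.Agent.DensDeg.TDefs
import Pool.Agent.MultiSpec.Params

/-!
The universal data for `M` slots and `n` characters.
-/

set_option autoImplicit false

namespace Pool.Agent.DensDeg

open Pool.Agent.MultiSpec Pool.Agent.MultiSpec.ParamsAux

/-- Independent copies of the universal data over one countable domain. -/
theorem exists_paramsT {k : Type} [Field k] [CharZero k] [Countable k] (n M N : ℕ) (ζ : k)
    (hex : ∃ D : EDatum N n (PowerSeries k),
      D.t = PowerSeries.X ∧ IsSpecial (D.map PowerSeries.constantCoeff) ζ) :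
    ∃ (R₀ : Type) (_ : CommRing R₀) (_ : IsDomain R₀) (_ : Countable R₀) (_ : Algebra k R₀)
      (D : Fin M → EDatum N n R₀) (m : Ideal R₀) (_ : m.IsPrime),
      (∀ j, IsSpecial ((D j).map (Ideal.Quotient.mk m)) (algebraMap k (R₀ ⧸ m) ζ)) ∧
      ∀ s : Fin M, ∃ (P : Ideal R₀) (_ : P.IsPrime), P ≤ m ∧
        (∀ j, j ≠ s →
          IsSpecial ((D j).map (Ideal.Quotient.mk P)) (algebraMap k (R₀ ⧸ P) ζ)) ∧
        (D s).t ∉ P := by
  classical
  obtain ⟨E, hEt, hEs⟩ := hex
  have hdom : IsDomain (MvPowerSeries (Fin M) k) := NoZeroDivisors.to_isDomain _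
  let S := MvPowerSeries (Fin M) k
  have hdomS : IsDomain S := hdom
  set E' : Fin M → EDatum N n S := fun j => E.map (psi j) with hE'
  set gen : Set S := ⋃ j, coeffSet (E' j) with hgen
  have hgc : gen.Countable := Set.countable_iUnion fun j => countable_coeffSet _
  set R₀ := Algebra.adjoin k gen with hR₀
  have hcount : Countable R₀ := countable_adjoin hgc
  set ι : R₀ →+* S := R₀.val.toRingHom with hι
  have hιinj : Function.Injective ι := Subtype.val_injective
  have hex2 : ∀ j, ∃ D' : EDatum N n R₀, D'.map ι = E' j := by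
    intro j
    refine exists_restrict hιinj (E' j) fun x hx => ?_
    have hx' : x ∈ gen := Set.mem_iUnion.2 ⟨j, hx⟩
    exact ⟨(⟨x, Algebra.subset_adjoin hx'⟩ : R₀), rfl⟩
  choose D hD using hex2
  -- a homomorphism from `R₀` and the corresponding quotient
  have key : ∀ {T : Type} [CommRing T] [IsDomain T] (φ : S →+* T) (j : Fin M),
      IsSpecial ((E' j).map φ) (φ (algebraMap k S ζ)) →
      IsSpecial ((D j).map (Ideal.Quotient.mk (RingHom.ker (φ.comp ι))))
        (algebraMap k (R₀ ⧸ RingHom.ker (φ.comp ι)) ζ) := by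
    intro T _ _ φ j h
    refine isSpecial_of_map (φ := RingHom.kerLift (φ.comp ι)) (RingHom.kerLift_injective _) ?_
    rw [map_map]
    have h1 : (RingHom.kerLift (φ.comp ι)).comp (Ideal.Quotient.mk (RingHom.ker (φ.comp ι))) =
        φ.comp ι := by
      apply RingHom.ext
      intro x
      exact RingHom.kerLift_mk (φ.comp ι) x
    have h2 : RingHom.kerLift (φ.comp ι) (algebraMap k (R₀ ⧸ RingHom.ker (φ.comp ι)) ζ) =
        φ (algebraMap k S ζ) := by
      change RingHom.kerLift (φ.comp ι) (Ideal.Quotient.mk _ (algebraMap k R₀ ζ)) = _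
      rw [RingHom.kerLift_mk]
      rfl
    rw [h1, h2, ← map_map, hD]
    exact h
  have hprime : ∀ {T : Type} [CommRing T] [IsDomain T] (φ : S →+* T),
      (RingHom.ker (φ.comp ι)).IsPrime := fun φ => RingHom.ker_isPrime _
  refine ⟨R₀, inferInstance, inferInstance, hcount, inferInstance, D,
    RingHom.ker ((MvPowerSeries.constantCoeff (σ := Fin M) (R := k)).comp ι),
    hprime _, ?_, ?_⟩
  · intro j
    refine key (MvPowerSeries.constantCoeff (σ := Fin M) (R := k)) j ?_
    have h1 : (E' j).map (MvPowerSeries.constantCoeff (σ := Fin M) (R := k)) =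
        E.map PowerSeries.constantCoeff := by
      rw [hE', map_map]
      congr 1
      apply RingHom.ext
      intro f
      exact constantCoeff_psi j f
    have h2 : MvPowerSeries.constantCoeff (algebraMap k S ζ) = ζ := by
      change MvPowerSeries.constantCoeff (algebraMap k (MvPowerSeries (Fin M) k) ζ) = _
      rw [MvPowerSeries.algebraMap_apply]
      simp
    rw [h1, h2]
    exact hEs
  · intro s
    set T : Fin M → Prop := fun q => q = s with hT
    refine ⟨RingHom.ker ((pis (k := k) T).comp ι), hprime _, ?_, ?_, ?_⟩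
    · intro x hx
      rw [RingHom.mem_ker] at hx ⊢
      change MvPowerSeries.constantCoeff (ι x) = 0
      rw [← constantCoeff_pis T]
      change pis T (ι x) = 0 at hx
      rw [hx, map_zero]
    · intro j hij
      refine key (pis (k := k) T) j ?_
      have h1 : (E' j).map (pis (k := k) T) =
          (E.map PowerSeries.constantCoeff).map MvPowerSeries.C := by
        rw [hE', map_map, map_map]
        congr 1
        apply RingHom.ext
        intro f
        exact pis_psi T (s := j) hij f
      have h2 : pis (k := k) T (algebraMap k S ζ) = MvPowerSeries.C ζ := by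
        change pis (k := k) T (algebraMap k (MvPowerSeries (Fin M) k) ζ) = _
        rw [MvPowerSeries.algebraMap_apply]
        ext e
        rw [pis, MvPowerSeries.coeff_rescale]
        simp only [Algebra.algebraMap_self, RingHom.id_apply, MvPowerSeries.coeff_C]
        split_ifs with h
        · rw [h]
          simp
        · rw [mul_zero]
      rw [h1, h2]
      exact isSpecial_map hEs _
    · intro hi
      rw [RingHom.mem_ker] at hi
      have h1 : ι (D s).t = MvPowerSeries.X s := by
        have h2 := congrArg EDatum.t (hD s)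
        change ι (D s).t = psi s E.t at h2
        rw [h2, hEt, psi_X]
      change pis T (ι (D s).t) = 0 at hi
      rw [h1, pis_X T (s := s) rfl] at hi
      have h3 := congrArg (MvPowerSeries.coeff (Finsupp.single s 1)) hi
      rw [MvPowerSeries.coeff_X, if_pos rfl, map_zero] at h3
      exact one_ne_zero h3

/-- Data which are special modulo a prime of a domain and have `t ≠ 0` are nondegenerate. -/
theorem goodD_of_special {k R₀ F : Type} [Field k] [CommRing R₀] [Algebra k R₀] [Field F]
    [CharZero k] {n N : ℕ} (φ : R₀ →+* F) (hφ : Function.Injective φ) (D : EDatum N n R₀)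
    (ζ : k) (hζ : ζ ≠ 1) (m : Ideal R₀) [m.IsPrime] (ht : D.t ≠ 0)
    (hm : IsSpecial (D.map (Ideal.Quotient.mk m)) (algebraMap k (R₀ ⧸ m) ζ)) :
    GoodD (D.map φ) := by
  have hinjm : Function.Injective (algebraMap k (R₀ ⧸ m)) := (algebraMap k (R₀ ⧸ m)).injective
  have h0 : Ideal.Quotient.mk m D.t = 0 := hm.ht
  have h2 : Ideal.Quotient.mk m D.c₀ = algebraMap k (R₀ ⧸ m) ζ := hm.hc₀
  have h3 : Ideal.Quotient.mk m D.c₁ = 1 := hm.hc₁
  refine ⟨fun h => ?_, fun h => ?_, fun h => ?_⟩
  · exact ht (hφ (by rw [map_zero]; exact h))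
  · have h1 : D.c₀ = D.c₁ := hφ h
    rw [h1, h3] at h2
    exact hζ (hinjm (by rw [map_one]; exact h2.symm))
  · have h1 : (D.c₀ - D.c₁) ^ 2 = 4 * D.t := by
      apply hφ
      rw [map_pow, map_sub, map_mul, map_ofNat]
      exact h
    have h4 := congrArg (Ideal.Quotient.mk m) h1
    rw [map_pow, map_sub, map_mul, h0, h2, h3, mul_zero] at h4
    have h5 := pow_eq_zero_iff (two_ne_zero) |>.1 h4
    exact hζ (hinjm (by rw [map_one]; exact sub_eq_zero.1 h5))

end Pool.Agent.DensDeg
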