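import Pool.Agent.DensDeg.TExt
import Pool.Agent.DensDeg.TBlock
import Pool.Agent.DensDeg.Decomp
import Pool.Agent.DensDeg.TParams
import Pool.Agent.MultiSpec.PowDatum
import Pool.Agent.MultiSpec.AsForms

/-!
The special forms.
-/

set_option autoImplicit false

namespace Pool.Agent.DensDeg

open Pool.Agent.MultiSpec Pool.Agent.CurveDeg IntermediateField WithZero MvPolynomial

/-- The conclusion of `exists_extT`. -/
def ExtConcl (κ E : Type) [Field κ] [Field E] [Algebra κ E] {n : ℕ} (u : Fin (n + 1) → E)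
    (N g B : ℕ) : Prop :=
  ∃ (E₁ : Type) (_ : Field E₁) (_ : Algebra κ E₁) (_ : Algebra E E₁)
    (_ : IsScalarTower κ E E₁) (_ : FiniteDimensional E E₁)
    (m' e' S : ℕ) (nn : Fin S → ℕ) (y : Fin (n + 1) → E₁) (ξ : Fin S → E₁) (Λ : E₁),
      e' * Module.finrank E E₁ ∣ B ∧
      0 < m' ∧ Λ ≠ 0 ∧ (∀ j, y j ^ m' = algebraMap E E₁ (u j)) ∧
      (∀ v : Valuation E₁ ℤᵐ⁰, IsPl κ v →
        (Finset.univ.sup' Finset.univ_nonempty fun j => v (y j)) ^ e' =
          v Λ * ∏ i, max (v (ξ i)) 1 ^ nn i) ∧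
      ∀ i, Transcendental κ (ξ i) → N ∣ g * Module.finrank κ⟮ξ i⟯ E₁

lemma ExtConcl.mono {κ E : Type} [Field κ] [Field E] [Algebra κ E] {n : ℕ} {u : Fin (n + 1) → E}
    {N g B B' : ℕ} (h : ExtConcl κ E u N g B) (hB : B ∣ B') : ExtConcl κ E u N g B' := by
  obtain ⟨E₁, i1, i2, i3, i4, i5, m', e', S, nn, y, ξ, Λ, h1, h2⟩ := h
  exact ⟨E₁, i1, i2, i3, i4, i5, m', e', S, nn, y, ξ, Λ, h1.trans hB, h2⟩

/-- A form `G(u, w)` with the property that all curves in its zero set have degree divisible by `N`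
up to a constant. -/
def GoodForm (n : ℕ) (K₀ : Type) [Field K₀] (N g B : ℕ)
    (G : MvPolynomial (Option (Fin (n + 1))) K₀) : Prop :=
  (∀ (Ω : Type) [Field Ω] [Algebra K₀ Ω] (w : Ω),
    aeval (fun o : Option (Fin (n + 1)) => o.elim w fun _ => 0) G = 0 → w = 0) ∧
  ∀ (κ : Type) [Field κ] [IsAlgClosed κ] [CharZero κ] [Algebra K₀ κ] (E : Type) [Field E]
    [Algebra κ E] [Algebra K₀ E] [IsScalarTower K₀ κ E], OneVar κ E →
    ∀ u : Fin (n + 1) → E, (∃ j, u j ≠ 0) → ∀ w : E,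
      aeval (fun o : Option (Fin (n + 1)) => o.elim w u) G = 0 → ExtConcl κ E u N g B

lemma GoodForm.map {n : ℕ} {K₀ : Type} [Field K₀] {N g B : ℕ}
    {G : MvPolynomial (Option (Fin (n + 1))) K₀} (h : GoodForm n K₀ N g B G) (K₁ : Type)
    [Field K₁] [Algebra K₀ K₁] : GoodForm n K₁ N g B (MvPolynomial.map (algebraMap K₀ K₁) G) := by
  refine ⟨fun Ω _ _ w h0 => ?_, fun κ _ _ _ _ E _ _ _ _ hone u hu w h0 => ?_⟩
  · let _ : Algebra K₀ Ω := ((algebraMap K₁ Ω).comp (algebraMap K₀ K₁)).toAlgebra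
    have : IsScalarTower K₀ K₁ Ω := IsScalarTower.of_algebraMap_eq fun _ => rfl
    rw [aeval_map_algebraMap] at h0
    exact h.1 Ω w h0
  · let _ : Algebra K₀ κ := ((algebraMap K₁ κ).comp (algebraMap K₀ K₁)).toAlgebra
    let _ : Algebra K₀ E := ((algebraMap K₁ E).comp (algebraMap K₀ K₁)).toAlgebra
    have : IsScalarTower K₀ K₁ E := IsScalarTower.of_algebraMap_eq fun _ => rfl
    have : IsScalarTower K₀ κ E := IsScalarTower.of_algebraMap_eq fun a => by
      change algebraMap K₁ E (algebraMap K₀ K₁ a) = algebraMap κ E (algebraMap K₁ κ (algebraMap K₀ K₁ a))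
      rw [IsScalarTower.algebraMap_apply K₁ κ E]
    rw [aeval_map_algebraMap] at h0
    exact h.2 κ E hone u hu w h0

/-- The block forms. -/
theorem exists_block (n l : ℕ) (hn : 0 < n) (hl : l.Prime) :
    ∃ e mu M B β : ℕ, 0 < e ∧ 0 < mu ∧ 0 < β ∧ β.Coprime l ∧ HasTBlock n M e mu B β := by
  obtain ⟨k, rfl⟩ : ∃ k, n = k + 1 := ⟨n - 1, by omega⟩
  obtain ⟨e, M, Dg, he, hle, _, hdec⟩ := exists_decomp k l hl
  have hdec' : HasDecomp (k + 1) l e M (max Dg 1) := by
    intro K₀ L _ _ _ _ _ v hv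
    obtain ⟨Lm, x, h1, h2, h3, h4, h5⟩ := hdec K₀ L v hv
    exact ⟨Lm, x, h1, h2, h3, h4.trans (le_max_left _ _), h5⟩
  obtain ⟨e', mu, B, β, h1, h2, _, h4, h5, h6⟩ := exists_tblock hl he hle
    (lt_of_lt_of_le one_pos (le_max_right Dg 1)) hdec'
  exact ⟨e', mu, M, B, β, h1, h2, h4, h5, h6⟩

/-- Extension of countable algebraically closed fields by one good form. -/
theorem exists_goodForm (n l : ℕ) (hn : 0 < n) (hl : l.Prime) :
    ∃ β C : ℕ, 0 < β ∧ l.Coprime β ∧ 0 < C ∧ ∀ (p a : ℕ), p.Prime → 0 < a → 2 < p ^ a → n < p ^ a →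
      ∀ (k : Type) [Field k] [IsAlgClosed k] [CharZero k] [Countable k],
        ∃ (K₀ : Type) (_ : Field K₀) (_ : IsAlgClosed K₀) (_ : CharZero K₀) (_ : Countable K₀)
          (_ : Algebra k K₀) (G : MvPolynomial (Option (Fin (n + 1))) K₀),
          G.IsHomogeneous (β * p ^ a) ∧ GoodForm n K₀ (p ^ a) (Nat.factorial n) C G := by
  classical
  obtain ⟨e, mu, M, B, β, he, hmu, hβ, hlβ, hblock⟩ := exists_block n l hn hl
  set B' := e + 1 + B + mu + 2 with hB'
  refine ⟨β, e * (Nat.factorial B') ^ ((n + 1) + 2 ^ M + M + M), hβ, hlβ.symm,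
    Nat.mul_pos he (pow_pos (Nat.factorial_pos _) _), ?_⟩
  intro p a hp ha hN2 hnN k _ _ _ _
  have hNk : NeZero ((p ^ a : ℕ) : k) := ⟨Nat.cast_ne_zero.2 (by omega)⟩
  obtain ⟨ζ, hζ⟩ : ∃ ζ : k, IsPrimitiveRoot ζ (p ^ a) :=
    HasEnoughRootsOfUnity.exists_primitiveRoot k (p ^ a)
  obtain ⟨R₀, _, _, _, _, D, m, _, hm, hP⟩ := exists_paramsT n M (p ^ a) ζ
    (exists_datum (by omega) hnN ζ hζ)
  have hchar : CharZero R₀ := charZero_of_injective_algebraMap (algebraMap k R₀).injective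
  let F₀ := FractionRing R₀
  have hcharF₀ : CharZero F₀ := inferInstance
  have hcountF₀ : Countable F₀ := by
    refine Function.Surjective.countable (f := fun p : R₀ × R₀ =>
      (algebraMap _ F₀ p.1) / (algebraMap _ F₀ p.2)) ?_
    intro z
    obtain ⟨a, b, _, h⟩ := IsFractionRing.div_surjective (A := R₀) z
    exact ⟨(a, b), h⟩
  obtain ⟨F, _, _, _, _, _, _, _⟩ := exists_generic F₀ Empty
  let _ : Algebra R₀ F := ((algebraMap F₀ F).comp (algebraMap R₀ F₀)).toAlgebra
  have hRF : Function.Injective (algebraMap R₀ F) :=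
    (algebraMap F₀ F).injective.comp (IsFractionRing.injective R₀ F₀)
  obtain ⟨K₀, iK1, iK2, iK3, iK4, _, c, hc⟩ := exists_generic F (TIdx n M)
  let _ : Algebra k K₀ := (((algebraMap F K₀).comp (algebraMap R₀ F)).comp
    (algebraMap k R₀)).toAlgebra
  -- the quartics are squarefree
  have hζ1 : ζ ≠ 1 := hζ.ne_one (by omega)
  have hgood : ∀ j, GoodD ((D j).map (algebraMap R₀ F)) := by
    intro j
    refine goodD_of_special (algebraMap R₀ F) hRF (D j) ζ hζ1 m ?_ (hm j)
    intro h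
    obtain ⟨P, hPp, _, _, hPt⟩ := hP j
    apply hPt
    rw [h]
    exact P.zero_mem
  obtain ⟨G, hG1, hG2, hG3⟩ := hblock F K₀ (p ^ a) (by omega) hnN
    (fun j => (D j).map (algebraMap R₀ F)) hgood c
  refine ⟨K₀, iK1, iK2, iK3, iK4, inferInstance, G, hG1, hG2, ?_⟩
  intro κ _ _ _ _ E _ _ _ _ hone u hu w h0
  let _ : Algebra F E := ((algebraMap K₀ E).comp (algebraMap F K₀)).toAlgebra
  have htow : IsScalarTower F K₀ E := IsScalarTower.of_algebraMap_eq fun _ => rfl
  refine exists_extT (k0 := k) (R0 := R₀) (F := F) (K₀ := K₀) (κ := κ) (E := E) (B := B) (B' := B') hRF hp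
    ha hN2 hnN hmu (by omega) (by omega) (by omega) (by omega) D ζ hζ m hm hP c hc hone u hu w ?_
  refine hG3 (AlgebraicClosure E) (fun i => algebraMap E _ (u i)) (algebraMap E _ w) ?_ ?_
  · intro hu0
    obtain ⟨j, hj⟩ := hu
    exact hj ((algebraMap E (AlgebraicClosure E)).injective (by rw [congrFun hu0 j]; simp))
  · have h1 := congrArg (algebraMap E (AlgebraicClosure E)) h0
    rw [map_zero, ← aeval_algebraMap_apply] at h1
    rw [← h1]
    congr 2
    funext o
    cases o <;> rfl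

/-- Good forms for finitely many primes over a common field. -/
theorem exists_forms {n N g : ℕ} (β C : ℕ → ℕ) (S : Finset ℕ)
    (h : ∀ l ∈ S, ∀ (k : Type) [Field k] [IsAlgClosed k] [CharZero k] [Countable k],
        ∃ (K₀ : Type) (_ : Field K₀) (_ : IsAlgClosed K₀) (_ : CharZero K₀) (_ : Countable K₀)
          (_ : Algebra k K₀) (G : MvPolynomial (Option (Fin (n + 1))) K₀),
          G.IsHomogeneous (β l * N) ∧ GoodForm n K₀ N g (C l) G) :
    ∃ (K₀ : Type) (_ : Field K₀) (_ : IsAlgClosed K₀) (_ : CharZero K₀) (_ : Countable K₀)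
      (G : ℕ → MvPolynomial (Option (Fin (n + 1))) K₀),
      ∀ l ∈ S, (G l).IsHomogeneous (β l * N) ∧ GoodForm n K₀ N g (C l) (G l) := by
  classical
  induction S using Finset.induction_on with
  | empty =>
    obtain ⟨k, h1, h2, h3, h4, _, _, _⟩ := exists_generic ℚ Empty
    exact ⟨k, h1, h2, h3, h4, fun _ => 0, fun l hl => absurd hl (Finset.notMem_empty l)⟩
  | insert l S hl ih =>
    obtain ⟨k, _, _, _, _, G, hG⟩ := ih fun l' hl' => h l' (Finset.mem_insert_of_mem hl')
    obtain ⟨K₀, i1, i2, i3, i4, i5, G', hG'⟩ := h l (Finset.mem_insert_self l S) k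
    refine ⟨K₀, i1, i2, i3, i4, fun l' => if l' = l then G' else
      MvPolynomial.map (algebraMap k K₀) (G l'), fun l' hl' => ?_⟩
    by_cases hll : l' = l
    · subst hll
      simp only [if_true]
      exact hG'
    · simp only [if_neg hll]
      obtain ⟨h1, h2⟩ := hG l' ((Finset.mem_insert.1 hl').resolve_left hll)
      exact ⟨h1.map _, h2.map K₀⟩

/-- Special forms from good forms. -/
theorem hasSpecial_of_good {n r N g : ℕ} (β C : ℕ → ℕ) (S : Finset ℕ) (K₀ : Type) [Field K₀]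
    [IsAlgClosed K₀] [CharZero K₀] [Countable K₀]
    (G : ℕ → MvPolynomial (Option (Fin (n + 1))) K₀)
    (hG : ∀ l ∈ S, (G l).IsHomogeneous (β l * N) ∧ GoodForm n K₀ N g (C l) (G l))
    (d : Fin r → ℕ) (i₀ : Fin r) (s : ℕ → ℕ) (hd : d i₀ = (∑ l ∈ S, s l * β l) * N) (M' : ℕ)
    (hM' : ∀ e : ℤ, (N : ℤ) ∣ g * (∏ l ∈ S, C l : ℕ) * e → (M' : ℤ) ∣ e) :
    HasSpecial n r d M' := by
  classical
  let f : Fin r → MvPolynomial (Fin (n + r + 1)) K₀ := fun i =>
    if i = i₀ then rename (emb i) (∏ l ∈ S, G l ^ s l) else X (ww n r i) ^ d i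
  have hf1 : f i₀ = rename (emb i₀) (∏ l ∈ S, G l ^ s l) := if_pos rfl
  have hf2 : ∀ i, i ≠ i₀ → f i = X (ww n r i) ^ d i := fun i h => if_neg h
  have hfhom : ∀ i, f i ∈ homogeneousSubmodule (Fin (n + r + 1)) K₀ (d i) := by
    intro i
    by_cases hi : i = i₀
    · subst hi
      rw [hf1, mem_homogeneousSubmodule]
      refine IsHomogeneous.rename_isHomogeneous ?_
      have h1 : (∏ l ∈ S, G l ^ s l).IsHomogeneous (∑ l ∈ S, β l * N * s l) :=
        IsHomogeneous.prod S _ _ fun l hl => (hG l hl).1.pow (s l)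
      have h2 : d i = ∑ l ∈ S, β l * N * s l := by
        rw [hd, Finset.sum_mul]
        exact Finset.sum_congr rfl fun l _ => by ring
      rw [h2]
      exact h1
    · rw [hf2 i hi]
      have := (isHomogeneous_X K₀ (ww n r i)).pow (d i)
      rw [one_mul] at this
      exact this
  refine ⟨K₀, inferInstance, inferInstance, inferInstance, f, hfhom, ?_⟩
  intro κ _ _ _ _ P hP' hPp hfP e he
  refine hM' e ?_
  refine dvd_slope_of_val (uu n r) P hP' hPp ?_ N g (∏ l ∈ S, C l) ?_ e he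
  · intro Q hQ hQp hPQ hu i
    rcases uw_cases i with ⟨j, rfl⟩ | ⟨j, rfl⟩
    · exact hu j
    by_cases hj : j = i₀
    · subst hj
      let B := MvPolynomial (Fin (n + r + 1)) κ ⧸ Q
      let L := FractionRing B
      have htow : IsScalarTower K₀ κ L := inferInstance
      let xL : Fin (n + r + 1) → L := fun i => algebraMap B L (Ideal.Quotient.mk Q (X i))
      have hxL : ∀ f : MvPolynomial (Fin (n + r + 1)) κ, aeval xL f =
          algebraMap B L (Ideal.Quotient.mk Q f) := by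
        intro f
        have h1 : (aeval xL : MvPolynomial (Fin (n + r + 1)) κ →ₐ[κ] L) =
            (IsScalarTower.toAlgHom κ B L).comp (Ideal.Quotient.mkₐ κ Q) := by
          apply MvPolynomial.algHom_ext
          intro i
          rw [aeval_X]
          rfl
        rw [h1]
        rfl
      have h0 : aeval xL (f j) = 0 := by
        rw [← aeval_map_algebraMap κ xL (f j), hxL, Ideal.Quotient.eq_zero_iff_mem.2 (hPQ (hfP j)),
          map_zero]
      have hu0 : ∀ l, xL (uu n r l) = 0 := by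
        intro l
        change algebraMap B L (Ideal.Quotient.mk Q (X _)) = 0
        rw [Ideal.Quotient.eq_zero_iff_mem.2 (hu l), map_zero]
      rw [hf1, aeval_rename_emb, map_prod, Finset.prod_eq_zero_iff] at h0
      obtain ⟨l, hl, h0⟩ := h0
      rw [map_pow] at h0
      have hfun : (fun o : Option (Fin (n + 1)) => o.elim (xL (ww n r j)) fun l => xL (uu n r l)) =
          fun o : Option (Fin (n + 1)) => o.elim (xL (ww n r j)) fun _ => 0 := by
        funext o
        cases o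
        · rfl
        · exact hu0 _
      rw [hfun] at h0
      have hw0 : xL (ww n r j) = 0 := (hG l hl).2.1 L _ (eq_zero_of_pow_eq_zero' h0)
      have h2 : Ideal.Quotient.mk Q (X (ww n r j)) = 0 :=
        (IsFractionRing.injective B L) (by rw [map_zero]; exact hw0)
      exact Ideal.Quotient.eq_zero_iff_mem.1 h2
    · have h1 := hPQ (hfP j)
      rw [hf2 j hj, map_pow, map_X] at h1
      exact hQp.mem_of_pow_mem _ h1
  · intro E _ _ x hone hx hxj
    let _ : Algebra K₀ E := ((algebraMap κ E).comp (algebraMap K₀ κ)).toAlgebra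
    have htow : IsScalarTower K₀ κ E := IsScalarTower.of_algebraMap_eq fun _ => rfl
    have h0 : aeval x (f i₀) = 0 := by
      rw [← aeval_map_algebraMap κ x (f i₀)]
      refine (hx (d i₀) _ ?_).2 (hfP i₀)
      exact IsHomogeneous.map ((mem_homogeneousSubmodule _ _).1 (hfhom i₀)) _
    rw [hf1, aeval_rename_emb, map_prod, Finset.prod_eq_zero_iff] at h0
    obtain ⟨l, hl, h0⟩ := h0
    rw [map_pow] at h0
    exact ((hG l hl).2.2 κ E hone (fun j => x (uu n r j)) hxj (x (ww n r i₀))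
      (eq_zero_of_pow_eq_zero' h0)).mono (Finset.dvd_prod_of_mem C hl)

end Pool.Agent.DensDeg
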