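import Mathlib

set_option autoImplicit false

namespace Pool.Agent.DensDeg

section

open IntermediateField.algebraAdjoinAdjoin

/-- The algebra generated by an algebraically independent family over a field is integrally
closed. -/
theorem TIntDeg_isIntegrallyClosed {K₀ L : Type} [Field K₀] [Field L] [Algebra K₀ L] {n : ℕ}
    (v : Fin n → L) (hv : AlgebraicIndependent K₀ v) :
    IsIntegrallyClosed (Algebra.adjoin K₀ (Set.range v)) := by
  have : IsIntegrallyClosed (MvPolynomial (Fin n) K₀) := inferInstance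
  exact IsIntegrallyClosed.of_equiv hv.aevalEquiv.toRingEquiv

/-- An element of all valuation rings over `Algebra.adjoin K₀ (Set.range v)` is integral. -/
theorem TIntDeg_isIntegral {K₀ L : Type} [Field K₀] [Field L] [Algebra K₀ L] {n : ℕ}
    (v : Fin n → L) (θ : L)
    (hθ : ∀ V : ValuationSubring L, (∀ a : K₀, algebraMap K₀ L a ∈ V) → (∀ i, v i ∈ V) → θ ∈ V) :
    IsIntegral (Algebra.adjoin K₀ (Set.range v)) θ := by
  have h1 : θ ∈ (⨅ V : {V : ValuationSubring L //
      ((Algebra.adjoin K₀ (Set.range v) : Subalgebra K₀ L) : Set L) ⊆ V.toSubring},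
        V.1.toSubring) := by
    rw [Subring.mem_iInf]
    rintro ⟨V, hV⟩
    exact hθ V (fun a => hV (Subalgebra.algebraMap_mem _ a))
      (fun i => hV (Algebra.subset_adjoin ⟨i, rfl⟩))
  rw [iInf_valuationSubring_superset] at h1
  have h2 : IsIntegral (Subring.closure
      ((Algebra.adjoin K₀ (Set.range v) : Subalgebra K₀ L) : Set L)) θ := h1
  obtain ⟨p, hp, hp0⟩ := h2
  have hle : Subring.closure ((Algebra.adjoin K₀ (Set.range v) : Subalgebra K₀ L) : Set L) ≤
      (Algebra.adjoin K₀ (Set.range v)).toSubring := by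
    rw [Subring.closure_le]
    exact fun x hx => hx
  refine ⟨p.map (Subring.inclusion hle), hp.map _, ?_⟩
  rw [Polynomial.eval₂_map]
  exact hp0

/-- An element of all valuation rings over a polynomial ring is a root of a monic polynomial of
bounded degree. -/
theorem TIntDeg_aux {K₀ L : Type} [Field K₀] [Field L] [Algebra K₀ L] {n : ℕ}
    (v : Fin n → L) (hv : AlgebraicIndependent K₀ v) (θ : L)
    (hθ : ∀ V : ValuationSubring L, (∀ a : K₀, algebraMap K₀ L a ∈ V) → (∀ i, v i ∈ V) → θ ∈ V)
    (K₂ : Subfield L) (hK : (IntermediateField.adjoin K₀ (Set.range v)).toSubfield ≤ K₂)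
    (hθK : θ ∈ K₂) {B : ℕ}
    (h0 : (IntermediateField.adjoin K₀ (Set.range v)).toSubfield.relfinrank K₂ ≠ 0)
    (hB : (IntermediateField.adjoin K₀ (Set.range v)).toSubfield.relfinrank K₂ ≤ B) :
    ∃ P : Polynomial (Algebra.adjoin K₀ (Set.range v)),
      P.Monic ∧ P.natDegree ≤ B ∧ Polynomial.aeval θ P = 0 := by
  have hint := TIntDeg_isIntegral v θ hθ
  have := TIntDeg_isIntegrallyClosed v hv
  refine ⟨minpoly (Algebra.adjoin K₀ (Set.range v)) θ, minpoly.monic hint, ?_,
    minpoly.aeval _ _⟩
  rw [Subfield.relfinrank_eq_finrank_of_le hK] at h0 hB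
  have e1 : minpoly (IntermediateField.adjoin K₀ (Set.range v)) θ =
      (minpoly (Algebra.adjoin K₀ (Set.range v)) θ).map (algebraMap _ _) :=
    minpoly.isIntegrallyClosed_eq_field_fractions' _ hint
  have e2 : (minpoly (Algebra.adjoin K₀ (Set.range v)) θ).natDegree =
      (minpoly (IntermediateField.adjoin K₀ (Set.range v)) θ).natDegree := by
    rw [e1, (minpoly.monic hint).natDegree_map]
  rw [e2]
  refine le_trans ?_ hB
  have : FiniteDimensional (IntermediateField.adjoin K₀ (Set.range v)).toSubfield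
      (Subfield.extendScalars hK) := Module.finite_of_finrank_pos (Nat.pos_of_ne_zero h0)
  have e3 := minpoly.natDegree_le (A := (IntermediateField.adjoin K₀ (Set.range v)).toSubfield)
    (⟨θ, hθK⟩ : Subfield.extendScalars hK)
  refine le_trans (le_of_eq ?_) e3
  congr 1
  have e4 : minpoly (IntermediateField.adjoin K₀ (Set.range v)).toSubfield
      (⟨θ, hθK⟩ : Subfield.extendScalars hK) =
      minpoly (IntermediateField.adjoin K₀ (Set.range v)).toSubfield θ := by
    exact (minpoly.algebraMap_eq (B' := L)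
      (algebraMap (Subfield.extendScalars hK) L).injective
      (⟨θ, hθK⟩ : Subfield.extendScalars hK)).symm
  exact e4.symm

end

/-- An element of all valuation rings over a polynomial ring is a root of a monic polynomial of
bounded degree. -/
theorem exists_monic {K₀ L : Type} [Field K₀] [Field L] [Algebra K₀ L] {n : ℕ}
    (v : Fin n → L) (hv : AlgebraicIndependent K₀ v) (θ : L)
    (hθ : ∀ V : ValuationSubring L, (∀ a : K₀, algebraMap K₀ L a ∈ V) → (∀ i, v i ∈ V) → θ ∈ V)
    (K₂ : Subfield L) (hK : (IntermediateField.adjoin K₀ (Set.range v)).toSubfield ≤ K₂)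
    (hθK : θ ∈ K₂) {B : ℕ}
    (h0 : (IntermediateField.adjoin K₀ (Set.range v)).toSubfield.relfinrank K₂ ≠ 0)
    (hB : (IntermediateField.adjoin K₀ (Set.range v)).toSubfield.relfinrank K₂ ≤ B) :
    ∃ P : Polynomial (Algebra.adjoin K₀ (Set.range v)),
      P.Monic ∧ P.natDegree ≤ B ∧ Polynomial.aeval θ P = 0 :=
  TIntDeg_aux v hv θ hθ K₂ hK hθK h0 hB

end Pool.Agent.DensDeg
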