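import Mathlib

set_option autoImplicit false

namespace Pool.Agent.DensDeg

private lemma tRoot_bot {R S : Type} [CommRing R] [CommRing S] [IsDomain S] [Nontrivial R]
    (f : R →+* S) (hf : f.IsIntegral) (I : Ideal S) (h : I.comap f = ⊥) : I = ⊥ := by
  let _ := f.toAlgebra
  have : Algebra.IsIntegral R S := ⟨hf⟩
  exact Ideal.eq_bot_of_comap_eq_bot (R := R) h

private lemma tRoot_int {K₀ : Type} [Field K₀] {n m : ℕ} (hm : 0 < m) :
    (MvPolynomial.expand (σ := Fin n) (R := K₀) m).toRingHom.IsIntegral := by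
  intro p
  induction p using MvPolynomial.induction_on with
  | C a =>
    have h : (MvPolynomial.C a : MvPolynomial (Fin n) K₀) =
        (MvPolynomial.expand (σ := Fin n) (R := K₀) m).toRingHom (MvPolynomial.C a) := by
      simp
    rw [h]
    exact RingHom.isIntegralElem_map _
  | add p q hp hq => exact hp.add _ hq
  | mul_X p i hp =>
    refine hp.mul _ ⟨Polynomial.X ^ m - Polynomial.C (MvPolynomial.X i),
      Polynomial.monic_X_pow_sub_C _ hm.ne', ?_⟩
    simp

/-- Roots of algebraically independent elements are algebraically independent. -/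
theorem algebraicIndependent_roots {K₀ L : Type} [Field K₀] [Field L] [Algebra K₀ L] {n : ℕ}
    (u v : Fin n → L) {m : ℕ} (hm : 0 < m) (hv : ∀ i, v i ^ m = u i)
    (hu : AlgebraicIndependent K₀ u) : AlgebraicIndependent K₀ v := by
  have h1 : RingHom.ker (MvPolynomial.aeval (R := K₀) v).toRingHom = ⊥ := by
    apply tRoot_bot _ (tRoot_int (K₀ := K₀) (n := n) hm)
    rw [eq_bot_iff]
    intro p hp
    rw [Ideal.mem_comap, RingHom.mem_ker] at hp
    have h2 : MvPolynomial.aeval u p = 0 := by
      have h3 : (MvPolynomial.aeval v) (MvPolynomial.expand m p) = MvPolynomial.aeval u p := by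
        rw [MvPolynomial.aeval_expand]
        simp only [Pi.pow_def, hv]
      rw [← h3]
      exact hp
    have h4 := (injective_iff_map_eq_zero _).1 hu p h2
    rw [h4]
    exact Ideal.zero_mem _
  rw [algebraicIndependent_iff_injective_aeval]
  exact (RingHom.injective_iff_ker_eq_bot _).2 h1

private lemma tRoot_pow_mem {L : Type} [Field L] (K : Subfield L) {a : L} (ha : a ≠ 0) {d m : ℕ}
    (h1 : a ^ d ∈ K) (h2 : a ^ m ∈ K) : a ^ Nat.gcd d m ∈ K := by
  have h3 : a ^ (Nat.gcd d m : ℤ) = (a ^ d) ^ (Nat.gcdA d m) * (a ^ m) ^ (Nat.gcdB d m) := by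
    rw [Nat.gcd_eq_gcd_ab, zpow_add₀ ha, zpow_mul, zpow_mul, zpow_natCast, zpow_natCast]
  rw [← zpow_natCast, h3]
  exact mul_mem (zpow_mem h1 _) (zpow_mem h2 _)

/-- The Kummer step. -/
private lemma tRoot_step {L : Type} [Field L] (K : Subfield L) {m : ℕ} (hm : 0 < m)
    (hK : ∀ z : L, z ^ m = 1 → z ∈ K) {ζ : L} (hζ : IsPrimitiveRoot ζ m) (a : L)
    (ha : a ^ m ∈ K) :
    K ≤ (IntermediateField.adjoin K {a}).toSubfield ∧
      K.relfinrank (IntermediateField.adjoin K {a}).toSubfield ∣ m := by
  have hle : K ≤ (IntermediateField.adjoin K {a}).toSubfield := by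
    intro x hx
    exact (IntermediateField.adjoin K {a}).algebraMap_mem ⟨x, hx⟩
  refine ⟨hle, ?_⟩
  have hint : IsIntegral K a := by
    refine ⟨Polynomial.X ^ m - Polynomial.C ⟨a ^ m, ha⟩, Polynomial.monic_X_pow_sub_C _ hm.ne', ?_⟩
    rw [Polynomial.eval₂_sub, Polynomial.eval₂_pow, Polynomial.eval₂_X, Polynomial.eval₂_C,
      sub_eq_zero]
    rfl
  have hext : Subfield.extendScalars hle = IntermediateField.adjoin K {a} := by
    ext x
    rfl
  rw [Subfield.relfinrank_eq_finrank_of_le hle, hext, IntermediateField.adjoin.finrank hint]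
  rcases eq_or_ne a 0 with rfl | ha0
  · rw [minpoly.zero, Polynomial.natDegree_X]
    exact one_dvd _
  set p := minpoly K a with hp
  set d := p.natDegree with hd
  have hdpos : 0 < d := minpoly.natDegree_pos hint
  have hmonic : p.Monic := minpoly.monic hint
  set P : Polynomial L := p.map (algebraMap K L) with hP
  have hPd : P.natDegree = d := Polynomial.natDegree_map _
  have hPm : P.Monic := hmonic.map _
  have hdvd : P ∣ Polynomial.X ^ m - Polynomial.C (a ^ m) := by
    have h1 : p ∣ Polynomial.X ^ m - Polynomial.C ⟨a ^ m, ha⟩ := by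
      apply minpoly.dvd
      rw [map_sub, map_pow, Polynomial.aeval_X, Polynomial.aeval_C, sub_eq_zero]
      rfl
    have h2 := Polynomial.map_dvd (algebraMap K L) h1
    rw [Polynomial.map_sub, Polynomial.map_pow, Polynomial.map_X, Polynomial.map_C] at h2
    exact h2
  have hQ0 : (Polynomial.X ^ m - Polynomial.C (a ^ m) : Polynomial L) ≠ 0 :=
    (Polynomial.monic_X_pow_sub_C _ hm.ne').ne_zero
  have hspl : P.Splits :=
    Polynomial.Splits.of_dvd (X_pow_sub_C_splits_of_isPrimitiveRoot hζ rfl) hQ0 hdvd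
  have hc0 := hspl.coeff_zero_eq_prod_roots_of_monic hPm
  have hcard : Multiset.card P.roots = d := by
    rw [← hPd]; exact hspl.natDegree_eq_card_roots.symm
  have hroots : ∀ r ∈ P.roots, r / a ∈ K := by
    intro r hr
    apply hK
    have h1 : (Polynomial.X ^ m - Polynomial.C (a ^ m) : Polynomial L).IsRoot r :=
      Polynomial.IsRoot.dvd (Polynomial.isRoot_of_mem_roots hr) hdvd
    rw [Polynomial.IsRoot.def, Polynomial.eval_sub, Polynomial.eval_pow, Polynomial.eval_X,
      Polynomial.eval_C, sub_eq_zero] at h1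
    rw [div_pow, h1, div_self (pow_ne_zero _ ha0)]
  set c := (P.roots.map (fun r => r / a)).prod with hc
  have hcK : c ∈ K := by
    refine Subfield.multiset_prod_mem K _ ?_
    intro y hy
    obtain ⟨r, hr, rfl⟩ := Multiset.mem_map.1 hy
    exact hroots r hr
  have hcprod : P.roots.prod = c * a ^ d := by
    rw [hc, Multiset.prod_map_div, Multiset.map_const', Multiset.prod_replicate, hcard,
      Multiset.map_id', div_mul_cancel₀ _ (pow_ne_zero _ ha0)]
  have hp0 : p.coeff 0 ≠ 0 := minpoly.coeff_zero_ne_zero hint ha0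
  have hP0 : P.coeff 0 = algebraMap K L (p.coeff 0) := Polynomial.coeff_map _ _
  have hP0' : P.coeff 0 ≠ 0 := by
    rw [hP0]
    exact (map_ne_zero _).2 hp0
  have hP0K : P.coeff 0 ∈ K := by
    rw [hP0]; exact (p.coeff 0).2
  have hcne : c ≠ 0 := by
    rintro h
    rw [hc0, hcprod, h, zero_mul, mul_zero] at hP0'
    exact hP0' rfl
  have hadK : a ^ d ∈ K := by
    have h1 : a ^ d = (-1) ^ d * P.coeff 0 * c⁻¹ := by
      rw [hc0, hcprod, hPd, ← mul_assoc, ← mul_pow]
      norm_num
      field_simp
    rw [h1]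
    exact mul_mem (mul_mem (pow_mem (neg_mem (one_mem _)) _) hP0K) (inv_mem hcK)
  have hg := tRoot_pow_mem K ha0 hadK ha
  have hgpos : 0 < Nat.gcd d m := Nat.gcd_pos_of_pos_right _ hm
  have h5 : p ∣ Polynomial.X ^ (Nat.gcd d m) - Polynomial.C ⟨_, hg⟩ := by
    apply minpoly.dvd
    rw [map_sub, map_pow, Polynomial.aeval_X, Polynomial.aeval_C, sub_eq_zero]
    rfl
  have h6 : d ≤ Nat.gcd d m := by
    have := Polynomial.natDegree_le_of_dvd h5 (Polynomial.monic_X_pow_sub_C _ hgpos.ne').ne_zero
    rwa [Polynomial.natDegree_X_pow_sub_C] at this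
  have h7 : Nat.gcd d m = d := le_antisymm (Nat.le_of_dvd hdpos (Nat.gcd_dvd_left _ _)) h6
  rw [← h7]
  exact Nat.gcd_dvd_right _ _

private lemma tRoot_insert {K₀ L : Type} [Field K₀] [Field L] [Algebra K₀ L] (S : Set L) (a : L) :
    (IntermediateField.adjoin K₀ (S ∪ {a})).toSubfield =
      (IntermediateField.adjoin (IntermediateField.adjoin K₀ S).toSubfield {a}).toSubfield := by
  apply le_antisymm
  · refine Subfield.closure_le.2 ?_
    rintro x (⟨y, rfl⟩ | hx | hx)
    · exact (IntermediateField.adjoin (IntermediateField.adjoin K₀ S).toSubfield {a}).algebraMap_mem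
        ⟨algebraMap K₀ L y, (IntermediateField.adjoin K₀ S).algebraMap_mem y⟩
    · exact (IntermediateField.adjoin (IntermediateField.adjoin K₀ S).toSubfield {a}).algebraMap_mem
        ⟨x, IntermediateField.subset_adjoin K₀ S hx⟩
    · exact IntermediateField.subset_adjoin _ _ hx
  · refine Subfield.closure_le.2 ?_
    rintro x (⟨y, rfl⟩ | hx)
    · exact IntermediateField.adjoin.mono K₀ _ _ Set.subset_union_left y.2
    · exact IntermediateField.subset_adjoin _ _ (Or.inr hx)

/-- The degree of the field of the roots. -/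
theorem relfinrank_roots {K₀ L : Type} [Field K₀] [IsAlgClosed K₀] [CharZero K₀] [Field L]
    [Algebra K₀ L] {n : ℕ} (u v : Fin n → L) {m : ℕ} (hm : 0 < m) (hv : ∀ i, v i ^ m = u i) :
    (IntermediateField.adjoin K₀ (Set.range u)).toSubfield ≤
      (IntermediateField.adjoin K₀ (Set.range v)).toSubfield ∧
    (IntermediateField.adjoin K₀ (Set.range u)).toSubfield.relfinrank
      (IntermediateField.adjoin K₀ (Set.range v)).toSubfield ∣ m ^ n := by
  classical
  have : NeZero m := ⟨hm.ne'⟩
  have : NeZero (m : K₀) := ⟨Nat.cast_ne_zero.2 hm.ne'⟩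
  obtain ⟨ζ, hζ⟩ := HasEnoughRootsOfUnity.exists_primitiveRoot K₀ m
  have hζL : IsPrimitiveRoot (algebraMap K₀ L ζ) m := hζ.map_of_injective (algebraMap K₀ L).injective
  have hroot : ∀ (S : Set L) (z : L), z ^ m = 1 → z ∈ (IntermediateField.adjoin K₀ S).toSubfield := by
    intro S z hz
    obtain ⟨i, _, hi⟩ := hζL.eq_pow_of_pow_eq_one hz
    rw [← hi, ← map_pow]
    exact (IntermediateField.adjoin K₀ S).algebraMap_mem _
  have key : ∀ s : Finset (Fin n),
      (IntermediateField.adjoin K₀ (Set.range u)).toSubfield ≤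
        (IntermediateField.adjoin K₀ (Set.range u ∪ v '' s)).toSubfield ∧
      (IntermediateField.adjoin K₀ (Set.range u)).toSubfield.relfinrank
        (IntermediateField.adjoin K₀ (Set.range u ∪ v '' s)).toSubfield ∣ m ^ s.card := by
    intro s
    induction s using Finset.induction_on with
    | empty =>
      rw [Finset.coe_empty, Set.image_empty, Set.union_empty]
      exact ⟨le_rfl, by rw [Subfield.relfinrank_self]; exact one_dvd _⟩
    | insert i s hi ih =>
      have h1 : Set.range u ∪ v '' ↑(insert i s) = (Set.range u ∪ v '' s) ∪ {v i} := by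
        rw [Finset.coe_insert, Set.image_insert_eq, Set.insert_eq, Set.union_comm {v i},
          Set.union_assoc]
      rw [h1, tRoot_insert, Finset.card_insert_of_notMem hi, pow_succ]
      have h2 := tRoot_step (IntermediateField.adjoin K₀ (Set.range u ∪ v '' s)).toSubfield hm
        (hroot _) hζL (v i) (by
          rw [hv i]
          exact IntermediateField.subset_adjoin _ _ (Or.inl ⟨i, rfl⟩))
      refine ⟨ih.1.trans h2.1, ?_⟩
      rw [← Subfield.relfinrank_mul_relfinrank ih.1 h2.1]
      exact mul_dvd_mul ih.2 h2.2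
  have h3 := key Finset.univ
  have h4 : (IntermediateField.adjoin K₀ (Set.range u ∪ v '' (Finset.univ : Finset (Fin n)))) =
      IntermediateField.adjoin K₀ (Set.range v) := by
    rw [Finset.coe_univ, Set.image_univ]
    apply le_antisymm
    · rw [IntermediateField.adjoin_le_iff]
      rintro x (⟨i, rfl⟩ | hx)
      · rw [← hv i]
        exact pow_mem (IntermediateField.subset_adjoin K₀ (Set.range v) (Set.mem_range_self i)) _
      · exact IntermediateField.subset_adjoin _ _ hx
    · exact IntermediateField.adjoin.mono _ _ _ Set.subset_union_right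
  rw [h4, Finset.card_univ, Fintype.card_fin] at h3
  exact h3

end Pool.Agent.DensDeg
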