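import Pool.Agent.DensDeg.TDefs
import Pool.Agent.MultiSpec.Lifts

set_option autoImplicit false

namespace Pool.Agent.DensDeg

open Pool.Agent.MultiSpec

private lemma TWBd_unimodular {E : Type*} [Field E] (V : ValuationSubring E) (x z : E)
    (hxz : x ≠ 0 ∨ z ≠ 0) :
    ∃ m : E, m ≠ 0 ∧ m⁻¹ * x ∈ V ∧ m⁻¹ * z ∈ V ∧ (m⁻¹ * x = 1 ∨ m⁻¹ * z = 1) := by
  by_cases hx : x = 0
  · have hz : z ≠ 0 := hxz.resolve_left (not_not.2 hx)
    refine ⟨z, hz, ?_, ?_, Or.inr (inv_mul_cancel₀ hz)⟩
    · rw [hx, mul_zero]; exact V.zero_mem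
    · rw [inv_mul_cancel₀ hz]; exact V.one_mem
  by_cases hz : z = 0
  · refine ⟨x, hx, ?_, ?_, Or.inl (inv_mul_cancel₀ hx)⟩
    · rw [inv_mul_cancel₀ hx]; exact V.one_mem
    · rw [hz, mul_zero]; exact V.zero_mem
  rcases V.mem_or_inv_mem (z⁻¹ * x) with h | h
  · exact ⟨z, hz, h, by rw [inv_mul_cancel₀ hz]; exact V.one_mem,
      Or.inr (inv_mul_cancel₀ hz)⟩
  · refine ⟨x, hx, by rw [inv_mul_cancel₀ hx]; exact V.one_mem, ?_, Or.inl (inv_mul_cancel₀ hx)⟩
    rw [mul_inv, inv_inv, mul_comm] at h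
    exact h

/-- The sections are bounded by the coordinates of the slot. -/
theorem lift_le {F L : Type} [Field F] [Field L] [CharZero L] [Algebra F L]
    (V : ValuationSubring L) (hV : ∀ a : F, algebraMap F L a ∈ V) {n N : ℕ} (hN : 2 ≤ N)
    (hn : n < N) (D : EDatum N n F) {x z : L} (hxz : x ≠ 0 ∨ z ≠ 0) {q : LiftPt n L}
    (hq : IsLift (D.map (algebraMap F L)) x z q) (l : Fin n) (i : Fin 2) :
    V.valuation (q.s l i) ≤ max (V.valuation x) (V.valuation z) := by
  obtain ⟨m, hm0, hmx, hmz, hm1⟩ := TWBd_unimodular V x z hxz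
  let φ : F →+* V := (algebraMap F L).codRestrict V.toSubring hV
  have hcomp : (D.map φ).map (algebraMap V L) = D.map (algebraMap F L) := by
    rw [EDatum.map_map]
    rfl
  have h2F : (2 : F) ≠ 0 := by
    intro h
    have h1 := congrArg (algebraMap F L) h
    rw [map_ofNat, map_zero] at h1
    exact two_ne_zero h1
  have h2 : IsUnit (2 : V) := by
    have h3 : (2 : F) * (2 : F)⁻¹ = 1 := mul_inv_cancel₀ h2F
    have h4 := congrArg φ h3
    rw [map_mul, map_one, map_ofNat] at h4
    exact IsUnit.of_mul_eq_one _ h4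
  obtain ⟨q', -, hq'⟩ := IsLift.integral (O := V) (F := L) Subtype.val_injective
    (fun y hy => by
      obtain ⟨a, ha⟩ := IsIntegrallyClosed.isIntegral_iff.1 hy
      exact ⟨a, ha⟩) h2 hN hn (D.map φ) (⟨m⁻¹ * x, hmx⟩ : V) (⟨m⁻¹ * z, hmz⟩ : V)
    (by
      rcases hm1 with h | h
      · refine ⟨1, 0, ?_⟩
        have : (⟨m⁻¹ * x, hmx⟩ : V) = 1 := Subtype.ext h
        rw [this]
        ring
      · refine ⟨0, 1, ?_⟩
        have : (⟨m⁻¹ * z, hmz⟩ : V) = 1 := Subtype.ext h
        rw [this]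
        ring) (q.scale m⁻¹)
    (by
      rw [hcomp]
      exact hq.scale hN hn m⁻¹)
  have hs : m⁻¹ * q.s l i ∈ V := by
    have h1 := congrArg (fun r : LiftPt n L => r.s l i) hq'
    have h3 : algebraMap V L (q'.s l i) = m⁻¹ * q.s l i := h1
    rw [← h3]
    exact (q'.s l i).2
  have hle : V.valuation (q.s l i) ≤ V.valuation m := by
    have h1 := (V.valuation_le_one_iff _).mpr hs
    rw [map_mul, map_inv₀] at h1
    have hm : V.valuation m ≠ 0 := (Valuation.ne_zero_iff _).mpr hm0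
    calc V.valuation (q.s l i) = V.valuation m * ((V.valuation m)⁻¹ * V.valuation (q.s l i)) := by
          rw [← mul_assoc, mul_inv_cancel₀ hm, one_mul]
      _ ≤ V.valuation m * 1 := mul_le_mul' le_rfl h1
      _ = V.valuation m := mul_one _
  refine hle.trans ?_
  rcases hm1 with h | h
  · have : m = x := by
      have h1 := congrArg (fun t => m * t) h
      simp only [mul_one, ← mul_assoc, mul_inv_cancel₀ hm0, one_mul] at h1
      exact h1.symm
    rw [this]
    exact le_max_left _ _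
  · have : m = z := by
      have h1 := congrArg (fun t => m * t) h
      simp only [mul_one, ← mul_assoc, mul_inv_cancel₀ hm0, one_mul] at h1
      exact h1.symm
    rw [this]
    exact le_max_right _ _

/-- The generic section is bounded by `|v| ^ (e + 1)`. -/
theorem WT_le {F L : Type} [Field F] [Field L] [CharZero L] [Algebra F L]
    (V : ValuationSubring L) (hV : ∀ a : F, algebraMap F L a ∈ V) {n M N e mu : ℕ}
    (hN : 2 ≤ N) (hn : n < N) (hmu : 0 < mu) (D : Fin M → EDatum N n F) (v : Fin (n + 1) → L)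
    (Lm : L) (x z : Fin M → L) (q : Fin M → LiftPt n L) (c : TIdx n M → L)
    (hc : ∀ i, c i ∈ V) (hxz : ∀ j, x j ≠ 0 ∨ z j ≠ 0)
    (hq : ∀ j, IsLift ((D j).map (algebraMap F L)) (x j) (z j) (q j))
    (hval : HV e mu V v Lm x z) :
    V.valuation (WT mu c v Lm x z q) ≤ vmax (fun i => V.valuation (v i)) ^ (e + 1) := by
  unfold WT
  refine Valuation.map_sum_le _ fun i _ => ?_
  have h1 : V.valuation (c i) ≤ 1 := (V.valuation_le_one_iff _).mpr (hc i)
  have h2 : V.valuation (v i.2.1.1) ≤ vmax (fun i => V.valuation (v i)) :=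
    Finset.le_sup' (fun i => V.valuation (v i)) (Finset.mem_univ _)
  have h3 : V.valuation (∏ j, ((if i.2.1.2 j then x j else z j) ^ (mu - 1) *
      (q j).s i.1 (i.2.2 j))) ≤ ∏ j, max (V.valuation (x j)) (V.valuation (z j)) ^ mu := by
    rw [map_prod]
    refine Finset.prod_le_prod' fun j _ => ?_
    rw [map_mul, map_pow, ← pow_sub_one_mul hmu.ne']
    refine mul_le_mul' (pow_le_pow_left' ?_ _) (lift_le V hV hN hn (D j) (hxz j) (hq j) _ _)
    split_ifs
    · exact le_max_left _ _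
    · exact le_max_right _ _
  rw [map_mul, map_mul, map_mul]
  unfold HV at hval
  calc V.valuation (c i) * (V.valuation (v i.2.1.1) * V.valuation Lm *
        V.valuation (∏ j, ((if i.2.1.2 j then x j else z j) ^ (mu - 1) *
          (q j).s i.1 (i.2.2 j))))
      ≤ 1 * (vmax (fun i => V.valuation (v i)) * V.valuation Lm *
        ∏ j, max (V.valuation (x j)) (V.valuation (z j)) ^ mu) :=
        mul_le_mul' h1 (mul_le_mul' (mul_le_mul' h2 le_rfl) h3)
    _ = vmax (fun i => V.valuation (v i)) ^ (e + 1) := by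
        rw [one_mul, mul_assoc, ← hval, pow_succ, mul_comm]

end Pool.Agent.DensDeg
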