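import Mathlib

set_option autoImplicit false

namespace Pool.Agent.DensDeg

/-- If the Galois group acts on `x` through a character of order dividing `N` then the degree of
`x` divides `N`. -/
theorem finrank_dvd_of_character {K L : Type} [Field K] [Field L] [Algebra K L] [IsGalois K L]
    (x : L) {N : ℕ} (hN : 0 < N) (ξ : (L ≃ₐ[K] L) →* Lˣ) (h1 : ∀ σ, ξ σ ^ N = 1)
    (h2 : ∀ σ, ξ σ = 1 → σ x = x) :
    Module.finrank K (IntermediateField.adjoin K {x}) ∣ N := by
  rw [IntermediateField.finrank_eq_fixingSubgroup_index]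
  have hle : ξ.ker ≤ (IntermediateField.adjoin K {x}).fixingSubgroup := by
    rw [← IntermediateField.le_iff_le, IntermediateField.adjoin_le_iff, Set.singleton_subset_iff]
    intro σ
    exact h2 σ.1 σ.2
  refine (Subgroup.index_dvd_of_le hle).trans ?_
  rw [Subgroup.index_ker]
  have : NeZero N := ⟨hN.ne'⟩
  have hsub : ξ.range ≤ rootsOfUnity N L := by
    rintro _ ⟨σ, rfl⟩
    exact h1 σ
  have : Finite ξ.range := by
    have : Finite (rootsOfUnity N L) := inferInstance
    exact Finite.of_injective (Subgroup.inclusion hsub) (Subgroup.inclusion_injective hsub)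
  have : IsCyclic ξ.range := inferInstance
  rw [← IsCyclic.exponent_eq_card]
  apply Monoid.exponent_dvd_of_forall_pow_eq_one
  rintro ⟨u, hu⟩
  exact Subtype.ext (hsub hu)

end Pool.Agent.DensDeg
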