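import Pool.Agent.DensDeg.TDefs
import Pool.Agent.DensDeg.TOrb

set_option autoImplicit false

namespace Pool.Agent.DensDeg

open Pool.Agent.MultiSpec

private lemma TWOrb_mu {F L : Type} [Field F] [IsAlgClosed F] [CharZero F] [Field L]
    [Algebra F L] {N : ℕ} (hN : 2 ≤ N) {ω : L} (hω : ω ^ N = 1) :
    ∃ a : F, algebraMap F L a = ω := by
  have : NeZero N := ⟨by omega⟩
  have : NeZero (N : F) := ⟨by exact_mod_cast (by omega : N ≠ 0)⟩
  obtain ⟨ζ, hζ⟩ := HasEnoughRootsOfUnity.exists_primitiveRoot F N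
  have hζ' : IsPrimitiveRoot (algebraMap F L ζ) N :=
    hζ.map_of_injective (algebraMap F L).injective
  obtain ⟨i, _, hi⟩ := hζ'.eq_pow_of_pow_eq_one hω
  exact ⟨ζ ^ i, by rw [map_pow, hi]⟩

private lemma TWOrb_uniq {L : Type} [Field L] {α β β' ω₁ ω₂ : L} (h : α ≠ 0 ∨ β ≠ 0)
    (h1 : ω₁ * α = ω₂ * α) (h2 : β' * ω₁ = β) (h3 : β' * ω₂ = β) : ω₁ = ω₂ := by
  rcases h with h | h
  · exact mul_right_cancel₀ h h1
  · have hb : β' ≠ 0 := by
      rintro rfl
      rw [zero_mul] at h2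
      exact h h2.symm
    exact mul_left_cancel₀ hb (h2.trans h3.symm)

private lemma TWOrb_prod {L : Type} [Field L] {n M : ℕ} (mu : ℕ)
    (c : TIdx n M → L) (v : Fin (n + 1) → L) (Lm : L) (x z : Fin M → L)
    (q q' : Fin M → LiftPt n L) (ω : Fin M → L) (hω : ∏ j, ω j = 1)
    (hs : ∀ j l i, (q' j).s l i = ω j ^ (l.val + 1) * (q j).s l i) :
    WT mu c v Lm x z q' = WT mu c v Lm x z q := by
  unfold WT
  refine Finset.sum_congr rfl fun i _ => ?_
  congr 2
  have h1 : ∀ j, (if i.2.1.2 j then x j else z j) ^ (mu - 1) * (q' j).s i.1 (i.2.2 j) =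
      ω j ^ (i.1.val + 1) * ((if i.2.1.2 j then x j else z j) ^ (mu - 1) *
        (q j).s i.1 (i.2.2 j)) := by
    intro j
    rw [hs]
    ring
  simp_rw [h1]
  rw [Finset.prod_mul_distrib, Finset.prod_pow, hω, one_pow, one_mul]

/-- The degree of the generic section over the field of the slots divides `N`. -/
theorem finrank_WT_dvd {F L : Type} [Field F] [IsAlgClosed F] [CharZero F] [Field L]
    [IsAlgClosed L] [Algebra F L] (K₂ : Subfield L) (halg : Algebra.IsAlgebraic K₂ L)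
    (hF : ∀ a : F, algebraMap F L a ∈ K₂) {n M N : ℕ} (hN : 2 ≤ N) (hn : n < N)
    (D : Fin M → EDatum N n F) (mu : ℕ) (v : Fin (n + 1) → L) (Lm : L) (x z : Fin M → L)
    (q : Fin M → LiftPt n L) (c : TIdx n M → L) (hv : ∀ i, v i ∈ K₂) (hL : Lm ∈ K₂)
    (hx : ∀ j, x j ∈ K₂) (hz : ∀ j, z j ∈ K₂) (hY : ∀ j, (q j).Y ∈ K₂) (hc : ∀ i, c i ∈ K₂)
    (hxz : ∀ j, x j ≠ 0 ∨ z j ≠ 0)
    (hq : ∀ j, IsLift ((D j).map (algebraMap F L)) (x j) (z j) (q j)) :
    Module.finrank K₂ (IntermediateField.adjoin K₂ {WT mu c v Lm x z q}) ∣ N := by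
  have : CharZero L := charZero_of_injective_algebraMap (algebraMap F L).injective
  have : CharZero K₂ := (algebraMap K₂ L).charZero
  have : IsAlgClosure K₂ L := ⟨inferInstance, halg⟩
  have hfix : ∀ (σ : L ≃ₐ[K₂] L) (a : L), a ∈ K₂ → σ a = a := fun σ a ha => σ.commutes ⟨a, ha⟩
  have hfixF : ∀ (σ : L ≃ₐ[K₂] L) (a : F), σ (algebraMap F L a) = algebraMap F L a :=
    fun σ a => hfix σ _ (hF a)
  have horb : ∀ (σ : L ≃ₐ[K₂] L) (j : Fin M), ∃ ω : L, ω ^ N = 1 ∧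
      σ (q j).α = ω * (q j).α ∧ σ (q j).β * ω = (q j).β ∧
      ∀ l i, σ ((q j).s l i) = ω ^ (l.val + 1) * (q j).s l i := by
    intro σ j
    have h1 := (hq j).map (σ : L →+* L)
    have hcomp : ((σ : L →+* L).comp (algebraMap F L)) = algebraMap F L := by
      ext a
      exact hfixF σ a
    rw [EDatum.map_map, hcomp] at h1
    have hx' : (σ : L →+* L) (x j) = x j := hfix σ _ (hx j)
    have hz' : (σ : L →+* L) (z j) = z j := hfix σ _ (hz j)
    rw [hx', hz'] at h1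
    exact (hq j).orbit hN hn (hxz j) h1 (hfix σ _ (hY j))
  choose ω hω hα hβ hs using horb
  have hωfix : ∀ (σ τ : L ≃ₐ[K₂] L) (j : Fin M), σ (ω τ j) = ω τ j := by
    intro σ τ j
    obtain ⟨a, ha⟩ := TWOrb_mu (F := F) hN (hω τ j)
    rw [← ha, hfixF]
  have hmul : ∀ (σ τ : L ≃ₐ[K₂] L) (j : Fin M), ω (σ * τ) j = ω σ j * ω τ j := by
    intro σ τ j
    refine TWOrb_uniq (β' := (σ * τ) (q j).β) ((hq j).ne_zero hN (hxz j)) ?_ (hβ _ _) ?_
    · rw [← hα (σ * τ) j, AlgEquiv.mul_apply, hα τ j, map_mul, hωfix, hα σ j]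
      ring
    · rw [AlgEquiv.mul_apply]
      have h1 := congrArg σ (hβ τ j)
      rw [map_mul, hωfix] at h1
      rw [mul_comm (ω σ j), ← mul_assoc, h1, hβ σ j]
  have hω0 : ∀ (σ : L ≃ₐ[K₂] L) (j : Fin M), ω σ j ≠ 0 := by
    intro σ j h
    have h1 := hω σ j
    rw [h, zero_pow (by omega)] at h1
    exact zero_ne_one h1
  let ξ : (L ≃ₐ[K₂] L) →* Lˣ := MonoidHom.mk' (fun σ => ∏ j, Units.mk0 (ω σ j) (hω0 σ j)) (by
    intro σ τ
    rw [← Finset.prod_mul_distrib]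
    refine Finset.prod_congr rfl fun j _ => ?_
    apply Units.ext
    exact hmul σ τ j)
  have hξ : ∀ σ, ((ξ σ : Lˣ) : L) = ∏ j, ω σ j := by
    intro σ
    change ((∏ j, Units.mk0 (ω σ j) (hω0 σ j) : Lˣ) : L) = _
    rw [Units.coe_prod]
    rfl
  refine finrank_dvd_of_character (K := K₂) (L := L) _ (by omega) ξ ?_ ?_
  · intro σ
    apply Units.ext
    rw [Units.val_pow_eq_pow_val, hξ, ← Finset.prod_pow, Units.val_one]
    exact Finset.prod_eq_one fun j _ => hω σ j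
  · intro σ h1
    have h2 : ∏ j, ω σ j = 1 := by rw [← hξ, h1, Units.val_one]
    have h3 : σ (WT mu c v Lm x z q) =
        WT mu c v Lm x z (fun j => (q j).map σ) := by
      unfold WT
      rw [map_sum]
      refine Finset.sum_congr rfl fun i _ => ?_
      rw [map_mul, map_mul, map_mul, map_prod, hfix σ _ (hc i), hfix σ _ (hv _), hfix σ _ hL]
      congr 2
      refine Finset.prod_congr rfl fun j _ => ?_
      rw [map_mul, map_pow]
      split_ifs
      · rw [hfix σ _ (hx j)]; rfl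
      · rw [hfix σ _ (hz j)]; rfl
    rw [h3]
    exact TWOrb_prod mu c v Lm x z q _ (ω σ) h2 (fun j l i => hs σ j l i)

end Pool.Agent.DensDeg
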