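import Pool.Agent.DensDeg.TSlotAll
import Pool.Agent.DensDeg.TWOrb
import Pool.Agent.DensDeg.TWBd
import Pool.Agent.DensDeg.TRoot
import Pool.Agent.DensDeg.TIntDeg

/-!
(II.2): the generic point.
-/

set_option autoImplicit false

namespace Pool.Agent.DensDeg

open Pool.Agent.MultiSpec

set_option linter.unusedVariables false

/-- The degree of an extension of intermediate fields as a relative degree of subfields. -/
private lemma TGen_relfinrank {K₀ L : Type} [Field K₀] [Field L] [Algebra K₀ L]
    (E : IntermediateField K₀ L) (E' : IntermediateField E L) :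
    E.toSubfield ≤ E'.toSubfield ∧
      E.toSubfield.relfinrank E'.toSubfield = Module.finrank E E' := by
  have hle : E.toSubfield ≤ E'.toSubfield := fun y hy => E'.algebraMap_mem ⟨y, hy⟩
  refine ⟨hle, ?_⟩
  rw [Subfield.relfinrank_eq_finrank_of_le hle]
  let i : E.toSubfield ≃+* E :=
    { toFun := fun y => ⟨y.1, y.2⟩
      invFun := fun y => ⟨y.1, y.2⟩
      left_inv := fun y => rfl
      right_inv := fun y => rfl
      map_mul' := fun y z => rfl
      map_add' := fun y z => rfl }
  let j : (Subfield.extendScalars hle) ≃+* E' :=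
    { toFun := fun y => ⟨y.1, y.2⟩
      invFun := fun y => ⟨y.1, y.2⟩
      left_inv := fun y => rfl
      right_inv := fun y => rfl
      map_mul' := fun y z => rfl
      map_add' := fun y z => rfl }
  exact Algebra.finrank_eq_of_equiv_equiv i j (RingHom.ext fun y => rfl)

/-- The degree of an extension of a subfield as a relative degree of subfields. -/
private lemma TGen_relfinrank' {L : Type} [Field L] (E : Subfield L) (E' : IntermediateField E L) :
    E ≤ E'.toSubfield ∧ E.relfinrank E'.toSubfield = Module.finrank E E' := by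
  have hle : E ≤ E'.toSubfield := fun y hy => E'.algebraMap_mem ⟨y, hy⟩
  refine ⟨hle, ?_⟩
  rw [Subfield.relfinrank_eq_finrank_of_le hle]
  let i : E ≃+* E := RingEquiv.refl _
  let j : (Subfield.extendScalars hle) ≃+* E' :=
    { toFun := fun y => ⟨y.1, y.2⟩
      invFun := fun y => ⟨y.1, y.2⟩
      left_inv := fun y => rfl
      right_inv := fun y => rfl
      map_mul' := fun y z => rfl
      map_add' := fun y z => rfl }
  exact Algebra.finrank_eq_of_equiv_equiv i j (RingHom.ext fun y => rfl)

/-- Adjoining elements of a subfield. -/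
private lemma TGen_adjoin_le {K₀ L : Type} [Field K₀] [Field L] [Algebra K₀ L]
    (E : IntermediateField K₀ L) (S : Set L) (K : Subfield L) (hE : E.toSubfield ≤ K)
    (hS : ∀ y ∈ S, y ∈ K) : (IntermediateField.adjoin E S).toSubfield ≤ K := by
  have h : IntermediateField.adjoin E S ≤ K.toIntermediateField fun y => hE y.2 :=
    IntermediateField.adjoin_le_iff.mpr hS
  exact fun y hy => h hy

/-- Algebraicity over a larger field. -/
private lemma TGen_isAlgebraic {K₀ L : Type} [Field K₀] [Field L] [Algebra K₀ L]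
    (E : IntermediateField K₀ L) (K : Subfield L) (hE : E.toSubfield ≤ K)
    (h : Algebra.IsAlgebraic E L) : Algebra.IsAlgebraic K L := by
  refine ⟨fun y => ?_⟩
  obtain ⟨p, hp0, hp⟩ := h.isAlgebraic y
  let φ : E →+* K :=
    { toFun := fun y => ⟨y.1, hE y.2⟩
      map_one' := rfl
      map_zero' := rfl
      map_mul' := fun _ _ => rfl
      map_add' := fun _ _ => rfl }
  refine ⟨p.map φ, (Polynomial.map_ne_zero_iff φ.injective).mpr hp0, ?_⟩
  rw [Polynomial.aeval_def, Polynomial.eval₂_map]
  exact hp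

/-- Values of nonzero integers. -/
private lemma TGen_val_nat {F L : Type} [Field F] [CharZero F] [Field L] [Algebra F L]
    (V : ValuationSubring L) (hV : ∀ a : F, algebraMap F L a ∈ V) (m : ℕ) (hm : m ≠ 0) :
    V.valuation (m : L) = 1 := by
  have h1 : V.valuation (m : L) ≤ 1 := by
    rw [ValuationSubring.valuation_le_one_iff]
    have := hV (m : F)
    rwa [map_natCast] at this
  have h2 : V.valuation ((m : L)⁻¹) ≤ 1 := by
    rw [ValuationSubring.valuation_le_one_iff]
    have := hV ((m : F)⁻¹)
    rwa [map_inv₀, map_natCast] at this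
  have h3 : (m : L) ≠ 0 := by
    intro h
    have h4 : algebraMap F L (m : F) = algebraMap F L 0 := by rw [map_natCast, h, map_zero]
    exact hm (Nat.cast_eq_zero.mp ((algebraMap F L).injective h4))
  rw [map_inv₀] at h2
  have h5 : V.valuation (m : L) ≠ 0 := by
    intro h; exact h3 ((Valuation.zero_iff _).mp h)
  refine le_antisymm h1 ?_
  have := mul_le_mul' (le_refl (V.valuation (m : L))) h2
  rwa [mul_inv_cancel₀ h5, mul_one] at this

/-- The maximum of powers. -/
private lemma TGen_vmax {n : ℕ} {L : Type} [Field L] (V : ValuationSubring L)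
    (u v : Fin (n + 1) → L) {m : ℕ} (hv : ∀ i, v i ^ m = u i) :
    vmax (fun i => V.valuation (v i)) ^ m ≤ vmax (fun i => V.valuation (u i)) := by
  unfold vmax
  obtain ⟨i, -, hi⟩ := Finset.exists_mem_eq_sup' (Finset.univ_nonempty (α := Fin (n + 1)))
    (fun i => V.valuation (v i))
  rw [hi, ← map_pow, hv i]
  exact Finset.le_sup' (fun i => V.valuation (u i)) (Finset.mem_univ i)

private lemma TGen_vmax_le {n : ℕ} {L : Type} [Field L] (V : ValuationSubring L)
    (v : Fin (n + 1) → L) (hv : ∀ i, v i ∈ V) :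
    vmax (fun i => V.valuation (v i)) ≤ 1 :=
  Finset.sup'_le _ _ fun i _ => (ValuationSubring.valuation_le_one_iff _ _).mpr (hv i)


/-- The degree constant. -/
def betaT (n l e Dg M b : ℕ) : ℕ :=
  (e + 1) ^ (n + 1) * (∏ i ∈ (Finset.Icc 1 Dg).filter (fun i => i.Coprime l), i) * b ^ M

private theorem TGen_core {n l e M Dg a mu b : ℕ} (hdec : HasDecomp n l e M Dg)
    (hslot : SlotOK a mu b) (hmu : 0 < mu) (hb : 0 < b)
    (F K₀ : Type) [Field F] [IsAlgClosed F] [CharZero F] [Field K₀] [IsAlgClosed K₀]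
    [Algebra F K₀] {N : ℕ} (hN : 2 ≤ N) (hn : n < N) (D : Fin M → EDatum N n F)
    (hD : ∀ j, GoodD (D j)) (c : TIdx n M → K₀)
    (L : Type) [Field L] [IsAlgClosed L] [Algebra K₀ L] [Algebra F L] [IsScalarTower F K₀ L]
    (u : Fin (n + 1) → L) (hu : AlgebraicIndependent K₀ u)
    (halg : Algebra.IsAlgebraic (IntermediateField.adjoin K₀ (Set.range u)) L) :
    ∃ (v : Fin (n + 1) → L) (Lm : L) (x z : Fin M → L) (q : Fin M → LiftPt n L),
      TPt K₀ D (a * e) mu (Dg * b ^ M) u v Lm x z q ∧
      (∀ V : ValuationSubring L, (∀ a : K₀, algebraMap K₀ L a ∈ V) →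
        V.valuation (WT mu (fun i => algebraMap K₀ L (c i)) v Lm x z q) ≤
          vmax (fun i => V.valuation (u i))) ∧
      Module.finrank (IntermediateField.adjoin K₀ (Set.range u))
        (IntermediateField.adjoin (IntermediateField.adjoin K₀ (Set.range u))
          {WT mu (fun i => algebraMap K₀ L (c i)) v Lm x z q}) ∣
            betaT n l (a * e) Dg M b * N := by
  have : CharZero K₀ := charZero_of_injective_algebraMap (algebraMap F K₀).injective
  have : CharZero L := charZero_of_injective_algebraMap (algebraMap F L).injective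
  -- the roots
  have hroot : ∀ i, ∃ y : L, y ^ (a * e + 1) = u i := fun i =>
    IsAlgClosed.exists_pow_nat_eq (u i) (Nat.succ_pos _)
  choose v hv using hroot
  have hvi : AlgebraicIndependent K₀ v := algebraicIndependent_roots u v (Nat.succ_pos _) hv hu
  obtain ⟨hKuv, hKuvdeg⟩ := relfinrank_roots (K₀ := K₀) u v (Nat.succ_pos (a * e)) hv
  -- the decomposition
  obtain ⟨Lm0, x0, hLm0, hval0, hfd, hfr, hcop⟩ := hdec K₀ L v hvi
  set Kv : IntermediateField K₀ L := IntermediateField.adjoin K₀ (Set.range v) with hKv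
  set K1 : IntermediateField Kv L := IntermediateField.adjoin Kv (insert Lm0 (Set.range x0))
    with hK1
  obtain ⟨hKv1, hKv1deg⟩ := TGen_relfinrank Kv K1
  have hLm0K : Lm0 ∈ K1.toSubfield :=
    IntermediateField.subset_adjoin Kv _ (Set.mem_insert _ _)
  have hx0K : ∀ j, x0 j ∈ K1.toSubfield := fun j =>
    IntermediateField.subset_adjoin Kv _ (Set.mem_insert_of_mem _ (Set.mem_range_self j))
  have hFK : ∀ a : F, algebraMap F L a ∈ Kv.toSubfield := fun a => by
    rw [IsScalarTower.algebraMap_apply F K₀ L]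
    exact Kv.algebraMap_mem _
  have hFK1 : ∀ a : F, algebraMap F L a ∈ K1.toSubfield := fun a => hKv1 (hFK a)
  -- the slots
  obtain ⟨K2, X, Z, Y, lam, hK12, hK12deg, hlam, hlamK, hXK, hZK, hYK, hXZ, hY, hval1⟩ :=
    hslot.all D hD K1.toSubfield hFK1 x0 hx0K
  have hvK2 : Kv.toSubfield ≤ K2 := hKv1.trans hK12
  -- the lifts
  have hlift : ∀ j, ∃ q : LiftPt n L, IsLift ((D j).map (algebraMap F L)) (X j) (Z j) q ∧
      q.Y = Y j := fun j => exists_lift hN hn _ (hXZ j) (hY j)
  choose q hq hqY using hlift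
  have hvK : ∀ i, v i ∈ Kv.toSubfield := fun i =>
    IntermediateField.subset_adjoin K₀ _ (Set.mem_range_self i)
  have hLmK : Lm0 ^ a * lam ∈ K2 := mul_mem (pow_mem (hK12 hLm0K) _) hlamK
  -- the value relation
  have hval : ∀ V : ValuationSubring L, (∀ a : F, algebraMap F L a ∈ V) →
      HV (a * e) mu V v (Lm0 ^ a * lam) X Z := by
    intro V hV
    have h1 := hval0 V (fun m hm => TGen_val_nat V hV m hm)
    have h2 := hval1 V hV
    unfold HV
    rw [mul_comm a e, pow_mul, h1, mul_pow, h2, map_mul, map_pow, mul_assoc]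
  -- degrees
  have hdeg01 : Kv.toSubfield.relfinrank K2 =
      Kv.toSubfield.relfinrank K1.toSubfield * K1.toSubfield.relfinrank K2 :=
    (Subfield.relfinrank_mul_relfinrank hKv1 hK12).symm
  have hbM : 0 < b ^ M := Nat.pow_pos hb
  have hd1 : 0 < Kv.toSubfield.relfinrank K1.toSubfield := by
    rw [hKv1deg]
    exact Module.finrank_pos
  have hd2 : 0 < K1.toSubfield.relfinrank K2 := Nat.pos_of_dvd_of_pos hK12deg hbM
  have hd2' : K1.toSubfield.relfinrank K2 ≤ b ^ M := Nat.le_of_dvd hbM hK12deg
  have hKv2pos : Kv.toSubfield.relfinrank K2 ≠ 0 := by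
    rw [hdeg01]; exact (Nat.mul_pos hd1 hd2).ne'
  have hKv2le : Kv.toSubfield.relfinrank K2 ≤ Dg * b ^ M := by
    rw [hdeg01, hKv1deg]
    exact Nat.mul_le_mul hfr hd2'
  refine ⟨v, Lm0 ^ a * lam, X, Z, q, ⟨hv, mul_ne_zero (pow_ne_zero _ hLm0) hlam, hXZ, hq, hval,
    ?_⟩, ?_, ?_⟩
  · intro eps
    refine exists_monic v hvi _ ?_ K2 hvK2 ?_ hKv2pos hKv2le
    · intro V hV hvV
      have hVF : ∀ a : F, algebraMap F L a ∈ V := fun a => by
        rw [IsScalarTower.algebraMap_apply F K₀ L]; exact hV _
      rw [← ValuationSubring.valuation_le_one_iff, map_mul, map_prod]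
      calc V.valuation (Lm0 ^ a * lam) *
            ∏ j, V.valuation ((if eps j then X j else Z j) ^ mu)
          ≤ V.valuation (Lm0 ^ a * lam) *
            ∏ j, max (V.valuation (X j)) (V.valuation (Z j)) ^ mu := by
            refine mul_le_mul' le_rfl (Finset.prod_le_prod' fun j _ => ?_)
            rw [map_pow]
            refine pow_le_pow_left' ?_ _
            split
            · exact le_max_left _ _
            · exact le_max_right _ _
        _ = vmax (fun i => V.valuation (v i)) ^ (a * e) := (hval V hVF).symm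
        _ ≤ 1 := pow_le_one' (TGen_vmax_le V v hvV) _
    · refine mul_mem hLmK (prod_mem fun j _ => pow_mem ?_ _)
      split
      · exact hXK j
      · exact hZK j
  · intro V hV
    have hVF : ∀ a : F, algebraMap F L a ∈ V := fun a => by
      rw [IsScalarTower.algebraMap_apply F K₀ L]; exact hV _
    exact (WT_le V hVF hN hn hmu D v _ X Z q _ (fun i => hV (c i)) hXZ hq (hval V hVF)).trans
      (TGen_vmax V u v hv)
  · set W : L := WT mu (fun i => algebraMap K₀ L (c i)) v (Lm0 ^ a * lam) X Z q with hW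
    set Ku : IntermediateField K₀ L := IntermediateField.adjoin K₀ (Set.range u) with hKu
    have hKuK2 : Ku.toSubfield ≤ K2 := hKuv.trans hvK2
    have halg2 : Algebra.IsAlgebraic K2 L := TGen_isAlgebraic Ku K2 hKuK2 halg
    have hWdvd : Module.finrank K2 (IntermediateField.adjoin K2 {W}) ∣ N :=
      finrank_WT_dvd K2 halg2 (fun a => hvK2 (hFK a)) hN hn D mu v (Lm0 ^ a * lam) X Z q _
        (fun i => hvK2 (hvK i)) hLmK hXK hZK (fun j => by rw [hqY j]; exact hYK j)
        (fun i => hvK2 (Kv.algebraMap_mem (c i))) hXZ hq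
    obtain ⟨h23, h23deg⟩ := TGen_relfinrank' K2 (IntermediateField.adjoin K2 {W})
    obtain ⟨huW, huWdeg⟩ := TGen_relfinrank Ku (IntermediateField.adjoin Ku {W})
    have hW3 : (IntermediateField.adjoin Ku {W}).toSubfield ≤
        (IntermediateField.adjoin K2 {W}).toSubfield := by
      refine TGen_adjoin_le Ku {W} _ (hKuK2.trans h23) ?_
      rintro y rfl
      exact IntermediateField.mem_adjoin_simple_self K2 _
    rw [← huWdeg]
    refine (Dvd.intro _ (Subfield.relfinrank_mul_relfinrank huW hW3)).trans ?_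
    rw [← Subfield.relfinrank_mul_relfinrank hKuK2 h23,
      ← Subfield.relfinrank_mul_relfinrank hKuv hvK2, hdeg01]
    unfold betaT
    rw [h23deg, ← mul_assoc]
    refine mul_dvd_mul (mul_dvd_mul (mul_dvd_mul hKuvdeg ?_) hK12deg) hWdvd
    refine Finset.dvd_prod_of_mem (fun i : ℕ => i) ?_
    rw [Finset.mem_filter, Finset.mem_Icc]
    rw [hKv1deg] at hd1 ⊢
    exact ⟨⟨hd1, hfr⟩, hcop⟩


/-- The fraction field of a polynomial ring is generated by the variables. -/
private lemma TGen_mem_adjoin {K₀ L R : Type} [Field K₀] [Field L] [Field R]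
    [Algebra K₀ L] [Algebra R L] {n : ℕ} [Algebra (MvPolynomial (Fin n) K₀) R]
    [IsFractionRing (MvPolynomial (Fin n) K₀) R]
    (hC : ∀ a : K₀, algebraMap R L (algebraMap (MvPolynomial (Fin n) K₀) R (MvPolynomial.C a)) =
      algebraMap K₀ L a) (r : R) :
    algebraMap R L r ∈ IntermediateField.adjoin K₀ (Set.range fun i : Fin n =>
      algebraMap R L (algebraMap (MvPolynomial (Fin n) K₀) R (MvPolynomial.X i))) := by
  have hp : ∀ p : MvPolynomial (Fin n) K₀,
      algebraMap R L (algebraMap (MvPolynomial (Fin n) K₀) R p) ∈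
        IntermediateField.adjoin K₀ (Set.range fun i : Fin n =>
          algebraMap R L (algebraMap (MvPolynomial (Fin n) K₀) R (MvPolynomial.X i))) := by
    intro p
    induction p using MvPolynomial.induction_on with
    | C a => rw [hC]; exact IntermediateField.algebraMap_mem _ _
    | add p q hp hq => rw [map_add, map_add]; exact add_mem hp hq
    | mul_X p i hp =>
      rw [map_mul, map_mul]
      exact mul_mem hp (IntermediateField.subset_adjoin _ _ (Set.mem_range_self i))
  obtain ⟨p, q, -, rfl⟩ := IsFractionRing.div_surjective (MvPolynomial (Fin n) K₀) r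
  rw [map_div₀]
  exact div_mem (hp p) (hp q)

private lemma TGen_alg {K₀ L R : Type} [Field K₀] [Field L] [Field R]
    [Algebra K₀ L] [Algebra R L] {n : ℕ} [Algebra (MvPolynomial (Fin n) K₀) R]
    [IsFractionRing (MvPolynomial (Fin n) K₀) R]
    (hC : ∀ a : K₀, algebraMap R L (algebraMap (MvPolynomial (Fin n) K₀) R (MvPolynomial.C a)) =
      algebraMap K₀ L a) (h : Algebra.IsAlgebraic R L) :
    Algebra.IsAlgebraic (IntermediateField.adjoin K₀ (Set.range fun i : Fin n =>
      algebraMap R L (algebraMap (MvPolynomial (Fin n) K₀) R (MvPolynomial.X i)))) L := by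
  refine ⟨fun y => ?_⟩
  obtain ⟨p, hp0, hp⟩ := h.isAlgebraic y
  let φ : R →+* (IntermediateField.adjoin K₀ (Set.range fun i : Fin n =>
      algebraMap R L (algebraMap (MvPolynomial (Fin n) K₀) R (MvPolynomial.X i)))) :=
    { toFun := fun r => ⟨algebraMap R L r, TGen_mem_adjoin hC r⟩
      map_one' := Subtype.ext (map_one _)
      map_zero' := Subtype.ext (map_zero _)
      map_mul' := fun _ _ => Subtype.ext (map_mul _ _ _)
      map_add' := fun _ _ => Subtype.ext (map_add _ _ _) }
  refine ⟨p.map φ, (Polynomial.map_ne_zero_iff φ.injective).mpr hp0, ?_⟩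
  rw [Polynomial.aeval_def, Polynomial.eval₂_map]
  exact hp

private lemma TGen_indep {K₀ L R : Type} [Field K₀] [Field L] [Field R]
    [Algebra K₀ L] [Algebra R L] {n : ℕ} [Algebra (MvPolynomial (Fin n) K₀) R]
    [IsFractionRing (MvPolynomial (Fin n) K₀) R]
    (hC : ∀ a : K₀, algebraMap R L (algebraMap (MvPolynomial (Fin n) K₀) R (MvPolynomial.C a)) =
      algebraMap K₀ L a) :
    AlgebraicIndependent K₀ (fun i : Fin n =>
      algebraMap R L (algebraMap (MvPolynomial (Fin n) K₀) R (MvPolynomial.X i))) := by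
  have key : ∀ p : MvPolynomial (Fin n) K₀, MvPolynomial.aeval (fun i : Fin n =>
      algebraMap R L (algebraMap (MvPolynomial (Fin n) K₀) R (MvPolynomial.X i))) p =
      algebraMap R L (algebraMap (MvPolynomial (Fin n) K₀) R p) := by
    intro p
    induction p using MvPolynomial.induction_on with
    | C a => rw [MvPolynomial.aeval_C, hC]
    | add p q hp hq => rw [map_add, map_add, map_add, hp, hq]
    | mul_X p i hp => rw [map_mul, map_mul, map_mul, hp, MvPolynomial.aeval_X]
  intro p q hpq
  rw [key, key] at hpq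
  exact IsFractionRing.injective (MvPolynomial (Fin n) K₀) R ((algebraMap R L).injective hpq)

private theorem TGen_exists (K₀ : Type) [Field K₀] (n : ℕ) :
    ∃ (L : Type) (_ : Field L) (_ : IsAlgClosed L) (_ : Algebra K₀ L)
      (u : Fin n → L), AlgebraicIndependent K₀ u ∧
      Algebra.IsAlgebraic (IntermediateField.adjoin K₀ (Set.range u)) L := by
  have hC : ∀ a : K₀, algebraMap (FractionRing (MvPolynomial (Fin n) K₀))
      (AlgebraicClosure (FractionRing (MvPolynomial (Fin n) K₀)))
      (algebraMap (MvPolynomial (Fin n) K₀) (FractionRing (MvPolynomial (Fin n) K₀))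
      (MvPolynomial.C a)) =
      algebraMap K₀ (AlgebraicClosure (FractionRing (MvPolynomial (Fin n) K₀))) a := fun a => by
    rw [IsScalarTower.algebraMap_apply K₀ (FractionRing (MvPolynomial (Fin n) K₀))
      (AlgebraicClosure (FractionRing (MvPolynomial (Fin n) K₀))),
      IsScalarTower.algebraMap_apply K₀ (MvPolynomial (Fin n) K₀)
      (FractionRing (MvPolynomial (Fin n) K₀)), MvPolynomial.algebraMap_eq]
  exact ⟨AlgebraicClosure (FractionRing (MvPolynomial (Fin n) K₀)), inferInstance, inferInstance,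
    inferInstance, _, TGen_indep hC, TGen_alg hC inferInstance⟩

/-- **The generic point.** -/
theorem exists_gen {n l e M Dg a mu b : ℕ} (hdec : HasDecomp n l e M Dg)
    (hslot : SlotOK a mu b) (he : 0 < e) (ha : 0 < a) (hmu : 0 < mu) (hb : 0 < b)
    (F K₀ : Type) [Field F] [IsAlgClosed F] [CharZero F] [Field K₀] [IsAlgClosed K₀]
    [Algebra F K₀] {N : ℕ} (hN : 2 ≤ N) (hn : n < N) (D : Fin M → EDatum N n F)
    (hD : ∀ j, GoodD (D j)) (c : TIdx n M → K₀) :
    ∃ (L : Type) (_ : Field L) (_ : IsAlgClosed L) (_ : Algebra K₀ L) (_ : Algebra F L)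
      (_ : IsScalarTower F K₀ L) (u v : Fin (n + 1) → L) (Lm : L) (x z : Fin M → L)
      (q : Fin M → LiftPt n L), AlgebraicIndependent K₀ u ∧
      Algebra.IsAlgebraic (IntermediateField.adjoin K₀ (Set.range u)) L ∧
      TPt K₀ D (a * e) mu (Dg * b ^ M) u v Lm x z q ∧
      (∀ V : ValuationSubring L, (∀ a : K₀, algebraMap K₀ L a ∈ V) →
        V.valuation (WT mu (fun i => algebraMap K₀ L (c i)) v Lm x z q) ≤
          vmax (fun i => V.valuation (u i))) ∧
      Module.finrank (IntermediateField.adjoin K₀ (Set.range u))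
        (IntermediateField.adjoin (IntermediateField.adjoin K₀ (Set.range u))
          {WT mu (fun i => algebraMap K₀ L (c i)) v Lm x z q}) ∣
            betaT n l (a * e) Dg M b * N := by
  obtain ⟨L, i1, i2, i3, u, hu, halg⟩ := TGen_exists K₀ (n + 1)
  let i4 : Algebra F L := ((algebraMap K₀ L).comp (algebraMap F K₀)).toAlgebra
  have i5 : IsScalarTower F K₀ L := IsScalarTower.of_algebraMap_eq fun _ => rfl
  obtain ⟨v, Lm, x, z, q, h1, h2, h3⟩ :=
    TGen_core hdec hslot hmu hb F K₀ hN hn D hD c L u hu halg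
  exact ⟨L, i1, i2, i3, i4, i5, u, v, Lm, x, z, q, hu, halg, h1, h2, h3⟩

end Pool.Agent.DensDeg
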