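import Pool.Agent.DensDeg.TForms
import Pool.Agent.MultiSpec.AsFinal

/-!
Theorem T.
-/

set_option autoImplicit false

namespace Pool.Agent.DensDeg

open Pool.Agent.MultiSpec Pool.Agent.CurveDeg MvPolynomial

/-- The modulus `1`. -/
theorem hasSpecial_one (n r : ℕ) (d : Fin r → ℕ) : HasSpecial n r d 1 := by
  refine ⟨ℚ, inferInstance, inferInstance, inferInstance, fun i => X (ww n r i) ^ d i,
    fun i => ?_, ?_⟩
  · have := (isHomogeneous_X ℚ (ww n r i)).pow (d i)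
    rw [one_mul] at this
    exact this
  · intro κ _ _ _ _ P _ _ _ e _
    rw [Nat.cast_one]
    exact one_dvd _

/-- Elements of the closure are combinations. -/
lemma exists_comb (S : Finset ℕ) (β : ℕ → ℕ) {t : ℕ}
    (ht : t ∈ AddSubmonoid.closure (β '' (S : Set ℕ))) : ∃ s : ℕ → ℕ, t = ∑ l ∈ S, s l * β l := by
  classical
  induction ht using AddSubmonoid.closure_induction with
  | mem x hx =>
    obtain ⟨l, hl, rfl⟩ := hx
    refine ⟨fun l' => if l' = l then 1 else 0, ?_⟩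
    rw [Finset.sum_eq_single l]
    · simp
    · intro l' _ hne
      show (if l' = l then 1 else 0) * β l' = 0
      rw [if_neg hne, zero_mul]
    · intro h
      exact absurd (Finset.mem_coe.1 hl) h
  | zero => exact ⟨fun _ => 0, by simp⟩
  | add x y _ _ hx hy =>
    obtain ⟨s, rfl⟩ := hx
    obtain ⟨s', rfl⟩ := hy
    refine ⟨fun l => s l + s' l, ?_⟩
    rw [← Finset.sum_add_distrib]
    exact Finset.sum_congr rfl fun l _ => by ring

lemma dvd_of_mul {N c : ℕ} (hN : 0 < N) {e : ℤ} (h : (N : ℤ) ∣ c * e) :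
    ((N / Nat.gcd N c : ℕ) : ℤ) ∣ e := by
  have hg : 0 < Nat.gcd N c := Nat.gcd_pos_of_pos_left _ hN
  have h1 : N ∣ c * e.natAbs := by
    have h2 := Int.natAbs_dvd_natAbs.2 h
    rwa [Int.natAbs_mul, Int.natAbs_natCast, Int.natAbs_natCast] at h2
  have h3 : N / Nat.gcd N c ∣ (c / Nat.gcd N c) * e.natAbs := by
    obtain ⟨t, ht⟩ := h1
    refine ⟨t, ?_⟩
    apply Nat.eq_of_mul_eq_mul_left hg
    calc Nat.gcd N c * (c / Nat.gcd N c * e.natAbs)
        = (Nat.gcd N c * (c / Nat.gcd N c)) * e.natAbs := by ring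
      _ = c * e.natAbs := by rw [Nat.mul_div_cancel' (Nat.gcd_dvd_right N c)]
      _ = N * t := ht
      _ = (Nat.gcd N c * (N / Nat.gcd N c)) * t := by
          rw [Nat.mul_div_cancel' (Nat.gcd_dvd_left N c)]
      _ = _ := by ring
  have h4 : N / Nat.gcd N c ∣ e.natAbs :=
    (Nat.coprime_div_gcd_div_gcd hg).dvd_of_dvd_mul_left h3
  exact Int.natCast_dvd.2 h4

/-- Special forms for prime powers small compared with one degree. -/
theorem hasSpecial_T (n : ℕ) (hn : 0 < n) : ∃ c : ℕ, 0 < c ∧ ∀ (r : ℕ) (d : Fin r → ℕ) (k : Fin r)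
    (p a : ℕ), p.Prime → p ^ a ∣ d k → c * p ^ a ≤ d k →
      HasSpecial n r d (p ^ a / Nat.gcd (p ^ a) c) := by
  classical
  have h : ∀ l : ℕ, ∃ β C : ℕ, l.Prime → (0 < β ∧ l.Coprime β ∧ 0 < C ∧
      ∀ (p a : ℕ), p.Prime → 0 < a → 2 < p ^ a → n < p ^ a →
      ∀ (k : Type) [Field k] [IsAlgClosed k] [CharZero k] [Countable k],
        ∃ (K₀ : Type) (_ : Field K₀) (_ : IsAlgClosed K₀) (_ : CharZero K₀) (_ : Countable K₀)
          (_ : Algebra k K₀) (G : MvPolynomial (Option (Fin (n + 1))) K₀),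
          G.IsHomogeneous (β * p ^ a) ∧ GoodForm n K₀ (p ^ a) (Nat.factorial n) C G) := by
    intro l
    by_cases hl : l.Prime
    · obtain ⟨β, C, h⟩ := exists_goodForm n l hn hl
      exact ⟨β, C, fun _ => h⟩
    · exact ⟨0, 0, fun h' => absurd h' hl⟩
  choose β C hβC using h
  set S : Finset ℕ := insert 2 (β 2).primeFactors with hS
  have hSp : ∀ l ∈ S, l.Prime := by
    intro l hl
    rcases Finset.mem_insert.1 hl with rfl | hl
    · exact Nat.prime_two
    · exact Nat.prime_of_mem_primeFactors hl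
  have hgcd : Nat.setGcd (β '' (S : Set ℕ)) = 1 := by
    by_contra hne
    obtain ⟨q, hq, hqd⟩ := Nat.exists_prime_and_dvd hne
    have h1 : ∀ l ∈ S, q ∣ β l := fun l hl =>
      hqd.trans (Nat.setGcd_dvd_of_mem ⟨l, Finset.mem_coe.2 hl, rfl⟩)
    have h2 : q ∈ S := by
      rw [hS]
      refine Finset.mem_insert_of_mem (Nat.mem_primeFactors.2 ⟨hq, h1 2 (by simp [hS]), ?_⟩)
      exact (hβC 2 Nat.prime_two).1.ne'
    have h3 := (hβC q hq).2.1
    exact hq.one_lt.ne' (Nat.eq_one_of_dvd_coprimes h3 dvd_rfl (h1 q h2))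
  obtain ⟨n₀, hn₀⟩ := Nat.exists_mem_closure_of_ge (β '' (S : Set ℕ))
  set P := ∏ l ∈ S, C l with hP
  have hPpos : 0 < P := Finset.prod_pos fun l hl => (hβC l (hSp l hl)).2.2.1
  set c := (Nat.factorial (n + 2) * (n₀ + 1)) * (Nat.factorial n * P) with hc
  have hcpos : 0 < c := Nat.mul_pos (Nat.mul_pos (Nat.factorial_pos _) (Nat.succ_pos _))
    (Nat.mul_pos (Nat.factorial_pos _) hPpos)
  refine ⟨c, hcpos, fun r d k p a hp hdvd hle => ?_⟩
  have hN0 : 0 < p ^ a := pow_pos hp.pos a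
  by_cases hsmall : p ^ a ≤ n + 2
  · have h1 : p ^ a ∣ c := ((Nat.dvd_factorial hN0 hsmall).mul_right _).mul_right _
    rw [Nat.gcd_eq_left h1, Nat.div_self hN0]
    exact hasSpecial_one n r d
  · have hN2 : 2 < p ^ a := by omega
    have hnN : n < p ^ a := by omega
    have ha : 0 < a := by
      rcases Nat.eq_zero_or_pos a with h | h
      · rw [h, pow_zero] at hN2; omega
      · exact h
    obtain ⟨t, ht⟩ := hdvd
    have hct : c ≤ t := by
      rw [ht, mul_comm c] at hle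
      exact Nat.le_of_mul_le_mul_left hle hN0
    have hn₀t : n₀ ≤ t := by
      refine le_trans ?_ hct
      calc n₀ ≤ n₀ + 1 := Nat.le_succ _
        _ ≤ Nat.factorial (n + 2) * (n₀ + 1) := Nat.le_mul_of_pos_left _ (Nat.factorial_pos _)
        _ ≤ c := Nat.le_mul_of_pos_right _ (Nat.mul_pos (Nat.factorial_pos _) hPpos)
    obtain ⟨s, hs⟩ := exists_comb S β (hn₀ t hn₀t (by rw [hgcd]; exact one_dvd t))
    obtain ⟨K₀, _, _, _, _, G, hG⟩ := exists_forms (n := n) (N := p ^ a) (g := Nat.factorial n) β C S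
      fun l hl => (hβC l (hSp l hl)).2.2.2 p a hp ha hN2 hnN
    refine hasSpecial_of_good β C S K₀ G hG d k s (by rw [ht, hs]; ring) _ fun e he => ?_
    refine dvd_of_mul hN0 ?_
    have h1 : ((c : ℕ) : ℤ) * e = (Nat.factorial (n + 2) * (n₀ + 1) : ℕ) *
        ((Nat.factorial n : ℕ) * (P : ℕ) * e) := by
      rw [hc]; push_cast; ring
    rw [h1]
    exact he.mul_left _

/-- **Theorem T.**  For every `n` there is `c` such that off countably many proper closed sets the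
degree `e` of every curve on the complete intersection of type `d` and dimension `n` satisfies:
`p ^ a ∣ c e` whenever the prime power `p ^ a` divides `d k` and `c p ^ a ≤ d k`; and
`p ^ ∑ a i ∣ e` whenever `p > n` is an odd prime and for every `i` with `a i ≠ 0`
either `2 ^ n n! p ^ a i` divides `d i`, or `p ^ a i` divides `d i` and
`2 ^ n n! p ^ (n a i) ≤ d i`. -/
theorem main_T (n : ℕ) : ∃ c : ℕ, 0 < c ∧ ∀ (r : ℕ) (d : Fin r → ℕ),
    ∃ bad : ℕ → MvPolynomial (Σ i : Fin r, {m : Fin (n + r + 1) →₀ ℕ // m.degree = d i}) ℂ,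
      (∀ j, bad j ≠ 0) ∧
      ∀ f : Fin r → MvPolynomial (Fin (n + r + 1)) ℂ,
        (∀ i, f i ∈ homogeneousSubmodule (Fin (n + r + 1)) ℂ (d i)) →
        (∀ j, eval (fun x => coeff x.2.1 (f x.1)) (bad j) ≠ 0) →
        ∀ I : Ideal (MvPolynomial (Fin (n + r + 1)) ℂ), Homog I → I.IsPrime →
          ringKrullDim (MvPolynomial (Fin (n + r + 1)) ℂ ⧸ I) = 2 →
          (∀ i, f i ∈ I) →
          ∃ e : ℕ, (∃ K : ℕ, ∀ k : ℕ, K ≤ k → hilb I (k + 1) = hilb I k + e) ∧
            (∀ (k : Fin r) (p a : ℕ), p.Prime → p ^ a ∣ d k → c * p ^ a ≤ d k →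
              p ^ a ∣ c * e) ∧
            ∀ (p : ℕ) (a : Fin r → ℕ), p.Prime → p ≠ 2 → n < p →
              (∀ i, a i = 0 ∨ 2 ^ n * Nat.factorial n * p ^ a i ∣ d i ∨
                (p ^ a i ∣ d i ∧ 2 ^ n * Nat.factorial n * (p ^ a i) ^ n ≤ d i)) →
              p ^ (∑ i, a i) ∣ e := by
  obtain ⟨c, hc, hT⟩ : ∃ c : ℕ, 0 < c ∧ ∀ (r : ℕ) (d : Fin r → ℕ) (k : Fin r)
      (p a : ℕ), p.Prime → p ^ a ∣ d k → c * p ^ a ≤ d k →
        HasSpecial n r d (p ^ a / Nat.gcd (p ^ a) c) := by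
    rcases Nat.eq_zero_or_pos n with h0 | hn
    · subst h0
      exact ⟨1, one_pos, fun r d _ _ _ _ _ _ => hasSpecial_zero r d _⟩
    · exact hasSpecial_T n hn
  refine ⟨c, hc, fun r d => ?_⟩
  obtain ⟨bad, h1, h2⟩ := main_of_special n r d
  refine ⟨bad, h1, fun f hf hb I hI hIp hdim hfI => ?_⟩
  obtain ⟨e, he, h3⟩ := h2 f hf hb I hI hIp hdim hfI
  refine ⟨e, he, fun k p a hp hdvd hle => ?_, fun p a hp hp2 hnp hd =>
    h3 _ (hasSpecial hp hp2 hnp a d hd)⟩
  have h4 := h3 _ (hT r d k p a hp hdvd hle)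
  calc p ^ a = Nat.gcd (p ^ a) c * (p ^ a / Nat.gcd (p ^ a) c) :=
        (Nat.mul_div_cancel' (Nat.gcd_dvd_left _ _)).symm
    _ ∣ c * e := mul_dvd_mul (Nat.gcd_dvd_right _ _) h4

end Pool.Agent.DensDeg
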