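import Pool.Agent.DensDeg.TDefs

set_option autoImplicit false

namespace Pool.Agent.DensDeg

open Pool.Agent.MultiSpec

/-- The slot lemma for all slots. -/
theorem SlotOK.all {a mu b : ℕ} (h : SlotOK a mu b) {F L : Type} [Field F] [IsAlgClosed F]
    [CharZero F] [Field L] [IsAlgClosed L] [Algebra F L] {N n M : ℕ}
    (D : Fin M → EDatum N n F) (hD : ∀ j, GoodD (D j)) (K : Subfield L)
    (hF : ∀ a : F, algebraMap F L a ∈ K) (x : Fin M → L) (hx : ∀ j, x j ∈ K) :
    ∃ (K' : Subfield L) (X Z Y : Fin M → L) (lam : L), K ≤ K' ∧ K.relfinrank K' ∣ b ^ M ∧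
      lam ≠ 0 ∧ lam ∈ K' ∧ (∀ j, X j ∈ K') ∧ (∀ j, Z j ∈ K') ∧ (∀ j, Y j ∈ K') ∧
      (∀ j, X j ≠ 0 ∨ Z j ≠ 0) ∧
      (∀ j, Y j ^ 2 = ev (X j) (Z j) ((D j).map (algebraMap F L)).F) ∧
      ∀ V : ValuationSubring L, (∀ a : F, algebraMap F L a ∈ V) →
        (∏ j, max (V.valuation (x j)) 1) ^ a =
          V.valuation lam * ∏ j, max (V.valuation (X j)) (V.valuation (Z j)) ^ mu := by
  induction M with
  | zero =>
    refine ⟨K, Fin.elim0, Fin.elim0, Fin.elim0, 1, le_rfl, ?_, one_ne_zero, K.one_mem,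
      fun j => j.elim0, fun j => j.elim0, fun j => j.elim0, fun j => j.elim0,
      fun j => j.elim0, fun V _ => ?_⟩
    · rw [Subfield.relfinrank_self]; simp
    · simp
  | succ M ih =>
    obtain ⟨K', X, Z, Y, lam, hKK', hdvd, hlam, hlamK, hX, hZ, hY, hXZ, hYF, hval⟩ :=
      ih (fun j => D j.castSucc) (fun j => hD _) (fun j => x j.castSucc) (fun j => hx _)
    obtain ⟨ht, hc, hct⟩ := hD (Fin.last M)
    obtain ⟨K'', X0, Z0, lam0, Y0, hK'K'', hdeg, hX0, hZ0, hlam0K, hY0, hXZ0, hlam0, hY0F,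
      hval0⟩ := h F L (D (Fin.last M)).t (D (Fin.last M)).c₀ (D (Fin.last M)).c₁ ht hc hct K'
        (fun a => hKK' (hF a)) (x (Fin.last M)) (hKK' (hx _))
    refine ⟨K'', Fin.snoc X X0, Fin.snoc Z Z0, Fin.snoc Y Y0, lam * lam0, hKK'.trans hK'K'', ?_,
      mul_ne_zero hlam hlam0, K''.mul_mem (hK'K'' hlamK) hlam0K, ?_, ?_, ?_, ?_, ?_, ?_⟩
    · rw [← Subfield.relfinrank_mul_relfinrank hKK' hK'K'', pow_succ]
      refine mul_dvd_mul hdvd ?_
      rcases hdeg with h1 | h1
      · rw [h1]; exact one_dvd _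
      · rw [h1]
    · intro j
      refine Fin.lastCases ?_ (fun j => ?_) j
      · simpa using hX0
      · simpa using hK'K'' (hX j)
    · intro j
      refine Fin.lastCases ?_ (fun j => ?_) j
      · simpa using hZ0
      · simpa using hK'K'' (hZ j)
    · intro j
      refine Fin.lastCases ?_ (fun j => ?_) j
      · simpa using hY0
      · simpa using hK'K'' (hY j)
    · intro j
      refine Fin.lastCases ?_ (fun j => ?_) j
      · simpa using hXZ0
      · simpa using hXZ j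
    · intro j
      refine Fin.lastCases ?_ (fun j => ?_) j
      · rw [Fin.snoc_last, Fin.snoc_last, Fin.snoc_last]
        exact hY0F
      · simpa using hYF j
    · intro V hV
      rw [Fin.prod_univ_castSucc, Fin.prod_univ_castSucc, mul_pow, hval V hV, hval0 V hV, map_mul]
      simp only [Fin.snoc_castSucc, Fin.snoc_last]
      rw [mul_mul_mul_comm]

end Pool.Agent.DensDeg
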